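import Mathlib
import Pool.Agent.Lib.MP_f9aece_nt_ms.Defs
import Pool.Agent.Lib.MP_f9aece_nt_ms.StmtsZ

/-!
Moments of zeta averaged over mesoscopic windows: definitions for the limit of the rough part,
the main term and the final theorem.
-/

set_option autoImplicit false

namespace Pool.Agent.Lib.MT

open MeasureTheory Set Filter Topology Complex
open scoped ComplexConjugate
open Pool.Agent.Lib.MP_f9aece_nt (DP pair BK K1 ev PP VV Smo expo)
open Pool.Agent.Lib.MP_f9aece_nt_h85 (Rst)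
open Pool.Agent.Lib.MP_f9aece_nt_h97 (Psm Dsm evs)
open Pool.Agent.Lib.NL (pt)
open Pool.Agent.Lib.J4 (En V2)
open Pool.Agent.Lib.MS (Len MVP Par RW TZ Cut)

/-! ### complex cut-off functions -/

/-- complex cut-off functions -/
structure CutC (B Lam : ℝ) (w : ℝ → ℂ) : Prop where
  bd : ∀ x, ‖w x‖ ≤ B
  lip : ∀ x y, ‖w x - w y‖ ≤ Lam * |x - y|
  zero : ∀ x, 1 ≤ x → w x = 0

/-- the smoothed sum over the integers up to `e^L` without prime factor in `(p0, e^Y]`, at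
`1/2 + i t`, with a complex weight -/
noncomputable def SW (w : ℝ → ℂ) (p0 : ℕ) (Y L t : ℝ) : ℂ :=
  ev t (RW (fun x => (w x).re) p0 Y L) + I * ev t (RW (fun x => (w x).im) p0 Y L)

/-! ### measures -/

/-- the mean value property of a probability measure, for polynomials of length at most `X` over
the integers all of whose prime factors exceed `e^Y` -/
structure MVR (ν : Measure ℝ) (Y X η : ℝ) : Prop where
  prob : IsProbabilityMeasure ν
  mv : ∀ P Q : DP, (∀ n, P.coeff n ≠ 0 → n ∈ Smo (Rst 0 Y) ∧ (n : ℝ) ≤ X) →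
    (∀ n, Q.coeff n ≠ 0 → n ∈ Smo (Rst 0 Y) ∧ (n : ℝ) ≤ X) →
    ‖∫ t, ev t P * conj (ev t Q) ∂ν - ((BK K1 P Q : ℝ) : ℂ)‖ ≤ η * Real.sqrt (En P * En Q)

/-- `g` is the limit of the mean of `|R|^(2k)`, `R` the smoothed sum over the integers up to
`e^(KY)` all of whose prime factors exceed `e^Y` -/
def Dec (k : ℝ) (w : ℝ → ℂ) (K g : ℝ) : Prop := ∀ ε : ℝ, 0 < ε → ∃ N : ℝ, 1 ≤ N ∧
  ∀ (ν : Measure ℝ) (Y X η : ℝ), N ≤ Y → Real.exp (N * Y) ≤ X → 0 ≤ η → η * N ≤ 1 → MVR ν Y X η →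
  |∫ t, ‖SW w 0 Y (K * Y) t‖ ^ (2 * k) ∂ν - g| ≤ ε

/-! ### blocks of primes in `(e^Y, e^(KY)]` -/

/-- the mesh of `[1, K]` -/
noncomputable def uj (K : ℝ) (m j : ℕ) : ℝ := 1 + (K - 1) * j / m

/-- the block number `j` -/
noncomputable def Bl (K : ℝ) (m : ℕ) (Y : ℝ) (j : ℕ) : Finset ℕ :=
  (Finset.Icc 1 ⌊Real.exp (K * Y)⌋₊).filter fun p =>
    p.Prime ∧ Y * uj K m j < Real.log p ∧ Real.log p ≤ Y * uj K m (j + 1)

/-- limit of the sum of the reciprocals of a block -/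
noncomputable def sg (K : ℝ) (m j : ℕ) : ℝ := Real.log (uj K m (j + 1) / uj K m j)

/-- the polynomial in the block sums which approximates the rough part -/
noncomputable def PM (w : ℝ → ℂ) (K : ℝ) (m : ℕ) (z : Fin m → ℂ) : ℂ :=
  ∑ r ∈ Finset.range (⌊K⌋₊ + 1), ((r.factorial : ℂ))⁻¹ *
    ∑ j : Fin r → Fin m, w ((∑ i, uj K m (j i)) / K) * ∏ i, z (j i)

/-- the same as a Dirichlet polynomial, for a real weight -/
noncomputable def PD (u : ℝ → ℝ) (K : ℝ) (m : ℕ) (Y : ℝ) : DP :=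
  ∑ r ∈ Finset.range (⌊K⌋₊ + 1), ((r.factorial : ℝ))⁻¹ •
    ∑ j : Fin r → Fin m, u ((∑ i, uj K m (j i)) / K) • ∏ i, PP (Bl K m Y (j i))

/-- the block sums -/
noncomputable def GB (K : ℝ) (m : ℕ) (Y t : ℝ) (j : Fin m) : ℂ := ev t (PP (Bl K m Y j))

/-! ### complex Gaussian vectors -/

/-- centered complex Gaussian measure, real and imaginary parts independent of variance `s` -/
noncomputable def cgm (s : ℝ) : Measure ℂ :=
  ((ProbabilityTheory.gaussianReal 0 s.toNNReal).prod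
    (ProbabilityTheory.gaussianReal 0 s.toNNReal)).map fun p => (p.1 : ℂ) + I * p.2

/-- vector of independent complex Gaussians, `E |z_j|^2 = σ_j` -/
noncomputable def gam (m : ℕ) (σ : Fin m → ℝ) : Measure (Fin m → ℂ) :=
  Measure.pi fun j => cgm (σ j / 2)

/-- the mixed moments of the Gaussian vector -/
noncomputable def gmom (m : ℕ) (σ : Fin m → ℝ) (a b : Fin m → ℕ) : ℂ :=
  if a = b then ∏ j, ((a j).factorial : ℂ) * (σ j : ℂ) ^ a j else 0

/-! ### the main term -/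

/-- the main term -/
noncomputable def Mn (w : ℝ → ℂ) (A : Par) (L t : ℝ) : ℂ :=
  (evs (pt 0 t) (Dsm A.p0))⁻¹ * ev t (A.EI 0) * SW w 0 A.Y L t

/-- standing assumptions for the limit: `Y = L e^(-2v)`, `L` large, the measure has the mean value
property for polynomials of length `e^(N L)` -/
structure Std (q v p0 : ℕ) (N : ℝ) (A : Par) (L X η : ℝ) (ν : Measure ℝ) : Prop where
  hq : A.q = q
  hv : A.v = v
  hp : A.p0 = p0
  ok : A.Ok
  hL : N ≤ L
  hY : A.Y = L * Real.exp (-(2 * v))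
  mvp : MVP ν X η
  hX : Real.exp (N * L) ≤ X
  η0 : 0 ≤ η
  ηN : η * N ≤ 1

/-- the size of the main term -/
noncomputable def sz (k : ℝ) (v : ℕ) (L : ℝ) : ℝ := Real.exp (-(2 * v * k ^ 2)) * L ^ (k ^ 2)

end Pool.Agent.Lib.MT
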