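import Mathlib
import Pool.Agent.Lib.MP_f9aece_nt_mt.Defs
import Pool.Agent.Lib.MP_f9aece_nt_ms.StmtsQ

/-!
Mesoscopic moments of zeta: statements on the limit of the rough part, the main term, zeta itself.
Module `X` proves `theorem x : X`.
-/

set_option autoImplicit false

namespace Pool.Agent.Lib.MT

open MeasureTheory Set Filter Topology Complex
open scoped ComplexConjugate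
open Pool.Agent.Lib.MP_f9aece_nt (DP pair BK K1 ev PP VV Smo expo)
open Pool.Agent.Lib.MP_f9aece_nt_h40 (ind)
open Pool.Agent.Lib.MP_f9aece_nt_h85 (Rst)
open Pool.Agent.Lib.MP_f9aece_nt_h97 (Psm Dsm evs)
open Pool.Agent.Lib.NL (pt B0)
open Pool.Agent.Lib.J4 (En V2)
open Pool.Agent.Lib.MS (Len MVP Par RW TZ Cut un zr ZS)

/-! ### general tools -/

/-- T1: comparison of powers -/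
def PowIneq : Prop := ∀ s η : ℝ, 0 < s → 0 < η → ∃ C : ℝ, 0 ≤ C ∧ ∀ x y : ℂ,
  |‖x‖ ^ s - ‖y‖ ^ s| ≤ η * ‖x‖ ^ s + C * ‖x - y‖ ^ s

/-- T2: completeness -/
def CauL : Prop := ∀ (ι : Type) (S : ℕ → Set ι) (f : ι → ℝ), Antitone S → (∀ n, (S n).Nonempty) →
  (∀ ε : ℝ, 0 < ε → ∃ (c : ℝ) (n : ℕ), ∀ i ∈ S n, |f i - c| ≤ ε) →
  ∃ c : ℝ, ∀ ε : ℝ, 0 < ε → ∃ n : ℕ, ∀ i ∈ S n, |f i - c| ≤ ε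

/-- T3: Mertens' theorem with a constant -/
def MertC : Prop := ∃ M : ℝ, Tendsto (fun Y : ℝ =>
  ∑ p ∈ (Finset.Icc 1 ⌊Real.exp Y⌋₊).filter Nat.Prime, (p : ℝ)⁻¹ - Real.log Y) atTop (𝓝 M)

/-! ### complex Gaussian vectors and the method of moments -/

/-- T4a: the Gaussian vector has all moments -/
def GauA : Prop := ∀ (m : ℕ) (σ : Fin m → ℝ), (∀ j, 0 ≤ σ j) →
  IsProbabilityMeasure (gam m σ) ∧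
  (∀ p : ℕ, Integrable (fun z : Fin m → ℂ => ‖z‖ ^ p) (gam m σ))

/-- T4b: the characteristic function of the Gaussian vector -/
def GauB : Prop := ∀ (m : ℕ) (σ : Fin m → ℝ), (∀ j, 0 ≤ σ j) → ∀ ξ : Fin m → ℂ,
  ∫ z, cexp (I * ((∑ j, ξ j * z j).re : ℂ)) ∂(gam m σ)
    = (Real.exp (-(∑ j, ‖ξ j‖ ^ 2 * σ j) / 4) : ℂ)

/-- T4c: rotations -/
def GauC : Prop := ∀ (m : ℕ) (σ : Fin m → ℝ), (∀ j, 0 ≤ σ j) → ∀ c : ℂ, ‖c‖ = 1 →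
  (gam m σ).map (fun z j => c * z j) = gam m σ

/-- the moments of the centered real Gaussian of variance `s / 2` -/
noncomputable def gm1 (s : ℝ) (p : ℕ) : ℝ :=
  if Even p then (p.factorial : ℝ) / ((p / 2).factorial : ℝ) * (s / 4) ^ (p / 2) else 0

/-- T5: the method of moments on the line -/
def OneDim : Prop := ∀ (s : ℝ), 0 ≤ s → ∀ μ : ℕ → Measure ℝ, (∀ n, IsProbabilityMeasure (μ n)) →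
  (∀ (n p : ℕ), Integrable (fun x : ℝ => x ^ p) (μ n)) →
  (∀ p : ℕ, Tendsto (fun n => ∫ x, x ^ p ∂(μ n)) atTop (𝓝 (gm1 s p))) →
  Tendsto (fun n => ∫ x : ℝ, cexp (I * x) ∂(μ n)) atTop (𝓝 (Real.exp (-s / 4) : ℂ))

/-- convergence of all mixed moments to those of the Gaussian vector -/
structure MomC (m : ℕ) (σ : Fin m → ℝ) (μ : ℕ → Measure (Fin m → ℂ)) : Prop where
  prob : ∀ n, IsProbabilityMeasure (μ n)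
  int : ∀ (n p : ℕ), Integrable (fun z : Fin m → ℂ => ‖z‖ ^ p) (μ n)
  mom : ∀ a b : Fin m → ℕ, Tendsto (fun n => ∫ z, (∏ j, z j ^ a j) * conj (∏ j, z j ^ b j) ∂(μ n))
    atTop (𝓝 (gmom m σ a b))

/-- T6: moments of linear forms -/
def LinMom : Prop := ∀ (m : ℕ) (σ : Fin m → ℝ), (∀ j, 0 ≤ σ j) →
  ∀ μ : ℕ → Measure (Fin m → ℂ), MomC m σ μ → ∀ (ξ : Fin m → ℂ) (p : ℕ),
  Tendsto (fun n => ∫ z, ((∑ j, ξ j * z j).re) ^ p ∂(μ n)) atTop (𝓝 (gm1 (∑ j, ‖ξ j‖ ^ 2 * σ j) p))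

/-- T7: Levy's theorem -/
def LevyC : Prop := ∀ (m : ℕ) (μ : ℕ → Measure (Fin m → ℂ)) (γ : Measure (Fin m → ℂ)),
  (∀ n, IsProbabilityMeasure (μ n)) → IsProbabilityMeasure γ →
  (∀ ξ : Fin m → ℂ, Tendsto (fun n => ∫ z, cexp (I * ((∑ j, ξ j * z j).re : ℂ)) ∂(μ n)) atTop
    (𝓝 (∫ z, cexp (I * ((∑ j, ξ j * z j).re : ℂ)) ∂γ))) →
  ∀ f : (Fin m → ℂ) → ℝ, Continuous f → (∃ C : ℝ, ∀ z, |f z| ≤ C) →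
  Tendsto (fun n => ∫ z, f z ∂(μ n)) atTop (𝓝 (∫ z, f z ∂γ))

/-- T8: unbounded functions -/
def UnifInt : Prop := ∀ (m : ℕ) (μ : ℕ → Measure (Fin m → ℂ)) (γ : Measure (Fin m → ℂ)),
  (∀ n, IsProbabilityMeasure (μ n)) → IsProbabilityMeasure γ →
  (∀ f : (Fin m → ℂ) → ℝ, Continuous f → (∃ C : ℝ, ∀ z, |f z| ≤ C) →
    Tendsto (fun n => ∫ z, f z ∂(μ n)) atTop (𝓝 (∫ z, f z ∂γ))) →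
  (∀ (n p : ℕ), Integrable (fun z : Fin m → ℂ => ‖z‖ ^ p) (μ n)) →
  (∀ p : ℕ, Integrable (fun z : Fin m → ℂ => ‖z‖ ^ p) γ) →
  (∀ p : ℕ, ∃ C : ℝ, ∀ n, ∫ z, ‖z‖ ^ p ∂(μ n) ≤ C) →
  ∀ f : (Fin m → ℂ) → ℝ, Continuous f → (∃ (C : ℝ) (p : ℕ), ∀ z, |f z| ≤ C * (1 + ‖z‖) ^ p) →
  Tendsto (fun n => ∫ z, f z ∂(μ n)) atTop (𝓝 (∫ z, f z ∂γ))

/-- T9: the method of moments -/
def MomConv : Prop := ∀ (m : ℕ) (σ : Fin m → ℝ), (∀ j, 0 ≤ σ j) →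
  ∀ μ : ℕ → Measure (Fin m → ℂ), MomC m σ μ → ∀ f : (Fin m → ℂ) → ℝ, Continuous f →
  (∃ (C : ℝ) (p : ℕ), ∀ z, |f z| ≤ C * (1 + ‖z‖) ^ p) →
  Tendsto (fun n => ∫ z, f z ∂(μ n)) atTop (𝓝 (∫ z, f z ∂(gam m σ)))

/-! ### blocks of primes -/

/-- T10: sums of reciprocals over a block -/
def BlVV : Prop := ∀ (K : ℝ) (m j : ℕ), 1 < K → 1 ≤ m → j < m →
  0 ≤ sg K m j ∧ Tendsto (fun Y : ℝ => VV (Bl K m Y j)) atTop (𝓝 (sg K m j)) ∧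
  Tendsto (fun Y : ℝ => V2 (Bl K m Y j)) atTop (𝓝 0)

/-- T11: energy of a power of a prime sum -/
def PowEn : Prop := ∀ (S : Finset ℕ) (a : ℕ), (∀ p ∈ S, p.Prime) →
  (a.factorial : ℝ) * (VV S ^ a - a ^ 2 * V2 S * (1 + VV S) ^ a) ≤ BK K1 (PP S ^ a) (PP S ^ a)

/-- T12: mixed moments of the block sums -/
def BlMom : Prop := ∀ (K : ℝ) (m : ℕ), 1 < K → 1 ≤ m → ∀ (a b : Fin m → ℕ) (ε : ℝ), 0 < ε →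
  ∃ N : ℝ, 1 ≤ N ∧ ∀ (ν : Measure ℝ) (Y X η : ℝ), N ≤ Y → Real.exp (N * Y) ≤ X → 0 ≤ η →
  η * N ≤ 1 → MVR ν Y X η →
  ‖∫ t, (∏ j, GB K m Y t j ^ a j) * conj (∏ j, GB K m Y t j ^ b j) ∂ν
    - gmom m (fun j => sg K m j) a b‖ ≤ ε

/-! ### the rough part -/

/-- the primes in `(e^Y, e^(KY)]` -/
noncomputable def PB (K Y : ℝ) : Finset ℕ :=
  (Finset.Icc 1 ⌊Real.exp (K * Y)⌋₊).filter fun p => p.Prime ∧ Y < Real.log p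

/-- T13a: coefficients of the difference -/
def ApCoef : Prop := ∀ (K B Lam Y : ℝ) (m : ℕ), 1 < K → 1 ≤ m → 1 ≤ Y → ∀ u : ℝ → ℝ, Cut B Lam u →
  ∀ n : ℕ, |(RW u 0 Y (K * Y)).coeff n| ≤ B ∧ |(PD u K m Y).coeff n| ≤ B ∧
  (Squarefree n → |(RW u 0 Y (K * Y) - PD u K m Y).coeff n| ≤ Lam * K / m) ∧
  ((RW u 0 Y (K * Y)).coeff n ≠ 0 → n ∈ Smo (PB K Y : Set ℕ)) ∧
  ((PD u K m Y).coeff n ≠ 0 → n ∈ Smo (PB K Y : Set ℕ))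

/-- T13b: sums over the integers composed of primes in `(e^Y, e^(KY)]` -/
def ApSum : Prop := ∀ (q : ℕ) (K : ℝ), 1 < K → ∃ C : ℝ, 0 ≤ C ∧ ∀ Y : ℝ, 1 ≤ Y → ∀ F : Finset ℕ,
  (∀ n ∈ F, n ∈ Smo (PB K Y : Set ℕ)) →
  ∑ n ∈ F, (zr ^ q) n ^ 2 * (n : ℝ)⁻¹ ≤ C ∧
  ((∀ n ∈ F, ¬ Squarefree n) → ∑ n ∈ F, (zr ^ q) n ^ 2 * (n : ℝ)⁻¹ ≤ C * Real.exp (-Y))

/-- T13: approximation of the rough part by polynomials in the block sums -/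
def Appr : Prop := ∀ (q : ℕ) (K B Lam : ℝ), 1 ≤ q → 1 < K → 0 ≤ B → 0 ≤ Lam →
  ∃ C : ℝ, 0 ≤ C ∧ ∀ m : ℕ, 1 ≤ m → ∀ Y : ℝ, 1 ≤ Y → ∀ u : ℝ → ℝ, Cut B Lam u →
  En ((RW u 0 Y (K * Y) - PD u K m Y) ^ q) ≤ C * ((1 / m) ^ (2 * q) + Real.exp (-Y)) ∧
  En (RW u 0 Y (K * Y) ^ q) ≤ C

/-- T14: the limit for a fixed mesh -/
def DecM : Prop := ∀ (k B Lam : ℝ) (w : ℝ → ℂ), 0 < k → CutC B Lam w → ∀ (K : ℝ) (m : ℕ), 1 < K →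
  1 ≤ m → ∀ ε : ℝ, 0 < ε → ∃ N : ℝ, 1 ≤ N ∧ ∀ (ν : Measure ℝ) (Y X η : ℝ), N ≤ Y →
  Real.exp (N * Y) ≤ X → 0 ≤ η → η * N ≤ 1 → MVR ν Y X η →
  |∫ t, ‖PM w K m (GB K m Y t)‖ ^ (2 * k) ∂ν
    - ∫ z, ‖PM w K m z‖ ^ (2 * k) ∂(gam m fun j => sg K m j)| ≤ ε

/-- T15: the polynomial of the block sums -/
def PMPD : Prop := ∀ (w : ℝ → ℂ) (K : ℝ) (m : ℕ) (Y t : ℝ),
  PM w K m (GB K m Y t) = ev t (PD (fun x => (w x).re) K m Y) + I * ev t (PD (fun x => (w x).im) K m Y)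

/-- T16: distance of the rough part and its approximations -/
def DecA : Prop := ∀ (k B Lam : ℝ) (w : ℝ → ℂ), 0 < k → CutC B Lam w → ∀ K : ℝ, 1 < K → ∃ C : ℝ,
  0 ≤ C ∧ ∀ m : ℕ, 1 ≤ m → ∃ N : ℝ, 1 ≤ N ∧ ∀ (ν : Measure ℝ) (Y X η : ℝ), N ≤ Y →
  Real.exp (N * Y) ≤ X → 0 ≤ η → η * N ≤ 1 → MVR ν Y X η →
  ∫ t, ‖SW w 0 Y (K * Y) t‖ ^ (2 * k) ∂ν ≤ C ∧
  ∫ t, ‖SW w 0 Y (K * Y) t - PM w K m (GB K m Y t)‖ ^ (2 * k) ∂ν ≤ C * (1 / m) ^ (2 * k)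

/-- T17: Jensen's inequality for polynomials -/
def Jen : Prop := ∀ (p : Polynomial ℂ) (s : ℝ), 0 < s →
  ‖p.coeff 0‖ ^ s ≤ (2 * Real.pi)⁻¹ * ∫ θ in (0 : ℝ)..(2 * Real.pi), ‖p.eval (cexp (I * θ))‖ ^ s

/-- T18: lower bound for the approximations -/
def GmLow : Prop := ∀ (k B Lam : ℝ) (w : ℝ → ℂ), 0 < k → CutC B Lam w → ∀ (K : ℝ) (m : ℕ), 1 < K →
  1 ≤ m → ‖w 0‖ ^ (2 * k) ≤ ∫ z, ‖PM w K m z‖ ^ (2 * k) ∂(gam m fun j => sg K m j)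

/-- T19: the limit of the rough part -/
def DecLimit : Prop := ∀ (k B Lam : ℝ) (w : ℝ → ℂ), 0 < k → CutC B Lam w → ∀ K : ℝ, 1 < K →
  ∃ g : ℝ, ‖w 0‖ ^ (2 * k) ≤ g ∧ Dec k w K g

/-- T20a: rough numbers, lower bound -/
def RgLow : Prop := ∀ q : ℕ, 1 ≤ q → ∃ c : ℝ, 0 < c ∧ ∀ τ : ℝ, 0 < τ → τ ≤ 1 → ∃ K0 : ℝ, 1 < K0 ∧
  ∀ K : ℝ, K0 ≤ K → ∃ Y0 : ℝ, 1 ≤ Y0 ∧ ∀ Y : ℝ, Y0 ≤ Y → ∃ F : Finset ℕ,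
  (∀ n ∈ F, n ∈ Smo (Rst 0 Y) ∧ Real.log n ≤ τ * (K * Y)) ∧
  c * (τ * K) ^ (q ^ 2) ≤ ∑ n ∈ F, (zr ^ q) n ^ 2 * (n : ℝ)⁻¹

/-- T20: lower bound for the energies -/
def LowK : Prop := ∀ (q : ℕ) (B Lam : ℝ), 1 ≤ q → ∃ c K0 : ℝ, 0 < c ∧ 1 < K0 ∧ ∀ K : ℝ, K0 ≤ K →
  ∃ Y0 : ℝ, 1 ≤ Y0 ∧ ∀ Y : ℝ, Y0 ≤ Y → ∀ u : ℝ → ℝ, Cut B Lam u → u 0 = 1 →
  c * K ^ (q ^ 2) ≤ En (RW u 0 Y (K * Y) ^ q)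

/-- T21: lower bound for the limit -/
def DecLow : Prop := ∀ (q : ℕ) (k B Lam : ℝ), 1 ≤ q → (q : ℝ) ≤ k → ∃ c K0 : ℝ, 0 < c ∧ 1 < K0 ∧
  ∀ u : ℝ → ℝ, Cut B Lam u → u 0 = 1 → ∀ K : ℝ, K0 ≤ K → ∀ g : ℝ,
  Dec k (fun x => ((u x : ℝ) : ℂ)) K g → c * K ^ (k * q) ≤ g

/-! ### tilted measures -/

/-- the measure tilted by a Dirichlet polynomial -/
noncomputable def tm (ν : Measure ℝ) (Φ : DP) : Measure ℝ :=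
  (ENNReal.ofReal (∫ t, ‖ev t Φ‖ ^ 2 ∂ν))⁻¹ • ν.withDensity fun t => ENNReal.ofReal (‖ev t Φ‖ ^ 2)

/-- T22: the mean value property of a tilted measure -/
def Tilt : Prop := ∀ (ν : Measure ℝ) (X η : ℝ), MVP ν X η → 0 ≤ η → η ≤ 1 / 4 → ∀ (Y Z : ℝ) (Φ : DP),
  0 < En Φ → 1 ≤ Z → Z ≤ X → (∀ n, Φ.coeff n ≠ 0 →
    n ∈ Smo {p : ℕ | p ≤ ⌊Real.exp Y⌋₊} ∧ (n : ℝ) ≤ Z) →
  MVR (tm ν Φ) Y (X / Z) (4 * η) ∧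
  ∀ f : ℝ → ℝ, ∫ t, ‖ev t Φ‖ ^ 2 * f t ∂ν = (∫ t, ‖ev t Φ‖ ^ 2 ∂ν) * ∫ t, f t ∂(tm ν Φ)

/-- T23: the rough part against polynomials over small primes -/
def DecPhi : Prop := ∀ (k : ℝ) (w : ℝ → ℂ) (K g : ℝ), 0 ≤ g → Dec k w K g → ∀ ε : ℝ, 0 < ε →
  ∃ N : ℝ, 1 ≤ N ∧ ∀ (ν : Measure ℝ) (X η Y : ℝ) (Φ : DP), MVP ν X η → N ≤ Y →
  Real.exp (N * Y) ≤ X → 0 ≤ η → η * N ≤ 1 → (∀ n, Φ.coeff n ≠ 0 →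
    n ∈ Smo {p : ℕ | p ≤ ⌊Real.exp Y⌋₊} ∧ (n : ℝ) ^ 2 ≤ X) →
  |∫ t, ‖ev t Φ‖ ^ 2 * ‖SW w 0 Y (K * Y) t‖ ^ (2 * k) ∂ν - g * En Φ| ≤ ε * En Φ

/-! ### small primes -/

/-- T24: the rough sum times the mollifier of the small primes -/
def SmallCoef : Prop := ∀ p0 : ℕ, 1 ≤ p0 → ∃ C : ℝ, 0 ≤ C ∧ ∀ (B Lam : ℝ) (u : ℝ → ℝ), Cut B Lam u →
  ∀ Y L : ℝ, 1 ≤ L → (p0 : ℝ) ≤ Real.exp Y → ∀ n : ℕ,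
  |(RW u p0 Y L * Dsm p0 - RW u 0 Y L).coeff n| ≤ C * Lam / L ∧
  ((RW u p0 Y L * Dsm p0 - RW u 0 Y L).coeff n ≠ 0 →
    n ∈ Smo (Rst p0 Y) ∧ Real.log n ≤ L + C)

/-- T25: the small primes on the line -/
def SmallLine : Prop := ∀ p0 : ℕ, ∃ C : ℝ, 0 ≤ C ∧ ∀ t : ℝ,
  evs (pt 0 t) (Dsm p0) = ev t (Dsm p0) ∧ ev t (Dsm p0) ≠ 0 ∧ ‖(ev t (Dsm p0))⁻¹‖ ≤ C

/-- T26: error of the small primes -/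
def ErrSmall : Prop := ∀ (q : ℕ) (k : ℝ), 1 ≤ q → 0 < k → (q : ℝ) - 1 < k → k ≤ q → ∀ (v p0 : ℕ),
  1000 ≤ p0 → ∀ B Lam ε : ℝ, 0 < ε → ∃ N : ℝ, 1 ≤ N ∧ ∀ (A : Par) (L X η : ℝ) (ν : Measure ℝ),
  Std q v p0 N A L X η ν → ∀ u : ℝ → ℝ, Cut B Lam u →
  ∫ t, ‖ev t (RW u p0 A.Y L * A.EI 0)
    - (evs (pt 0 t) (Dsm p0))⁻¹ * ev t (A.EI 0) * ev t (RW u 0 A.Y L)‖ ^ (2 * k) ∂ν
    ≤ ε * L ^ (k ^ 2)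

/-- T27: all errors -/
def ErrTot : Prop := ∀ (q : ℕ) (k : ℝ), 1 ≤ q → 0 < k → (q : ℝ) - 1 < k → k ≤ q → ∀ p0 : ℕ,
  1000 ≤ p0 → ∀ B Lam ε : ℝ, 0 < ε → ∃ v0 : ℕ, ∀ v : ℕ, v0 ≤ v → ∃ N : ℝ, 1 ≤ N ∧
  ∀ (A : Par) (L X η : ℝ) (ν : Measure ℝ), Std q v p0 N A L X η ν → ∀ w : ℝ → ℂ, CutC B Lam w →
  ∫ t, ‖ZS w L t - Mn w A L t‖ ^ (2 * k) ∂ν
    ≤ ε * (L ^ (k ^ 2) * Real.exp (-(2 * k * v * (1 - (q - k)))))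

/-! ### the main term -/

/-- T28: sum of the reciprocals of the primes of all groups -/
def VLim : Prop := ∀ p0 : ℕ, 1 ≤ p0 → ∃ M : ℝ, ∀ ε : ℝ, 0 < ε → ∃ N : ℝ, 1 ≤ N ∧ ∀ A : Par, A.Ok →
  A.p0 = p0 → N ≤ A.Y → |A.V 0 - Real.log A.Y - M| ≤ ε

/-- T29: single blocks -/
def LowBlk : Prop := ∀ q : ℕ, 1 ≤ q → ∃ C : ℝ, 0 ≤ C ∧ ∀ (S : Finset ℕ) (r κ M : ℕ) (k : ℝ),
  (∀ p ∈ S, p.Prime ∧ 1000 ≤ p) → 1 ≤ r → q ^ 2 * VV S ≤ 2 * r → 0 ≤ k → k ≤ q → 50000 * r ≤ κ →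
  50000 * r ≤ M → C * V2 S ≤ 1 →
  Real.exp (k ^ 2 * VV S - C * V2 S - Real.exp (-r))
    ≤ BK K1 (ind κ S * expo (k - 1) M S) (expo k M S) ∧
  En (ind κ S * expo (k - 1) M S) ≤ Real.exp (k ^ 2 * VV S + C * V2 S + Real.exp (-r)) ∧
  ((1000 * (r : ℝ)) ^ (2 * (100000 * q * r)))⁻¹ * En (expo k M S * PP S ^ (100000 * q * r))
    ≤ Real.exp (C * V2 S) * Real.exp (-r)

/-- T30: all groups -/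
def LowForm : Prop := ∀ q : ℕ, 1 ≤ q → ∃ C : ℝ, 0 ≤ C ∧ ∀ A : Par, A.q = q → A.Ok → ∀ k : ℝ, 0 < k →
  k ≤ q → C * (1 / A.p0 + Real.exp (-(A.v : ℝ))) ≤ 1 →
  En (A.B k 0 ∅) ≤ Real.exp (k ^ 2 * A.V 0) ∧
  (1 - C * (1 / A.p0 + Real.exp (-(A.v : ℝ)))) * Real.exp (k ^ 2 * A.V 0) ≤ En (A.B k 0 ∅) ∧
  En (A.EI 0 * A.B (k - 1) 0 ∅ - A.B k 0 ∅)
    ≤ C * (1 / A.p0 + Real.exp (-(A.v : ℝ))) * Real.exp (k ^ 2 * A.V 0) ∧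
  ∑ g ∈ Finset.range A.J, (A.R g ^ (2 * A.M g))⁻¹ * En (A.B k 0 ∅ * PP (A.S g) ^ A.M g)
    ≤ C * (1 / A.p0 + Real.exp (-(A.v : ℝ))) * Real.exp (k ^ 2 * A.V 0)

/-- T31: pointwise lower bound -/
def PtLow : Prop := ∀ (q : ℕ) (k ε : ℝ), 1 ≤ q → 0 < k → k ≤ q → 0 < ε → ε ≤ 1 / 4 → ∃ v1 : ℕ,
  ∀ A : Par, A.q = q → v1 ≤ A.v → A.Ok → ∀ (t : ℝ) (z : ℂ),
  (1 - 2 * ε) * (‖ev t (A.B k 0 ∅)‖ ^ 2 - 2 * (q + 1) * (‖ev t (A.B k 0 ∅)‖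
      * ‖z * ev t (A.B (k - 1) 0 ∅) - ev t (A.B k 0 ∅)‖))
    - ‖ev t (A.B k 0 ∅)‖ ^ 2 * ∑ g ∈ Finset.range A.J, (‖ev t (PP (A.S g))‖ / A.R g) ^ (2 * A.M g)
  ≤ ‖z‖ ^ (2 * k)

/-- the polynomial `B0` approximates the small primes up to `δ` -/
def SmallOk (k δ : ℝ) (p0 Kb : ℕ) : Prop := ∀ t : ℝ,
  |‖evs (pt 0 t) (B0 k Kb p0)‖ ^ 2 * ‖evs (pt 0 t) (Dsm p0)‖ ^ (2 * k) - 1| ≤ δ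

/-- T32: upper bound for the main term -/
def MainUp : Prop := ∀ (q : ℕ) (k ε : ℝ), 1 ≤ q → 0 < k → (q : ℝ) - 1 < k → k ≤ q → 0 < ε →
  ∃ (δ : ℝ) (p1 v1 : ℕ), 0 < δ ∧ 1000 ≤ p1 ∧ 4 ≤ v1 ∧ ∀ p0 v Kb : ℕ, p1 ≤ p0 → v1 ≤ v →
  SmallOk k δ p0 Kb → ∀ (w : ℝ → ℂ) (g : ℝ), 1 ≤ g → Dec k w (Real.exp (2 * v)) g → ∃ N : ℝ, 1 ≤ N ∧
  ∀ (A : Par) (L X η : ℝ) (ν : Measure ℝ), Std q v p0 N A L X η ν →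
  ∫ t, ‖Mn w A L t‖ ^ (2 * k) ∂ν
    ≤ (1 + ε) * (En (B0 k Kb p0) * g * Real.exp (k ^ 2 * A.V 0))

/-- T33: lower bound for the main term -/
def MainLow : Prop := ∀ (q : ℕ) (k ε : ℝ), 1 ≤ q → 0 < k → (q : ℝ) - 1 < k → k ≤ q → 0 < ε →
  ∃ (δ : ℝ) (p1 v1 : ℕ), 0 < δ ∧ 1000 ≤ p1 ∧ 4 ≤ v1 ∧ ∀ p0 v Kb : ℕ, p1 ≤ p0 → v1 ≤ v →
  SmallOk k δ p0 Kb → ∀ (w : ℝ → ℂ) (g : ℝ), 1 ≤ g → Dec k w (Real.exp (2 * v)) g → ∃ N : ℝ, 1 ≤ N ∧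
  ∀ (A : Par) (L X η : ℝ) (ν : Measure ℝ), Std q v p0 N A L X η ν →
  (1 - ε) * (En (B0 k Kb p0) * g * Real.exp (k ^ 2 * A.V 0))
    ≤ ∫ t, ‖Mn w A L t‖ ^ (2 * k) ∂ν

/-- T34: size of the main term -/
def MainAsym : Prop := ∀ (q : ℕ) (k ε : ℝ), 1 ≤ q → 0 < k → (q : ℝ) - 1 < k → k ≤ q → 0 < ε →
  ∃ p1 : ℕ, 1000 ≤ p1 ∧ ∀ p0 : ℕ, p1 ≤ p0 → ∃ (a : ℝ) (v1 : ℕ), 0 < a ∧ 4 ≤ v1 ∧ ∀ v : ℕ, v1 ≤ v →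
  ∀ (w : ℝ → ℂ) (g : ℝ), 1 ≤ g → Dec k w (Real.exp (2 * v)) g → ∃ N : ℝ, 1 ≤ N ∧
  ∀ (A : Par) (L X η : ℝ) (ν : Measure ℝ), Std q v p0 N A L X η ν →
  |∫ t, ‖Mn w A L t‖ ^ (2 * k) ∂ν - a * g * sz k v L| ≤ ε * (a * g * sz k v L)

/-! ### the limit -/

/-- T35: existence of the limit, positivity for real weights -/
def LimEx : Prop := ∀ (k B Lam : ℝ) (w : ℝ → ℂ), 0 < k → CutC B Lam w → w 0 = 1 → ∃ c : ℝ, 0 ≤ c ∧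
  ((∀ x, (w x).im = 0) → 0 < c) ∧ ∀ ε : ℝ, 0 < ε → ∃ N : ℝ, 1 ≤ N ∧ ∀ (L X η : ℝ) (ν : Measure ℝ),
  N ≤ L → MVP ν X η → Real.exp (N * L) ≤ X → 0 ≤ η → η * N ≤ 1 →
  |∫ t, ‖ZS w L t‖ ^ (2 * k) ∂ν - c * L ^ (k ^ 2)| ≤ ε * L ^ (k ^ 2)

end Pool.Agent.Lib.MT
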