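import Mathlib
import Pool.Agent.Lib.MP_f9aece_nt_mt.StmtsT
import Pool.Agent.Lib.MP_f9aece_nt_ms.Coeffs

/-!
Mesoscopic moments of zeta, module T10.

With F Y = sum of 1/p over p <= exp Y (MertC): VV (Bl K m Y j) = F (Y u_(j+1)) - F (Y u_j) (j < m: u_(j+1) <= K so nothing is cut off), -> log u_(j+1) - log u_j. V2 <= exp(-Y) VV since p > e^Y, -> 0. sg >= 0 as u is increasing and positive. (about 100 lines)
-/

set_option autoImplicit false

namespace Pool.Agent.Lib.MT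

open MeasureTheory Set Filter Topology Complex
open scoped ComplexConjugate
open scoped ArithmeticFunction.Omega
open Pool.Agent.Lib.MP_f9aece_nt (DP pair BK K1 ev PP VV Smo expo)
open Pool.Agent.Lib.MP_f9aece_nt_h40 (ind)
open Pool.Agent.Lib.MP_f9aece_nt_h85 (Rst)
open Pool.Agent.Lib.MP_f9aece_nt_h97 (Psm Dsm evs)
open Pool.Agent.Lib.NL (pt B0)
open Pool.Agent.Lib.J4 (En V2)
open Pool.Agent.Lib.MS (Len MVP Par RW TZ Cut un zr ex hq af ZS)

private theorem t10_mem (Z : ℝ) (p : ℕ) :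
    p ∈ (Finset.Icc 1 ⌊Real.exp Z⌋₊).filter Nat.Prime ↔ p.Prime ∧ Real.log p ≤ Z := by
  rw [Finset.mem_filter, Finset.mem_Icc]
  constructor
  · rintro ⟨⟨h1, h2⟩, h3⟩
    refine ⟨h3, ?_⟩
    have h4 : (p : ℝ) ≤ Real.exp Z := (Nat.le_floor_iff (Real.exp_pos Z).le).1 h2
    have h5 : (0 : ℝ) < p := by exact_mod_cast h3.pos
    exact (Real.log_le_iff_le_exp h5).2 h4
  · rintro ⟨h3, h4⟩
    have h5 : (0 : ℝ) < p := by exact_mod_cast h3.pos
    exact ⟨⟨h3.one_lt.le, (Nat.le_floor_iff (Real.exp_pos Z).le).2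
      ((Real.log_le_iff_le_exp h5).1 h4)⟩, h3⟩

private theorem t10_uj (K : ℝ) (m j : ℕ) (hK : 1 < K) (hm : 1 ≤ m) (hj : j < m) :
    1 ≤ uj K m j ∧ uj K m j ≤ uj K m (j + 1) ∧ uj K m (j + 1) ≤ K := by
  have hm0 : (0 : ℝ) < m := by exact_mod_cast hm
  have hK0 : 0 < K - 1 := by linarith
  unfold uj
  refine ⟨?_, ?_, ?_⟩
  · have : 0 ≤ (K - 1) * j / m := by positivity
    linarith
  · have : (K - 1) * (j : ℝ) / m ≤ (K - 1) * ((j + 1 : ℕ) : ℝ) / m := by
      push_cast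
      gcongr
      linarith
    linarith
  · have h1 : (((j + 1 : ℕ) : ℝ)) ≤ m := by exact_mod_cast hj
    have h2 : (K - 1) * ((j + 1 : ℕ) : ℝ) / m ≤ K - 1 := by
      rw [div_le_iff₀ hm0]
      exact mul_le_mul_of_nonneg_left h1 hK0.le
    linarith

private theorem t10_Bl (K : ℝ) (m j : ℕ) (hK : 1 < K) (hm : 1 ≤ m) (hj : j < m) (Y : ℝ)
    (hY : 0 ≤ Y) (p : ℕ) :
    p ∈ Bl K m Y j ↔ p.Prime ∧ Y * uj K m j < Real.log p ∧ Real.log p ≤ Y * uj K m (j + 1) := by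
  obtain ⟨-, -, h3⟩ := t10_uj K m j hK hm hj
  unfold Bl
  rw [Finset.mem_filter]
  constructor
  · rintro ⟨-, h⟩
    exact h
  · rintro ⟨h1, h2, h4⟩
    refine ⟨?_, h1, h2, h4⟩
    have h5 : (0 : ℝ) < p := by exact_mod_cast h1.pos
    rw [Finset.mem_Icc]
    refine ⟨h1.one_lt.le, (Nat.le_floor_iff (Real.exp_pos _).le).2
      ((Real.log_le_iff_le_exp h5).1 (h4.trans ?_))⟩
    rw [mul_comm K Y]
    exact mul_le_mul_of_nonneg_left h3 hY

theorem blVV (h3 : MertC) : BlVV := by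
  intro K m j hK hm hj
  obtain ⟨ha, hab, hbK⟩ := t10_uj K m j hK hm hj
  obtain ⟨M, hM⟩ := h3
  have ha0 : 0 < uj K m j := by linarith
  have hb0 : 0 < uj K m (j + 1) := by linarith
  have hVV : ∀ Y : ℝ, 0 ≤ Y → VV (Bl K m Y j) =
      ∑ p ∈ (Finset.Icc 1 ⌊Real.exp (Y * uj K m (j + 1))⌋₊).filter Nat.Prime, (p : ℝ)⁻¹ -
      ∑ p ∈ (Finset.Icc 1 ⌊Real.exp (Y * uj K m j)⌋₊).filter Nat.Prime, (p : ℝ)⁻¹ := by
    intro Y hY
    have hsub : (Finset.Icc 1 ⌊Real.exp (Y * uj K m j)⌋₊).filter Nat.Prime ⊆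
        (Finset.Icc 1 ⌊Real.exp (Y * uj K m (j + 1))⌋₊).filter Nat.Prime := by
      intro p hp
      rw [t10_mem] at hp ⊢
      exact ⟨hp.1, hp.2.trans (mul_le_mul_of_nonneg_left hab hY)⟩
    have heq : Bl K m Y j = (Finset.Icc 1 ⌊Real.exp (Y * uj K m (j + 1))⌋₊).filter Nat.Prime \
        (Finset.Icc 1 ⌊Real.exp (Y * uj K m j)⌋₊).filter Nat.Prime := by
      ext p
      rw [Finset.mem_sdiff, t10_mem, t10_mem, t10_Bl K m j hK hm hj Y hY]
      constructor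
      · rintro ⟨h1, h2, h4⟩
        exact ⟨⟨h1, h4⟩, fun h => absurd h.2 (not_le.2 h2)⟩
      · rintro ⟨⟨h1, h4⟩, h2⟩
        exact ⟨h1, not_le.1 fun h => h2 ⟨h1, h⟩, h4⟩
    unfold VV
    rw [heq, Finset.sum_sdiff_eq_sub hsub]
  have hlim : Tendsto (fun Y : ℝ => VV (Bl K m Y j)) atTop (𝓝 (sg K m j)) := by
    have t1 : Tendsto (fun Y : ℝ => Y * uj K m (j + 1)) atTop atTop :=
      tendsto_id.atTop_mul_const hb0
    have t2 : Tendsto (fun Y : ℝ => Y * uj K m j) atTop atTop :=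
      tendsto_id.atTop_mul_const ha0
    have t3 := ((hM.comp t1).sub (hM.comp t2)).add_const (sg K m j)
    rw [sub_self, zero_add] at t3
    refine t3.congr' ?_
    filter_upwards [eventually_gt_atTop (0 : ℝ)] with Y hY
    rw [hVV Y hY.le]
    simp only [Function.comp_apply]
    have h1 : Real.log (Y * uj K m (j + 1)) = Real.log Y + Real.log (uj K m (j + 1)) :=
      Real.log_mul hY.ne' hb0.ne'
    have h2 : Real.log (Y * uj K m j) = Real.log Y + Real.log (uj K m j) :=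
      Real.log_mul hY.ne' ha0.ne'
    have h4 : sg K m j = Real.log (uj K m (j + 1)) - Real.log (uj K m j) :=
      Real.log_div hb0.ne' ha0.ne'
    rw [h1, h2, h4]
    ring
  refine ⟨?_, hlim, ?_⟩
  · unfold sg
    exact Real.log_nonneg ((one_le_div ha0).2 hab)
  · have t1 : Tendsto (fun Y : ℝ => Real.exp (-Y) * VV (Bl K m Y j)) atTop (𝓝 0) := by
      have h1 : Tendsto (fun Y : ℝ => Real.exp (-Y)) atTop (𝓝 0) :=
        Real.tendsto_exp_neg_atTop_nhds_zero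
      have h2 := h1.mul hlim
      rwa [zero_mul] at h2
    refine tendsto_of_tendsto_of_tendsto_of_le_of_le' tendsto_const_nhds t1 ?_ ?_
    · exact Eventually.of_forall fun Y => Finset.sum_nonneg fun p _ => by positivity
    · filter_upwards [eventually_ge_atTop (0 : ℝ)] with Y hY
      show ∑ p ∈ Bl K m Y j, ((p : ℝ)⁻¹) ^ 2 ≤ Real.exp (-Y) * ∑ p ∈ Bl K m Y j, (p : ℝ)⁻¹
      rw [Finset.mul_sum]
      refine Finset.sum_le_sum fun p hp => ?_
      rw [t10_Bl K m j hK hm hj Y hY] at hp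
      obtain ⟨h1, h2, -⟩ := hp
      have h5 : (0 : ℝ) < p := by exact_mod_cast h1.pos
      rw [sq]
      refine mul_le_mul_of_nonneg_right ?_ (by positivity)
      rw [Real.exp_neg]
      refine inv_anti₀ (Real.exp_pos Y) ?_
      rw [← Real.le_log_iff_exp_le h5]
      have : Y * 1 ≤ Y * uj K m j := mul_le_mul_of_nonneg_left ha hY
      linarith

end Pool.Agent.Lib.MT
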