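import Mathlib
import Pool.Agent.Lib.MP_f9aece_nt_mt.StmtsT
import Pool.Agent.Lib.MP_f9aece_nt_ms.Coeffs

/-!
Mesoscopic moments of zeta, module T11.

En (PP S ^ a) = sum_n c_n^2/n with c_n the number of ordered a-tuples of elements of S with product n; for a product of a distinct primes c_n = a!. Hence BK K1 >= a! * (sum over ordered a-tuples of DISTINCT primes of prod 1/p) >= a! (VV^a - choose(a,2) V2 VV^(a-2)). One way: induction on a with coeff_PP_pow_succ (PrimePoly.lean); another: c_n >= and Finset.sum over Fin a -> S, PP S ^ a = sum over tuples of single (prod). a = 0, 1 trivial. (about 150 lines)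
-/

set_option autoImplicit false

namespace Pool.Agent.Lib.MT

open MeasureTheory Set Filter Topology Complex
open scoped ComplexConjugate
open scoped ArithmeticFunction.Omega
open Pool.Agent.Lib.MP_f9aece_nt (DP pair BK K1 ev PP VV Smo expo)
open Pool.Agent.Lib.MP_f9aece_nt_h40 (ind)
open Pool.Agent.Lib.MP_f9aece_nt_h85 (Rst)
open Pool.Agent.Lib.MP_f9aece_nt_h97 (Psm Dsm evs)
open Pool.Agent.Lib.NL (pt B0)
open Pool.Agent.Lib.J4 (En V2)
open Pool.Agent.Lib.MS (Len MVP Par RW TZ Cut un zr ex hq af ZS)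

namespace T11

open Pool.Agent.Lib.MP_f9aece_nt (pair_mul pair_sum pair_single pair_mono pair_const_mul
  pair_congr cone_PP_pow coeff_PP_pow_succ BK_K1_eq VV_nonneg Cone)

lemma pair_add_fun (φ ψ : ℕ → ℝ) (f : DP) :
    pair (fun a => φ a + ψ a) f = pair φ f + pair ψ f := by
  simp only [MP_f9aece_nt.pair_def, mul_add, Finset.sum_add_distrib]

lemma pair_PP_mul (S : Finset ℕ) (φ : ℕ → ℝ) (f : DP) :
    pair φ (PP S * f) = ∑ p ∈ S, pair (fun b => φ (p * b)) f := by
  rw [pair_mul, PP, pair_sum]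
  refine Finset.sum_congr rfl fun p _ => ?_
  rw [pair_single, one_mul]

lemma pair_inv (S : Finset ℕ) (a : ℕ) : pair (fun n => (n : ℝ)⁻¹) (PP S ^ a) = VV S ^ a := by
  rw [← MP_f9aece_nt.ev1_apply, map_pow, MP_f9aece_nt.ev1_PP]

/-- the mass of the multiples of a prime -/
lemma mult_le (S : Finset ℕ) (hS : ∀ p ∈ S, p.Prime) (p : ℕ) (hp : p ∈ S) (a : ℕ) :
    pair (fun b => if p ∣ b then (b : ℝ)⁻¹ else 0) (PP S ^ a)
      ≤ a * (p : ℝ)⁻¹ * (1 + VV S) ^ a := by
  have hV := VV_nonneg S
  have hpp := hS p hp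
  induction a with
  | zero =>
    rw [pow_zero, MonoidAlgebra.one_def, pair_single]
    have : ¬ p ∣ 1 := fun h => absurd (Nat.dvd_one.mp h) hpp.one_lt.ne'
    simp [this]
  | succ a ih =>
    rw [pow_succ', pair_PP_mul]
    have h1 : ∀ q ∈ S, pair (fun b => if p ∣ q * b then ((q * b : ℕ) : ℝ)⁻¹ else 0) (PP S ^ a)
        ≤ (if q = p then (p : ℝ)⁻¹ * VV S ^ a else 0)
          + (q : ℝ)⁻¹ * pair (fun b => if p ∣ b then (b : ℝ)⁻¹ else 0) (PP S ^ a) := by
      intro q hq
      have h2 : pair (fun b => if p ∣ q * b then ((q * b : ℕ) : ℝ)⁻¹ else 0) (PP S ^ a)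
          ≤ pair (fun b => (if q = p then (p : ℝ)⁻¹ else 0) * (b : ℝ)⁻¹
            + (q : ℝ)⁻¹ * (if p ∣ b then (b : ℝ)⁻¹ else 0)) (PP S ^ a) := by
        refine pair_mono (cone_PP_pow hS a) fun b _ => ?_
        have hb : (0 : ℝ) ≤ (b : ℝ)⁻¹ := by positivity
        have hq0 : (0 : ℝ) ≤ (q : ℝ)⁻¹ := by positivity
        have hp0 : (0 : ℝ) ≤ (p : ℝ)⁻¹ := by positivity
        by_cases h3 : p ∣ q * b
        · rcases (hpp.dvd_mul).mp h3 with h4 | h4
          · have h5 : p = q := (Nat.prime_dvd_prime_iff_eq hpp (hS q hq)).mp h4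
            subst h5
            simp only [h3, if_true]
            push_cast
            rw [mul_inv]
            have : 0 ≤ (p : ℝ)⁻¹ * (if p ∣ b then (b : ℝ)⁻¹ else 0) := by
              split_ifs <;> positivity
            linarith
          · simp only [h3, h4, if_true]
            push_cast
            rw [mul_inv]
            have : 0 ≤ (if q = p then (p : ℝ)⁻¹ else 0) * (b : ℝ)⁻¹ := by
              split_ifs <;> positivity
            linarith
        · simp only [h3, if_false]
          have h4 : 0 ≤ (if q = p then (p : ℝ)⁻¹ else 0) * (b : ℝ)⁻¹ := by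
            split_ifs <;> positivity
          have h5 : 0 ≤ (q : ℝ)⁻¹ * (if p ∣ b then (b : ℝ)⁻¹ else 0) := by
            split_ifs <;> positivity
          linarith
      refine h2.trans (le_of_eq ?_)
      rw [pair_add_fun, pair_const_mul, pair_const_mul, pair_inv]
      congr 1
      split_ifs <;> simp
    refine (Finset.sum_le_sum h1).trans ?_
    rw [Finset.sum_add_distrib, Finset.sum_ite_eq' S p, if_pos hp, ← Finset.sum_mul]
    change (p : ℝ)⁻¹ * VV S ^ a + VV S * _ ≤ _
    have hp0 : (0 : ℝ) ≤ (p : ℝ)⁻¹ := by positivity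
    have e1 : VV S ^ a ≤ (1 + VV S) ^ a := pow_le_pow_left₀ hV (by linarith) a
    have e2 : (0 : ℝ) ≤ (1 + VV S) ^ a := by positivity
    calc (p : ℝ)⁻¹ * VV S ^ a
          + VV S * pair (fun b => if p ∣ b then (b : ℝ)⁻¹ else 0) (PP S ^ a)
        ≤ (p : ℝ)⁻¹ * (1 + VV S) ^ a + VV S * (a * (p : ℝ)⁻¹ * (1 + VV S) ^ a) := by gcongr
      _ ≤ ((a + 1 : ℕ) : ℝ) * (p : ℝ)⁻¹ * (1 + VV S) ^ (a + 1) := by
          push_cast
          rw [pow_succ (1 + VV S) a]
          have : 0 ≤ (p : ℝ)⁻¹ * (1 + VV S) ^ a * (VV S + a) := by positivity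
          nlinarith

/-- the mass of the integers which are not squarefree -/
lemma nsq_le (S : Finset ℕ) (hS : ∀ p ∈ S, p.Prime) (a : ℕ) :
    pair (fun b => if Squarefree b then 0 else (b : ℝ)⁻¹) (PP S ^ a)
      ≤ a ^ 2 * V2 S * (1 + VV S) ^ a := by
  have hV := VV_nonneg S
  have hV2 : 0 ≤ V2 S := Finset.sum_nonneg fun _ _ => sq_nonneg _
  induction a with
  | zero =>
    rw [pow_zero, MonoidAlgebra.one_def, pair_single]
    simp
  | succ a ih =>
    rw [pow_succ', pair_PP_mul]
    have h1 : ∀ q ∈ S, pair (fun b => if Squarefree (q * b) then 0 else ((q * b : ℕ) : ℝ)⁻¹)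
          (PP S ^ a)
        ≤ (q : ℝ)⁻¹ * pair (fun b => if Squarefree b then 0 else (b : ℝ)⁻¹) (PP S ^ a)
          + (q : ℝ)⁻¹ * (a * (q : ℝ)⁻¹ * (1 + VV S) ^ a) := by
      intro q hq
      have hq0 : (0 : ℝ) ≤ (q : ℝ)⁻¹ := by positivity
      have h2 : pair (fun b => if Squarefree (q * b) then 0 else ((q * b : ℕ) : ℝ)⁻¹) (PP S ^ a)
          ≤ pair (fun b => (q : ℝ)⁻¹ * (if Squarefree b then 0 else (b : ℝ)⁻¹)
            + (q : ℝ)⁻¹ * (if q ∣ b then (b : ℝ)⁻¹ else 0)) (PP S ^ a) := by
        refine pair_mono (cone_PP_pow hS a) fun b _ => ?_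
        have hb : (0 : ℝ) ≤ (b : ℝ)⁻¹ := by positivity
        have h4 : 0 ≤ (q : ℝ)⁻¹ * (if Squarefree b then 0 else (b : ℝ)⁻¹) := by
          split_ifs <;> positivity
        have h5 : 0 ≤ (q : ℝ)⁻¹ * (if q ∣ b then (b : ℝ)⁻¹ else 0) := by
          split_ifs <;> positivity
        by_cases h3 : Squarefree (q * b)
        · simp only [h3, if_true]
          linarith
        · simp only [h3, if_false]
          by_cases h6 : Squarefree b
          · have h7 : q ∣ b := by
              by_contra h7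
              apply h3
              rw [Nat.squarefree_mul ((Nat.Prime.coprime_iff_not_dvd (hS q hq)).mpr h7)]
              exact ⟨(hS q hq).squarefree, h6⟩
            simp only [h7, if_true]
            push_cast
            rw [mul_inv]
            linarith
          · simp only [h6, if_false]
            push_cast
            rw [mul_inv]
            linarith
      refine h2.trans ?_
      rw [pair_add_fun, pair_const_mul, pair_const_mul]
      have := mult_le S hS q hq a
      gcongr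
    refine (Finset.sum_le_sum h1).trans ?_
    have e0 : ∑ q ∈ S, ((q : ℝ)⁻¹ * pair (fun b => if Squarefree b then 0 else (b : ℝ)⁻¹)
          (PP S ^ a) + (q : ℝ)⁻¹ * (a * (q : ℝ)⁻¹ * (1 + VV S) ^ a))
        = VV S * pair (fun b => if Squarefree b then 0 else (b : ℝ)⁻¹) (PP S ^ a)
          + a * V2 S * (1 + VV S) ^ a := by
      rw [Finset.sum_add_distrib, ← Finset.sum_mul]
      congr 1
      unfold V2
      rw [Finset.mul_sum, Finset.sum_mul]
      refine Finset.sum_congr rfl fun q _ => ?_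
      ring
    rw [e0]
    have e2 : (0 : ℝ) ≤ (1 + VV S) ^ a := by positivity
    calc VV S * pair (fun b => if Squarefree b then 0 else (b : ℝ)⁻¹) (PP S ^ a)
          + a * V2 S * (1 + VV S) ^ a
        ≤ VV S * (a ^ 2 * V2 S * (1 + VV S) ^ a) + a * V2 S * (1 + VV S) ^ a := by gcongr
      _ ≤ (((a + 1 : ℕ) : ℝ)) ^ 2 * V2 S * (1 + VV S) ^ (a + 1) := by
          push_cast
          rw [pow_succ (1 + VV S) a]
          have : 0 ≤ V2 S * (1 + VV S) ^ a * (a ^ 2 + a + 1 + VV S * (2 * a + 1)) := by positivity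
          nlinarith

/-- the coefficients at squarefree integers -/
lemma coeff_sq (S : Finset ℕ) (hS : ∀ p ∈ S, p.Prime) (a n : ℕ) (hn : n ∈ Smo S)
    (hO : Ω n = a) (hsq : Squarefree n) : (PP S ^ a).coeff n = a.factorial := by
  induction a generalizing n with
  | zero =>
    have h1 : n = 1 := by
      rcases ArithmeticFunction.cardFactors_eq_zero_iff_eq_zero_or_one.mp hO with h | h
      · exact absurd h hn.1
      · exact h
    subst h1
    rw [pow_zero, MonoidAlgebra.one_def, MonoidAlgebra.coeff_single, Finsupp.single_apply]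
    simp
  | succ a ih =>
    rw [coeff_PP_pow_succ hS]
    have h1 : ∀ p ∈ S.filter (· ∣ n), (PP S ^ a).coeff (n / p) = a.factorial := by
      intro p hp
      rw [Finset.mem_filter] at hp
      obtain ⟨m, rfl⟩ := hp.2
      have hp1 := hS p hp.1
      have hm0 : m ≠ 0 := fun h => hn.1 (by rw [h, mul_zero])
      rw [Nat.mul_div_cancel_left m hp1.pos]
      refine ih m ⟨hm0, fun q hq hd => hn.2 q hq (Dvd.dvd.mul_left hd p)⟩ ?_ ?_
      · rw [ArithmeticFunction.cardFactors_mul hp1.ne_zero hm0,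
          ArithmeticFunction.cardFactors_apply_prime hp1] at hO
        omega
      · exact hsq.of_mul_right
    rw [Finset.sum_congr rfl h1, Finset.sum_const, nsmul_eq_mul]
    have h2 : S.filter (· ∣ n) = n.primeFactors := by
      ext p
      rw [Finset.mem_filter, Nat.mem_primeFactors]
      constructor
      · rintro ⟨h3, h4⟩
        exact ⟨hS p h3, h4, hn.1⟩
      · rintro ⟨h3, h4, _⟩
        exact ⟨by simpa using hn.2 p h3 h4, h4⟩
    have h3 : n.primeFactors.card = a + 1 := by
      rw [← hO]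
      exact (ArithmeticFunction.cardDistinctFactors_eq_cardFactors_iff_squarefree hn.1).mpr hsq
    rw [h2, h3, Nat.factorial_succ]
    push_cast
    ring

end T11

theorem powEn : PowEn := by
  intro S a hS
  open Pool.Agent.Lib.MP_f9aece_nt in
  rw [BK_K1_eq]
  have h1 : pair (fun n => (a.factorial : ℝ) * ((n : ℝ)⁻¹
        + (-1) * (if Squarefree n then 0 else (n : ℝ)⁻¹))) (PP S ^ a)
      ≤ pair (fun n => (PP S ^ a).coeff n * (n : ℝ)⁻¹) (PP S ^ a) := by
    refine MP_f9aece_nt.pair_mono (MP_f9aece_nt.cone_PP_pow hS a) fun n hn => ?_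
    by_cases hsq : Squarefree n
    · rw [T11.coeff_sq S hS a n hn.1 hn.2 hsq]
      simp [hsq]
    · simp only [hsq, if_false]
      have := (MP_f9aece_nt.cone_PP_pow hS a n).1
      have h2 : (0 : ℝ) ≤ (n : ℝ)⁻¹ := by positivity
      nlinarith [mul_nonneg this h2]
  refine le_trans ?_ h1
  rw [MP_f9aece_nt.pair_const_mul, T11.pair_add_fun, MP_f9aece_nt.pair_const_mul, T11.pair_inv]
  have h3 := T11.nsq_le S hS a
  have h4 : (0 : ℝ) < a.factorial := by positivity
  have : VV S ^ a - a ^ 2 * V2 S * (1 + VV S) ^ a ≤ VV S ^ a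
      + -1 * pair (fun n => if Squarefree n then 0 else (n : ℝ)⁻¹) (PP S ^ a) := by linarith
  exact mul_le_mul_of_nonneg_left this h4.le

end Pool.Agent.Lib.MT
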