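import Mathlib
import Pool.Agent.Lib.MP_f9aece_nt_mt.StmtsT
import Pool.Agent.Lib.MP_f9aece_nt_ms.Coeffs

/-!
Mesoscopic moments of zeta, module T12.

prod_j GB^a_j = ev t (prod_j PP(Bl j)^a_j) (map_prod, map_pow). Supports: primes of Bl are > e^Y (u_j >= 1), so in Smo (Rst 0 Y); length <= exp(K Y sum a_j) <= X if N >= K sum a, K sum b. MVR: the integral is BK K1 (prod PP^a_j) (prod PP^b_j) up to η sqrt(En En). The blocks are disjoint sets of primes: BK K1 of products factorises (J4 / N4 / h97: BK_mul, BK_prod_sup) into prod_j BK K1 (PP^a_j) (PP^b_j) = 0 if a_j != b_j (BK_PP_pow_ne), and between a! (V^a - a^2 V2 (1+V)^a) and a! V^a (PowEn, BK_PP_pow_self), V = VV -> sg, V2 -> 0. En is bounded for large Y, η <= 1/N. (about 200 lines)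
-/

set_option autoImplicit false

namespace Pool.Agent.Lib.MT

open MeasureTheory Set Filter Topology Complex
open scoped ComplexConjugate
open scoped ArithmeticFunction.Omega
open Pool.Agent.Lib.MP_f9aece_nt (DP pair BK K1 ev PP VV Smo expo)
open Pool.Agent.Lib.MP_f9aece_nt_h40 (ind)
open Pool.Agent.Lib.MP_f9aece_nt_h85 (Rst)
open Pool.Agent.Lib.MP_f9aece_nt_h97 (Psm Dsm evs)
open Pool.Agent.Lib.NL (pt B0)
open Pool.Agent.Lib.J4 (En V2)
open Pool.Agent.Lib.MS (Len MVP Par RW TZ Cut un zr ex hq af ZS)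

open Pool.Agent.Lib.MP_f9aece_nt (Cone) in
private lemma t12_cone_pow {S : Set ℕ} {B : ℝ} (hB : 0 ≤ B) {f : DP}
    (hf : Cone {n : ℕ | n ∈ Smo S ∧ (n : ℝ) ≤ B} f) (r : ℕ) :
    Cone {n : ℕ | n ∈ Smo S ∧ (n : ℝ) ≤ B ^ r} (f ^ r) := by
  induction r with
  | zero =>
    rw [pow_zero]
    exact MP_f9aece_nt.Cone.one ⟨MP_f9aece_nt.one_mem_Smo _, by simp⟩
  | succ r ih =>
    rw [pow_succ]
    refine ih.mul hf ?_
    rintro x ⟨hx1, hx2⟩ y ⟨hy1, hy2⟩
    refine ⟨MP_f9aece_nt.mul_mem_Smo hx1 hy1, ?_⟩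
    push_cast
    exact mul_le_mul hx2 hy2 (Nat.cast_nonneg _) (pow_nonneg hB _)

open Pool.Agent.Lib.MP_f9aece_nt (Cone) in
private lemma t12_cone_prod {ι : Type} {S : Set ℕ} {B : ℝ} (hB : 0 ≤ B) (s : Finset ι)
    (f : ι → DP) (a : ι → ℕ) (hf : ∀ i ∈ s, Cone {n : ℕ | n ∈ Smo S ∧ (n : ℝ) ≤ B} (f i)) :
    Cone {n : ℕ | n ∈ Smo S ∧ (n : ℝ) ≤ B ^ (∑ i ∈ s, a i)} (∏ i ∈ s, f i ^ a i) := by
  classical
  induction s using Finset.induction_on with
  | empty =>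
    simp only [Finset.prod_empty, Finset.sum_empty]
    exact MP_f9aece_nt.Cone.one ⟨MP_f9aece_nt.one_mem_Smo _, by simp⟩
  | insert i s hi ih =>
    rw [Finset.prod_insert hi, Finset.sum_insert hi]
    refine (t12_cone_pow hB (hf i (Finset.mem_insert_self _ _)) (a i)).mul
      (ih fun j hj => hf j (Finset.mem_insert_of_mem hj)) ?_
    rintro x ⟨hx1, hx2⟩ y ⟨hy1, hy2⟩
    refine ⟨MP_f9aece_nt.mul_mem_Smo hx1 hy1, ?_⟩
    rw [pow_add]
    push_cast
    exact mul_le_mul hx2 hy2 (Nat.cast_nonneg _) (pow_nonneg hB _)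

open Pool.Agent.Lib.MP_f9aece_nt (Cone) in
private lemma t12_BK_prod {ι : Type} (s : Finset ι) (I : ι → Finset ℕ)
    (hI : ∀ i ∈ s, ∀ j ∈ s, i ≠ j → Disjoint (I i) (I j)) (f g : ι → DP)
    (hf : ∀ j ∈ s, Cone (Smo (I j)) (f j)) (hg : ∀ j ∈ s, Cone (Smo (I j)) (g j)) :
    BK K1 (∏ j ∈ s, f j) (∏ j ∈ s, g j) = ∏ j ∈ s, BK K1 (f j) (g j) := by
  classical
  induction s using Finset.induction_on with
  | empty =>
    simp only [Finset.prod_empty]
    rw [MonoidAlgebra.one_def, MP_f9aece_nt.BK_single, MP_f9aece_nt.mulKer_K1.1]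
    norm_num
  | insert a s ha ih =>
    rw [Finset.prod_insert ha, Finset.prod_insert ha, Finset.prod_insert ha]
    have hf' : ∀ j ∈ s, Cone (Smo (I j)) (f j) := fun j hj => hf j (Finset.mem_insert_of_mem hj)
    have hg' : ∀ j ∈ s, Cone (Smo (I j)) (g j) := fun j hj => hg j (Finset.mem_insert_of_mem hj)
    have hc : ∀ F : ι → DP, (∀ j ∈ s, Cone (Smo (I j)) (F j)) →
        Cone (Smo (⋃ j ∈ s, (I j : Set ℕ))) (∏ j ∈ s, F j) := by
      intro F hF
      refine MP_f9aece_nt.Cone.prod s (fun j hj => (hF j hj).mono (MP_f9aece_nt.Smo_mono ?_))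
        (MP_f9aece_nt.one_mem_Smo _) (fun a ha b hb => MP_f9aece_nt.mul_mem_Smo ha hb)
      exact Set.subset_biUnion_of_mem (u := fun j => (I j : Set ℕ)) hj
    have hdis : Disjoint (I a : Set ℕ) (⋃ j ∈ s, (I j : Set ℕ)) := by
      rw [Set.disjoint_iUnion₂_right]
      intro j hj
      rw [Finset.disjoint_coe]
      exact hI a (Finset.mem_insert_self _ _) j (Finset.mem_insert_of_mem hj)
        (by rintro rfl; exact ha hj)
    rw [MP_f9aece_nt.BK_mul K1 (hf a (Finset.mem_insert_self _ _))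
      (hg a (Finset.mem_insert_self _ _)) (hc f hf') (hc g hg')
      (MP_f9aece_nt.mulKer_K1.2 _ _ hdis)]
    rw [ih (fun i hi j hj hij =>
      hI i (Finset.mem_insert_of_mem hi) j (Finset.mem_insert_of_mem hj) hij) hf' hg']

private lemma t12_uj_ge {K : ℝ} (m j : ℕ) (hK : 1 < K) : 1 ≤ uj K m j := by
  unfold uj
  have h0 : 0 ≤ K - 1 := by linarith
  have : 0 ≤ (K - 1) * j / m := by positivity
  linarith

private lemma t12_uj_mono {K : ℝ} (m : ℕ) (hK : 1 < K) {i j : ℕ} (h : i ≤ j) :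
    uj K m i ≤ uj K m j := by
  unfold uj
  have h0 : 0 ≤ K - 1 := by linarith
  have h1 : (i : ℝ) ≤ j := by exact_mod_cast h
  have h2 : (K - 1) * i / m ≤ (K - 1) * j / m :=
    div_le_div_of_nonneg_right (mul_le_mul_of_nonneg_left h1 h0) (Nat.cast_nonneg _)
  linarith

private lemma t12_mem_Bl {K : ℝ} {m : ℕ} {Y : ℝ} {j p : ℕ} (hp : p ∈ Bl K m Y j) :
    p.Prime ∧ (p : ℝ) ≤ Real.exp (K * Y) ∧ Y * uj K m j < Real.log p ∧
      Real.log p ≤ Y * uj K m (j + 1) := by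
  unfold Bl at hp
  rw [Finset.mem_filter, Finset.mem_Icc] at hp
  obtain ⟨⟨-, h2⟩, h3, h4, h5⟩ := hp
  refine ⟨h3, ?_, h4, h5⟩
  exact (Nat.le_floor_iff (Real.exp_pos _).le).1 h2

private lemma t12_prime (K : ℝ) (m : ℕ) (Y : ℝ) (j : ℕ) : ∀ p ∈ Bl K m Y j, p.Prime :=
  fun _ hp => (t12_mem_Bl hp).1

private lemma t12_mem_Rst {K : ℝ} (hK : 1 < K) {m : ℕ} {Y : ℝ} (hY : 0 ≤ Y) {j p : ℕ}
    (hp : p ∈ Bl K m Y j) : p ∈ Rst 0 Y := by
  obtain ⟨h1, h2, h3, h4⟩ := t12_mem_Bl hp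
  rintro ⟨-, h5⟩
  have h6 : (p : ℝ) ≤ Real.exp Y := (Nat.le_floor_iff (Real.exp_pos _).le).1 h5
  have hp0 : (0 : ℝ) < p := by exact_mod_cast h1.pos
  have h7 : Real.log p ≤ Y := (Real.log_le_iff_le_exp hp0).2 h6
  have h8 := t12_uj_ge m j hK
  nlinarith

private lemma t12_disj {K : ℝ} (hK : 1 < K) {m : ℕ} {Y : ℝ} (hY : 0 ≤ Y) {i j : ℕ}
    (hij : i ≠ j) : Disjoint (Bl K m Y i) (Bl K m Y j) := by
  wlog h : i < j generalizing i j
  · exact (this hij.symm (by omega)).symm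
  rw [Finset.disjoint_left]
  intro p hp hp'
  have h1 := (t12_mem_Bl hp).2.2.2
  have h2 := (t12_mem_Bl hp').2.2.1
  have h3 := t12_uj_mono m hK (show i + 1 ≤ j by omega)
  have h4 := mul_le_mul_of_nonneg_left h3 hY
  linarith

open Pool.Agent.Lib.MP_f9aece_nt (Cone) in
private lemma t12_cone_PP {K : ℝ} (hK : 1 < K) {m : ℕ} {Y : ℝ} (hY : 0 ≤ Y) (j : ℕ) :
    Cone {n : ℕ | n ∈ Smo (Rst 0 Y) ∧ (n : ℝ) ≤ Real.exp (K * Y)} (PP (Bl K m Y j)) := by
  unfold PP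
  refine MP_f9aece_nt.Cone.sum _ fun p hp => MP_f9aece_nt.Cone.single ?_ zero_le_one
  exact ⟨MP_f9aece_nt.prime_mem_Smo (t12_mem_Bl hp).1 (t12_mem_Rst hK hY hp), (t12_mem_Bl hp).2.1⟩

/-- the limit of the forms -/
private lemma t12_lim (h10 : BlVV) (h11 : PowEn) {K : ℝ} {m : ℕ} (hK : 1 < K) (hm : 1 ≤ m)
    (a b : Fin m → ℕ) :
    Tendsto (fun Y : ℝ => BK K1 (∏ j : Fin m, PP (Bl K m Y j) ^ a j)
      (∏ j : Fin m, PP (Bl K m Y j) ^ b j)) atTop
      (𝓝 (if a = b then ∏ j : Fin m, ((a j).factorial : ℝ) * (sg K m j) ^ a j else 0)) := by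
  have h1 : ∀ Y : ℝ, 0 ≤ Y → BK K1 (∏ j : Fin m, PP (Bl K m Y j) ^ a j)
      (∏ j : Fin m, PP (Bl K m Y j) ^ b j) =
      ∏ j : Fin m, BK K1 (PP (Bl K m Y j) ^ a j) (PP (Bl K m Y j) ^ b j) := by
    intro Y hY
    refine t12_BK_prod Finset.univ (fun j : Fin m => Bl K m Y j) ?_ _ _ ?_ ?_
    · intro i _ j _ hij
      exact t12_disj hK hY (fun h => hij (Fin.ext h))
    · intro j _
      exact (MP_f9aece_nt.cone_PP_pow (t12_prime K m Y j) (a j)).mono fun n hn => hn.1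
    · intro j _
      exact (MP_f9aece_nt.cone_PP_pow (t12_prime K m Y j) (b j)).mono fun n hn => hn.1
  have h2 : ∀ j : Fin m, Tendsto (fun Y : ℝ => BK K1 (PP (Bl K m Y j) ^ a j)
      (PP (Bl K m Y j) ^ b j)) atTop
      (𝓝 (if a j = b j then ((a j).factorial : ℝ) * (sg K m j) ^ a j else 0)) := by
    intro j
    by_cases hab : a j = b j
    · rw [if_pos hab, ← hab]
      obtain ⟨-, hV, hV2⟩ := h10 K m j hK hm j.2
      refine tendsto_of_tendsto_of_tendsto_of_le_of_le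
        (g := fun Y : ℝ => ((a j).factorial : ℝ) * (VV (Bl K m Y j) ^ a j -
          (a j : ℝ) ^ 2 * V2 (Bl K m Y j) * (1 + VV (Bl K m Y j)) ^ a j))
        (h := fun Y : ℝ => ((a j).factorial : ℝ) * VV (Bl K m Y j) ^ a j) ?_ ?_ ?_ ?_
      · have h3 : Tendsto (fun Y : ℝ => ((a j).factorial : ℝ) * (VV (Bl K m Y j) ^ a j -
            (a j : ℝ) ^ 2 * V2 (Bl K m Y j) * (1 + VV (Bl K m Y j)) ^ a j)) atTop
            (𝓝 (((a j).factorial : ℝ) * ((sg K m j) ^ a j -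
              (a j : ℝ) ^ 2 * 0 * (1 + sg K m j) ^ a j))) :=
          ((hV.pow _).sub (((hV2.const_mul _)).mul ((hV.const_add 1).pow _))).const_mul _
        simpa using h3
      · exact (hV.pow _).const_mul _
      · intro Y
        exact h11 _ _ (t12_prime K m Y j)
      · intro Y
        exact MP_f9aece_nt.BK_PP_pow_self (t12_prime K m Y j) _
    · rw [if_neg hab]
      have h3 : (fun Y : ℝ => BK K1 (PP (Bl K m Y j) ^ a j) (PP (Bl K m Y j) ^ b j)) =
          fun _ => 0 := by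
        funext Y
        exact MP_f9aece_nt.BK_PP_pow_ne (t12_prime K m Y j) hab
      rw [h3]
      exact tendsto_const_nhds
  have h3 := tendsto_finsetProd (Finset.univ : Finset (Fin m)) fun j _ => h2 j
  have h4 : (∏ j : Fin m, if a j = b j then ((a j).factorial : ℝ) * (sg K m j) ^ a j else 0) =
      if a = b then ∏ j : Fin m, ((a j).factorial : ℝ) * (sg K m j) ^ a j else 0 := by
    by_cases hab : a = b
    · rw [if_pos hab]
      refine Finset.prod_congr rfl fun j _ => ?_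
      rw [if_pos (congrFun hab j)]
    · rw [if_neg hab]
      obtain ⟨j, hj⟩ := Function.ne_iff.1 hab
      exact Finset.prod_eq_zero (Finset.mem_univ j) (if_neg hj)
  rw [h4] at h3
  refine h3.congr' ?_
  filter_upwards [eventually_ge_atTop (0 : ℝ)] with Y hY
  exact (h1 Y hY).symm

theorem blMom (h10 : BlVV) (h11 : PowEn) : BlMom := by
  intro K m hK hm a b ε hε
  have hlab := t12_lim h10 h11 hK hm a b
  have hla := t12_lim h10 h11 hK hm a a
  have hlb := t12_lim h10 h11 hK hm b b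
  set g : ℝ := if a = b then ∏ j : Fin m, ((a j).factorial : ℝ) * (sg K m j) ^ a j else 0 with hg
  obtain ⟨N1, hN1⟩ := eventually_atTop.1 ((Metric.tendsto_nhds.1 hlab) (ε / 2) (by linarith))
  obtain ⟨N2, hN2⟩ := eventually_atTop.1 ((Metric.tendsto_nhds.1 hla) 1 one_pos)
  obtain ⟨N3, hN3⟩ := eventually_atTop.1 ((Metric.tendsto_nhds.1 hlb) 1 one_pos)
  set A : ℝ := if a = a then ∏ j : Fin m, ((a j).factorial : ℝ) * (sg K m j) ^ a j else 0
  set B : ℝ := if b = b then ∏ j : Fin m, ((b j).factorial : ℝ) * (sg K m j) ^ b j else 0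
  set C : ℝ := |A| + |B| + 1 with hC
  have hC0 : 0 < C := by positivity
  set s : ℝ := ((∑ j, a j : ℕ) : ℝ) + ((∑ j, b j : ℕ) : ℝ) with hs
  have hs0 : 0 ≤ s := by positivity
  refine ⟨max 1 (max (max N1 (max N2 N3)) (max (K * s) (2 * C / ε))), le_max_left _ _, ?_⟩
  set N : ℝ := max 1 (max (max N1 (max N2 N3)) (max (K * s) (2 * C / ε))) with hN
  have n0 : 1 ≤ N := le_max_left _ _
  have n1 : N1 ≤ N := (le_max_left _ _).trans ((le_max_left _ _).trans (le_max_right _ _))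
  have n2 : N2 ≤ N := ((le_max_left _ _).trans (le_max_right _ _)).trans
    ((le_max_left _ _).trans (le_max_right _ _))
  have n3 : N3 ≤ N := ((le_max_right _ _).trans (le_max_right _ _)).trans
    ((le_max_left _ _).trans (le_max_right _ _))
  have n4 : K * s ≤ N := (le_max_left _ _).trans ((le_max_right _ _).trans (le_max_right _ _))
  have n5 : 2 * C / ε ≤ N := (le_max_right _ _).trans ((le_max_right _ _).trans (le_max_right _ _))
  clear_value N
  intro ν Y X η hNY hX hη hηN hmv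
  have hY0 : 0 ≤ Y := by linarith
  set P : DP := ∏ j : Fin m, PP (Bl K m Y j) ^ a j with hP
  set Q : DP := ∏ j : Fin m, PP (Bl K m Y j) ^ b j with hQ
  have e1 : ∀ t : ℝ, ∏ j : Fin m, GB K m Y t j ^ a j = ev t P := by
    intro t
    rw [hP, map_prod]
    exact Finset.prod_congr rfl fun j _ => by rw [map_pow]; rfl
  have e2 : ∀ t : ℝ, ∏ j : Fin m, GB K m Y t j ^ b j = ev t Q := by
    intro t
    rw [hQ, map_prod]
    exact Finset.prod_congr rfl fun j _ => by rw [map_pow]; rfl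
  have hsup : ∀ c : Fin m → ℕ, ((∑ j, c j : ℕ) : ℝ) ≤ s → ∀ n,
      (∏ j : Fin m, PP (Bl K m Y j) ^ c j).coeff n ≠ 0 → n ∈ Smo (Rst 0 Y) ∧ (n : ℝ) ≤ X := by
    intro c hc n hn
    have h1 := t12_cone_prod (Real.exp_pos (K * Y)).le (Finset.univ : Finset (Fin m))
      (fun j : Fin m => PP (Bl K m Y j)) c (fun j _ => t12_cone_PP hK hY0 (j : ℕ))
    obtain ⟨h2, h3⟩ := (h1 n).2 hn
    refine ⟨h2, h3.trans ((le_of_eq (Real.exp_nat_mul _ _).symm).trans
      (le_trans (Real.exp_le_exp.2 ?_) hX))⟩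
    have h5 : ((∑ j, c j : ℕ) : ℝ) * (K * Y) ≤ s * (K * Y) :=
      mul_le_mul_of_nonneg_right hc (by positivity)
    have h6 : K * s * Y ≤ N * Y := mul_le_mul_of_nonneg_right n4 hY0
    nlinarith
  have hPs := hsup a (by rw [hs]; have : (0 : ℝ) ≤ ((∑ j, b j : ℕ) : ℝ) := Nat.cast_nonneg _
                         linarith)
  have hQs := hsup b (by rw [hs]; have : (0 : ℝ) ≤ ((∑ j, a j : ℕ) : ℝ) := Nat.cast_nonneg _
                         linarith)
  have hmain := hmv.mv P Q hPs hQs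
  have d1 := hN1 Y (n1.trans hNY)
  have d2 := hN2 Y (n2.trans hNY)
  have d3 := hN3 Y (n3.trans hNY)
  rw [Real.dist_eq] at d1 d2 d3
  have dA : En P ≤ C := by
    have h1 : |En P - A| < 1 := d2
    have h2 := (abs_lt.1 h1).2
    have h3 := le_abs_self A
    have h4 := abs_nonneg B
    linarith
  have dB : En Q ≤ C := by
    have h1 : |En Q - B| < 1 := d3
    have h2 := (abs_lt.1 h1).2
    have h3 := le_abs_self B
    have h4 := abs_nonneg A
    linarith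
  have hQ0 : 0 ≤ En Q := by
    have h1 := t12_cone_prod (Real.exp_pos (K * Y)).le (Finset.univ : Finset (Fin m))
      (fun j : Fin m => PP (Bl K m Y j)) b (fun j _ => t12_cone_PP hK hY0 (j : ℕ))
    exact MP_f9aece_nt.BK_nonneg h1 h1 MP_f9aece_nt.K1_nonneg
  have hsq : Real.sqrt (En P * En Q) ≤ C := by
    rw [Real.sqrt_le_left hC0.le, sq]
    exact mul_le_mul dA dB hQ0 hC0.le
  have hgm : gmom m (fun j : Fin m => sg K m j) a b = ((g : ℝ) : ℂ) := by
    unfold gmom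
    rw [hg]
    split_ifs
    · push_cast
      rfl
    · simp
  have hηC : η * C ≤ ε / 2 := by
    have h1 : 2 * C ≤ N * ε := by
      rwa [div_le_iff₀ hε] at n5
    have h2 : η * (2 * C) ≤ η * (N * ε) := mul_le_mul_of_nonneg_left h1 hη
    have h3 : η * N * ε ≤ 1 * ε := mul_le_mul_of_nonneg_right hηN hε.le
    nlinarith
  have hd : ‖((BK K1 P Q : ℝ) : ℂ) - ((g : ℝ) : ℂ)‖ ≤ ε / 2 := by
    rw [← Complex.ofReal_sub, Complex.norm_real]
    exact d1.le
  simp only [e1, e2]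
  rw [hgm]
  calc ‖∫ t, ev t P * conj (ev t Q) ∂ν - ((g : ℝ) : ℂ)‖
      = ‖(∫ t, ev t P * conj (ev t Q) ∂ν - ((BK K1 P Q : ℝ) : ℂ)) +
          (((BK K1 P Q : ℝ) : ℂ) - ((g : ℝ) : ℂ))‖ := by
        congr 1
        ring
    _ ≤ ‖∫ t, ev t P * conj (ev t Q) ∂ν - ((BK K1 P Q : ℝ) : ℂ)‖ +
          ‖((BK K1 P Q : ℝ) : ℂ) - ((g : ℝ) : ℂ)‖ := norm_add_le _ _
    _ ≤ η * C + ε / 2 :=
        add_le_add (hmain.trans (mul_le_mul_of_nonneg_left hsq hη)) hd
    _ ≤ ε := by linarith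

end Pool.Agent.Lib.MT
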