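import Mathlib
import Pool.Agent.Lib.MP_f9aece_nt_mt.StmtsT
import Pool.Agent.Lib.MP_f9aece_nt_ms.Coeffs

/-!
Mesoscopic moments of zeta, module T13.

D = RW - PD, a = Lam K/m, |D_n| <= 2B, |D_n| <= a for squarefree n, support in Smo (PB K Y). En_af, |af (D^q) n| <= (2B)^q (zr^q) n always and <= a^q (zr^q) n for squarefree n (every divisor is squarefree: pow_agree with a zr). Split the sum with ApSum. The same for RW with B. (about 120 lines)
-/

set_option autoImplicit false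

namespace Pool.Agent.Lib.MT

open MeasureTheory Set Filter Topology Complex
open scoped ComplexConjugate
open scoped ArithmeticFunction.Omega
open Pool.Agent.Lib.MP_f9aece_nt (DP pair BK K1 ev PP VV Smo expo)
open Pool.Agent.Lib.MP_f9aece_nt_h40 (ind)
open Pool.Agent.Lib.MP_f9aece_nt_h85 (Rst)
open Pool.Agent.Lib.MP_f9aece_nt_h97 (Psm Dsm evs)
open Pool.Agent.Lib.NL (pt B0)
open Pool.Agent.Lib.J4 (En V2)
open Pool.Agent.Lib.MS (Len MVP Par RW TZ Cut un zr ex hq af ZS)

open Pool.Agent.Lib.MS (af_apply zr_apply af_pow En_af)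

private lemma t13_mul_ne {f g : DP} {n : ℕ} (h : (f * g).coeff n ≠ 0) :
    ∃ a b, f.coeff a ≠ 0 ∧ g.coeff b ≠ 0 ∧ a * b = n := by
  classical
  have h1 := MonoidAlgebra.support_coeff_mul_subset f g (Finsupp.mem_support_iff.mpr h)
  obtain ⟨a, ha, b, hb, hab⟩ := Finset.mem_mul.mp h1
  exact ⟨a, b, Finsupp.mem_support_iff.mp ha, Finsupp.mem_support_iff.mp hb, hab⟩

private lemma t13_pow_supp {T : Set ℕ} {f : DP} (hf : ∀ n, f.coeff n ≠ 0 → n ∈ Smo T) (k : ℕ) :
    ∀ n, (f ^ k).coeff n ≠ 0 → n ∈ Smo T := by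
  induction k with
  | zero =>
    intro n hn
    rw [pow_zero, MonoidAlgebra.one_def, MonoidAlgebra.coeff_single, Finsupp.single_apply] at hn
    have h1 : n = 1 := by
      by_contra h
      exact hn (if_neg fun h' => h h'.symm)
    subst h1
    exact ⟨one_ne_zero, fun p hp hd => absurd (Nat.dvd_one.mp hd) hp.ne_one⟩
  | succ k ih =>
    intro n hn
    rw [pow_succ] at hn
    obtain ⟨a, b, ha, hb, rfl⟩ := t13_mul_ne hn
    have h1 := ih a ha
    have h3 := hf b hb
    refine ⟨mul_ne_zero h1.1 h3.1, fun p hp hd => ?_⟩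
    rcases (hp.dvd_mul).mp hd with h | h
    · exact h1.2 p hp h
    · exact h3.2 p hp h

private lemma t13_abs_pow_le {f : ArithmeticFunction ℝ} {a : ℝ} {n : ℕ}
    (hf : ∀ d, d ∣ n → |f d| ≤ a * zr d) (k : ℕ) : |(f ^ k) n| ≤ a ^ k * (zr ^ k) n := by
  have h : ∀ k : ℕ, ∀ d, d ∣ n → |(f ^ k) d| ≤ a ^ k * (zr ^ k) d := by
    intro k
    induction k with
    | zero =>
      intro d _
      rw [pow_zero, pow_zero, pow_zero, one_mul, ArithmeticFunction.one_apply]
      split_ifs <;> simp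
    | succ k ih =>
      intro d hd
      rw [pow_succ, pow_succ zr, ArithmeticFunction.mul_apply, ArithmeticFunction.mul_apply,
        Finset.mul_sum]
      refine (Finset.abs_sum_le_sum_abs _ _).trans (Finset.sum_le_sum fun p hp => ?_)
      have h1 := (Nat.mem_divisorsAntidiagonal.mp hp).1
      have h2 : p.1 ∣ n := dvd_trans ⟨p.2, h1.symm⟩ hd
      have h3 : p.2 ∣ n := dvd_trans ⟨p.1, by rw [mul_comm]; exact h1.symm⟩ hd
      rw [abs_mul]
      have h4 := ih p.1 h2
      have h5 := hf p.2 h3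
      calc |(f ^ k) p.1| * |f p.2| ≤ (a ^ k * (zr ^ k) p.1) * (a * zr p.2) :=
            mul_le_mul h4 h5 (abs_nonneg _) ((abs_nonneg _).trans h4)
        _ = a ^ (k + 1) * ((zr ^ k) p.1 * zr p.2) := by ring
  exact h k n dvd_rfl

private lemma t13_part {f : DP} {q : ℕ} {c : ℝ} (B : Finset ℕ)
    (hB : ∀ n ∈ B, n ≠ 0 ∧ ∀ d, d ∣ n → |f.coeff d| ≤ c) :
    ∑ n ∈ B, af (f ^ q) n ^ 2 * (n : ℝ)⁻¹ ≤ c ^ (2 * q) * ∑ n ∈ B, (zr ^ q) n ^ 2 * (n : ℝ)⁻¹ := by
  rw [Finset.mul_sum]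
  refine Finset.sum_le_sum fun n hn => ?_
  obtain ⟨h1, h2⟩ := hB n hn
  have h3 : |(af f ^ q) n| ≤ c ^ q * (zr ^ q) n := by
    apply t13_abs_pow_le
    intro d hd
    have hd0 : d ≠ 0 := fun h0 => h1 (by rw [h0] at hd; exact Nat.eq_zero_of_zero_dvd hd)
    rw [af_apply _ hd0, zr_apply hd0, mul_one]
    exact h2 d hd
  rw [af_pow]
  have h4 : (af f ^ q) n ^ 2 ≤ (c ^ q * (zr ^ q) n) ^ 2 := by
    rw [← sq_abs]
    exact pow_le_pow_left₀ (abs_nonneg _) h3 2
  have h5 : (0 : ℝ) ≤ (n : ℝ)⁻¹ := by positivity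
  calc (af f ^ q) n ^ 2 * (n : ℝ)⁻¹ ≤ (c ^ q * (zr ^ q) n) ^ 2 * (n : ℝ)⁻¹ :=
        mul_le_mul_of_nonneg_right h4 h5
    _ = c ^ (2 * q) * ((zr ^ q) n ^ 2 * (n : ℝ)⁻¹) := by ring

theorem appr (ha : ApCoef) (hb : ApSum) : Appr := by
  intro q K B Lam hq hK hB hLam
  obtain ⟨C0, hC0, hb⟩ := hb q K hK
  refine ⟨C0 * ((Lam * K) ^ (2 * q) + (2 * B) ^ (2 * q) + B ^ (2 * q)), by positivity, ?_⟩
  intro m hm Y hY u hu
  have hc := ha K B Lam Y m hK hm hY u hu
  have hA : 0 ≤ (Lam * K) ^ (2 * q) := by positivity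
  have hB2 : 0 ≤ (2 * B) ^ (2 * q) := by positivity
  have hB1 : 0 ≤ B ^ (2 * q) := by positivity
  constructor
  · set D := RW u 0 Y (K * Y) - PD u K m Y with hD
    have hDc : ∀ n, D.coeff n = (RW u 0 Y (K * Y)).coeff n - (PD u K m Y).coeff n := by
      intro n
      rw [hD, MonoidAlgebra.coeff_sub, Finsupp.sub_apply]
    have hsuppD : ∀ n, D.coeff n ≠ 0 → n ∈ Smo (PB K Y : Set ℕ) := by
      intro n hn
      by_cases h1 : (RW u 0 Y (K * Y)).coeff n = 0
      · by_cases h2 : (PD u K m Y).coeff n = 0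
        · exact absurd (by rw [hDc, h1, h2, sub_zero]) hn
        · exact (hc n).2.2.2.2 h2
      · exact (hc n).2.2.2.1 h1
    have hsupp := t13_pow_supp hsuppD q
    rw [En_af (f := D ^ q) fun n hn => Nat.one_le_iff_ne_zero.mpr (hsupp n hn).1]
    rw [← Finset.sum_filter_add_sum_filter_not _ (fun n => Squarefree n)]
    have e1 := t13_part (f := D) (q := q) (c := Lam * K / m)
      ((D ^ q).coeff.support.filter (fun n => Squarefree n)) (by
        intro n hn
        rw [Finset.mem_filter, Finsupp.mem_support_iff] at hn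
        exact ⟨(hsupp n hn.1).1, fun d hd => (hc d).2.2.1 (hn.2.squarefree_of_dvd hd)⟩)
    have e2 := t13_part (f := D) (q := q) (c := 2 * B)
      ((D ^ q).coeff.support.filter (fun n => ¬ Squarefree n)) (by
        intro n hn
        rw [Finset.mem_filter, Finsupp.mem_support_iff] at hn
        refine ⟨(hsupp n hn.1).1, fun d hd => ?_⟩
        rw [hDc]
        refine (abs_sub _ _).trans ?_
        linarith [(hc d).1, (hc d).2.1])
    have e3 := (hb Y hY ((D ^ q).coeff.support.filter (fun n => Squarefree n)) (by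
      intro n hn
      rw [Finset.mem_filter, Finsupp.mem_support_iff] at hn
      exact hsupp n hn.1)).1
    have e4 := (hb Y hY ((D ^ q).coeff.support.filter (fun n => ¬ Squarefree n)) (by
      intro n hn
      rw [Finset.mem_filter, Finsupp.mem_support_iff] at hn
      exact hsupp n hn.1)).2 (by
      intro n hn
      rw [Finset.mem_filter] at hn
      exact hn.2)
    have hexp : 0 ≤ Real.exp (-Y) := (Real.exp_pos _).le
    have hm0 : (0 : ℝ) ≤ (1 / m) ^ (2 * q) := by positivity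
    have e5 : (Lam * K / m) ^ (2 * q) = (Lam * K) ^ (2 * q) * (1 / (m : ℝ)) ^ (2 * q) := by
      rw [← mul_pow]
      congr 1
      ring
    have e6 := e1.trans (mul_le_mul_of_nonneg_left e3 (by rw [e5]; positivity))
    have e7 := e2.trans (mul_le_mul_of_nonneg_left e4 hB2)
    rw [e5] at e6
    refine (add_le_add e6 e7).trans ?_
    have t1 : 0 ≤ C0 * (Lam * K) ^ (2 * q) * Real.exp (-Y) := by positivity
    have t2 : 0 ≤ C0 * (2 * B) ^ (2 * q) * (1 / (m : ℝ)) ^ (2 * q) := by positivity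
    have t3 : 0 ≤ C0 * B ^ (2 * q) * ((1 / (m : ℝ)) ^ (2 * q) + Real.exp (-Y)) := by positivity
    nlinarith
  · have hsuppR : ∀ n, (RW u 0 Y (K * Y)).coeff n ≠ 0 → n ∈ Smo (PB K Y : Set ℕ) :=
      fun n hn => (hc n).2.2.2.1 hn
    have hsupp := t13_pow_supp hsuppR q
    rw [En_af (f := RW u 0 Y (K * Y) ^ q) fun n hn => Nat.one_le_iff_ne_zero.mpr (hsupp n hn).1]
    have e1 := t13_part (f := RW u 0 Y (K * Y)) (q := q) (c := B)
      ((RW u 0 Y (K * Y) ^ q).coeff.support) (by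
        intro n hn
        rw [Finsupp.mem_support_iff] at hn
        exact ⟨(hsupp n hn).1, fun d hd => (hc d).1⟩)
    have e3 := (hb Y hY ((RW u 0 Y (K * Y) ^ q).coeff.support) (by
      intro n hn
      rw [Finsupp.mem_support_iff] at hn
      exact hsupp n hn)).1
    refine (e1.trans (mul_le_mul_of_nonneg_left e3 hB1)).trans ?_
    have t1 : 0 ≤ C0 * (Lam * K) ^ (2 * q) := by positivity
    have t2 : 0 ≤ C0 * (2 * B) ^ (2 * q) := by positivity
    nlinarith

end Pool.Agent.Lib.MT
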