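import Mathlib
import Pool.Agent.Lib.MP_f9aece_nt_mt.StmtsT
import Pool.Agent.Lib.MP_f9aece_nt_ms.Coeffs

/-!
Mesoscopic moments of zeta, module T13a.

RW: coefficient u(log n/(KY)) for n <= e^(KY), n in Smo (Rst 0 Y) (all primes > e^Y, and <= n <= e^(KY)). PD: PP(Bl j_1)...PP(Bl j_r) summed over (j_1..j_r): the coefficient at n, all of whose primes lie in (e^Y, e^(KY)], Omega n = r <= floor K, is (1/r!) * number of orderings of the prime factors * u(sum of u_(j(p))/K) = u(...)/prod e_p!, otherwise 0 (the blocks Bl 0 .. Bl (m-1) partition PB K Y). For n squarefree, r = Omega n <= K: |log n/(KY) - sum u_j/K| <= r (K-1)/(m K) <= K/m as 0 <= log p/Y - u_j <= (K-1)/m; if r > floor K both coefficients vanish (n > e^(KY)). If n > e^(KY) use u = 0 on [1,oo). Suggestion: PP(Bl j) products expand as sums over tuples of primes, MonoidAlgebra.single (prod p_i). (about 300 lines)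
-/

set_option autoImplicit false

namespace Pool.Agent.Lib.MT

open MeasureTheory Set Filter Topology Complex
open scoped ComplexConjugate
open scoped ArithmeticFunction.Omega
open Pool.Agent.Lib.MP_f9aece_nt (DP pair BK K1 ev PP VV Smo expo)
open Pool.Agent.Lib.MP_f9aece_nt_h40 (ind)
open Pool.Agent.Lib.MP_f9aece_nt_h85 (Rst)
open Pool.Agent.Lib.MP_f9aece_nt_h97 (Psm Dsm evs)
open Pool.Agent.Lib.NL (pt B0)
open Pool.Agent.Lib.J4 (En V2)
open Pool.Agent.Lib.MS (Len MVP Par RW TZ Cut un zr ex hq af ZS)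

namespace T13a

private lemma uj_mono {K : ℝ} (hK : 1 < K) {m : ℕ} {j j' : ℕ} (h : j ≤ j') :
    uj K m j ≤ uj K m j' := by
  unfold uj
  have h1 : (j : ℝ) ≤ j' := by exact_mod_cast h
  have h2 : (K - 1) * j / m ≤ (K - 1) * j' / m :=
    div_le_div_of_nonneg_right (mul_le_mul_of_nonneg_left h1 (by linarith)) (Nat.cast_nonneg m)
  linarith

private lemma uj_step (K : ℝ) (m j : ℕ) : uj K m (j + 1) = uj K m j + (K - 1) / m := by
  unfold uj
  push_cast
  ring

private lemma uj_zero (K : ℝ) (m : ℕ) : uj K m 0 = 1 := by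
  unfold uj
  simp

private lemma uj_last (K : ℝ) {m : ℕ} (hm : 1 ≤ m) : uj K m m = K := by
  unfold uj
  have : (m : ℝ) ≠ 0 := by
    have : (0 : ℝ) < m := by exact_mod_cast hm
    exact this.ne'
  field_simp
  ring

private lemma mem_PB {K Y : ℝ} {p : ℕ} (hp : p ∈ PB K Y) :
    p.Prime ∧ Y < Real.log p ∧ Real.log p ≤ K * Y := by
  unfold PB at hp
  rw [Finset.mem_filter, Finset.mem_Icc] at hp
  obtain ⟨⟨h1, h2⟩, h3, h4⟩ := hp
  refine ⟨h3, h4, ?_⟩
  have h5 : (0 : ℝ) < p := by exact_mod_cast h1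
  rw [Real.log_le_iff_le_exp h5]
  exact (Nat.le_floor_iff (Real.exp_pos _).le).1 h2

private lemma bl_sub {K Y : ℝ} (hK : 1 < K) (hY : 1 ≤ Y) {m j : ℕ} : Bl K m Y j ⊆ PB K Y := by
  intro p hp
  unfold Bl at hp
  unfold PB
  rw [Finset.mem_filter] at hp ⊢
  refine ⟨hp.1, hp.2.1, lt_of_le_of_lt ?_ hp.2.2.1⟩
  have h1 := uj_mono hK (m := m) (Nat.zero_le j)
  rw [uj_zero] at h1
  nlinarith

private lemma exists_bl {K Y : ℝ} {m : ℕ} (hm : 1 ≤ m) {p : ℕ} (hp : p ∈ PB K Y) :
    ∃ j : Fin m, p ∈ Bl K m Y j := by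
  obtain ⟨h1, h2, h3⟩ := mem_PB hp
  have hex : ∃ j : ℕ, Real.log p ≤ Y * uj K m (j + 1) := by
    refine ⟨m - 1, ?_⟩
    rw [Nat.sub_add_cancel hm, uj_last K hm, mul_comm]
    exact h3
  classical
  have hle : Nat.find hex ≤ m - 1 := Nat.find_min' hex (by
    rw [Nat.sub_add_cancel hm, uj_last K hm, mul_comm]
    exact h3)
  refine ⟨⟨Nat.find hex, by omega⟩, ?_⟩
  unfold Bl
  rw [Finset.mem_filter]
  unfold PB at hp
  rw [Finset.mem_filter] at hp
  refine ⟨hp.1, h1, ?_, Nat.find_spec hex⟩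
  rcases Nat.eq_zero_or_pos (Nat.find hex) with h | h
  · simp only
    rw [h, uj_zero, mul_one]
    exact h2
  · have h4 := Nat.find_min hex (Nat.sub_lt h one_pos)
    rw [not_le, Nat.sub_add_cancel (show 1 ≤ Nat.find hex from h)] at h4
    exact h4

private lemma bl_uniq {K Y : ℝ} (hK : 1 < K) (hY : 1 ≤ Y) {m p : ℕ} {j j' : Fin m}
    (h : p ∈ Bl K m Y j) (h' : p ∈ Bl K m Y j') : j = j' := by
  have key : ∀ j j' : ℕ, p ∈ Bl K m Y j → p ∈ Bl K m Y j' → j' ≤ j := by
    intro j j' h h'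
    by_contra hc
    push Not at hc
    unfold Bl at h h'
    rw [Finset.mem_filter] at h h'
    have h1 := uj_mono hK (m := m) (Nat.succ_le_of_lt hc)
    have h2 : Y * uj K m (j + 1) ≤ Y * uj K m j' := mul_le_mul_of_nonneg_left h1 (by linarith)
    linarith [h.2.2.2, h'.2.2.1]
  exact Fin.ext (le_antisymm (key _ _ h' h) (key _ _ h h'))

private lemma exists_J {K Y : ℝ} (hK : 1 < K) (hY : 1 ≤ Y) {m : ℕ} (hm : 1 ≤ m) :
    ∃ J : ℕ → Fin m, ∀ p ∈ PB K Y, ∀ j : Fin m, p ∈ Bl K m Y j ↔ J p = j := by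
  classical
  refine ⟨fun p => if h : ∃ j : Fin m, p ∈ Bl K m Y j then h.choose else ⟨0, hm⟩,
    fun p hp j => ?_⟩
  have hex := exists_bl hm hp
  simp only [dif_pos hex]
  constructor
  · intro h
    exact bl_uniq hK hY hex.choose_spec h
  · rintro rfl
    exact hex.choose_spec

private lemma prod_PP {r : ℕ} (t : Fin r → Finset ℕ) :
    ∏ i, PP (t i) = ∑ p ∈ Fintype.piFinset t, (MonoidAlgebra.single (∏ i, p i) (1 : ℝ) : DP) := by
  classical
  unfold PP
  rw [Finset.prod_univ_sum]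
  refine Finset.sum_congr rfl fun p _ => ?_
  exact (map_prod (MonoidAlgebra.of ℝ ℕ) p Finset.univ).symm

private lemma PP_pow (r : ℕ) (S : Finset ℕ) :
    PP S ^ r = ∑ p ∈ Fintype.piFinset (fun _ : Fin r => S),
      (MonoidAlgebra.single (∏ i, p i) (1 : ℝ) : DP) := by
  rw [← prod_PP]
  simp

private lemma coeff_sum' {ι : Type} (s : Finset ι) (f : ι → DP) (n : ℕ) :
    (∑ i ∈ s, f i).coeff n = ∑ i ∈ s, (f i).coeff n := by
  classical
  induction s using Finset.induction_on with
  | empty => simp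
  | insert a s ha ih =>
    rw [Finset.sum_insert ha, Finset.sum_insert ha, MonoidAlgebra.coeff_add, Finsupp.add_apply, ih]

private lemma coeff_smul' (c : ℝ) (f : DP) (n : ℕ) : (c • f).coeff n = c * f.coeff n := by
  rw [MonoidAlgebra.coeff_smul, Finsupp.smul_apply, smul_eq_mul]

/-- the completely additive function -/
private noncomputable def hf (g : ℕ → ℝ) (n : ℕ) : ℝ := (n.primeFactorsList.map g).sum

private lemma hf_prod (g : ℕ → ℝ) {r : ℕ} (p : Fin r → ℕ) (hp : ∀ i, (p i).Prime) :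
    hf g (∏ i, p i) = ∑ i, g (p i) := by
  have h1 : (List.ofFn p).Perm (∏ i, p i).primeFactorsList := by
    apply Nat.primeFactorsList_unique
    · exact List.prod_ofFn
    · intro q hq
      rw [List.mem_ofFn] at hq
      obtain ⟨i, rfl⟩ := hq
      exact hp i
  unfold hf
  rw [← (h1.map g).sum_eq, List.map_ofFn, List.sum_ofFn]
  rfl

private lemma PD_coeff {K Y : ℝ} (hK : 1 < K) (hY : 1 ≤ Y) {m : ℕ} (u : ℝ → ℝ)
    (J : ℕ → Fin m) (hJ : ∀ p ∈ PB K Y, ∀ j : Fin m, p ∈ Bl K m Y j ↔ J p = j) (n : ℕ) :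
    (PD u K m Y).coeff n =
      u (hf (fun p => uj K m (J p)) n / K) * (expo 1 ⌊K⌋₊ (PB K Y)).coeff n := by
  classical
  have key : ∀ r : ℕ, (∑ j : Fin r → Fin m, u ((∑ i, uj K m (j i)) / K) •
      ∏ i, PP (Bl K m Y (j i))).coeff n =
      u (hf (fun p => uj K m (J p)) n / K) * (PP (PB K Y) ^ r).coeff n := by
    intro r
    rw [coeff_sum', PP_pow, coeff_sum', Finset.mul_sum,
      ← Finset.sum_fiberwise (Fintype.piFinset (fun _ : Fin r => PB K Y))
        (fun p : Fin r → ℕ => fun i => J (p i))]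
    refine Finset.sum_congr rfl fun j _ => ?_
    have hset : (Fintype.piFinset (fun _ : Fin r => PB K Y)).filter
        (fun p => (fun i => J (p i)) = j) = Fintype.piFinset fun i => Bl K m Y (j i) := by
      ext p
      rw [Finset.mem_filter, Fintype.mem_piFinset, Fintype.mem_piFinset]
      constructor
      · rintro ⟨h1, h2⟩ i
        exact (hJ _ (h1 i) _).2 (congrFun h2 i)
      · intro h
        have h1 : ∀ i, p i ∈ PB K Y := fun i => bl_sub hK hY (h i)
        exact ⟨h1, funext fun i => (hJ _ (h1 i) _).1 (h i)⟩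
    rw [hset, coeff_smul', prod_PP, coeff_sum', Finset.mul_sum]
    refine Finset.sum_congr rfl fun p hp => ?_
    rw [Fintype.mem_piFinset] at hp
    rw [MonoidAlgebra.coeff_single, Finsupp.single_apply]
    split_ifs with h
    · rw [← h, hf_prod _ p fun i => (mem_PB (bl_sub hK hY (hp i))).1]
      have h1 : ∀ i, J (p i) = j i := fun i => (hJ _ (bl_sub hK hY (hp i)) _).1 (hp i)
      simp only [h1]
    · simp
  unfold PD expo
  rw [coeff_sum', coeff_sum', Finset.mul_sum]
  refine Finset.sum_congr rfl fun r _ => ?_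
  rw [coeff_smul', coeff_smul', key r, one_pow, one_div]
  ring

private lemma PB_prime {K Y : ℝ} : ∀ p ∈ PB K Y, p.Prime := fun _ hp => (mem_PB hp).1

private lemma expo_coeff {K Y : ℝ} (M n : ℕ) (h : (expo 1 M (PB K Y)).coeff n ≠ 0) :
    n ∈ Smo (PB K Y : Set ℕ) ∧ Ω n ≤ M := by
  unfold expo at h
  rw [coeff_sum'] at h
  obtain ⟨r, hr, h1⟩ := Finset.exists_ne_zero_of_sum_ne_zero h
  rw [coeff_smul'] at h1
  have h2 := (MP_f9aece_nt.cone_PP_pow PB_prime r n).2 (right_ne_zero_of_mul h1)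
  rw [Finset.mem_range] at hr
  exact ⟨h2.1, by have := h2.2; omega⟩

private lemma expo_val {K Y : ℝ} {M n : ℕ} (h : n ∈ Smo (PB K Y : Set ℕ)) (h2 : Ω n ≤ M) :
    (expo 1 M (PB K Y)).coeff n = ex 1 n := by
  rw [← MS.af_apply _ h.1, MS.af_expo PB_prime, if_pos ⟨h, h2⟩]

private lemma ex_mem {n : ℕ} (hn : n ≠ 0) : 0 ≤ ex 1 n ∧ ex 1 n ≤ 1 := by
  rw [MS.ex_apply 1 hn]
  constructor
  · exact Finset.prod_nonneg fun p _ => by positivity
  · refine Finset.prod_le_one (fun p _ => by positivity) fun p _ => ?_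
    rw [one_pow, div_le_one (by positivity)]
    exact_mod_cast Nat.one_le_iff_ne_zero.2 (Nat.factorial_ne_zero _)

private lemma ex_sqf {n : ℕ} (hn : Squarefree n) : ex 1 n = 1 := by
  rw [MS.ex_apply 1 hn.ne_zero]
  refine Finset.prod_eq_one fun p hp => ?_
  have h1 := hn.natFactorization_le_one p
  have h2 : n.factorization p = 0 ∨ n.factorization p = 1 := by omega
  rcases h2 with h2 | h2 <;> rw [h2] <;> simp

private lemma Smo_Rst {K Y : ℝ} {n : ℕ} (h : n ∈ Smo (PB K Y : Set ℕ)) : n ∈ Smo (Rst 0 Y) := by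
  refine ⟨h.1, fun p hp hd => ?_⟩
  obtain ⟨h1, h2, h3⟩ := mem_PB (h.2 p hp hd)
  rintro ⟨h4, h5⟩
  have h6 : (p : ℝ) ≤ Real.exp Y := (Nat.le_floor_iff (Real.exp_pos _).le).1 h5
  have h7 : (0 : ℝ) < p := by exact_mod_cast h1.pos
  have h8 := (Real.log_le_iff_le_exp h7).2 h6
  linarith

private lemma Smo_PB {K Y : ℝ} {n : ℕ} (h : n ∈ Smo (Rst 0 Y)) (h' : n ≤ ⌊Real.exp (K * Y)⌋₊) :
    n ∈ Smo (PB K Y : Set ℕ) := by
  refine ⟨h.1, fun p hp hd => ?_⟩
  have h1 := h.2 p hp hd
  have h2 : ¬ (0 < p ∧ p ≤ ⌊Real.exp Y⌋₊) := h1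
  have h3 : ⌊Real.exp Y⌋₊ < p := by
    by_contra hc
    exact h2 ⟨hp.pos, not_lt.1 hc⟩
  have h4 : Real.exp Y < p := Nat.lt_of_floor_lt h3
  rw [Finset.mem_coe]
  unfold PB
  rw [Finset.mem_filter, Finset.mem_Icc]
  refine ⟨⟨hp.one_lt.le, (Nat.le_of_dvd (Nat.pos_of_ne_zero h.1) hd).trans h'⟩, hp, ?_⟩
  have h5 : (0 : ℝ) < p := by exact_mod_cast hp.pos
  exact (Real.lt_log_iff_exp_lt h5).2 h4

private lemma RW_coeff (u : ℝ → ℝ) (Y L : ℝ) (n : ℕ) [Decidable (n ∈ Smo (Rst 0 Y))] :
    (RW u 0 Y L).coeff n =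
      if (1 ≤ n ∧ n ≤ ⌊Real.exp L⌋₊) ∧ n ∈ Smo (Rst 0 Y) then u (Real.log n / L) else 0 := by
  classical
  unfold RW
  rw [coeff_sum']
  simp only [MonoidAlgebra.coeff_single, Finsupp.single_apply]
  rw [Finset.sum_ite_eq']
  simp only [Finset.mem_filter, Finset.mem_Icc]

private lemma log_list {n : ℕ} (hn : n ≠ 0) : Real.log n = hf (fun p => Real.log p) n := by
  have h1 : ∀ l : List ℕ, (∀ p ∈ l, p ≠ 0) →
      Real.log ((l.prod : ℕ) : ℝ) = (l.map fun p : ℕ => Real.log (p : ℝ)).sum := by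
    intro l
    induction l with
    | nil => intro _; simp
    | cons a l ih =>
      intro h
      rw [List.prod_cons, List.map_cons, List.sum_cons, ← ih fun p hp => h p (List.mem_cons_of_mem _ hp),
        Nat.cast_mul]
      refine Real.log_mul ?_ ?_
      · exact_mod_cast h a List.mem_cons_self
      · have h2 : l.prod ≠ 0 := by
          rw [Ne, List.prod_eq_zero_iff]
          intro h3
          exact h 0 (List.mem_cons_of_mem _ h3) rfl
        exact Nat.cast_ne_zero.2 h2
  have h2 := h1 n.primeFactorsList fun p hp => (Nat.prime_of_mem_primeFactorsList hp).ne_zero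
  rw [Nat.prod_primeFactorsList hn] at h2
  exact h2

private lemma list_bd {c : ℝ} (f g : ℕ → ℝ) (l : List ℕ) (h : ∀ p ∈ l, |f p - g p| ≤ c) :
    |(l.map f).sum - (l.map g).sum| ≤ l.length * c := by
  induction l with
  | nil => simp
  | cons a l ih =>
    rw [List.map_cons, List.map_cons, List.sum_cons, List.sum_cons, List.length_cons]
    have h1 := ih fun p hp => h p (List.mem_cons_of_mem _ hp)
    have h2 := h a List.mem_cons_self
    have h3 : f a + (l.map f).sum - (g a + (l.map g).sum) =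
        (f a - g a) + ((l.map f).sum - (l.map g).sum) := by ring
    rw [h3]
    refine (abs_add_le _ _).trans ?_
    push_cast
    linarith

private lemma list_ge {c : ℝ} (f : ℕ → ℝ) (l : List ℕ) (h : ∀ p ∈ l, c ≤ f p) :
    l.length * c ≤ (l.map f).sum := by
  induction l with
  | nil => simp
  | cons a l ih =>
    rw [List.map_cons, List.sum_cons, List.length_cons]
    have h1 := ih fun p hp => h p (List.mem_cons_of_mem _ hp)
    have h2 := h a List.mem_cons_self
    push_cast
    linarith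

end T13a

theorem apCoef : ApCoef := by
  classical
  intro K B Lam Y m hK hm hY u hu n
  obtain ⟨J, hJ⟩ := T13a.exists_J hK hY hm
  have hPD := T13a.PD_coeff hK hY u J hJ n
  have hRW := T13a.RW_coeff u Y (K * Y) n
  have hB : 0 ≤ B := (abs_nonneg _).trans (hu.bd 0)
  have hLam : 0 ≤ Lam := by
    have := (abs_nonneg _).trans (hu.lip 1 0)
    simpa using this
  have hm0 : (0 : ℝ) < m := by exact_mod_cast hm
  have hKY : 0 < K * Y := by
    have h2 : 0 < Y := by linarith
    have h1 : 0 < K := by linarith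
    positivity
  refine ⟨?_, ?_, ?_, ?_, ?_⟩
  · rw [hRW]
    split_ifs
    · exact hu.bd _
    · simpa using hB
  · rw [hPD]
    by_cases h : (expo 1 ⌊K⌋₊ (PB K Y)).coeff n = 0
    · rw [h, mul_zero, abs_zero]
      exact hB
    · obtain ⟨h1, h2⟩ := T13a.expo_coeff _ _ h
      rw [T13a.expo_val h1 h2, abs_mul]
      obtain ⟨h3, h4⟩ := T13a.ex_mem h1.1
      rw [abs_of_nonneg h3]
      exact (mul_le_of_le_one_right (abs_nonneg _) h4).trans (hu.bd _)
  · intro hsq
    have hn0 : n ≠ 0 := hsq.ne_zero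
    have hgoal0 : 0 ≤ Lam * K / m := by
      have : 0 < K := by linarith
      positivity
    have hsub : (RW u 0 Y (K * Y) - PD u K m Y).coeff n =
        (RW u 0 Y (K * Y)).coeff n - (PD u K m Y).coeff n := by
      rw [MonoidAlgebra.coeff_sub, Finsupp.sub_apply]
    rw [hsub]
    by_cases hS : n ∈ Smo (PB K Y : Set ℕ)
    · have hn1 : 1 ≤ n := Nat.one_le_iff_ne_zero.2 hn0
      have hR := T13a.Smo_Rst hS
      have hn2 : (0 : ℝ) < n := by exact_mod_cast hn1
      have hRW' : (RW u 0 Y (K * Y)).coeff n = u (Real.log n / (K * Y)) := by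
        rw [hRW]
        split_ifs with h
        · rfl
        · have h1 : ¬ n ≤ ⌊Real.exp (K * Y)⌋₊ := fun h1 => h ⟨⟨hn1, h1⟩, hR⟩
          rw [Nat.le_floor_iff (Real.exp_pos _).le, not_le] at h1
          have h2 : K * Y < Real.log n := (Real.lt_log_iff_exp_lt hn2).2 h1
          rw [hu.zero _ ((one_le_div hKY).2 h2.le)]
      have hmem : ∀ p ∈ n.primeFactorsList, p ∈ PB K Y := fun p hp =>
        hS.2 p (Nat.prime_of_mem_primeFactorsList hp) (Nat.dvd_of_mem_primeFactorsList hp)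
      have hlen : (Ω n : ℝ) = n.primeFactorsList.length := by
        rw [ArithmeticFunction.cardFactors_apply]
      have hlog := T13a.log_list hn0
      by_cases hO : Ω n ≤ ⌊K⌋₊
      · rw [hRW', hPD, T13a.expo_val hS hO, T13a.ex_sqf hsq, mul_one]
        refine (hu.lip _ _).trans ?_
        have hOK : (Ω n : ℝ) ≤ K :=
          (Nat.le_floor_iff (by linarith)).1 hO
        have h1 : |T13a.hf (fun p => Real.log p / Y) n - T13a.hf (fun p => uj K m (J p)) n| ≤
            n.primeFactorsList.length * ((K - 1) / m) := by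
          refine T13a.list_bd _ _ _ fun p hp => ?_
          have h2 := (hJ p (hmem p hp) (J p)).2 rfl
          unfold Bl at h2
          rw [Finset.mem_filter] at h2
          obtain ⟨-, -, h3, h4⟩ := h2
          have hY0 : 0 < Y := by linarith
          rw [T13a.uj_step] at h4
          have h5 : uj K m (J p) < Real.log p / Y := by
            rw [lt_div_iff₀ hY0, mul_comm]
            exact h3
          have h6 : Real.log p / Y ≤ uj K m (J p) + (K - 1) / m := by
            rw [div_le_iff₀ hY0, mul_comm]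
            exact h4
          rw [abs_le]
          constructor <;> linarith
        have h2 : T13a.hf (fun p => Real.log p / Y) n = Real.log n / Y := by
          rw [hlog]
          unfold T13a.hf
          simp only [div_eq_mul_inv]
          rw [List.sum_map_mul_right]
        have h3 : Real.log n / (K * Y) - T13a.hf (fun p => uj K m (J p)) n / K =
            (T13a.hf (fun p => Real.log p / Y) n - T13a.hf (fun p => uj K m (J p)) n) / K := by
          rw [h2]
          field_simp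
        have hK0 : 0 < K := by linarith
        rw [h3, abs_div, abs_of_pos hK0, mul_div_assoc]
        refine mul_le_mul_of_nonneg_left ?_ hLam
        rw [div_le_iff₀ hK0]
        refine h1.trans ?_
        rw [← hlen]
        have h4 : 0 ≤ (K - 1) / m := by
          have : 0 ≤ K - 1 := by linarith
          positivity
        have h5 : (K - 1) / m ≤ K / m := div_le_div_of_nonneg_right (by linarith) hm0.le
        calc (Ω n : ℝ) * ((K - 1) / m) ≤ K * (K / m) := mul_le_mul hOK h5 h4 hK0.le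
          _ = K / m * K := by ring
      · have h1 : (expo 1 ⌊K⌋₊ (PB K Y)).coeff n = 0 := by
          by_contra hc
          exact hO (T13a.expo_coeff _ _ hc).2
        have h2 : n.primeFactorsList.length * Y ≤ Real.log n := by
          rw [hlog]
          exact T13a.list_ge _ _ fun p hp => (T13a.mem_PB (hmem p hp)).2.1.le
        have h3 : K < Ω n := by
          have := (Nat.floor_lt (by linarith : (0 : ℝ) ≤ K)).1 (not_le.1 hO)
          exact this
        have h4 : K * Y ≤ Real.log n := by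
          rw [← hlen] at h2
          have : K * Y ≤ (Ω n : ℝ) * Y := mul_le_mul_of_nonneg_right h3.le (by linarith)
          linarith
        rw [hRW', hPD, h1, mul_zero, hu.zero _ ((one_le_div hKY).2 h4), sub_zero, abs_zero]
        exact hgoal0
    · have h1 : (expo 1 ⌊K⌋₊ (PB K Y)).coeff n = 0 := by
        by_contra hc
        exact hS (T13a.expo_coeff _ _ hc).1
      have h2 : ¬ ((1 ≤ n ∧ n ≤ ⌊Real.exp (K * Y)⌋₊) ∧ n ∈ Smo (Rst 0 Y)) := fun h =>
        hS (T13a.Smo_PB h.2 h.1.2)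
      rw [hRW, if_neg h2, hPD, h1, mul_zero, sub_zero, abs_zero]
      exact hgoal0
  · intro h
    rw [hRW] at h
    have h1 : (1 ≤ n ∧ n ≤ ⌊Real.exp (K * Y)⌋₊) ∧ n ∈ Smo (Rst 0 Y) := by
      by_contra hc
      exact h (if_neg hc)
    exact T13a.Smo_PB h1.2 h1.1.2
  · intro h
    rw [hPD] at h
    exact (T13a.expo_coeff _ _ (right_ne_zero_of_mul h)).1

end Pool.Agent.Lib.MT
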