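import Mathlib
import Pool.Agent.Lib.MP_f9aece_nt_mt.StmtsT
import Pool.Agent.Lib.MP_f9aece_nt_ms.Coeffs
import Pool.Agent.Lib.MP_f9aece_nt_h6.Groups

/-!
Mesoscopic moments of zeta, module T13b.

MS.EnW with c = 0, y_p = 1/p, S = PB K Y: sum <= exp(q^2 VV + C V2), VV (PB K Y) <= log K + C for Y >= 1 (MP_f9aece_nt_h6.VV_le_log or Mertens), V2 <= 2. (MS.hq q 0 = zr^q: hq_zero or ex_zero.) Non-squarefree n in Smo: n = p^2 m with p in PB: (zr^q)(p^2 m) <= (zr^q)(p^2) (zr^q) m (submultiplicativity of the divisor functions; or take weights y_p = 2^? trick: n not squarefree means some exponent >= 2, so 1 <= sum_p 1[p^2 | n], and factor the sum over the exponent of p), sum_p (zr^q(p^2))^2/p^2 <= C e^(-Y) since p > e^Y. (about 200 lines)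
-/

set_option autoImplicit false

namespace Pool.Agent.Lib.MT

open MeasureTheory Set Filter Topology Complex
open scoped ComplexConjugate
open scoped ArithmeticFunction.Omega
open Pool.Agent.Lib.MP_f9aece_nt (DP pair BK K1 ev PP VV Smo expo)
open Pool.Agent.Lib.MP_f9aece_nt_h40 (ind)
open Pool.Agent.Lib.MP_f9aece_nt_h85 (Rst)
open Pool.Agent.Lib.MP_f9aece_nt_h97 (Psm Dsm evs)
open Pool.Agent.Lib.NL (pt B0)
open Pool.Agent.Lib.J4 (En V2)
open Pool.Agent.Lib.MS (Len MVP Par RW TZ Cut un zr ex hq af ZS)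

private theorem t13b_inv {S : Finset ℕ} {n : ℕ} (hn : n ∈ Smo (S : Set ℕ)) :
    (n : ℝ)⁻¹ = ∏ p ∈ S, ((p : ℝ)⁻¹) ^ n.factorization p := by
  classical
  have h1 : n.primeFactors ⊆ S := by
    intro p hp
    exact hn.2 p (Nat.prime_of_mem_primeFactors hp) (Nat.dvd_of_mem_primeFactors hp)
  rw [← Finset.prod_subset h1]
  · nth_rewrite 1 [← Nat.prod_factorization_pow_eq_self hn.1]
    rw [Finsupp.prod, Nat.support_factorization]
    push_cast
    rw [← Finset.prod_inv_distrib]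
    exact Finset.prod_congr rfl fun p _ => by rw [inv_pow]
  · intro p _ hp
    have : n.factorization p = 0 := by
      rw [← Finsupp.notMem_support_iff, Nat.support_factorization]
      exact hp
    rw [this, pow_zero]

theorem apSum (h : MS.EnW) : ApSum := by
  classical
  intro q K hK
  obtain ⟨C, hC, hE⟩ := h q 0 le_rfl
  have hlogK : 0 < Real.log K := Real.log_pos hK
  -- bound for the sum of the reciprocals
  obtain ⟨W, hW0, hW⟩ : ∃ W : ℝ, 0 ≤ W ∧ ∀ Y : ℝ, 1 ≤ Y → VV (PB K Y) ≤ W := by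
    refine ⟨1 + Real.log K + Real.log 4, ?_, fun Y hY => ?_⟩
    · have : 0 ≤ Real.log 4 := Real.log_nonneg (by norm_num)
      linarith
    · have hY0 : 0 < Y := by linarith
      have h1 := MP_f9aece_nt_h6.VV_le_log (y := Y) (Y := K * Y) hY0 (by nlinarith) (PB K Y)
        (by
          intro p hp
          unfold PB at hp
          rw [Finset.mem_filter, Finset.mem_Icc] at hp
          refine ⟨hp.2.1, hp.2.2, ?_⟩
          have hp0 : (0 : ℝ) < p := by exact_mod_cast hp.2.1.pos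
          rw [Real.log_le_iff_le_exp hp0]
          exact (Nat.le_floor_iff (Real.exp_pos _).le).1 hp.1.2)
      have h2 : K * Y / Y = K := by field_simp
      rw [h2] at h1
      have h3 : Real.log 4 / Y ≤ Real.log 4 := div_le_self (Real.log_nonneg (by norm_num)) hY
      linarith
  obtain ⟨C1, hC1⟩ : ∃ C1 : ℝ, C1 = Real.exp (q ^ 2 * W + C * W) := ⟨_, rfl⟩
  obtain ⟨C2, hC2⟩ : ∃ C2 : ℝ, C2 = Real.exp (q ^ 2 * (W + 1 / 2) + C * (W + 1 / 4)) := ⟨_, rfl⟩
  have hC1p : 0 < C1 := by rw [hC1]; exact Real.exp_pos _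
  have hC2p : 0 < C2 := by rw [hC2]; exact Real.exp_pos _
  refine ⟨C1 + 4 * C2 * W, by positivity, fun Y hY F hF => ?_⟩
  have hprime : ∀ p ∈ PB K Y, p.Prime ∧ Y < Real.log p := by
    intro p hp
    unfold PB at hp
    rw [Finset.mem_filter] at hp
    exact hp.2
  have hp2 : ∀ p ∈ PB K Y, (2 : ℝ) ≤ p := fun p hp => by exact_mod_cast (hprime p hp).1.two_le
  have hpe : ∀ p ∈ PB K Y, (p : ℝ)⁻¹ ≤ Real.exp (-Y) := by
    intro p hp
    have hp0 : (0 : ℝ) < p := by linarith [hp2 p hp]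
    rw [Real.exp_neg]
    refine inv_anti₀ (Real.exp_pos _) ?_
    exact ((Real.lt_log_iff_exp_lt hp0).1 (hprime p hp).2).le
  have hV := hW Y hY
  have hpos : ∀ p : ℕ, 0 ≤ (p : ℝ)⁻¹ := fun p => by positivity
  have hV2 : ∑ p ∈ PB K Y, ((p : ℝ)⁻¹) ^ 2 ≤ Real.exp (-Y) * VV (PB K Y) := by
    unfold VV
    rw [Finset.mul_sum]
    refine Finset.sum_le_sum fun p hp => ?_
    rw [sq]
    exact mul_le_mul_of_nonneg_right (hpe p hp) (hpos p)
  have hVnn : 0 ≤ VV (PB K Y) := Finset.sum_nonneg fun p _ => hpos p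
  have hV2' : ∑ p ∈ PB K Y, ((p : ℝ)⁻¹) ^ 2 ≤ W := by
    refine hV2.trans ((mul_le_of_le_one_left hVnn ?_).trans hV)
    rw [Real.exp_le_one_iff]
    linarith
  have hzr : ∀ n : ℕ, (zr ^ q) n = hq q 0 n := by
    intro n
    rw [MS.hq_zero]
  constructor
  · have h1 := hE (PB K Y) (fun p hp => (hprime p hp).1) (fun p => (p : ℝ)⁻¹) (fun p hp => by
      refine ⟨hpos p, ?_⟩
      have := hp2 p hp
      have h2 : (p : ℝ)⁻¹ ≤ 2⁻¹ := inv_anti₀ (by norm_num) this
      linarith) 0 (by simp) F hF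
    have h2 : ∑ n ∈ F, (zr ^ q) n ^ 2 * (n : ℝ)⁻¹ =
        ∑ n ∈ F, hq q 0 n ^ 2 * ∏ p ∈ PB K Y, ((p : ℝ)⁻¹) ^ n.factorization p := by
      refine Finset.sum_congr rfl fun n hn => ?_
      rw [hzr, ← t13b_inv (hF n hn)]
    rw [h2]
    refine (h1.trans ?_).trans (le_add_of_nonneg_right (by positivity : 0 ≤ 4 * C2 * W))
    rw [hC1]
    refine Real.exp_le_exp.2 ?_
    rw [Finset.sum_add_distrib, ← Finset.mul_sum, ← Finset.mul_sum, add_zero]
    refine add_le_add (mul_le_mul_of_nonneg_left hV (by positivity))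
      (mul_le_mul_of_nonneg_left hV2' hC)
  · intro hns
    -- one prime with exponent at least two
    have h1 : ∀ n ∈ F, 1 ≤ ∑ p ∈ PB K Y, if 2 ≤ n.factorization p then (1 : ℝ) else 0 := by
      intro n hn
      obtain ⟨p, hp, hpn⟩ : ∃ p, p.Prime ∧ p * p ∣ n := by
        by_contra hcon
        push Not at hcon
        exact hns n hn (Nat.squarefree_iff_prime_squarefree.2 fun p hp => hcon p hp)
      have hpS : p ∈ PB K Y := (hF n hn).2 p hp (Dvd.dvd.trans (dvd_mul_left p p) hpn)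
      have h2 : 2 ≤ n.factorization p := by
        rw [← hp.pow_dvd_iff_le_factorization (hF n hn).1, sq]
        exact hpn
      refine le_trans (by rw [if_pos h2] : (1 : ℝ) ≤ if 2 ≤ n.factorization p then (1 : ℝ) else 0)
        (Finset.single_le_sum (f := fun p => if 2 ≤ n.factorization p then (1 : ℝ) else 0)
          (fun p _ => by split_ifs <;> norm_num) hpS)
    have h2 : ∑ n ∈ F, (zr ^ q) n ^ 2 * (n : ℝ)⁻¹ ≤ ∑ p ∈ PB K Y, ∑ n ∈ F,
        if 2 ≤ n.factorization p then (zr ^ q) n ^ 2 * (n : ℝ)⁻¹ else 0 := by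
      rw [Finset.sum_comm]
      refine Finset.sum_le_sum fun n hn => ?_
      have h3 : 0 ≤ (zr ^ q) n ^ 2 * (n : ℝ)⁻¹ := by positivity
      have h4 : ∑ p ∈ PB K Y, (if 2 ≤ n.factorization p then (zr ^ q) n ^ 2 * (n : ℝ)⁻¹ else 0) =
          (zr ^ q) n ^ 2 * (n : ℝ)⁻¹ *
            ∑ p ∈ PB K Y, if 2 ≤ n.factorization p then (1 : ℝ) else 0 := by
        rw [Finset.mul_sum]
        refine Finset.sum_congr rfl fun p _ => ?_
        split_ifs <;> simp
      rw [h4]
      exact le_mul_of_one_le_right h3 (h1 n hn)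
    have h3 : ∀ p ∈ PB K Y, ∑ n ∈ F,
        (if 2 ≤ n.factorization p then (zr ^ q) n ^ 2 * (n : ℝ)⁻¹ else 0) ≤
          4 * C2 * ((p : ℝ)⁻¹) ^ 2 := by
      intro p hp
      have hp0 : (0 : ℝ) < p := by linarith [hp2 p hp]
      have h4 := hE (PB K Y) (fun p hp => (hprime p hp).1)
        (fun r => if r = p then 1 / 2 else (r : ℝ)⁻¹) (fun r hr => by
          split_ifs
          · norm_num
          · refine ⟨hpos r, ?_⟩
            have := hp2 r hr
            have h2 : (r : ℝ)⁻¹ ≤ 2⁻¹ := inv_anti₀ (by norm_num) this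
            linarith) 0 (by simp) F hF
      have h5 : ∑ n ∈ F, (if 2 ≤ n.factorization p then (zr ^ q) n ^ 2 * (n : ℝ)⁻¹ else 0) ≤
          4 * ((p : ℝ)⁻¹) ^ 2 * ∑ n ∈ F, hq q 0 n ^ 2 * ∏ r ∈ PB K Y,
            (if r = p then 1 / 2 else (r : ℝ)⁻¹) ^ n.factorization r := by
        rw [Finset.mul_sum]
        refine Finset.sum_le_sum fun n hn => ?_
        have hprod : 0 ≤ ∏ r ∈ PB K Y,
            (if r = p then 1 / 2 else (r : ℝ)⁻¹) ^ n.factorization r := by
          refine Finset.prod_nonneg fun r _ => pow_nonneg ?_ _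
          split_ifs
          · norm_num
          · exact hpos r
        split_ifs with h2n
        · rw [hzr]
          have h6 : (n : ℝ)⁻¹ ≤ 4 * ((p : ℝ)⁻¹) ^ 2 * ∏ r ∈ PB K Y,
              (if r = p then 1 / 2 else (r : ℝ)⁻¹) ^ n.factorization r := by
            rw [t13b_inv (hF n hn), ← Finset.mul_prod_erase _ _ hp,
              ← Finset.mul_prod_erase (PB K Y) (fun r =>
                (if r = p then 1 / 2 else (r : ℝ)⁻¹) ^ n.factorization r) hp]
            have h7 : ∏ r ∈ (PB K Y).erase p,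
                (if r = p then 1 / 2 else (r : ℝ)⁻¹) ^ n.factorization r =
                  ∏ r ∈ (PB K Y).erase p, ((r : ℝ)⁻¹) ^ n.factorization r := by
              refine Finset.prod_congr rfl fun r hr => ?_
              rw [if_neg (Finset.ne_of_mem_erase hr)]
            rw [h7, if_pos rfl, ← mul_assoc]
            refine mul_le_mul_of_nonneg_right ?_ (Finset.prod_nonneg fun r _ =>
              pow_nonneg (hpos r) _)
            obtain ⟨j, hj⟩ := Nat.exists_eq_add_of_le h2n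
            rw [hj, pow_add, pow_add]
            have h8 : ((p : ℝ)⁻¹) ^ j ≤ (1 / 2) ^ j := by
              refine pow_le_pow_left₀ (hpos p) ?_ _
              have h9 : (p : ℝ)⁻¹ ≤ 2⁻¹ := inv_anti₀ (by norm_num) (hp2 p hp)
              linarith
            have h10 : 4 * ((p : ℝ)⁻¹) ^ 2 * ((1 / 2) ^ 2 * (1 / 2) ^ j) =
                ((p : ℝ)⁻¹) ^ 2 * (1 / 2) ^ j := by ring
            rw [h10]
            exact mul_le_mul_of_nonneg_left h8 (by positivity)
          calc hq q 0 n ^ 2 * (n : ℝ)⁻¹ ≤ hq q 0 n ^ 2 * (4 * ((p : ℝ)⁻¹) ^ 2 * ∏ r ∈ PB K Y,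
              (if r = p then 1 / 2 else (r : ℝ)⁻¹) ^ n.factorization r) :=
                mul_le_mul_of_nonneg_left h6 (by positivity)
            _ = _ := by ring
        · positivity
      refine h5.trans ?_
      have h6 : ∑ n ∈ F, hq q 0 n ^ 2 * ∏ r ∈ PB K Y,
            (if r = p then 1 / 2 else (r : ℝ)⁻¹) ^ n.factorization r ≤ C2 := by
        refine h4.trans ?_
        rw [hC2]
        refine Real.exp_le_exp.2 ?_
        rw [Finset.sum_add_distrib, ← Finset.mul_sum, ← Finset.mul_sum, add_zero]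
        have h7 : ∑ r ∈ PB K Y, (if r = p then 1 / 2 else (r : ℝ)⁻¹) ≤ W + 1 / 2 := by
          calc ∑ r ∈ PB K Y, (if r = p then 1 / 2 else (r : ℝ)⁻¹)
              ≤ ∑ r ∈ PB K Y, ((r : ℝ)⁻¹ + if r = p then 1 / 2 else 0) := by
                refine Finset.sum_le_sum fun r _ => ?_
                have := hpos r
                split_ifs <;> linarith
            _ = VV (PB K Y) + 1 / 2 := by
                rw [Finset.sum_add_distrib, Finset.sum_ite_eq' _ _, if_pos hp]
                rfl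
            _ ≤ W + 1 / 2 := by linarith
        have h8 : ∑ r ∈ PB K Y, (if r = p then 1 / 2 else (r : ℝ)⁻¹) ^ 2 ≤ W + 1 / 4 := by
          calc ∑ r ∈ PB K Y, (if r = p then 1 / 2 else (r : ℝ)⁻¹) ^ 2
              ≤ ∑ r ∈ PB K Y, (((r : ℝ)⁻¹) ^ 2 + if r = p then 1 / 4 else 0) := by
                refine Finset.sum_le_sum fun r _ => ?_
                have := sq_nonneg ((r : ℝ)⁻¹)
                split_ifs <;> linarith
            _ = ∑ r ∈ PB K Y, ((r : ℝ)⁻¹) ^ 2 + 1 / 4 := by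
                rw [Finset.sum_add_distrib, Finset.sum_ite_eq' _ _, if_pos hp]
            _ ≤ W + 1 / 4 := by linarith
        exact add_le_add (mul_le_mul_of_nonneg_left h7 (by positivity))
          (mul_le_mul_of_nonneg_left h8 hC)
      calc 4 * ((p : ℝ)⁻¹) ^ 2 * _ ≤ 4 * ((p : ℝ)⁻¹) ^ 2 * C2 :=
            mul_le_mul_of_nonneg_left h6 (by positivity)
        _ = 4 * C2 * ((p : ℝ)⁻¹) ^ 2 := by ring
    refine (h2.trans (Finset.sum_le_sum h3)).trans ?_
    rw [← Finset.mul_sum]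
    have h4 : 4 * C2 * ∑ p ∈ PB K Y, ((p : ℝ)⁻¹) ^ 2 ≤ 4 * C2 * (Real.exp (-Y) * W) :=
      mul_le_mul_of_nonneg_left (hV2.trans (mul_le_mul_of_nonneg_left hV (Real.exp_pos _).le))
        (by positivity)
    refine h4.trans ?_
    have h5 : 0 ≤ C1 * Real.exp (-Y) := by positivity
    nlinarith

end Pool.Agent.Lib.MT
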