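import Mathlib
import Pool.Agent.Lib.MP_f9aece_nt_mt.StmtsT
import Pool.Agent.Lib.MP_f9aece_nt_ms.Coeffs

/-!
Mesoscopic moments of zeta, module T14.

By contradiction: for every natural n >= 1 there are ν_n, Y_n >= n, X_n, η_n with difference > ε. μ_n = map of ν_n by GB K m Y_n (continuous, bounded). MomC holds: moments by BlMom (integral_map), integrability since GB is bounded. f z = ‖PM w K m z‖^(2k) is continuous of polynomial growth (PM is a polynomial with bounded coefficients). MomConv gives convergence, contradiction. (about 150 lines)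
-/

set_option autoImplicit false

namespace Pool.Agent.Lib.MT

open MeasureTheory Set Filter Topology Complex
open scoped ComplexConjugate
open scoped ArithmeticFunction.Omega
open Pool.Agent.Lib.MP_f9aece_nt (DP pair BK K1 ev PP VV Smo expo)
open Pool.Agent.Lib.MP_f9aece_nt_h40 (ind)
open Pool.Agent.Lib.MP_f9aece_nt_h85 (Rst)
open Pool.Agent.Lib.MP_f9aece_nt_h97 (Psm Dsm evs)
open Pool.Agent.Lib.NL (pt B0)
open Pool.Agent.Lib.J4 (En V2)
open Pool.Agent.Lib.MS (Len MVP Par RW TZ Cut un zr ex hq af ZS)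

private lemma t14_term (a : ℕ) (t : ℝ) : ‖(a : ℂ) ^ (-(1 / 2 + I * t : ℂ))‖ ≤ 1 := by
  rcases Nat.eq_zero_or_pos a with ha | ha
  · subst ha
    rw [Nat.cast_zero, Complex.zero_cpow]
    · simp
    · intro h
      have := congrArg Complex.re h
      simp at this
  · rw [Complex.norm_natCast_cpow_of_pos ha]
    have h1 : (-(1 / 2 + I * t : ℂ)).re = -(1 / 2) := by simp
    rw [h1]
    exact Real.rpow_le_one_of_one_le_of_nonpos (by exact_mod_cast ha) (by norm_num)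

private lemma t14_ev_bdd (f : DP) (t : ℝ) :
    ‖ev t f‖ ≤ ∑ a ∈ f.coeff.support, |f.coeff a| := by
  rw [Pool.Agent.Lib.MP_f9aece_nt.ev_apply]
  refine (norm_sum_le _ _).trans (Finset.sum_le_sum fun a _ => ?_)
  rw [norm_mul, Complex.norm_real, Real.norm_eq_abs]
  exact mul_le_of_le_one_right (abs_nonneg _) (t14_term a t)

private lemma t14_GB_cont (K : ℝ) (m : ℕ) (Y : ℝ) : Continuous (GB K m Y) :=
  continuous_pi fun _ => Pool.Agent.Lib.MP_f9aece_nt.continuous_ev _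

private lemma t14_GB_bdd (K : ℝ) (m : ℕ) (Y : ℝ) : ∃ C : ℝ, 0 ≤ C ∧ ∀ t, ‖GB K m Y t‖ ≤ C := by
  refine ⟨∑ j : Fin m, ∑ a ∈ (PP (Bl K m Y j)).coeff.support, |(PP (Bl K m Y j)).coeff a|,
    Finset.sum_nonneg fun j _ => Finset.sum_nonneg fun a _ => abs_nonneg _, fun t => ?_⟩
  rw [pi_norm_le_iff_of_nonneg
    (Finset.sum_nonneg fun j _ => Finset.sum_nonneg fun a _ => abs_nonneg _)]
  intro j
  refine (t14_ev_bdd (PP (Bl K m Y j)) t).trans ?_
  exact Finset.single_le_sum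
    (f := fun j : Fin m => ∑ a ∈ (PP (Bl K m Y j)).coeff.support, |(PP (Bl K m Y j)).coeff a|)
    (fun j _ => Finset.sum_nonneg fun a _ => abs_nonneg _) (Finset.mem_univ j)

private lemma t14_PM_cont (w : ℝ → ℂ) (K : ℝ) (m : ℕ) : Continuous (PM w K m) := by
  unfold PM
  refine continuous_finsetSum _ fun r _ => continuous_const.mul ?_
  refine continuous_finsetSum _ fun j _ => continuous_const.mul ?_
  exact continuous_finsetProd _ fun i _ => continuous_apply _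

private lemma t14_PM_bdd (w : ℝ → ℂ) (B : ℝ) (hB : ∀ x, ‖w x‖ ≤ B) (K : ℝ) (m : ℕ) :
    ∃ C : ℝ, 0 ≤ C ∧ ∀ z : Fin m → ℂ, ‖PM w K m z‖ ≤ C * (1 + ‖z‖) ^ (⌊K⌋₊ + 1) := by
  have hB0 : 0 ≤ B := (norm_nonneg _).trans (hB 0)
  refine ⟨∑ r ∈ Finset.range (⌊K⌋₊ + 1), ‖((r.factorial : ℂ))⁻¹‖ * ∑ _j : Fin r → Fin m, B,
    Finset.sum_nonneg fun r _ => mul_nonneg (norm_nonneg _)
      (Finset.sum_nonneg fun _ _ => hB0), fun z => ?_⟩
  unfold PM
  rw [Finset.sum_mul]
  refine (norm_sum_le _ _).trans (Finset.sum_le_sum fun r hr => ?_)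
  rw [norm_mul, mul_assoc]
  refine mul_le_mul_of_nonneg_left ?_ (norm_nonneg _)
  rw [Finset.sum_mul]
  refine (norm_sum_le _ _).trans (Finset.sum_le_sum fun j _ => ?_)
  rw [norm_mul]
  refine mul_le_mul (hB _) ?_ (norm_nonneg _) hB0
  rw [norm_prod]
  have h1 : ∏ i : Fin r, ‖z (j i)‖ ≤ ∏ _i : Fin r, (1 + ‖z‖) := by
    refine Finset.prod_le_prod (fun i _ => norm_nonneg _) fun i _ => ?_
    have := norm_le_pi_norm z (j i)
    linarith
  refine h1.trans ?_
  rw [Finset.prod_const, Finset.card_univ, Fintype.card_fin]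
  refine pow_le_pow_right₀ ?_ ?_
  · have := norm_nonneg z
    linarith
  · exact (Finset.mem_range.mp hr).le

private lemma t14_growth (w : ℝ → ℂ) (B : ℝ) (hB : ∀ x, ‖w x‖ ≤ B) (K : ℝ) (m : ℕ) (k : ℝ)
    (hk : 0 < k) :
    ∃ (C : ℝ) (p : ℕ), ∀ z : Fin m → ℂ, |‖PM w K m z‖ ^ (2 * k)| ≤ C * (1 + ‖z‖) ^ p := by
  obtain ⟨C, hC, h⟩ := t14_PM_bdd w B hB K m
  refine ⟨C ^ (2 * k), ⌈((⌊K⌋₊ + 1 : ℕ) : ℝ) * (2 * k)⌉₊, fun z => ?_⟩
  have hz : 1 ≤ 1 + ‖z‖ := by
    have := norm_nonneg z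
    linarith
  have hz0 : 0 ≤ 1 + ‖z‖ := by linarith
  rw [abs_of_nonneg (Real.rpow_nonneg (norm_nonneg _) _)]
  calc ‖PM w K m z‖ ^ (2 * k)
      ≤ (C * (1 + ‖z‖) ^ (⌊K⌋₊ + 1)) ^ (2 * k) :=
        Real.rpow_le_rpow (norm_nonneg _) (h z) (by positivity)
    _ = C ^ (2 * k) * ((1 + ‖z‖) ^ (⌊K⌋₊ + 1)) ^ (2 * k) :=
        Real.mul_rpow hC (by positivity)
    _ = C ^ (2 * k) * (1 + ‖z‖) ^ (((⌊K⌋₊ + 1 : ℕ) : ℝ) * (2 * k)) := by
        rw [← Real.rpow_natCast, ← Real.rpow_mul hz0]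
    _ ≤ C ^ (2 * k) * (1 + ‖z‖) ^ ((⌈((⌊K⌋₊ + 1 : ℕ) : ℝ) * (2 * k)⌉₊ : ℕ) : ℝ) := by
        refine mul_le_mul_of_nonneg_left ?_ (Real.rpow_nonneg hC _)
        exact Real.rpow_le_rpow_of_exponent_le hz (Nat.le_ceil _)
    _ = C ^ (2 * k) * (1 + ‖z‖) ^ ⌈((⌊K⌋₊ + 1 : ℕ) : ℝ) * (2 * k)⌉₊ := by
        rw [Real.rpow_natCast]

theorem decM (h9 : MomConv) (h12 : BlMom) (h10 : BlVV) : DecM := by
  intro k B Lam w hk hw K m hK hm ε hε
  by_contra hcon
  push Not at hcon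
  choose ν Y X η hY hX hη0 hη1 hM hgt using fun n : ℕ =>
    hcon ((n : ℝ) + 1) (by have := Nat.cast_nonneg (α := ℝ) n; linarith)
  have hsg : ∀ j : Fin m, 0 ≤ sg K m j := fun j => (h10 K m j hK hm j.2).1
  set μ : ℕ → Measure (Fin m → ℂ) := fun n => (ν n).map (GB K m (Y n)) with hμ
  have hcont : ∀ n, Continuous (GB K m (Y n)) := fun n => t14_GB_cont K m (Y n)
  have hprob : ∀ n, IsProbabilityMeasure (ν n) := fun n => (hM n).prob
  have hmeas : ∀ n, AEMeasurable (GB K m (Y n)) (ν n) := fun n => (hcont n).aemeasurable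
  have hMC : MomC m (fun j => sg K m j) μ := by
    refine ⟨fun n => ?_, fun n p => ?_, fun a b => ?_⟩
    · haveI := hprob n
      exact Measure.isProbabilityMeasure_map (hmeas n)
    · haveI := hprob n
      obtain ⟨C, hC0, hC⟩ := t14_GB_bdd K m (Y n)
      have hc2 : Continuous (fun z : Fin m → ℂ => ‖z‖ ^ p) := by fun_prop
      rw [hμ]
      refine (integrable_map_measure hc2.aestronglyMeasurable (hmeas n)).2 ?_
      refine Integrable.of_bound (hc2.comp (hcont n)).aestronglyMeasurable (C ^ p) ?_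
      refine Filter.Eventually.of_forall fun t => ?_
      simp only [Function.comp_apply, norm_pow, norm_norm]
      exact pow_le_pow_left₀ (norm_nonneg _) (hC t) p
    · rw [Metric.tendsto_atTop]
      intro δ hδ
      obtain ⟨N, hN1, hN⟩ := h12 K m hK hm a b (δ / 2) (by linarith)
      refine ⟨⌈N⌉₊, fun n hn => ?_⟩
      have hnN : N ≤ (n : ℝ) + 1 := by
        have h1 := Nat.le_ceil N
        have h2 : (⌈N⌉₊ : ℝ) ≤ n := by exact_mod_cast hn
        linarith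
      have hYn := hY n
      have hn0 := Nat.cast_nonneg (α := ℝ) n
      have key := hN (ν n) (Y n) (X n) (η n) (hnN.trans hYn)
        ((Real.exp_le_exp.2 (mul_le_mul_of_nonneg_right hnN (by linarith))).trans (hX n))
        (hη0 n) ((mul_le_mul_of_nonneg_left hnN (hη0 n)).trans (hη1 n)) (hM n)
      have hc3 : Continuous (fun z : Fin m → ℂ => (∏ j, z j ^ a j) * conj (∏ j, z j ^ b j)) := by
        refine Continuous.mul ?_ (Complex.continuous_conj.comp ?_)
        · exact continuous_finsetProd _ fun i _ => (continuous_apply i).pow _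
        · exact continuous_finsetProd _ fun i _ => (continuous_apply i).pow _
      have e1 : ∫ z, (∏ j, z j ^ a j) * conj (∏ j, z j ^ b j) ∂(μ n)
          = ∫ t, (∏ j, GB K m (Y n) t j ^ a j) * conj (∏ j, GB K m (Y n) t j ^ b j) ∂(ν n) := by
        rw [hμ]
        exact integral_map (hmeas n) hc3.aestronglyMeasurable
      rw [dist_eq_norm, e1]
      linarith
  have hfc : Continuous (fun z : Fin m → ℂ => ‖PM w K m z‖ ^ (2 * k)) :=
    (t14_PM_cont w K m).norm.rpow_const fun z => Or.inr (by positivity)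
  have hlim := h9 m (fun j => sg K m j) hsg μ hMC (fun z => ‖PM w K m z‖ ^ (2 * k)) hfc
    (t14_growth w B hw.bd K m k hk)
  rw [Metric.tendsto_atTop] at hlim
  obtain ⟨n, hn⟩ := hlim ε hε
  have h1 := hn n le_rfl
  have e2 : ∫ z, ‖PM w K m z‖ ^ (2 * k) ∂(μ n)
      = ∫ t, ‖PM w K m (GB K m (Y n) t)‖ ^ (2 * k) ∂(ν n) := by
    rw [hμ]
    exact integral_map (hmeas n) hfc.aestronglyMeasurable
  rw [Real.dist_eq, e2] at h1
  exact absurd h1 (not_lt.2 (hgt n).le)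

end Pool.Agent.Lib.MT
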