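import Mathlib
import Pool.Agent.Lib.MP_f9aece_nt_mt.StmtsT
import Pool.Agent.Lib.MP_f9aece_nt_ms.Coeffs

/-!
Mesoscopic moments of zeta, module T15.

Unfold, map_sum, map_smul, map_prod, w = re + I im. (about 40 lines)
-/

set_option autoImplicit false

namespace Pool.Agent.Lib.MT

open MeasureTheory Set Filter Topology Complex
open scoped ComplexConjugate
open scoped ArithmeticFunction.Omega
open Pool.Agent.Lib.MP_f9aece_nt (DP pair BK K1 ev PP VV Smo expo)
open Pool.Agent.Lib.MP_f9aece_nt_h40 (ind)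
open Pool.Agent.Lib.MP_f9aece_nt_h85 (Rst)
open Pool.Agent.Lib.MP_f9aece_nt_h97 (Psm Dsm evs)
open Pool.Agent.Lib.NL (pt B0)
open Pool.Agent.Lib.J4 (En V2)
open Pool.Agent.Lib.MS (Len MVP Par RW TZ Cut un zr ex hq af ZS)

private theorem T15_ev (u : ℝ → ℝ) (K : ℝ) (m : ℕ) (Y t : ℝ) :
    ev t (PD u K m Y) = ∑ r ∈ Finset.range (⌊K⌋₊ + 1), ((r.factorial : ℂ))⁻¹ *
      ∑ j : Fin r → Fin m, ((u ((∑ i, uj K m (j i)) / K) : ℝ) : ℂ) *
        ∏ i, GB K m Y t (j i) := by
  unfold PD GB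
  rw [map_sum]
  refine Finset.sum_congr rfl fun r _ => ?_
  rw [map_smul, map_sum, Complex.real_smul]
  congr 1
  · push_cast
    rfl
  · refine Finset.sum_congr rfl fun j _ => ?_
    rw [map_smul, map_prod, Complex.real_smul]

theorem pmpd : PMPD := by
  intro w K m Y t
  rw [T15_ev, T15_ev, Finset.mul_sum, ← Finset.sum_add_distrib]
  unfold PM
  refine Finset.sum_congr rfl fun r _ => ?_
  rw [mul_left_comm I, ← mul_add, Finset.mul_sum (a := I), ← Finset.sum_add_distrib]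
  congr 1
  refine Finset.sum_congr rfl fun j _ => ?_
  rw [← mul_assoc I, ← add_mul]
  congr 1
  conv_lhs => rw [← Complex.re_add_im (w ((∑ i, uj K m (j i)) / K))]
  rw [mul_comm I]

end Pool.Agent.Lib.MT
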