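import Mathlib
import Pool.Agent.Lib.MP_f9aece_nt_mt.StmtsT
import Pool.Agent.Lib.MP_f9aece_nt_ms.Coeffs

/-!
Mesoscopic moments of zeta, module T17.

Mathlib: Mahler measure. Polynomial.mahlerMeasure p = exp(circle average of log ‖p‖); ‖p.coeff 0‖ <= mahlerMeasure (Polynomial.norm_coeff_le_choose_mul_mahlerMeasure or leading coefficient times product of max 1 ‖root‖); then Jensen inequality for exp: exp(s * average of log ‖p‖) <= average of ‖p‖^s (convexity, the zeros on the circle are finitely many; integrability of log is in Mathlib, or replace ‖p‖ by max ‖p‖ δ). Alternatively: induction over the roots. p.coeff 0 = 0 trivial. (about 100 lines)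
-/

set_option autoImplicit false

namespace Pool.Agent.Lib.MT

open MeasureTheory Set Filter Topology Complex
open scoped ComplexConjugate
open scoped ArithmeticFunction.Omega
open Pool.Agent.Lib.MP_f9aece_nt (DP pair BK K1 ev PP VV Smo expo)
open Pool.Agent.Lib.MP_f9aece_nt_h40 (ind)
open Pool.Agent.Lib.MP_f9aece_nt_h85 (Rst)
open Pool.Agent.Lib.MP_f9aece_nt_h97 (Psm Dsm evs)
open Pool.Agent.Lib.NL (pt B0)
open Pool.Agent.Lib.J4 (En V2)
open Pool.Agent.Lib.MS (Len MVP Par RW TZ Cut un zr ex hq af ZS)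

private lemma t17_aux (p : Polynomial ℂ) (hp : p ≠ 0) (s : ℝ) (hs : 0 < s) :
    p.mahlerMeasure ^ s ≤
      (2 * Real.pi)⁻¹ * ∫ θ in (0 : ℝ)..(2 * Real.pi), ‖p.eval (circleMap 0 1 θ)‖ ^ s := by
  have hpi : (0 : ℝ) < 2 * Real.pi := by positivity
  have hint := Polynomial.intervalIntegrable_mahlerMeasure p
  rw [Polynomial.mahlerMeasure_def_of_ne_zero hp]
  set A : ℝ := (2 * Real.pi)⁻¹ * ∫ (x : ℝ) in (0)..(2 * Real.pi),
    Real.log ‖p.eval (circleMap 0 1 x)‖ with hA
  have hexp : Real.exp A ^ s = Real.exp (s * A) := by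
    rw [← Real.exp_mul, mul_comm]
  rw [hexp]
  have hcont : Continuous fun θ : ℝ => ‖p.eval (circleMap 0 1 θ)‖ ^ s := by
    apply Continuous.rpow_const
    · exact (p.continuous.comp (continuous_circleMap 0 1)).norm
    · intro _
      exact Or.inr hs.le
  have hint2 : IntervalIntegrable (fun θ : ℝ => ‖p.eval (circleMap 0 1 θ)‖ ^ s) volume 0
      (2 * Real.pi) := hcont.intervalIntegrable _ _
  have hint3 : IntervalIntegrable (fun θ : ℝ => Real.exp (s * A) *
      (1 - s * A + s * Real.log ‖p.eval (circleMap 0 1 θ)‖)) volume 0 (2 * Real.pi) :=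
    ((_root_.intervalIntegrable_const).add (hint.const_mul s)).const_mul _
  have hzero : volume {θ : ℝ | p.eval (circleMap 0 1 θ) = 0} = 0 := by
    have h1 : ({z : ℂ | p.eval z = 0}).Countable := by
      have h2 : {z : ℂ | p.eval z = 0} ⊆ (p.roots.toFinset : Set ℂ) := by
        intro z hz
        simp only [Finset.mem_coe, Multiset.mem_toFinset]
        exact (Polynomial.mem_roots hp).mpr hz
      exact ((Finset.finite_toSet _).subset h2).countable
    exact (h1.preimage_circleMap 0 one_ne_zero).measure_zero _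
  have hmono : ∫ θ in (0 : ℝ)..(2 * Real.pi), Real.exp (s * A) *
      (1 - s * A + s * Real.log ‖p.eval (circleMap 0 1 θ)‖) ≤
      ∫ θ in (0 : ℝ)..(2 * Real.pi), ‖p.eval (circleMap 0 1 θ)‖ ^ s := by
    apply intervalIntegral.integral_mono_ae hpi.le hint3 hint2
    have h1 : ∀ᵐ θ : ℝ, ¬ (p.eval (circleMap 0 1 θ) = 0) := by
      rw [ae_iff]
      simpa using hzero
    filter_upwards [h1] with θ hθ
    have h2 : 0 < ‖p.eval (circleMap 0 1 θ)‖ := norm_pos_iff.mpr hθ
    rw [Real.rpow_def_of_pos h2]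
    have h3 := Real.add_one_le_exp (Real.log ‖p.eval (circleMap 0 1 θ)‖ * s - s * A)
    have h4 : Real.exp (Real.log ‖p.eval (circleMap 0 1 θ)‖ * s) =
        Real.exp (s * A) * Real.exp (Real.log ‖p.eval (circleMap 0 1 θ)‖ * s - s * A) := by
      rw [← Real.exp_add]
      congr 1
      ring
    rw [h4]
    apply mul_le_mul_of_nonneg_left _ (Real.exp_pos _).le
    linarith
  have hval : (2 * Real.pi)⁻¹ * ∫ θ in (0 : ℝ)..(2 * Real.pi), Real.exp (s * A) *
      (1 - s * A + s * Real.log ‖p.eval (circleMap 0 1 θ)‖) = Real.exp (s * A) := by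
    rw [intervalIntegral.integral_const_mul, intervalIntegral.integral_add
      (_root_.intervalIntegrable_const) (hint.const_mul s),
      intervalIntegral.integral_const, intervalIntegral.integral_const_mul, smul_eq_mul, sub_zero]
    have h5 : (∫ (x : ℝ) in (0)..(2 * Real.pi), Real.log ‖p.eval (circleMap 0 1 x)‖) =
        2 * Real.pi * A := by
      rw [hA, ← mul_assoc, mul_inv_cancel₀ hpi.ne', one_mul]
    rw [h5]
    field_simp
    ring
  rw [← hval]
  exact mul_le_mul_of_nonneg_left hmono (by positivity)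

theorem jen : Jen := by
  intro p s hs
  have hcm : ∀ θ : ℝ, cexp (I * θ) = circleMap 0 1 θ := by
    intro θ
    rw [circleMap, zero_add, Complex.ofReal_one, one_mul, mul_comm]
  simp_rw [hcm]
  by_cases hp : p = 0
  · subst hp
    simp [Real.zero_rpow hs.ne']
  · refine le_trans ?_ (t17_aux p hp s hs)
    apply Real.rpow_le_rpow (norm_nonneg _) _ hs.le
    have h1 := Polynomial.norm_coeff_le_choose_mul_mahlerMeasure 0 p
    simpa using h1

end Pool.Agent.Lib.MT
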