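import Mathlib
import Pool.Agent.Lib.MP_f9aece_nt_mt.StmtsT
import Pool.Agent.Lib.MP_f9aece_nt_ms.Coeffs

/-!
Mesoscopic moments of zeta, module T18.

I(θ) = int ‖PM (e^(Iθ) z)‖^(2k) dγ is independent of θ by GauC (map), so I(0) = (2π)^(-1) int_0^(2π) I(θ) dθ = int (2π)^(-1) int ‖PM(e^(Iθ) z)‖^(2k) dθ dγ (Fubini: continuous, polynomial growth). For fixed z, PM (c z) = sum_r c^r (...) is a polynomial in c with constant coefficient w 0 (r = 0 term: Fin 0 -> Fin m unique, empty sum 0/K = 0), so Jen gives >= ‖w 0‖^(2k). (about 150 lines)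
-/

set_option autoImplicit false

namespace Pool.Agent.Lib.MT

open MeasureTheory Set Filter Topology Complex
open scoped ComplexConjugate
open scoped ArithmeticFunction.Omega
open Pool.Agent.Lib.MP_f9aece_nt (DP pair BK K1 ev PP VV Smo expo)
open Pool.Agent.Lib.MP_f9aece_nt_h40 (ind)
open Pool.Agent.Lib.MP_f9aece_nt_h85 (Rst)
open Pool.Agent.Lib.MP_f9aece_nt_h97 (Psm Dsm evs)
open Pool.Agent.Lib.NL (pt B0)
open Pool.Agent.Lib.J4 (En V2)
open Pool.Agent.Lib.MS (Len MVP Par RW TZ Cut un zr ex hq af ZS)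

private lemma t18_sg_nonneg {K : ℝ} {m j : ℕ} (hK : 1 < K) (hm : 1 ≤ m) : 0 ≤ sg K m j := by
  have hm' : (0 : ℝ) < m := by exact_mod_cast hm
  have h1 : 0 < uj K m j := by
    unfold uj
    have : 0 ≤ (K - 1) * j / m := by
      apply div_nonneg _ hm'.le
      apply mul_nonneg (by linarith) (Nat.cast_nonneg _)
    linarith
  have h2 : uj K m j ≤ uj K m (j + 1) := by
    unfold uj
    have : (K - 1) * j / m ≤ (K - 1) * ((j + 1 : ℕ) : ℝ) / m := by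
      apply div_le_div_of_nonneg_right _ hm'.le
      apply mul_le_mul_of_nonneg_left _ (by linarith)
      push_cast
      linarith
    linarith
  unfold sg
  apply Real.log_nonneg
  rw [le_div_iff₀ h1]
  linarith

/-- the polynomial in `c` -/
private noncomputable def t18p (w : ℝ → ℂ) (K : ℝ) (m : ℕ) (z : Fin m → ℂ) : Polynomial ℂ :=
  ∑ r ∈ Finset.range (⌊K⌋₊ + 1), Polynomial.monomial r (((r.factorial : ℂ))⁻¹ *
    ∑ j : Fin r → Fin m, w ((∑ i, uj K m (j i)) / K) * ∏ i, z (j i))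

private lemma t18_eval (w : ℝ → ℂ) (K : ℝ) (m : ℕ) (z : Fin m → ℂ) (c : ℂ) :
    (t18p w K m z).eval c = PM w K m (fun j => c * z j) := by
  unfold t18p PM
  rw [Polynomial.eval_finsetSum]
  refine Finset.sum_congr rfl fun r _ => ?_
  rw [Polynomial.eval_monomial, mul_assoc, Finset.sum_mul]
  congr 1
  refine Finset.sum_congr rfl fun j _ => ?_
  rw [Finset.prod_mul_distrib]
  simp
  ring

private lemma t18_coeff (w : ℝ → ℂ) (K : ℝ) (m : ℕ) (z : Fin m → ℂ) :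
    (t18p w K m z).coeff 0 = w 0 := by
  unfold t18p
  rw [Polynomial.finsetSum_coeff, Finset.sum_eq_single 0]
  · simp
  · intro r _ hr
    rw [Polynomial.coeff_monomial, if_neg hr]
  · intro h
    simp at h

private lemma t18_cont (w : ℝ → ℂ) (K : ℝ) (m : ℕ) : Continuous (fun z : Fin m → ℂ => PM w K m z) := by
  unfold PM
  fun_prop

private lemma t18_growth {B Lam : ℝ} {w : ℝ → ℂ} (hw : CutC B Lam w) (K : ℝ) (m : ℕ)
    (z : Fin m → ℂ) : ‖PM w K m z‖ ≤ (∑ r ∈ Finset.range (⌊K⌋₊ + 1), ((r.factorial : ℝ))⁻¹ *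
      ∑ _j : Fin r → Fin m, B) * (1 + ‖z‖) ^ ⌊K⌋₊ := by
  have hB : 0 ≤ B := le_trans (norm_nonneg _) (hw.bd 0)
  unfold PM
  rw [Finset.sum_mul]
  refine norm_sum_le_of_le _ fun r hr => ?_
  rw [norm_mul, norm_inv, Complex.norm_natCast, mul_assoc, Finset.sum_mul]
  refine mul_le_mul_of_nonneg_left ?_ (by positivity)
  refine norm_sum_le_of_le _ fun j _ => ?_
  rw [norm_mul]
  refine mul_le_mul (hw.bd _) ?_ (norm_nonneg _) hB
  rw [norm_prod]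
  have hr' : r ≤ ⌊K⌋₊ := by
    have := Finset.mem_range.1 hr
    omega
  calc ∏ i, ‖z (j i)‖ ≤ ∏ _i : Fin r, (1 + ‖z‖) := by
        refine Finset.prod_le_prod (fun i _ => norm_nonneg _) fun i _ => ?_
        have := norm_le_pi_norm z (j i)
        linarith
    _ = (1 + ‖z‖) ^ r := by simp
    _ ≤ (1 + ‖z‖) ^ ⌊K⌋₊ := by
        apply pow_le_pow_right₀ _ hr'
        have := norm_nonneg z
        linarith

private lemma t18_bound {B Lam : ℝ} {w : ℝ → ℂ} (hw : CutC B Lam w) (K : ℝ) (m : ℕ) {k : ℝ}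
    (hk : 0 < k) : ∃ (D : ℝ) (p : ℕ), ∀ z : Fin m → ℂ, ‖PM w K m z‖ ^ (2 * k)
      ≤ D * (1 + ‖z‖ ^ p) := by
  have hB : 0 ≤ B := le_trans (norm_nonneg _) (hw.bd 0)
  obtain ⟨C, hC0, hC⟩ : ∃ C : ℝ, 0 ≤ C ∧ ∀ z : Fin m → ℂ,
      ‖PM w K m z‖ ≤ C * (1 + ‖z‖) ^ ⌊K⌋₊ :=
    ⟨_, by positivity, fun z => t18_growth hw K m z⟩
  refine ⟨C ^ (2 * k) * 2 ^ (⌊K⌋₊ * ⌈2 * k⌉₊ - 1), ⌊K⌋₊ * ⌈2 * k⌉₊, fun z => ?_⟩
  have hz1 : (1 : ℝ) ≤ (1 + ‖z‖) ^ ⌊K⌋₊ := one_le_pow₀ (by linarith [norm_nonneg z])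
  calc ‖PM w K m z‖ ^ (2 * k) ≤ (C * (1 + ‖z‖) ^ ⌊K⌋₊) ^ (2 * k) :=
        Real.rpow_le_rpow (norm_nonneg _) (hC z) (by positivity)
    _ = C ^ (2 * k) * ((1 + ‖z‖) ^ ⌊K⌋₊) ^ (2 * k) :=
        Real.mul_rpow hC0 (by positivity)
    _ ≤ C ^ (2 * k) * ((1 + ‖z‖) ^ ⌊K⌋₊) ^ ((⌈2 * k⌉₊ : ℕ) : ℝ) := by
        refine mul_le_mul_of_nonneg_left ?_ (by positivity)
        exact Real.rpow_le_rpow_of_exponent_le hz1 (Nat.le_ceil _)
    _ = C ^ (2 * k) * (1 + ‖z‖) ^ (⌊K⌋₊ * ⌈2 * k⌉₊) := by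
        rw [Real.rpow_natCast, ← pow_mul]
    _ ≤ C ^ (2 * k) * (2 ^ (⌊K⌋₊ * ⌈2 * k⌉₊ - 1) * (1 + ‖z‖ ^ (⌊K⌋₊ * ⌈2 * k⌉₊))) := by
        refine mul_le_mul_of_nonneg_left ?_ (by positivity)
        have := add_pow_le (zero_le_one (α := ℝ)) (norm_nonneg z) (⌊K⌋₊ * ⌈2 * k⌉₊)
        simpa using this
    _ = _ := by ring

/-- rotation invariance and Jensen, abstractly -/
private lemma t18_abs (m : ℕ) (γ : Measure (Fin m → ℂ)) [IsProbabilityMeasure γ]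
    (hint : ∀ p : ℕ, Integrable (fun z : Fin m → ℂ => ‖z‖ ^ p) γ)
    (hrot : ∀ c : ℂ, ‖c‖ = 1 → γ.map (fun z j => c * z j) = γ)
    (F : (Fin m → ℂ) → ℝ) (hF : Continuous F) (hF0 : ∀ z, 0 ≤ F z) (D : ℝ) (p : ℕ)
    (hD : ∀ z, F z ≤ D * (1 + ‖z‖ ^ p)) (a : ℝ)
    (hpt : ∀ z : Fin m → ℂ, a ≤ (2 * Real.pi)⁻¹ *
      ∫ θ in Ioc 0 (2 * Real.pi), F (fun j => cexp (I * (θ : ℂ)) * z j)) :
    a ≤ ∫ z, F z ∂γ := by
  have hpi : (0 : ℝ) < 2 * Real.pi := by positivity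
  have hGc : Continuous (fun x : ℝ × (Fin m → ℂ) => F (fun j => cexp (I * (x.1 : ℂ)) * x.2 j)) := by
    refine hF.comp (f := fun x : ℝ × (Fin m → ℂ) => fun j => cexp (I * (x.1 : ℂ)) * x.2 j) ?_
    fun_prop
  have hexp : ∀ θ : ℝ, ‖cexp (I * (θ : ℂ))‖ = 1 := by
    intro θ
    rw [mul_comm I, Complex.norm_exp_ofReal_mul_I]
  have hnorm : ∀ (θ : ℝ) (z : Fin m → ℂ), ‖(fun j => cexp (I * (θ : ℂ)) * z j)‖ = ‖z‖ := by
    intro θ z
    have h1 : (fun j => cexp (I * (θ : ℂ)) * z j) = cexp (I * (θ : ℂ)) • z := rfl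
    rw [h1, norm_smul, hexp, one_mul]
  have hGi : Integrable (fun x : ℝ × (Fin m → ℂ) => F (fun j => cexp (I * (x.1 : ℂ)) * x.2 j))
      ((volume.restrict (Ioc 0 (2 * Real.pi))).prod γ) := by
    refine Integrable.mono' (g := fun x : ℝ × (Fin m → ℂ) => D * (1 + ‖x.2‖ ^ p)) ?_
      hGc.aestronglyMeasurable ?_
    · have h1 : Integrable (fun z : Fin m → ℂ => D * (1 + ‖z‖ ^ p)) γ :=
        ((integrable_const _).add (hint _)).const_mul _
      exact h1.comp_snd _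
    · refine Eventually.of_forall fun x => ?_
      rw [Real.norm_of_nonneg (hF0 _)]
      have := hD (fun j => cexp (I * (x.1 : ℂ)) * x.2 j)
      rw [hnorm] at this
      exact this
  have hinv : ∀ θ : ℝ, ∫ z, F (fun j => cexp (I * (θ : ℂ)) * z j) ∂γ = ∫ z, F z ∂γ := by
    intro θ
    have hc1 := hrot (cexp (I * (θ : ℂ))) (hexp θ)
    have h2 : ∫ z, F z ∂(γ.map (fun z j => cexp (I * (θ : ℂ)) * z j))
        = ∫ z, F (fun j => cexp (I * (θ : ℂ)) * z j) ∂γ := by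
      refine integral_map ?_ hF.aestronglyMeasurable
      exact Measurable.aemeasurable (by fun_prop)
    rw [← h2, hc1]
  have hswap : ∫ θ in Ioc 0 (2 * Real.pi), (∫ z, F (fun j => cexp (I * ((θ : ℝ) : ℂ)) * z j) ∂γ)
      = ∫ z, (∫ θ in Ioc 0 (2 * Real.pi), F (fun j => cexp (I * ((θ : ℝ) : ℂ)) * z j)) ∂γ :=
    integral_integral_swap (f := fun (θ : ℝ) (z : Fin m → ℂ) => F (fun j => cexp (I * (θ : ℂ)) * z j)) hGi
  have hleft : ∫ θ in Ioc 0 (2 * Real.pi), (∫ z, F (fun j => cexp (I * ((θ : ℝ) : ℂ)) * z j) ∂γ)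
      = (2 * Real.pi) * ∫ z, F z ∂γ := by
    simp_rw [hinv]
    rw [integral_const]
    simp [Real.pi_pos.le, Measure.real]
  have hR : Integrable (fun z => ∫ θ in Ioc 0 (2 * Real.pi),
      F (fun j => cexp (I * ((θ : ℝ) : ℂ)) * z j)) γ :=
    hGi.integral_prod_right
  have hfin : a ≤ ∫ z, ((2 * Real.pi)⁻¹ *
      ∫ θ in Ioc 0 (2 * Real.pi), F (fun j => cexp (I * ((θ : ℝ) : ℂ)) * z j)) ∂γ := by
    have h1 : ∫ _z, a ∂γ = a := by simp
    rw [← h1]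
    exact integral_mono (integrable_const _) (hR.const_mul _) hpt
  rw [integral_const_mul, ← hswap, hleft, ← mul_assoc, inv_mul_cancel₀ hpi.ne', one_mul] at hfin
  exact hfin

theorem gmLow (ha : GauA) (hc : GauC) (h17 : Jen) : GmLow := by
  intro k B Lam w hk hw K m hK hm
  have hσ0 : ∀ j : Fin m, 0 ≤ sg K m j := fun j => t18_sg_nonneg hK hm
  obtain ⟨hprob, hint⟩ := ha m (fun j => sg K m j) hσ0
  obtain ⟨D, p, hD⟩ := t18_bound hw K m hk
  refine t18_abs m _ hint (fun c hc1 => hc m (fun j => sg K m j) hσ0 c hc1)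
    (fun z => ‖PM w K m z‖ ^ (2 * k)) ?_ (fun z => by positivity) D p hD _ ?_
  · exact (t18_cont w K m).norm.rpow_const fun x => Or.inr (by positivity)
  · intro z
    have h := h17 (t18p w K m z) (2 * k) (by positivity)
    rw [t18_coeff, intervalIntegral.integral_of_le (by positivity)] at h
    simp_rw [t18_eval] at h
    exact h

end Pool.Agent.Lib.MT
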