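import Mathlib
import Pool.Agent.Lib.MP_f9aece_nt_mt.StmtsT
import Pool.Agent.Lib.MP_f9aece_nt_ms.Coeffs

/-!
Mesoscopic moments of zeta, module T19.

f(ν,Y,X,η) = int ‖SW‖^(2k) dν, S n = {(ν,Y,X,η) : n+1 <= Y, exp((n+1) Y) <= X, 0 <= η, η (n+1) <= 1, MVR ν Y X η}: antitone; nonempty by UnifMVP with T large (MVP implies MVR: coefficients in Smo (Rst 0 Y) are at n >= 1). By PowIneq and DecA: |int ‖SW‖^(2k) - int ‖PM(GB)‖^(2k)| <= η C + C_η C m^(-2k) (choose η, then m), and DecM: int ‖PM(GB)‖^(2k) is within ε of g_m. CauL: limit g, and g >= g_m - small >= ‖w 0‖^(2k) - small (GmLow). (about 150 lines)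
-/

set_option autoImplicit false

namespace Pool.Agent.Lib.MT

open MeasureTheory Set Filter Topology Complex
open scoped ComplexConjugate
open scoped ArithmeticFunction.Omega
open Pool.Agent.Lib.MP_f9aece_nt (DP pair BK K1 ev PP VV Smo expo)
open Pool.Agent.Lib.MP_f9aece_nt_h40 (ind)
open Pool.Agent.Lib.MP_f9aece_nt_h85 (Rst)
open Pool.Agent.Lib.MP_f9aece_nt_h97 (Psm Dsm evs)
open Pool.Agent.Lib.NL (pt B0)
open Pool.Agent.Lib.J4 (En V2)
open Pool.Agent.Lib.MS (Len MVP Par RW TZ Cut un zr ex hq af ZS)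

private theorem dl_ev_bd (f : DP) : ∃ C : ℝ, ∀ t : ℝ, ‖ev t f‖ ≤ C := by
  refine ⟨∑ a ∈ f.coeff.support, |f.coeff a|, fun t => ?_⟩
  rw [Pool.Agent.Lib.MP_f9aece_nt.ev_apply]
  refine (norm_sum_le _ _).trans (Finset.sum_le_sum fun a _ => ?_)
  rw [norm_mul, Complex.norm_real, Real.norm_eq_abs]
  rcases Nat.eq_zero_or_pos a with rfl | ha
  · have h : ((0 : ℕ) : ℂ) ^ (-(1 / 2 + I * t : ℂ)) = 0 := by
      rw [Nat.cast_zero, Complex.zero_cpow]
      intro h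
      have := congrArg Complex.re h
      simp at this
    rw [h, norm_zero, mul_zero]
    exact abs_nonneg _
  · rw [Complex.norm_natCast_cpow_of_pos ha]
    have h : (a : ℝ) ^ (-(1 / 2 + I * t : ℂ)).re ≤ 1 := by
      apply Real.rpow_le_one_of_one_le_of_nonpos
      · exact_mod_cast ha
      · simp
    exact mul_le_of_le_one_right (abs_nonneg _) h

/-- continuous and bounded -/
private def CB (F : ℝ → ℂ) : Prop := Continuous F ∧ ∃ C : ℝ, ∀ t, ‖F t‖ ≤ C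

private theorem CB_ev (f : DP) : CB (fun t => ev t f) :=
  ⟨Pool.Agent.Lib.MP_f9aece_nt.continuous_ev f, dl_ev_bd f⟩

private theorem CB_add {F G : ℝ → ℂ} (hF : CB F) (hG : CB G) : CB (fun t => F t + G t) := by
  obtain ⟨h1, C, hC⟩ := hF
  obtain ⟨h2, D, hD⟩ := hG
  exact ⟨h1.add h2, C + D, fun t => (norm_add_le _ _).trans (add_le_add (hC t) (hD t))⟩

private theorem CB_sub {F G : ℝ → ℂ} (hF : CB F) (hG : CB G) : CB (fun t => F t - G t) := by
  obtain ⟨h1, C, hC⟩ := hF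
  obtain ⟨h2, D, hD⟩ := hG
  exact ⟨h1.sub h2, C + D, fun t => (norm_sub_le _ _).trans (add_le_add (hC t) (hD t))⟩

private theorem CB_const_mul (c : ℂ) {F : ℝ → ℂ} (hF : CB F) : CB (fun t => c * F t) := by
  obtain ⟨h1, C, hC⟩ := hF
  refine ⟨continuous_const.mul h1, ‖c‖ * C, fun t => ?_⟩
  rw [norm_mul]
  exact mul_le_mul_of_nonneg_left (hC t) (norm_nonneg _)

private theorem CB_SW (w : ℝ → ℂ) (p0 : ℕ) (Y L : ℝ) : CB (fun t => SW w p0 Y L t) :=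
  CB_add (CB_ev _) (CB_const_mul I (CB_ev _))

private theorem dl_PM_cont (w : ℝ → ℂ) (K : ℝ) (m : ℕ) : Continuous (PM w K m) := by
  unfold PM
  fun_prop

private theorem CB_PM (w : ℝ → ℂ) (K : ℝ) (m : ℕ) (Y : ℝ) :
    CB (fun t => PM w K m (GB K m Y t)) := by
  have h1 : Continuous fun t : ℝ => GB K m Y t :=
    continuous_pi fun j => Pool.Agent.Lib.MP_f9aece_nt.continuous_ev _
  refine ⟨(dl_PM_cont w K m).comp h1, ?_⟩
  have h2 : ∀ j : Fin m, ∃ C : ℝ, ∀ t : ℝ, ‖GB K m Y t j‖ ≤ C := fun j => dl_ev_bd _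
  choose C hC using h2
  have h3 : ∀ t : ℝ, GB K m Y t ∈ Metric.closedBall (0 : Fin m → ℂ) (∑ j, |C j|) := by
    intro t
    rw [mem_closedBall_zero_iff]
    refine (pi_norm_le_iff_of_nonneg (Finset.sum_nonneg fun j _ => abs_nonneg _)).2 fun j => ?_
    refine (hC j t).trans ((le_abs_self _).trans ?_)
    exact Finset.single_le_sum (f := fun j => |C j|) (fun j _ => abs_nonneg _) (Finset.mem_univ j)
  obtain ⟨D, hD⟩ := (isCompact_closedBall (0 : Fin m → ℂ) (∑ j, |C j|)).exists_bound_of_continuousOn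
    (dl_PM_cont w K m).continuousOn
  exact ⟨D, fun t => hD _ (h3 t)⟩

private theorem CB_int {F : ℝ → ℂ} (hF : CB F) {s : ℝ} (hs : 0 < s) (ν : Measure ℝ)
    [IsProbabilityMeasure ν] : Integrable (fun t => ‖F t‖ ^ s) ν := by
  obtain ⟨h1, C, hC⟩ := hF
  refine (integrable_const (C ^ s)).mono' ?_ ?_
  · exact (h1.norm.rpow_const fun t => Or.inr hs.le).aestronglyMeasurable
  · refine Eventually.of_forall fun t => ?_
    rw [Real.norm_eq_abs, abs_of_nonneg (Real.rpow_nonneg (norm_nonneg _) _)]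
    exact Real.rpow_le_rpow (norm_nonneg _) (hC t) hs.le

/-- the index sets -/
private def SS (n : ℕ) : Set (Measure ℝ × ℝ × ℝ × ℝ) :=
  {i | (n : ℝ) + 1 ≤ i.2.1 ∧ Real.exp (((n : ℝ) + 1) * i.2.1) ≤ i.2.2.1 ∧ 0 ≤ i.2.2.2 ∧
    i.2.2.2 * ((n : ℝ) + 1) ≤ 1 ∧ MVR i.1 i.2.1 i.2.2.1 i.2.2.2}

private theorem SS_anti : Antitone SS := by
  intro n n' hn i hi
  obtain ⟨h1, h2, h3, h4, h5⟩ := hi
  have hc : (n : ℝ) ≤ n' := by exact_mod_cast hn
  have hY : 0 ≤ i.2.1 := by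
    have : (0 : ℝ) ≤ n' := Nat.cast_nonneg _
    linarith
  refine ⟨by linarith, (Real.exp_le_exp.2 ?_).trans h2, h3, ?_, h5⟩
  · exact mul_le_mul_of_nonneg_right (by linarith) hY
  · exact (mul_le_mul_of_nonneg_left (by linarith) h3).trans h4

private theorem SS_ne (h0 : MS.UnifMVP) (n : ℕ) : (SS n).Nonempty := by
  obtain ⟨X, hX⟩ : ∃ X, X = Real.exp (((n : ℝ) + 1) * ((n : ℝ) + 1)) := ⟨_, rfl⟩
  have hn : (0 : ℝ) ≤ n := Nat.cast_nonneg _
  have hX1 : 1 ≤ X := by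
    rw [hX]
    exact Real.one_le_exp (by positivity)
  obtain ⟨T, hT⟩ : ∃ T, T = 2 * X ^ 2 * ((n : ℝ) + 1) := ⟨_, rfl⟩
  have hT0 : 0 < T := by
    rw [hT]
    positivity
  have hη : 2 * X ^ 2 / T = 1 / ((n : ℝ) + 1) := by
    rw [hT]
    field_simp
  have hM := h0 0 T X hT0 hX1
  refine ⟨(un 0 T, (n : ℝ) + 1, X, 2 * X ^ 2 / T), le_rfl, hX.symm.le, ?_, ?_, ?_⟩
  · change 0 ≤ 2 * X ^ 2 / T
    positivity
  · change 2 * X ^ 2 / T * ((n : ℝ) + 1) ≤ 1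
    rw [hη, one_div_mul_cancel (by positivity)]
  · refine ⟨hM.prob, fun P Q hP hQ => hM.mv P Q ?_ ?_⟩
    · intro a ha
      exact ⟨Nat.one_le_iff_ne_zero.2 (hP a ha).1.1, (hP a ha).2⟩
    · intro a ha
      exact ⟨Nat.one_le_iff_ne_zero.2 (hQ a ha).1.1, (hQ a ha).2⟩

theorem decLimit (h1 : PowIneq) (h2 : CauL) (h14 : DecM) (h16 : DecA) (h18 : GmLow) (h0 : MS.UnifMVP) : DecLimit := by
  intro k B Lam w hk hw K hK
  have hk2 : 0 < 2 * k := by positivity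
  obtain ⟨C, hC0, hC⟩ := h16 k B Lam w hk hw K hK
  obtain ⟨f, hf⟩ : ∃ f : Measure ℝ × ℝ × ℝ × ℝ → ℝ, f = fun i =>
    ∫ t, ‖SW w 0 i.2.1 (K * i.2.1) t‖ ^ (2 * k) ∂i.1 := ⟨_, rfl⟩
  obtain ⟨gm, hgm⟩ : ∃ gm : ℕ → ℝ, gm = fun m =>
    ∫ z, ‖PM w K m z‖ ^ (2 * k) ∂(gam m fun j => sg K m j) := ⟨_, rfl⟩
  have key : ∀ ε : ℝ, 0 < ε → ∃ m : ℕ, 1 ≤ m ∧ ∃ n : ℕ, ∀ i ∈ SS n, |f i - gm m| ≤ ε := by
    intro ε hε
    obtain ⟨Cη, hCη0, hCη⟩ := h1 (2 * k) (ε / (3 * (C + 1))) hk2 (by positivity)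
    -- the choice of m
    have hlim : Tendsto (fun m : ℕ => Cη * (C * (1 / (m : ℝ)) ^ (2 * k))) atTop (𝓝 0) := by
      have hl1 : Tendsto (fun m : ℕ => (1 / (m : ℝ)) ^ (2 * k)) atTop (𝓝 0) := by
        have := (tendsto_one_div_atTop_nhds_zero_nat (𝕜 := ℝ)).rpow_const
          (p := 2 * k) (Or.inr hk2.le)
        rwa [Real.zero_rpow hk2.ne'] at this
      have := (hl1.const_mul C).const_mul Cη
      simpa using this
    have hev := (hlim.eventually_le_const (show (0 : ℝ) < ε / 3 by positivity)).and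
      (eventually_ge_atTop 1)
    obtain ⟨m, hm1, hm⟩ := hev.exists
    obtain ⟨N1, hN1, hA⟩ := hC m hm
    obtain ⟨N2, hN2, hD⟩ := h14 k B Lam w hk hw K m hK hm (ε / 3) (by positivity)
    obtain ⟨n, hn⟩ := exists_nat_ge (max N1 N2)
    refine ⟨m, hm, n, ?_⟩
    rintro ⟨ν, Y, X, η⟩ ⟨i1, i2, i3, i4, i5⟩
    simp only at i1 i2 i3 i4 i5
    have hn0 : (0 : ℝ) ≤ n := Nat.cast_nonneg _
    have hY : 0 ≤ Y := by linarith
    have hn1 : N1 ≤ n := (le_max_left _ _).trans hn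
    have hn2 : N2 ≤ n := (le_max_right _ _).trans hn
    obtain ⟨a1, a2⟩ := hA ν Y X η (by linarith)
      ((Real.exp_le_exp.2 (mul_le_mul_of_nonneg_right (by linarith) hY)).trans i2) i3
      ((mul_le_mul_of_nonneg_left (by linarith) i3).trans i4) i5
    have a3 := hD ν Y X η (by linarith)
      ((Real.exp_le_exp.2 (mul_le_mul_of_nonneg_right (by linarith) hY)).trans i2) i3
      ((mul_le_mul_of_nonneg_left (by linarith) i3).trans i4) i5
    have hpr := i5.prob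
    have e1 := CB_int (CB_SW w 0 Y (K * Y)) hk2 ν
    have e2 := CB_int (CB_PM w K m Y) hk2 ν
    have e3 := CB_int (CB_sub (CB_SW w 0 Y (K * Y)) (CB_PM w K m Y)) hk2 ν
    have b1 : |∫ t, ‖SW w 0 Y (K * Y) t‖ ^ (2 * k) ∂ν - ∫ t, ‖PM w K m (GB K m Y t)‖ ^ (2 * k) ∂ν|
        ≤ ε / (3 * (C + 1)) * C + Cη * (C * (1 / (m : ℝ)) ^ (2 * k)) := by
      rw [← integral_sub e1 e2]
      refine (abs_integral_le_integral_abs).trans ?_
      have b2 : ∫ t, |‖SW w 0 Y (K * Y) t‖ ^ (2 * k) - ‖PM w K m (GB K m Y t)‖ ^ (2 * k)| ∂ν ≤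
          ∫ t, (ε / (3 * (C + 1)) * ‖SW w 0 Y (K * Y) t‖ ^ (2 * k) +
            Cη * ‖SW w 0 Y (K * Y) t - PM w K m (GB K m Y t)‖ ^ (2 * k)) ∂ν := by
        refine integral_mono (e1.sub e2).abs ((e1.const_mul _).add (e3.const_mul _)) fun t => ?_
        exact hCη _ _
      refine b2.trans ?_
      rw [integral_add (e1.const_mul _) (e3.const_mul _), integral_const_mul, integral_const_mul]
      exact add_le_add (mul_le_mul_of_nonneg_left a1 (by positivity))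
        (mul_le_mul_of_nonneg_left a2 hCη0)
    have b3 : ε / (3 * (C + 1)) * C ≤ ε / 3 := by
      have : ε / (3 * (C + 1)) * C = ε / 3 * (C / (C + 1)) := by
        field_simp
      rw [this]
      refine mul_le_of_le_one_right (by positivity) ?_
      rw [div_le_one (by positivity)]
      linarith
    rw [hf, hgm]
    change |∫ t, ‖SW w 0 Y (K * Y) t‖ ^ (2 * k) ∂ν -
      ∫ z, ‖PM w K m z‖ ^ (2 * k) ∂(gam m fun j => sg K m j)| ≤ ε
    rw [abs_le] at b1 a3 ⊢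
    constructor
    · linarith [b1.1, a3.1]
    · linarith [b1.2, a3.2]
  obtain ⟨c, hc⟩ := h2 (Measure ℝ × ℝ × ℝ × ℝ) SS f SS_anti (SS_ne h0) fun ε hε => by
    obtain ⟨m, hm, n, hn⟩ := key ε hε
    exact ⟨gm m, n, hn⟩
  refine ⟨c, ?_, ?_⟩
  · refine le_of_forall_pos_le_add fun ε hε => ?_
    obtain ⟨m, hm, n, hn⟩ := key (ε / 2) (by positivity)
    obtain ⟨n', hn'⟩ := hc (ε / 2) (by positivity)
    obtain ⟨i, hi⟩ := SS_ne h0 (max n n')
    have c1 := hn i (SS_anti (le_max_left n n') hi)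
    have c2 := hn' i (SS_anti (le_max_right n n') hi)
    have c3 := h18 k B Lam w hk hw K m hK hm
    have c4 : gm m = ∫ z, ‖PM w K m z‖ ^ (2 * k) ∂(gam m fun j => sg K m j) := by rw [hgm]
    rw [← c4] at c3
    rw [abs_le] at c1 c2
    linarith [c1.1, c2.2]
  · intro ε hε
    obtain ⟨n, hn⟩ := hc ε hε
    refine ⟨(n : ℝ) + 1, by linarith [Nat.cast_nonneg (α := ℝ) n], ?_⟩
    intro ν Y X η j1 j2 j3 j4 j5
    have := hn (ν, Y, X, η) ⟨j1, j2, j3, j4, j5⟩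
    rw [hf] at this
    exact this

end Pool.Agent.Lib.MT
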