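import Mathlib
import Pool.Agent.Lib.MP_f9aece_nt_mt.StmtsT
import Pool.Agent.Lib.MP_f9aece_nt_ms.Coeffs

/-!
Mesoscopic moments of zeta, module T20.

τ with Lam q τ 2 <= small so that |prod of q values u(x_i) - 1| <= 1/2 for 0 <= x_i <= τ (|u x - 1| <= Lam x). Coefficient of RW^q at n with n in Smo (Rst 0 Y), log n <= τ K Y: sum over factorizations n = b_1..b_q of prod u(log b_i/(KY)) >= (zr^q) n/2 (af_pow, induction or abs_pow_le applied to ... ; e.g. compare with u >= 1 - Lam τ =: θ > 0 pointwise on the divisors: (RW)_b >= θ for b | n, so the coefficient is >= θ^q (zr^q) n). En >= θ^(2q) sum over F. (If Cut B Lam u and u 0 = 1 then Lam >= 1.) (about 120 lines)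
-/

set_option autoImplicit false

namespace Pool.Agent.Lib.MT

open MeasureTheory Set Filter Topology Complex
open scoped ComplexConjugate
open scoped ArithmeticFunction.Omega
open Pool.Agent.Lib.MP_f9aece_nt (DP pair BK K1 ev PP VV Smo expo)
open Pool.Agent.Lib.MP_f9aece_nt_h40 (ind)
open Pool.Agent.Lib.MP_f9aece_nt_h85 (Rst)
open Pool.Agent.Lib.MP_f9aece_nt_h97 (Psm Dsm evs)
open Pool.Agent.Lib.NL (pt B0)
open Pool.Agent.Lib.J4 (En V2)
open Pool.Agent.Lib.MS (Len MVP Par RW TZ Cut un zr ex hq af ZS)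

namespace T20

private lemma low_pow {f F : ArithmeticFunction ℝ} {θ : ℝ} (hθ : 0 ≤ θ) (hF : ∀ n, 0 ≤ F n)
    {n : ℕ} (h : ∀ d, d ∣ n → θ * F d ≤ f d) (k : ℕ) : θ ^ k * (F ^ k) n ≤ (f ^ k) n := by
  have hFk : ∀ k m, 0 ≤ (F ^ k) m := fun k m =>
    (abs_nonneg _).trans (MS.abs_pow_le (fun n => (abs_of_nonneg (hF n)).le) k m)
  have key : ∀ k : ℕ, ∀ d, d ∣ n → θ ^ k * (F ^ k) d ≤ (f ^ k) d := by
    intro k
    induction k with
    | zero => intro d _; simp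
    | succ k ih =>
      intro d hd
      rw [pow_succ, pow_succ F, pow_succ f, ArithmeticFunction.mul_apply,
        ArithmeticFunction.mul_apply, Finset.mul_sum]
      refine Finset.sum_le_sum fun p hp => ?_
      have h1 := (Nat.mem_divisorsAntidiagonal.mp hp).1
      have h2 : p.1 ∣ n := (Dvd.intro _ h1).trans hd
      have h3 : p.2 ∣ n := (Dvd.intro_left _ h1).trans hd
      have h4 := ih p.1 h2
      have h5 := h p.2 h3
      have h6 : 0 ≤ θ ^ k * (F ^ k) p.1 := mul_nonneg (pow_nonneg hθ k) (hFk k _)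
      have h7 : 0 ≤ θ * F p.2 := mul_nonneg hθ (hF _)
      calc θ ^ k * θ * ((F ^ k) p.1 * F p.2) = (θ ^ k * (F ^ k) p.1) * (θ * F p.2) := by ring
        _ ≤ (f ^ k) p.1 * f p.2 := mul_le_mul h4 h5 h7 (h6.trans h4)
  exact key k n dvd_rfl

private lemma af_single (a : ℕ) (x : ℝ) {n : ℕ} (hn : n ≠ 0) :
    af (MonoidAlgebra.single a x) n = if a = n then x else 0 := by
  rw [MS.af_apply _ hn, MonoidAlgebra.coeff_single, Finsupp.single_apply]

private lemma af_RW (u : ℝ → ℝ) {Y L : ℝ} {d : ℕ} (hd : d ∈ Smo (Rst 0 Y))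
    (hdL : Real.log d ≤ L) : af (RW u 0 Y L) d = u (Real.log d / L) := by
  classical
  have hd0 : d ≠ 0 := hd.1
  unfold RW
  rw [MS.af_sum_apply, Finset.sum_eq_single d]
  · rw [af_single _ _ hd0, if_pos rfl]
  · intro b _ hb
    rw [af_single _ _ hd0, if_neg hb]
  · intro h
    exfalso
    apply h
    rw [Finset.mem_filter, Finset.mem_Icc]
    refine ⟨⟨Nat.one_le_iff_ne_zero.2 hd0, Nat.le_floor ?_⟩, hd⟩
    have h1 : (0 : ℝ) < d := by exact_mod_cast Nat.pos_of_ne_zero hd0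
    exact (Real.log_le_iff_le_exp h1).1 hdL

private lemma coeff_mul_ne {f g : DP} {n : ℕ} (h : (f * g).coeff n ≠ 0) :
    ∃ a b, f.coeff a ≠ 0 ∧ g.coeff b ≠ 0 ∧ a * b = n := by
  classical
  by_contra hc
  push Not at hc
  apply h
  rw [MonoidAlgebra.coeff_mul]
  refine Finset.sum_eq_zero fun a ha => Finset.sum_eq_zero fun b hb => ?_
  simp only
  rw [if_neg]
  exact hc a b (Finsupp.mem_support_iff.1 ha) (Finsupp.mem_support_iff.1 hb)

private lemma supp_RW (u : ℝ → ℝ) (Y L : ℝ) (q : ℕ) :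
    ∀ n, (RW u 0 Y L ^ q).coeff n ≠ 0 → 1 ≤ n := by
  classical
  have h1 : ∀ n, (RW u 0 Y L).coeff n ≠ 0 → n ∈ {n : ℕ | 1 ≤ n} := by
    intro n hn
    unfold RW at hn
    rw [MonoidAlgebra.coeff_sum, Finsupp.finsetSum_apply] at hn
    obtain ⟨a, ha, ha'⟩ := Finset.exists_ne_zero_of_sum_ne_zero hn
    rw [MonoidAlgebra.coeff_single, Finsupp.single_apply] at ha'
    rw [Finset.mem_filter, Finset.mem_Icc] at ha
    have h2 : a = n := by
      by_contra h3
      exact ha' (if_neg h3)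
    rw [← h2]
    exact ha.1.1
  induction q with
  | zero =>
    intro n hn
    rw [pow_zero, MonoidAlgebra.one_def, MonoidAlgebra.coeff_single, Finsupp.single_apply] at hn
    have h2 : 1 = n := by
      by_contra h3
      exact hn (if_neg h3)
    omega
  | succ q ih =>
    intro n hn
    rw [pow_succ] at hn
    obtain ⟨x, y, hx, hy, rfl⟩ := coeff_mul_ne hn
    have h2 := ih x hx
    have h3 : 1 ≤ y := h1 y hy
    exact Nat.one_le_iff_ne_zero.2 (Nat.mul_ne_zero (by omega) (by omega))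

private lemma En_ge {f : DP} (hf : ∀ n, f.coeff n ≠ 0 → 1 ≤ n) (F : Finset ℕ) :
    ∑ n ∈ F, af f n ^ 2 * (n : ℝ)⁻¹ ≤ En f := by
  classical
  rw [MS.En_af hf]
  calc ∑ n ∈ F, af f n ^ 2 * (n : ℝ)⁻¹
      ≤ ∑ n ∈ F ∪ f.coeff.support, af f n ^ 2 * (n : ℝ)⁻¹ :=
        Finset.sum_le_sum_of_subset_of_nonneg Finset.subset_union_left fun n _ _ => by positivity
    _ = ∑ n ∈ f.coeff.support, af f n ^ 2 * (n : ℝ)⁻¹ := by
        symm
        refine Finset.sum_subset Finset.subset_union_right fun n _ hn => ?_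
        rw [Finsupp.mem_support_iff, not_not] at hn
        rcases eq_or_ne n 0 with h | h
        · subst h; simp
        · rw [MS.af_apply _ h, hn]; simp

end T20

theorem lowK (h : RgLow) : LowK := by
  intro q B Lam hq
  obtain ⟨c, hc, hc'⟩ := h q hq
  set τ : ℝ := 1 / (2 * (|Lam| + 1)) with hτ
  have hL0 : 0 ≤ |Lam| := abs_nonneg _
  have hτ0 : 0 < τ := by positivity
  have hτ1 : τ ≤ 1 := by
    rw [hτ, div_le_one (by positivity)]
    linarith
  have hτL : |Lam| * τ ≤ 1 / 2 := by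
    rw [hτ, mul_one_div, div_le_div_iff₀ (by positivity) (by norm_num)]
    linarith
  obtain ⟨K0, hK0, hK⟩ := hc' τ hτ0 hτ1
  refine ⟨(1 / 2 : ℝ) ^ (2 * q) * (c * τ ^ (q ^ 2)), K0, by positivity, hK0, fun K hKK => ?_⟩
  obtain ⟨Y0, hY0, hY⟩ := hK K hKK
  refine ⟨Y0, hY0, fun Y hYY u hu hu0 => ?_⟩
  obtain ⟨F, hF, hsum⟩ := hY Y hYY
  have hKY : 0 < K * Y := by
    have h1 : 0 < K := by linarith
    have h2 : 0 < Y := by linarith
    positivity
  refine le_trans ?_ (T20.En_ge (T20.supp_RW u Y (K * Y) q) F)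
  have h1 : (1 / 2 : ℝ) ^ (2 * q) * (c * τ ^ (q ^ 2)) * K ^ (q ^ 2) =
      (1 / 2 : ℝ) ^ (2 * q) * (c * (τ * K) ^ (q ^ 2)) := by
    rw [mul_pow]; ring
  rw [h1]
  refine (mul_le_mul_of_nonneg_left hsum (by positivity)).trans ?_
  rw [Finset.mul_sum]
  refine Finset.sum_le_sum fun n hn => ?_
  obtain ⟨hn1, hn2⟩ := hF n hn
  have h2 : ∀ d, d ∣ n → 1 / 2 * zr d ≤ af (RW u 0 Y (K * Y)) d := by
    intro d hd
    have hd1 : d ∈ Smo (Rst 0 Y) := MP_f9aece_nt_h97.dvd_smo hn1 hd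
    have hd0 : d ≠ 0 := hd1.1
    have hn0 : n ≠ 0 := hn1.1
    have hdn : (d : ℝ) ≤ n := by exact_mod_cast Nat.le_of_dvd (Nat.pos_of_ne_zero hn0) hd
    have hd2 : (0 : ℝ) < d := by exact_mod_cast Nat.pos_of_ne_zero hd0
    have h3 : Real.log d ≤ τ * (K * Y) := (Real.log_le_log hd2 hdn).trans hn2
    have h4 : Real.log d ≤ K * Y := h3.trans (mul_le_of_le_one_left hKY.le hτ1)
    rw [MS.zr_apply hd0, T20.af_RW u hd1 h4]
    have h5 : 0 ≤ Real.log d / (K * Y) := div_nonneg (Real.log_natCast_nonneg _) hKY.le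
    have h6 : Real.log d / (K * Y) ≤ τ := by
      rw [div_le_iff₀ hKY]
      exact h3
    have h7 := hu.lip (Real.log d / (K * Y)) 0
    rw [hu0, sub_zero, abs_of_nonneg h5] at h7
    have h8 : Lam * (Real.log d / (K * Y)) ≤ |Lam| * τ :=
      mul_le_mul (le_abs_self _) h6 h5 hL0
    have h9 := abs_le.1 h7
    linarith [h9.1]
  have h3 := T20.low_pow (by norm_num : (0 : ℝ) ≤ 1 / 2)
    (fun n => (abs_nonneg _).trans (MS.abs_zr_le n)) h2 q
  rw [MS.af_pow]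
  have h4 : 0 ≤ (zr ^ q) n := MS.zr_pow_nonneg q n
  have h5 : ((1 / 2 : ℝ) ^ q * (zr ^ q) n) ^ 2 ≤ ((af (RW u 0 Y (K * Y)) ^ q) n) ^ 2 :=
    pow_le_pow_left₀ (by positivity) h3 2
  have h6 : (1 / 2 : ℝ) ^ (2 * q) * ((zr ^ q) n ^ 2 * (n : ℝ)⁻¹) =
      ((1 / 2 : ℝ) ^ q * (zr ^ q) n) ^ 2 * (n : ℝ)⁻¹ := by
    rw [mul_pow, ← pow_mul, mul_comm q 2]; ring
  rw [h6]
  exact mul_le_mul_of_nonneg_right h5 (by positivity)

end Pool.Agent.Lib.MT
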