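import Mathlib
import Pool.Agent.Lib.MP_f9aece_nt_mt.StmtsT
import Pool.Agent.Lib.MP_f9aece_nt_ms.Coeffs
import Pool.Agent.Lib.MP_f9aece_nt.PrimeSums

/-!
Mesoscopic moments of zeta, module T20a.

Z = τ K Y/A with A = A(q) large, K >= K0(τ). All squarefree n composed of primes in (e^Y, e^Z] with
log n <= τ K Y; for squarefree n (zr^q) n = q^Omega(n). Full sum = prod (1+q^2/p). The numbers with
log n > τ K Y = A Z contribute at most half of it (Rankin's trick).
-/

set_option autoImplicit false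

namespace Pool.Agent.Lib.MT

open MeasureTheory Set Filter Topology Complex
open scoped ComplexConjugate
open scoped ArithmeticFunction.Omega
open Pool.Agent.Lib.MP_f9aece_nt (DP pair BK K1 ev PP VV Smo expo)
open Pool.Agent.Lib.MP_f9aece_nt_h40 (ind)
open Pool.Agent.Lib.MP_f9aece_nt_h85 (Rst)
open Pool.Agent.Lib.MP_f9aece_nt_h97 (Psm Dsm evs)
open Pool.Agent.Lib.NL (pt B0)
open Pool.Agent.Lib.J4 (En V2)
open Pool.Agent.Lib.MS (Len MVP Par RW TZ Cut un zr ex hq af ZS zr_apply zr_pow_mult)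

private lemma rg_conv_p (f g : ArithmeticFunction ℝ) {p : ℕ} (hp : p.Prime) :
    (f * g) p = f 1 * g p + f p * g 1 := by
  have h1 := Nat.sum_divisorsAntidiagonal (fun a b => f a * g b) (n := p)
  rw [ArithmeticFunction.mul_apply, h1, Nat.Prime.divisors hp,
    Finset.sum_pair (Ne.symm hp.one_lt.ne'), Nat.div_one, Nat.div_self hp.pos]

private lemma rg_zr_prime (q : ℕ) {p : ℕ} (hp : p.Prime) : (zr ^ q) p = q := by
  induction q with
  | zero =>
    rw [pow_zero, ArithmeticFunction.one_apply_ne hp.ne_one]; simp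
  | succ q ih =>
    rw [pow_succ, rg_conv_p _ _ hp, (zr_pow_mult q).1, ih, zr_apply hp.ne_zero,
      zr_apply one_ne_zero]
    push_cast; ring

private lemma rg_zr_prod (q : ℕ) (s : Finset ℕ) (hs : ∀ p ∈ s, p.Prime) :
    (zr ^ q) (∏ p ∈ s, p) = (q : ℝ) ^ s.card := by
  classical
  induction s using Finset.induction_on with
  | empty => rw [Finset.prod_empty, (zr_pow_mult q).1, Finset.card_empty, pow_zero]
  | insert a s ha ih =>
    rw [Finset.prod_insert ha, Finset.card_insert_of_notMem ha, pow_succ,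
      (zr_pow_mult q).2 (Nat.Coprime.prod_right fun p hp => ?_), ih, rg_zr_prime q, mul_comm]
    · exact hs a (Finset.mem_insert_self _ _)
    · exact fun p hp => hs p (Finset.mem_insert_of_mem hp)
    · rw [Nat.coprime_primes (hs a (Finset.mem_insert_self _ _))
        (hs p (Finset.mem_insert_of_mem hp))]
      rintro rfl
      exact ha hp

private lemma rg_sq_sum (N : ℕ) : ∑ n ∈ Finset.Ioc 1 N, ((n : ℝ)⁻¹) ^ 2 ≤ 1 := by
  have h : ∀ N : ℕ, 1 ≤ N → ∑ n ∈ Finset.Ioc 1 N, ((n : ℝ)⁻¹) ^ 2 ≤ 1 - (N : ℝ)⁻¹ := by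
    intro N hN
    induction N, hN using Nat.le_induction with
    | base => simp
    | succ n hn ih =>
      rw [Finset.sum_Ioc_succ_top (by omega)]
      have hn0 : (0 : ℝ) < n := by exact_mod_cast hn
      have h1 : (((n + 1 : ℕ) : ℝ)⁻¹) ^ 2 ≤ (n : ℝ)⁻¹ - ((n + 1 : ℕ) : ℝ)⁻¹ := by
        push_cast
        have h2 : (n : ℝ)⁻¹ - ((n : ℝ) + 1)⁻¹ = (n : ℝ)⁻¹ * ((n : ℝ) + 1)⁻¹ := by
          field_simp
          ring
        rw [h2, sq]
        apply mul_le_mul_of_nonneg_right _ (by positivity)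
        apply inv_anti₀ hn0
        linarith
      linarith
  rcases Nat.eq_zero_or_pos N with rfl | hN
  · simp
  · refine (h N hN).trans ?_
    have : 0 ≤ (N : ℝ)⁻¹ := by positivity
    linarith

theorem rgLow (h3 : MertC) : RgLow := by
  classical
  intro q hq
  obtain ⟨M, hM⟩ := h3
  have hq0 : (0 : ℝ) < q := by exact_mod_cast hq
  set A : ℝ := 6 * q ^ 2 + 1 with hA
  have hA0 : 0 < A := by positivity
  refine ⟨1 / 2 * Real.exp (-(q ^ 2) - q ^ 4 : ℝ) * (A ^ (q ^ 2))⁻¹, by positivity, ?_⟩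
  intro τ hτ hτ1
  have hK0 : 0 < A / τ := by positivity
  refine ⟨A / τ + 1, by linarith, ?_⟩
  intro K hK
  obtain ⟨Y1, hY1⟩ := Filter.eventually_atTop.1
    (Metric.tendsto_nhds.1 hM (1 / 2) (by norm_num))
  refine ⟨max Y1 1, le_max_right _ _, ?_⟩
  intro Y hY
  have hYY1 : Y1 ≤ Y := (le_max_left _ _).trans hY
  have hYone : 1 ≤ Y := (le_max_right _ _).trans hY
  have hY0 : 0 < Y := by linarith
  set Z : ℝ := τ * K * Y / A with hZ
  have hKτ : A ≤ τ * K := by
    have h1 : A / τ ≤ K := by linarith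
    rwa [div_le_iff₀ hτ, mul_comm] at h1
  have hYZ : Y ≤ Z := by
    rw [hZ, le_div_iff₀ hA0]
    nlinarith
  have hZ1 : 1 ≤ Z := hYone.trans hYZ
  have hZ0 : 0 < Z := by linarith
  have hAZ : A * Z = τ * (K * Y) := by
    rw [hZ]; field_simp
  -- the primes
  set I : Finset ℕ := (Finset.Ioc ⌊Real.exp Y⌋₊ ⌊Real.exp Z⌋₊).filter Nat.Prime with hI
  have hIp : ∀ p ∈ I, p.Prime := fun p hp => (Finset.mem_filter.1 hp).2
  have hIgt : ∀ p ∈ I, ⌊Real.exp Y⌋₊ < p := fun p hp =>
    (Finset.mem_Ioc.1 (Finset.mem_filter.1 hp).1).1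
  have hIle : ∀ p ∈ I, Real.log p ≤ Z := by
    intro p hp
    have h1 : (p : ℝ) ≤ Real.exp Z :=
      (Nat.le_floor_iff (Real.exp_pos _).le).1 (Finset.mem_Ioc.1 (Finset.mem_filter.1 hp).1).2
    have hp0 : (0 : ℝ) < p := by exact_mod_cast (hIp p hp).pos
    rw [← Real.log_exp Z]
    exact Real.log_le_log hp0 h1
  have hIpos : ∀ p ∈ I, (0 : ℝ) < p := fun p hp => by exact_mod_cast (hIp p hp).pos
  set f : ℕ → ℝ := fun p => (q : ℝ) ^ 2 * (p : ℝ)⁻¹ with hf
  have hf0 : ∀ p, 0 ≤ f p := fun p => by positivity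
  -- the good subsets
  set G : Finset (Finset ℕ) := I.powerset.filter
    (fun s => Real.log (∏ p ∈ s, (p : ℝ)) ≤ A * Z) with hG
  have hGsub : ∀ s ∈ G, s ⊆ I := fun s hs => Finset.mem_powerset.1 (Finset.mem_filter.1 hs).1
  refine ⟨G.image (fun s => ∏ p ∈ s, p), ?_, ?_⟩
  · intro n hn
    obtain ⟨s, hs, rfl⟩ := Finset.mem_image.1 hn
    have hsI := hGsub s hs
    refine ⟨⟨?_, ?_⟩, ?_⟩
    · exact Finset.prod_ne_zero_iff.2 fun p hp => (hIp p (hsI hp)).ne_zero
    · intro r hr hrd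
      obtain ⟨p, hp, hrp⟩ := (Prime.dvd_finsetProd_iff hr.prime _).1 hrd
      have hrp' : r = p := (Nat.prime_dvd_prime_iff_eq hr (hIp p (hsI hp))).1 hrp
      subst hrp'
      intro hcon
      have := hIgt r (hsI hp)
      omega
    · have h1 := (Finset.mem_filter.1 hs).2
      rw [← hAZ]
      push_cast
      exact h1
  -- the sum over the good subsets
  have hinj : Set.InjOn (fun s : Finset ℕ => ∏ p ∈ s, p) (G : Set (Finset ℕ)) := by
    intro s hs t ht hst
    have h1 := congrArg Nat.primeFactors hst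
    simp only at h1
    rwa [Nat.primeFactors_prod fun p hp => hIp p (hGsub s hs hp),
      Nat.primeFactors_prod fun p hp => hIp p (hGsub t ht hp)] at h1
  rw [Finset.sum_image hinj]
  have hterm : ∀ s ∈ G, (zr ^ q) (∏ p ∈ s, p) ^ 2 * ((∏ p ∈ s, p : ℕ) : ℝ)⁻¹ = ∏ p ∈ s, f p := by
    intro s hs
    rw [rg_zr_prod q s fun p hp => hIp p (hGsub s hs hp)]
    simp only [hf]
    rw [Finset.prod_mul_distrib, Finset.prod_const, Finset.prod_inv_distrib, Nat.cast_prod]
    congr 1
    rw [← pow_mul, ← pow_mul, mul_comm]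
  rw [Finset.sum_congr rfl hterm]
  -- the full sum
  set FS : ℝ := ∏ p ∈ I, (f p + 1) with hFS
  have hfull : ∑ s ∈ I.powerset, ∏ p ∈ s, f p = FS := (Finset.prod_add_one I).symm
  have hFS0 : 0 ≤ FS := Finset.prod_nonneg fun p _ => by have := hf0 p; linarith
  -- the tail
  have htail : ∑ s ∈ I.powerset.filter (fun s : Finset ℕ => ¬ Real.log (∏ p ∈ s, (p : ℝ)) ≤ A * Z),
      ∏ p ∈ s, f p ≤ 1 / 2 * FS := by
    have h1 : ∑ s ∈ I.powerset.filter (fun s : Finset ℕ => ¬ Real.log (∏ p ∈ s, (p : ℝ)) ≤ A * Z),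
        ∏ p ∈ s, f p ≤ ∑ s ∈ I.powerset, Real.exp (-A) *
          ∏ p ∈ s, (f p * Real.exp (Real.log p / Z)) := by
      refine (Finset.sum_le_sum (fun s hs => ?_)).trans
        (Finset.sum_le_sum_of_subset_of_nonneg (Finset.filter_subset _ _) fun s _ _ => ?_)
      · rw [Finset.mem_filter] at hs
        have hsI := Finset.mem_powerset.1 hs.1
        have h2 := hs.2
        push Not at h2
        have hprod : ∏ p ∈ s, (f p * Real.exp (Real.log p / Z)) =
            (∏ p ∈ s, f p) * Real.exp (Real.log (∏ p ∈ s, (p : ℝ)) / Z) := by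
          rw [Finset.prod_mul_distrib (f := f), ← Real.exp_sum, ← Finset.sum_div,
            ← Real.log_prod fun p hp => (hIpos p (hsI hp)).ne']
        rw [hprod]
        have h3 : 1 ≤ Real.exp (-A) * Real.exp (Real.log (∏ p ∈ s, (p : ℝ)) / Z) := by
          rw [← Real.exp_add]
          apply Real.one_le_exp
          have : A ≤ Real.log (∏ p ∈ s, (p : ℝ)) / Z := by
            rw [le_div_iff₀ hZ0]; exact h2.le
          linarith
        have h4 : 0 ≤ ∏ p ∈ s, f p := Finset.prod_nonneg fun p _ => hf0 p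
        calc ∏ p ∈ s, f p = (∏ p ∈ s, f p) * 1 := (mul_one _).symm
          _ ≤ (∏ p ∈ s, f p) * (Real.exp (-A) *
              Real.exp (Real.log (∏ p ∈ s, (p : ℝ)) / Z)) :=
            mul_le_mul_of_nonneg_left h3 h4
          _ = _ := by ring
      · have : 0 ≤ ∏ p ∈ s, (f p * Real.exp (Real.log p / Z)) :=
          Finset.prod_nonneg fun p _ => mul_nonneg (hf0 p) (Real.exp_pos _).le
        positivity
    refine h1.trans ?_
    rw [← Finset.mul_sum, ← Finset.prod_add_one]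
    -- compare the factors
    have h2 : ∏ p ∈ I, (f p * Real.exp (Real.log p / Z) + 1) ≤
        ∏ p ∈ I, ((f p + 1) * Real.exp (2 * q ^ 2 / Z * (Real.log p / p))) := by
      refine Finset.prod_le_prod (fun p _ => ?_) fun p hp => ?_
      · have := mul_nonneg (hf0 p) (Real.exp_pos (Real.log p / Z)).le
        linarith
      · have hlog0 : 0 ≤ Real.log p := Real.log_nonneg (by exact_mod_cast (hIp p hp).one_lt.le)
        have hx0 : 0 ≤ Real.log p / Z := by positivity
        have hx1 : Real.log p / Z ≤ 1 := by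
          rw [div_le_one hZ0]; exact hIle p hp
        have h3 : Real.exp (Real.log p / Z) ≤ 1 + 2 * (Real.log p / Z) := by
          have h4 := Real.abs_exp_sub_one_sub_id_le (x := Real.log p / Z)
            (by rw [abs_of_nonneg hx0]; exact hx1)
          have h5 := (abs_le.1 h4).2
          nlinarith
        have h6 : f p * Real.exp (Real.log p / Z) + 1 ≤
            (f p + 1) * (1 + 2 * q ^ 2 / Z * (Real.log p / p)) := by
          have h7 : f p * Real.exp (Real.log p / Z) ≤ f p * (1 + 2 * (Real.log p / Z)) :=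
            mul_le_mul_of_nonneg_left h3 (hf0 p)
          have h8 : f p * (2 * (Real.log p / Z)) = 2 * q ^ 2 / Z * (Real.log p / p) := by
            simp only [hf]
            field_simp
          have h9 : 0 ≤ f p * (2 * q ^ 2 / Z * (Real.log p / p)) := by
            have := hf0 p
            positivity
          nlinarith
        refine h6.trans (mul_le_mul_of_nonneg_left ?_ (by have := hf0 p; linarith))
        have := Real.add_one_le_exp (2 * q ^ 2 / Z * (Real.log p / p))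
        linarith
    rw [Finset.prod_mul_distrib, ← Real.exp_sum, ← Finset.mul_sum] at h2
    have h10 : ∑ p ∈ I, Real.log p / p ≤ 3 * Z := by
      have hfl : 1 ≤ ⌊Real.exp Z⌋₊ := by
        rw [Nat.one_le_floor_iff]
        exact Real.one_le_exp hZ0.le
      have h11 := MP_f9aece_nt.sum_log_div_le hfl
      have h12 : ∑ p ∈ I, Real.log p / p ≤
          ∑ p ∈ (Finset.Ioc 0 ⌊Real.exp Z⌋₊).filter Nat.Prime, Real.log p / p := by
        apply Finset.sum_le_sum_of_subset_of_nonneg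
        · intro p hp
          rw [hI, Finset.mem_filter, Finset.mem_Ioc] at hp
          rw [Finset.mem_filter, Finset.mem_Ioc]
          exact ⟨⟨hp.2.pos, hp.1.2⟩, hp.2⟩
        · intro p hp _
          have : 0 ≤ Real.log p := Real.log_natCast_nonneg p
          positivity
      have h13 : Real.log (⌊Real.exp Z⌋₊ : ℝ) ≤ Z := by
        have h14 : ((⌊Real.exp Z⌋₊ : ℕ) : ℝ) ≤ Real.exp Z := Nat.floor_le (Real.exp_pos _).le
        calc Real.log (⌊Real.exp Z⌋₊ : ℝ) ≤ Real.log (Real.exp Z) :=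
              Real.log_le_log (by exact_mod_cast hfl) h14
          _ = Z := Real.log_exp Z
      have h15 : Real.log 4 ≤ 2 := by
        have : (4 : ℝ) = 2 ^ 2 := by norm_num
        rw [this, Real.log_pow]
        have := Real.log_two_lt_d9
        push_cast
        linarith
      linarith
    have h11 : 2 * (q : ℝ) ^ 2 / Z * ∑ p ∈ I, Real.log p / p ≤ 6 * q ^ 2 := by
      have h12 : 2 * (q : ℝ) ^ 2 / Z * ∑ p ∈ I, Real.log p / p ≤ 2 * (q : ℝ) ^ 2 / Z * (3 * Z) :=
        mul_le_mul_of_nonneg_left h10 (by positivity)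
      refine h12.trans (le_of_eq ?_)
      field_simp
      ring
    have h12 : Real.exp (-A) * ∏ p ∈ I, (f p * Real.exp (Real.log p / Z) + 1) ≤
        Real.exp (-A) * (FS * Real.exp (6 * q ^ 2)) := by
      apply mul_le_mul_of_nonneg_left _ (Real.exp_pos _).le
      exact h2.trans (mul_le_mul_of_nonneg_left (Real.exp_le_exp.2 h11) hFS0)
    refine h12.trans ?_
    have h13 : Real.exp (-A) * (FS * Real.exp (6 * q ^ 2)) = Real.exp (-1) * FS := by
      rw [mul_comm FS, ← mul_assoc, ← Real.exp_add, hA]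
      congr 2
      ring
    rw [h13]
    apply mul_le_mul_of_nonneg_right _ hFS0
    have := Real.exp_neg_one_lt_d9
    linarith
  have hsplit : ∑ s ∈ G, ∏ p ∈ s, f p + ∑ s ∈ I.powerset.filter
      (fun s : Finset ℕ => ¬ Real.log (∏ p ∈ s, (p : ℝ)) ≤ A * Z), ∏ p ∈ s, f p = FS := by
    rw [hG, Finset.sum_filter_add_sum_filter_not, hfull]
  have hhalf : 1 / 2 * FS ≤ ∑ s ∈ G, ∏ p ∈ s, f p := by linarith
  refine le_trans ?_ hhalf
  -- lower bound for the product
  have hlow : Real.exp (∑ p ∈ I, f p - ∑ p ∈ I, f p ^ 2) ≤ FS := by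
    rw [hFS, ← Finset.sum_sub_distrib, Real.exp_sum]
    refine Finset.prod_le_prod (fun p _ => (Real.exp_pos _).le) fun p _ => ?_
    have h1 : 0 < 1 + f p := by have := hf0 p; linarith
    have h2 := Real.one_sub_inv_le_log_of_pos h1
    have h3 : f p - f p ^ 2 ≤ Real.log (1 + f p) := by
      refine le_trans ?_ h2
      have h4 : 1 - (1 + f p)⁻¹ = f p / (1 + f p) := by
        field_simp
        ring
      rw [h4, le_div_iff₀ h1]
      have h5 := hf0 p
      nlinarith [mul_nonneg h5 (mul_nonneg h5 h5)]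
    calc Real.exp (f p - f p ^ 2) ≤ Real.exp (Real.log (1 + f p)) := Real.exp_le_exp.2 h3
      _ = f p + 1 := by rw [Real.exp_log h1]; ring
  have hsum1 : (q : ℝ) ^ 2 * (Real.log (τ * K / A) - 1) ≤ ∑ p ∈ I, f p := by
    simp only [hf]
    rw [← Finset.mul_sum]
    apply mul_le_mul_of_nonneg_left _ (by positivity)
    have h1 := hY1 Y hYY1
    have h2 := hY1 Z (hYY1.trans hYZ)
    rw [Real.dist_eq] at h1 h2
    have hfle : ⌊Real.exp Y⌋₊ ≤ ⌊Real.exp Z⌋₊ := Nat.floor_le_floor (Real.exp_le_exp.2 hYZ)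
    have h3 : ∑ p ∈ (Finset.Icc 1 ⌊Real.exp Z⌋₊).filter Nat.Prime, (p : ℝ)⁻¹ =
        ∑ p ∈ (Finset.Icc 1 ⌊Real.exp Y⌋₊).filter Nat.Prime, (p : ℝ)⁻¹ + ∑ p ∈ I, (p : ℝ)⁻¹ := by
      rw [← Finset.sum_union]
      · congr 1
        ext p
        simp only [hI, Finset.mem_union, Finset.mem_filter, Finset.mem_Icc, Finset.mem_Ioc]
        constructor
        · rintro ⟨⟨h4, h5⟩, h6⟩
          rcases le_or_gt p ⌊Real.exp Y⌋₊ with h7 | h7
          · exact Or.inl ⟨⟨h4, h7⟩, h6⟩
          · exact Or.inr ⟨⟨h7, h5⟩, h6⟩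
        · rintro (⟨⟨h4, h5⟩, h6⟩ | ⟨⟨h4, h5⟩, h6⟩)
          · exact ⟨⟨h4, h5.trans hfle⟩, h6⟩
          · exact ⟨⟨h6.pos, h5⟩, h6⟩
      · rw [Finset.disjoint_left]
        intro p hp hp'
        simp only [hI, Finset.mem_filter, Finset.mem_Icc, Finset.mem_Ioc] at hp hp'
        omega
    have h4 : Real.log (τ * K / A) = Real.log Z - Real.log Y := by
      rw [← Real.log_div hZ0.ne' hY0.ne']
      congr 1
      rw [hZ]
      field_simp
    have h5 := (abs_lt.1 h1).2
    have h6 := (abs_lt.1 h2).1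
    rw [h4]
    linarith
  have hsum2 : ∑ p ∈ I, f p ^ 2 ≤ (q : ℝ) ^ 4 := by
    have h1 : ∑ p ∈ I, f p ^ 2 = (q : ℝ) ^ 4 * ∑ p ∈ I, ((p : ℝ)⁻¹) ^ 2 := by
      rw [Finset.mul_sum]
      refine Finset.sum_congr rfl fun p _ => ?_
      simp only [hf]
      ring
    rw [h1]
    have h2 : ∑ p ∈ I, ((p : ℝ)⁻¹) ^ 2 ≤ 1 := by
      refine le_trans ?_ (rg_sq_sum ⌊Real.exp Z⌋₊)
      apply Finset.sum_le_sum_of_subset_of_nonneg
      · intro p hp
        have h3 := hp
        rw [hI, Finset.mem_filter, Finset.mem_Ioc] at h3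
        rw [Finset.mem_Ioc]
        exact ⟨h3.2.one_lt, h3.1.2⟩
      · intro p _ _
        positivity
    calc (q : ℝ) ^ 4 * ∑ p ∈ I, ((p : ℝ)⁻¹) ^ 2 ≤ (q : ℝ) ^ 4 * 1 :=
          mul_le_mul_of_nonneg_left h2 (by positivity)
      _ = (q : ℝ) ^ 4 := mul_one _
  have hpos : 0 < τ * K / A := by
    have : 0 < τ * K := by linarith
    positivity
  have hfin : Real.exp (-(q ^ 2) - q ^ 4 : ℝ) * (τ * K / A) ^ (q ^ 2) ≤ FS := by
    refine le_trans (le_of_eq ?_) ((Real.exp_le_exp.2 (by linarith :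
      (q : ℝ) ^ 2 * (Real.log (τ * K / A) - 1) - q ^ 4 ≤ _)).trans hlow)
    have h1 : (τ * K / A) ^ (q ^ 2) = Real.exp ((q : ℝ) ^ 2 * Real.log (τ * K / A)) := by
      rw [mul_comm ((q : ℝ) ^ 2), Real.exp_mul, Real.exp_log hpos, ← Real.rpow_natCast]
      push_cast
      rfl
    rw [h1, ← Real.exp_add]
    congr 1
    ring
  have h5 : 1 / 2 * Real.exp (-(q ^ 2) - q ^ 4 : ℝ) * (A ^ (q ^ 2))⁻¹ * (τ * K) ^ (q ^ 2) =
      1 / 2 * (Real.exp (-(q ^ 2) - q ^ 4 : ℝ) * (τ * K / A) ^ (q ^ 2)) := by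
    rw [div_pow]
    ring
  rw [h5]
  exact mul_le_mul_of_nonneg_left hfin (by norm_num)

end Pool.Agent.Lib.MT
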