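import Mathlib
import Pool.Agent.Lib.MP_f9aece_nt_mt.StmtsT
import Pool.Agent.Lib.MP_f9aece_nt_ms.Coeffs

/-!
Mesoscopic moments of zeta, module T21.

Take ε = 1/n: N from Dec, Y large (also >= Y0 of LowK), ν = un 0 T, X = exp(max(N, q K + 1) Y), T large: MVP -> MVR. g + ε >= int ‖SW‖^(2k) dν >= (int ‖SW‖^(2q) dν)^(k/q) (probability measure, k >= q), ‖SW‖^(2q) = ‖ev t (RW^q)‖^2 (the imaginary part of the weight is 0), int >= (1 - η) En (RW^q) >= (c/2) K^(q^2). So g + ε >= (c/2)^(k/q) K^(k q). (about 120 lines)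
-/

set_option autoImplicit false

namespace Pool.Agent.Lib.MT

open MeasureTheory Set Filter Topology Complex
open scoped ComplexConjugate
open scoped ArithmeticFunction.Omega
open Pool.Agent.Lib.MP_f9aece_nt (DP pair BK K1 ev PP VV Smo expo)
open Pool.Agent.Lib.MP_f9aece_nt_h40 (ind)
open Pool.Agent.Lib.MP_f9aece_nt_h85 (Rst)
open Pool.Agent.Lib.MP_f9aece_nt_h97 (Psm Dsm evs)
open Pool.Agent.Lib.NL (pt B0)
open Pool.Agent.Lib.J4 (En V2)
open Pool.Agent.Lib.MS (Len MVP Par RW TZ Cut un zr ex hq af ZS)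

private theorem t21_sw (u : ℝ → ℝ) (Y L t : ℝ) :
    SW (fun x => ((u x : ℝ) : ℂ)) 0 Y L t = ev t (RW u 0 Y L) := by
  have h0 : RW (fun _ => (0 : ℝ)) 0 Y L = 0 := by simp [RW]
  unfold SW
  simp only [Complex.ofReal_re, Complex.ofReal_im, h0, map_zero, mul_zero, add_zero]

private theorem t21_sup (u : ℝ → ℝ) (Y L : ℝ) : MP_f9aece_nt_h97.Sup
    {n | n ∈ Smo (Rst 0 Y) ∧ (n : ℝ) ≤ Real.exp L} (RW u 0 Y L) := by
  classical
  unfold RW
  refine MP_f9aece_nt_h97.Sup.sum _ fun n hn => MP_f9aece_nt_h97.Sup.single ?_ _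
  rw [Finset.mem_filter, Finset.mem_Icc] at hn
  exact ⟨hn.2, (Nat.le_floor_iff (Real.exp_pos L).le).1 hn.1.2⟩

private theorem t21_sup_pow (u : ℝ → ℝ) (Y L : ℝ) (k : ℕ) : MP_f9aece_nt_h97.Sup
    {n | n ∈ Smo (Rst 0 Y) ∧ (n : ℝ) ≤ Real.exp (k * L)} (RW u 0 Y L ^ k) := by
  induction k with
  | zero =>
    rw [pow_zero]
    exact MP_f9aece_nt_h97.Sup.one ⟨MP_f9aece_nt.one_mem_Smo _, by simp⟩
  | succ k ih =>
    rw [pow_succ]
    refine ih.mul (t21_sup u Y L) ?_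
    rintro a ⟨ha1, ha2⟩ b ⟨hb1, hb2⟩
    refine ⟨MP_f9aece_nt.mul_mem_Smo ha1 hb1, ?_⟩
    push_cast
    have e : ((k : ℝ) + 1) * L = k * L + L := by ring
    rw [e, Real.exp_add]
    exact mul_le_mul ha2 hb2 (Nat.cast_nonneg _) (Real.exp_pos _).le

theorem decLow (h20 : LowK) (h0 : MS.UnifMVP) : DecLow := by
  intro q k B Lam hq hqk
  obtain ⟨c, K0, hc, hK0, h⟩ := h20 q B Lam hq
  have hq0 : (0 : ℝ) < q := by exact_mod_cast hq
  have hk0 : 0 < k := hq0.trans_le hqk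
  refine ⟨(c / 2) ^ (k / q), K0, by positivity, hK0, fun u hu hu0 K hK g hg => ?_⟩
  refine le_of_forall_pos_le_add fun ε hε => ?_
  obtain ⟨N, hN, hN2⟩ := hg ε hε
  obtain ⟨Y0, hY0, hY⟩ := h K hK
  have hKpos : 0 < K := by linarith
  obtain ⟨Y, hYN, hYY⟩ : ∃ Y : ℝ, N ≤ Y ∧ Y0 ≤ Y := ⟨max N Y0, le_max_left _ _, le_max_right _ _⟩
  have hE := hY Y hYY u hu hu0
  have hY1 : 1 ≤ Y := hN.trans hYN
  obtain ⟨X, hX1, hXN, hXq⟩ : ∃ X : ℝ, 1 ≤ X ∧ Real.exp (N * Y) ≤ X ∧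
      Real.exp (q * (K * Y)) ≤ X := by
    refine ⟨Real.exp (max (N * Y) (q * (K * Y))), ?_, Real.exp_le_exp.2 (le_max_left _ _),
      Real.exp_le_exp.2 (le_max_right _ _)⟩
    exact Real.one_le_exp (le_max_of_le_left (by positivity))
  have hX0 : 0 < X := by linarith
  obtain ⟨T, hT⟩ : ∃ T : ℝ, T = 4 * X ^ 2 * N := ⟨_, rfl⟩
  have hN0 : 0 < N := by linarith
  have hT0 : 0 < T := by rw [hT]; positivity
  have hη : 2 * X ^ 2 / T = 1 / (2 * N) := by
    rw [hT]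
    field_simp
    norm_num
  have hM := h0 0 T X hT0 hX1
  rw [hη] at hM
  have hη0 : 0 ≤ 1 / (2 * N) := by positivity
  have hηN : 1 / (2 * N) * N ≤ 1 := by
    have : 1 / (2 * N) * N = 1 / 2 := by field_simp
    rw [this]; norm_num
  have hη2 : 1 / (2 * N) ≤ 1 / 2 := by
    apply one_div_le_one_div_of_le <;> linarith
  have hR : MVR (un 0 T) Y X (1 / (2 * N)) := by
    refine ⟨hM.prob, fun P Q hP hQ => hM.mv P Q (fun n hn => ?_) (fun n hn => ?_)⟩
    · exact ⟨Nat.one_le_iff_ne_zero.2 (hP n hn).1.1, (hP n hn).2⟩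
    · exact ⟨Nat.one_le_iff_ne_zero.2 (hQ n hn).1.1, (hQ n hn).2⟩
  have h1 := hN2 (un 0 T) Y X (1 / (2 * N)) hYN hXN hη0 hηN hR
  simp only [t21_sw] at h1
  have hprob := hM.prob
  have hint : ∀ f : ℝ → ℝ, Continuous f → Integrable f (un 0 T) := by
    intro f hf
    unfold MS.un
    refine Integrable.smul_measure (hf.integrableOn_Icc) ?_
    rw [ENNReal.inv_ne_top]
    exact (ENNReal.ofReal_pos.2 hT0).ne'
  set R := RW u 0 Y (K * Y) with hRdef
  have hcont : Continuous fun t : ℝ => ev t R := MP_f9aece_nt.continuous_ev R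
  -- the energy
  have hmv := hR.mv (R ^ q) (R ^ q) ?_ ?_
  rotate_left
  · intro n hn
    have := t21_sup_pow u Y (K * Y) q n hn
    exact ⟨this.1, this.2.trans hXq⟩
  · intro n hn
    have := t21_sup_pow u Y (K * Y) q n hn
    exact ⟨this.1, this.2.trans hXq⟩
  have hEpos : 0 < En (R ^ q) := lt_of_lt_of_le (by positivity) hE
  have e1 : ∫ t, ev t (R ^ q) * conj (ev t (R ^ q)) ∂(un 0 T) =
      ((∫ t, ‖ev t (R ^ q)‖ ^ 2 ∂(un 0 T) : ℝ) : ℂ) := by
    rw [← integral_complex_ofReal]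
    refine integral_congr_ae (Filter.Eventually.of_forall fun t => ?_)
    simp only
    rw [Complex.mul_conj, Complex.normSq_eq_norm_sq]
  have hBK : BK K1 (R ^ q) (R ^ q) = En (R ^ q) := rfl
  rw [e1, hBK, ← Complex.ofReal_sub, Complex.norm_real, Real.norm_eq_abs,
    Real.sqrt_mul_self hEpos.le] at hmv
  have hlow : En (R ^ q) / 2 ≤ ∫ t, ‖ev t (R ^ q)‖ ^ 2 ∂(un 0 T) := by
    have h2 := (abs_le.1 hmv).1
    have h3 : 1 / (2 * N) * En (R ^ q) ≤ 1 / 2 * En (R ^ q) :=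
      mul_le_mul_of_nonneg_right hη2 hEpos.le
    linarith
  -- Jensen
  have hp1 : 1 ≤ k / q := by rw [le_div_iff₀ hq0]; linarith
  have hfc : Continuous fun t : ℝ => ‖ev t (R ^ q)‖ ^ 2 :=
    (MP_f9aece_nt.continuous_ev (R ^ q)).norm.pow 2
  have e2 : ∀ t : ℝ, (‖ev t (R ^ q)‖ ^ 2) ^ (k / q) = ‖ev t R‖ ^ (2 * k) := by
    intro t
    rw [map_pow, norm_pow, ← pow_mul, ← Real.rpow_natCast, ← Real.rpow_mul (norm_nonneg _)]
    congr 1
    push_cast
    field_simp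
  have hJ := (convexOn_rpow hp1).map_integral_le (μ := un 0 T)
    (f := fun t : ℝ => ‖ev t (R ^ q)‖ ^ 2)
    (fun x _ => (Real.continuousAt_rpow_const _ _ (Or.inr (by positivity))).continuousWithinAt)
    isClosed_Ici (Filter.Eventually.of_forall fun t => by
      simp only [mem_Ici]; positivity) (hint _ hfc) ?_
  swap
  · refine hint _ ?_
    exact (Real.continuous_rpow_const (by positivity)).comp hfc
  simp only [e2] at hJ
  have h4 : (c / 2) ^ (k / q) * K ^ (k * q) ≤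
      (∫ t, ‖ev t (R ^ q)‖ ^ 2 ∂(un 0 T)) ^ (k / q) := by
    have e3 : (c / 2) ^ (k / q) * K ^ (k * q) = (c / 2 * K ^ (q ^ 2)) ^ (k / (q : ℝ)) := by
      rw [Real.mul_rpow (by positivity) (by positivity), ← Real.rpow_natCast K,
        ← Real.rpow_mul hKpos.le]
      congr 2
      push_cast
      field_simp
    rw [e3]
    refine Real.rpow_le_rpow (by positivity) ?_ (by positivity)
    linarith
  have h5 := (abs_le.1 h1).2
  linarith

end Pool.Agent.Lib.MT
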