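import Mathlib
import Pool.Agent.Lib.MP_f9aece_nt_mt.StmtsT
import Pool.Agent.Lib.MP_f9aece_nt_ms.Coeffs

/-!
Mesoscopic moments of zeta, module T22.

I0 = int ‖ev t Φ‖^2 dν is within η En Φ of En Φ (MVP with P = Q = Φ). Probability measure: withDensity of a continuous function, lintegral = ofReal of the integral. For P, Q: the integral over tm is I0^(-1) int ev(PΦ) conj ev(QΦ) dν (integral_withDensity_eq_integral_toReal_smul; integral_smul_measure), MVP for PΦ, QΦ (length <= X), BK K1 (PΦ)(QΦ) = BK K1 P Q * En Φ and En(PΦ) = En P En Φ by coprimality (primes of P are > e^Y, those of Φ <= e^Y; h97/J4: BK_mul, En_mul), |BK K1 P Q| <= sqrt(En P En Q). Total error 2η/(1-η) <= 4η. The second claim is the formula for integrals over tm (holds for every f). (about 150 lines)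
-/

set_option autoImplicit false

namespace Pool.Agent.Lib.MT

open MeasureTheory Set Filter Topology Complex
open scoped ComplexConjugate
open scoped ArithmeticFunction.Omega
open Pool.Agent.Lib.MP_f9aece_nt (DP pair BK K1 ev PP VV Smo expo)
open Pool.Agent.Lib.MP_f9aece_nt_h40 (ind)
open Pool.Agent.Lib.MP_f9aece_nt_h85 (Rst)
open Pool.Agent.Lib.MP_f9aece_nt_h97 (Psm Dsm evs)
open Pool.Agent.Lib.NL (pt B0)
open Pool.Agent.Lib.J4 (En V2)
open Pool.Agent.Lib.MS (Len MVP Par RW TZ Cut un zr ex hq af ZS)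

private lemma t22_smo {Y : ℝ} {n : ℕ} (h : n ∈ Smo {p : ℕ | p ≤ ⌊Real.exp Y⌋₊}) :
    n ∈ Smo {p : ℕ | 0 < p ∧ p ≤ ⌊Real.exp Y⌋₊} :=
  ⟨h.1, fun p hp hd => ⟨hp.pos, h.2 p hp hd⟩⟩

private lemma t22_disj (Y : ℝ) : Disjoint (Rst 0 Y) {p : ℕ | 0 < p ∧ p ≤ ⌊Real.exp Y⌋₊} := by
  rw [Set.disjoint_left]
  intro p hp hpj
  exact hp hpj

private lemma t22_BK {Y : ℝ} {P Q Φ : DP} (hP : ∀ n, P.coeff n ≠ 0 → n ∈ Smo (Rst 0 Y))
    (hQ : ∀ n, Q.coeff n ≠ 0 → n ∈ Smo (Rst 0 Y))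
    (hΦ : ∀ n, Φ.coeff n ≠ 0 → n ∈ Smo {p : ℕ | p ≤ ⌊Real.exp Y⌋₊}) :
    BK K1 (P * Φ) (Q * Φ) = BK K1 P Q * En Φ :=
  Pool.Agent.Lib.MP_f9aece_nt_h97.BK_mul_sup K1 hP hQ (fun n hn => t22_smo (hΦ n hn))
    (fun n hn => t22_smo (hΦ n hn))
    (fun _ ha _ ha' _ hb _ hb' => Pool.Agent.Lib.MP_f9aece_nt.K1_mul (t22_disj Y) ha ha' hb hb')

private lemma t22_coeff {f g : DP} {n : ℕ} (h : (f * g).coeff n ≠ 0) :
    ∃ a b, f.coeff a ≠ 0 ∧ g.coeff b ≠ 0 ∧ a * b = n := by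
  classical
  by_contra hc
  push Not at hc
  apply h
  rw [MonoidAlgebra.coeff_mul]
  refine Finset.sum_eq_zero fun a ha => Finset.sum_eq_zero fun b hb => ?_
  simp only
  rw [if_neg]
  exact hc a b (Finsupp.mem_support_iff.1 ha) (Finsupp.mem_support_iff.1 hb)

private lemma t22_len {X Z : ℝ} {A B : Set ℕ} {P Φ : DP} (hZ : 1 ≤ Z)
    (hP : ∀ n, P.coeff n ≠ 0 → n ∈ Smo A ∧ (n : ℝ) ≤ X / Z)
    (hΦ : ∀ n, Φ.coeff n ≠ 0 → n ∈ Smo B ∧ (n : ℝ) ≤ Z) : Len X (P * Φ) := by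
  intro n hn
  obtain ⟨a, b, ha, hb, rfl⟩ := t22_coeff hn
  obtain ⟨ha1, ha2⟩ := hP a ha
  obtain ⟨hb1, hb2⟩ := hΦ b hb
  have h1 : 1 ≤ a := Nat.one_le_iff_ne_zero.mpr ha1.1
  have h2 : 1 ≤ b := Nat.one_le_iff_ne_zero.mpr hb1.1
  refine ⟨Nat.one_le_iff_ne_zero.mpr (Nat.mul_ne_zero ha1.1 hb1.1), ?_⟩
  have hZ0 : 0 < Z := by linarith
  have : (a : ℝ) * b ≤ X / Z * Z := mul_le_mul ha2 hb2 (Nat.cast_nonneg _)
    ((Nat.cast_nonneg a).trans ha2)
  rw [div_mul_cancel₀ _ hZ0.ne'] at this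
  push_cast
  exact this

private lemma t22_int {E : Type*} [NormedAddCommGroup E] [NormedSpace ℝ E] (ν : Measure ℝ) (Φ : DP)
    (g : ℝ → E) : ∫ t, g t ∂(tm ν Φ) = (∫ t, ‖ev t Φ‖ ^ 2 ∂ν)⁻¹ • ∫ t, (‖ev t Φ‖ ^ 2) • g t ∂ν := by
  unfold tm
  rw [integral_smul_measure, integral_withDensity_eq_integral_toReal_smul]
  · rw [ENNReal.toReal_inv, ENNReal.toReal_ofReal (integral_nonneg fun t => by positivity)]
    congr 1
    refine integral_congr_ae (Filter.Eventually.of_forall fun t => ?_)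
    simp only
    rw [ENNReal.toReal_ofReal (by positivity)]
  · exact (((Pool.Agent.Lib.MP_f9aece_nt.continuous_ev Φ).norm.pow 2).measurable).ennreal_ofReal
  · exact Filter.Eventually.of_forall fun t => ENNReal.ofReal_lt_top

private lemma t22_En_nonneg (f : DP) : 0 ≤ En f := by
  unfold En
  rw [Pool.Agent.Lib.MP_f9aece_nt.BK_K1_eq, Pool.Agent.Lib.MP_f9aece_nt.pair_def]
  refine Finset.sum_nonneg fun n _ => ?_
  have h1 := mul_self_nonneg (f.coeff n)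
  have h4 : (0 : ℝ) ≤ (n : ℝ)⁻¹ := by positivity
  have := mul_nonneg h1 h4
  linarith

open Pool.Agent.Lib.MP_f9aece_nt in
private lemma t22_En_add (f g : DP) (x : ℝ) :
    En (f + x • g) = En f + 2 * x * BK K1 f g + x ^ 2 * En g := by
  unfold En
  rw [BK_add_left, BK_add_right, BK_add_right, BK_smul_left, BK_smul_right, BK_smul_left,
    BK_smul_right, BK_K1_comm g f]
  ring

private lemma t22_cs (f g : DP) : |BK K1 f g| ≤ Real.sqrt (En f * En g) := by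
  refine Real.abs_le_sqrt ?_
  have h : ∀ x : ℝ, 0 ≤ En g * (x * x) + 2 * BK K1 f g * x + En f := by
    intro x
    have := t22_En_nonneg (f + x • g)
    rw [t22_En_add] at this
    nlinarith
  have := discrim_le_zero h
  unfold discrim at this
  nlinarith

theorem tilt : Tilt := by
  intro ν X η hM hη0 hη1 Y Z Φ hE hZ hZX hΦ
  have hprob := hM.prob
  have hZ0 : 0 < Z := by linarith
  have hLΦ : Len X Φ := fun n hn => ⟨Nat.one_le_iff_ne_zero.mpr (hΦ n hn).1.1, (hΦ n hn).2.trans hZX⟩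
  set I0 : ℝ := ∫ t, ‖ev t Φ‖ ^ 2 ∂ν with hI0
  have hI : |I0 - En Φ| ≤ η * En Φ := by
    have h := hM.mv Φ Φ hLΦ hLΦ
    rw [Real.sqrt_mul_self hE.le] at h
    have h2 : ∫ t, ev t Φ * conj (ev t Φ) ∂ν = ((I0 : ℝ) : ℂ) := by
      rw [hI0, ← integral_complex_ofReal]
      refine integral_congr_ae (Filter.Eventually.of_forall fun t => ?_)
      simp only
      rw [Complex.mul_conj, Complex.normSq_eq_norm_sq]
    rw [h2] at h
    have h3 : ((I0 : ℝ) : ℂ) - ((BK K1 Φ Φ : ℝ) : ℂ) = ((I0 - En Φ : ℝ) : ℂ) := by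
      unfold En; push_cast; ring
    rw [h3, Complex.norm_real, Real.norm_eq_abs] at h
    exact h
  have hIl : (1 - η) * En Φ ≤ I0 := by
    have := (abs_le.mp hI).1
    linarith
  have hIpos : 0 < I0 := lt_of_lt_of_le (mul_pos (by linarith) hE) hIl
  have hint : Integrable (fun t => ‖ev t Φ‖ ^ 2) ν := by
    by_contra hc
    have : I0 = 0 := integral_undef hc
    exact hIpos.ne' this
  refine ⟨⟨?_, ?_⟩, ?_⟩
  · constructor
    unfold tm
    rw [Measure.smul_apply, withDensity_apply _ MeasurableSet.univ, Measure.restrict_univ,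
      ← ofReal_integral_eq_lintegral_ofReal hint (Filter.Eventually.of_forall fun t => by positivity),
      smul_eq_mul]
    exact ENNReal.inv_mul_cancel (by simpa using hIpos) ENNReal.ofReal_ne_top
  · intro P Q hP hQ
    have hPl := t22_len (X := X) hZ hP hΦ
    have hQl := t22_len (X := X) hZ hQ hΦ
    have hm := hM.mv (P * Φ) (Q * Φ) hPl hQl
    have hP' : ∀ n, P.coeff n ≠ 0 → n ∈ Smo (Rst 0 Y) := fun n hn => (hP n hn).1
    have hQ' : ∀ n, Q.coeff n ≠ 0 → n ∈ Smo (Rst 0 Y) := fun n hn => (hQ n hn).1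
    have hΦ' : ∀ n, Φ.coeff n ≠ 0 → n ∈ Smo {p : ℕ | p ≤ ⌊Real.exp Y⌋₊} := fun n hn => (hΦ n hn).1
    have hEP : En (P * Φ) = En P * En Φ := t22_BK hP' hP' hΦ'
    have hEQ : En (Q * Φ) = En Q * En Φ := t22_BK hQ' hQ' hΦ'
    have hS : Real.sqrt (En (P * Φ) * En (Q * Φ)) = Real.sqrt (En P * En Q) * En Φ := by
      rw [hEP, hEQ, show En P * En Φ * (En Q * En Φ) = (En P * En Q) * (En Φ * En Φ) by ring,
        Real.sqrt_mul (mul_nonneg (t22_En_nonneg P) (t22_En_nonneg Q)),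
        Real.sqrt_mul_self hE.le]
    rw [t22_BK hP' hQ' hΦ', hS] at hm
    set S := Real.sqrt (En P * En Q) with hSdef
    set B := BK K1 P Q with hB
    have hS0 : 0 ≤ S := Real.sqrt_nonneg _
    have hBS : |B| ≤ S := t22_cs P Q
    rw [t22_int ν Φ (fun t => ev t P * conj (ev t Q)), ← hI0]
    have hJ : ∫ t, (‖ev t Φ‖ ^ 2) • (ev t P * conj (ev t Q)) ∂ν
        = ∫ t, ev t (P * Φ) * conj (ev t (Q * Φ)) ∂ν := by
      refine integral_congr_ae (Filter.Eventually.of_forall fun t => ?_)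
      simp only
      rw [map_mul, map_mul, map_mul, Complex.real_smul]
      have : ((‖ev t Φ‖ ^ 2 : ℝ) : ℂ) = ev t Φ * conj (ev t Φ) := by
        rw [Complex.mul_conj, Complex.normSq_eq_norm_sq]
      rw [this]; ring
    rw [hJ]
    set J := ∫ t, ev t (P * Φ) * conj (ev t (Q * Φ)) ∂ν with hJdef
    have key : ‖J - (B : ℂ) * I0‖ ≤ 2 * (η * En Φ * S) := by
      have e : J - (B : ℂ) * I0 = (J - ((B * En Φ : ℝ) : ℂ)) + (B : ℂ) * ((En Φ - I0 : ℝ) : ℂ) := by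
        push_cast; ring
      rw [e]
      refine (norm_add_le _ _).trans ?_
      have h2 : ‖(B : ℂ) * ((En Φ - I0 : ℝ) : ℂ)‖ ≤ S * (η * En Φ) := by
        rw [norm_mul, Complex.norm_real, Complex.norm_real, Real.norm_eq_abs, Real.norm_eq_abs,
          abs_sub_comm]
        exact mul_le_mul hBS hI (abs_nonneg _) hS0
      have h1 : ‖J - ((B * En Φ : ℝ) : ℂ)‖ ≤ η * (S * En Φ) := hm
      nlinarith
    have e2 : I0⁻¹ • J - (B : ℂ) = ((I0⁻¹ : ℝ) : ℂ) * (J - (B : ℂ) * I0) := by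
      have : ((I0 : ℝ) : ℂ) ≠ 0 := by exact_mod_cast hIpos.ne'
      rw [Complex.real_smul]
      push_cast
      field_simp
    rw [e2, norm_mul, Complex.norm_real, Real.norm_eq_abs, abs_of_pos (inv_pos.mpr hIpos),
      inv_mul_le_iff₀ hIpos]
    refine key.trans ?_
    have h5 : (1 / 2 : ℝ) * En Φ ≤ I0 := by nlinarith
    have h6 : 0 ≤ 4 * η * S := by positivity
    nlinarith [mul_le_mul_of_nonneg_right h5 h6]
  · intro f
    rw [t22_int ν Φ f, ← hI0]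
    simp only [smul_eq_mul]
    rw [← mul_assoc, mul_inv_cancel₀ hIpos.ne', one_mul]

end Pool.Agent.Lib.MT
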