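import Mathlib
import Pool.Agent.Lib.MP_f9aece_nt_mt.StmtsT
import Pool.Agent.Lib.MP_f9aece_nt_ms.Coeffs

/-!
Mesoscopic moments of zeta, module T23.

Dec with ε0 small gives N0; N = max(2 N0, 4 N0, 4, (g+1)/ε ..). If En Φ = 0 then Φ = 0 (coefficients at n >= 1) and everything vanishes. Otherwise Tilt with Z = sqrt X: MVR (tm ν Φ) Y (sqrt X) (4η), Dec: int ‖SW‖^(2k) d tm = g + O(ε0); the integral in question is I0 times this, I0 = En Φ (1 + O(η)). (about 100 lines)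
-/

set_option autoImplicit false

namespace Pool.Agent.Lib.MT

open MeasureTheory Set Filter Topology Complex
open scoped ComplexConjugate
open scoped ArithmeticFunction.Omega
open Pool.Agent.Lib.MP_f9aece_nt (DP pair BK K1 ev PP VV Smo expo)
open Pool.Agent.Lib.MP_f9aece_nt_h40 (ind)
open Pool.Agent.Lib.MP_f9aece_nt_h85 (Rst)
open Pool.Agent.Lib.MP_f9aece_nt_h97 (Psm Dsm evs)
open Pool.Agent.Lib.NL (pt B0)
open Pool.Agent.Lib.J4 (En V2)
open Pool.Agent.Lib.MS (Len MVP Par RW TZ Cut un zr ex hq af ZS)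

private lemma t23_En (f : DP) : En f = ∑ a ∈ f.coeff.support, f.coeff a ^ 2 * (a : ℝ)⁻¹ := by
  unfold En
  rw [MP_f9aece_nt.BK_K1_eq, MP_f9aece_nt.pair_def]
  exact Finset.sum_congr rfl fun n _ => by ring

private lemma t23_En_nonneg (f : DP) : 0 ≤ En f := by
  rw [t23_En]
  exact Finset.sum_nonneg fun n _ => by positivity

private lemma t23_zero {f : DP} (hf : ∀ n, f.coeff n ≠ 0 → 1 ≤ n) (h : En f = 0) : f = 0 := by
  rw [t23_En, Finset.sum_eq_zero_iff_of_nonneg (fun n _ => by positivity)] at h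
  have hc : f.coeff = 0 := by
    ext n
    by_contra hne
    have hne' : f.coeff n ≠ 0 := hne
    have h1 := h n (Finsupp.mem_support_iff.2 hne')
    have h2 : (0 : ℝ) < n := by exact_mod_cast hf n hne'
    have h3 : 0 < f.coeff n ^ 2 * (n : ℝ)⁻¹ := by positivity
    exact absurd h1 h3.ne'
  exact MonoidAlgebra.coeff_injective hc

private lemma t23_int (ν : Measure ℝ) (X η : ℝ) (hm : MVP ν X η) (Φ : DP) (hL : Len X Φ) :
    |∫ t, ‖ev t Φ‖ ^ 2 ∂ν - En Φ| ≤ η * En Φ := by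
  have h1 := hm.mv Φ Φ hL hL
  have h2 : ∀ t, ev t Φ * conj (ev t Φ) = ((‖ev t Φ‖ ^ 2 : ℝ) : ℂ) := by
    intro t
    rw [Complex.mul_conj, Complex.normSq_eq_norm_sq]
  simp_rw [h2] at h1
  rw [integral_complex_ofReal, ← Complex.ofReal_sub, Complex.norm_real, Real.norm_eq_abs,
    Real.sqrt_mul_self (t23_En_nonneg Φ)] at h1
  exact h1

theorem decPhi (h22 : Tilt) : DecPhi := by
  intro k w K g hg hD ε hε
  set ε0 : ℝ := min (ε / 2) 1 with hε0
  have he0 : 0 < ε0 := lt_min (by linarith) one_pos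
  have he1 : ε0 ≤ ε / 2 := min_le_left _ _
  have he2 : ε0 ≤ 1 := min_le_right _ _
  obtain ⟨N0, hN0, hN⟩ := hD ε0 he0
  set N : ℝ := max (4 * N0) (2 * (g + 1) / ε) with hNdef
  have hN1 : 4 * N0 ≤ N := le_max_left _ _
  have hN2 : 2 * (g + 1) / ε ≤ N := le_max_right _ _
  refine ⟨N, by linarith, ?_⟩
  intro ν X η Y Φ hm hY hX hη hηN hΦ
  have hΦ1 : ∀ n, Φ.coeff n ≠ 0 → 1 ≤ n := fun n hn => Nat.one_le_iff_ne_zero.2 (hΦ n hn).1.1
  rcases (t23_En_nonneg Φ).eq_or_lt with h0 | hpos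
  · have hz := t23_zero hΦ1 h0.symm
    subst hz
    have e : En (0 : DP) = 0 := h0.symm
    rw [e]
    simp
  have hN4 : 4 ≤ N := by linarith
  have hη4 : η ≤ 1 / 4 := by
    have h1 : η * 4 ≤ η * N := mul_le_mul_of_nonneg_left hN4 hη
    linarith
  have hY0 : 0 < Y := by linarith
  have hX1 : 1 ≤ X := by
    refine le_trans ?_ hX
    rw [← Real.exp_zero]
    exact Real.exp_le_exp.2 (by positivity)
  have hX0 : 0 < X := by linarith
  have hZ1 : 1 ≤ Real.sqrt X := Real.one_le_sqrt.2 hX1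
  have hZX : Real.sqrt X ≤ X := by
    rw [Real.sqrt_le_left hX0.le]
    nlinarith
  have hcond : ∀ n, Φ.coeff n ≠ 0 →
      n ∈ Smo {p : ℕ | p ≤ ⌊Real.exp Y⌋₊} ∧ (n : ℝ) ≤ Real.sqrt X := by
    intro n hn
    exact ⟨(hΦ n hn).1, Real.le_sqrt_of_sq_le (hΦ n hn).2⟩
  obtain ⟨hMVR, hf⟩ : MVR (tm ν Φ) Y (X / Real.sqrt X) (4 * η) ∧
      ∀ f : ℝ → ℝ, ∫ t, ‖ev t Φ‖ ^ 2 * f t ∂ν = (∫ t, ‖ev t Φ‖ ^ 2 ∂ν) * ∫ t, f t ∂(tm ν Φ) := by
    first
      | exact h22 ν X η hm hη hη4 Y (Real.sqrt X) Φ hpos hZ1 hZX hcond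
      | exact h22 ν X η hm hη hη4 Y (Real.sqrt X) Φ hpos hZ1 hcond
  have hdiv : X / Real.sqrt X = Real.sqrt X := Real.div_sqrt
  rw [hdiv] at hMVR
  have hX' : Real.exp (N0 * Y) ≤ Real.sqrt X := by
    apply Real.le_sqrt_of_sq_le
    rw [← Real.exp_nat_mul]
    refine le_trans (Real.exp_le_exp.2 ?_) hX
    push_cast
    nlinarith
  have hD1 := hN (tm ν Φ) Y (Real.sqrt X) (4 * η) (by linarith) hX' (by positivity)
    (by
      have : η * (4 * N0) ≤ η * N := mul_le_mul_of_nonneg_left hN1 hη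
      linarith) hMVR
  have hLen : Len X Φ := by
    intro n hn
    refine ⟨hΦ1 n hn, ?_⟩
    have h1 : (1 : ℝ) ≤ n := by exact_mod_cast hΦ1 n hn
    have h2 := (hΦ n hn).2
    nlinarith
  have hI := t23_int ν X η hm Φ hLen
  rw [hf]
  set I0 : ℝ := ∫ t, ‖ev t Φ‖ ^ 2 ∂ν with hI0
  set D : ℝ := ∫ t, ‖SW w 0 Y (K * Y) t‖ ^ (2 * k) ∂(tm ν Φ) with hDdef
  have hDabs : |D| ≤ g + ε0 := by
    have h1 : |D| ≤ |D - g| + |g| := by
      have := abs_add_le (D - g) g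
      rwa [sub_add_cancel] at this
    rw [abs_of_nonneg hg] at h1
    linarith
  have hηg : η * (g + 1) ≤ ε / 2 := by
    have h1 : η * (2 * (g + 1) / ε) ≤ η * N := mul_le_mul_of_nonneg_left hN2 hη
    have h2 : η * (2 * (g + 1) / ε) ≤ 1 := h1.trans hηN
    have h3 : η * (2 * (g + 1) / ε) = 2 * (η * (g + 1)) / ε := by ring
    rw [h3, div_le_one hε] at h2
    linarith
  have hsplit : I0 * D - g * En Φ = (I0 - En Φ) * D + En Φ * (D - g) := by ring
  rw [hsplit]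
  calc |(I0 - En Φ) * D + En Φ * (D - g)| ≤ |(I0 - En Φ) * D| + |En Φ * (D - g)| := abs_add_le _ _
    _ = |I0 - En Φ| * |D| + En Φ * |D - g| := by
        rw [abs_mul, abs_mul, abs_of_pos hpos]
    _ ≤ (η * En Φ) * (g + ε0) + En Φ * ε0 := by
        apply add_le_add
        · exact mul_le_mul hI hDabs (abs_nonneg _) (by positivity)
        · exact mul_le_mul_of_nonneg_left hD1 hpos.le
    _ ≤ ε * En Φ := by
        have h1 : η * (g + ε0) ≤ η * (g + 1) := mul_le_mul_of_nonneg_left (by linarith) hη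
        have h2 : η * (g + ε0) + ε0 ≤ ε := by linarith
        nlinarith

end Pool.Agent.Lib.MT
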