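import Mathlib
import Pool.Agent.Lib.MP_f9aece_nt_mt.StmtsT
import Pool.Agent.Lib.MP_f9aece_nt_ms.Coeffs

/-!
Mesoscopic moments of zeta, module T24: the rough sum times the mollifier of the small primes.
Induction over the primes `≤ p0`.
-/

set_option autoImplicit false

namespace Pool.Agent.Lib.MT

open MeasureTheory Set Filter Topology Complex
open scoped ComplexConjugate
open scoped ArithmeticFunction.Omega
open Pool.Agent.Lib.MP_f9aece_nt (DP pair BK K1 ev PP VV Smo expo)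
open Pool.Agent.Lib.MP_f9aece_nt_h40 (ind)
open Pool.Agent.Lib.MP_f9aece_nt_h85 (Rst)
open Pool.Agent.Lib.MP_f9aece_nt_h97 (Psm Dsm evs)
open Pool.Agent.Lib.NL (pt B0)
open Pool.Agent.Lib.J4 (En V2)
open Pool.Agent.Lib.MS (Len MVP Par RW TZ Cut un zr ex hq af ZS)

namespace T24

lemma lam_nonneg {B Lam : ℝ} {u : ℝ → ℝ} (hu : Cut B Lam u) : 0 ≤ Lam := by
  have h := hu.lip 1 0
  have h1 := abs_nonneg (u 1 - u 0)
  norm_num at h
  linarith

open Classical in
lemma coeff_RW {B Lam : ℝ} {u : ℝ → ℝ} (hu : Cut B Lam u) (p0 : ℕ) (Y : ℝ) {L : ℝ} (hL : 1 ≤ L)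
    (n : ℕ) : (RW u p0 Y L).coeff n = if n ∈ Smo (Rst p0 Y) then u (Real.log n / L) else 0 := by
  unfold RW
  rw [MonoidAlgebra.coeff_sum, Finsupp.finsetSum_apply]
  by_cases hn : n ∈ Smo (Rst p0 Y)
  · rw [if_pos hn]
    have hn1 : 1 ≤ n := Nat.one_le_iff_ne_zero.mpr hn.1
    by_cases h2 : n ≤ ⌊Real.exp L⌋₊
    · rw [Finset.sum_eq_single n]
      · rw [MonoidAlgebra.coeff_single, Finsupp.single_eq_same]
      · intro b _ hb
        rw [MonoidAlgebra.coeff_single, Finsupp.single_apply, if_neg hb]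
      · intro h
        exact absurd (Finset.mem_filter.mpr ⟨Finset.mem_Icc.mpr ⟨hn1, h2⟩, hn⟩) h
    · have h3 : Real.exp L < n := by
        rw [not_le] at h2
        exact (Nat.floor_lt (Real.exp_pos _).le).mp h2
      have h4 : L < Real.log n := by
        rw [Real.lt_log_iff_exp_lt (by exact_mod_cast hn1)]
        exact h3
      rw [hu.zero _ (by rw [le_div_iff₀ (by linarith)]; linarith)]
      refine Finset.sum_eq_zero fun b hb => ?_
      rw [MonoidAlgebra.coeff_single, Finsupp.single_apply, if_neg]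
      rintro rfl
      exact h2 (Finset.mem_Icc.mp (Finset.mem_filter.mp hb).1).2
  · rw [if_neg hn]
    refine Finset.sum_eq_zero fun b hb => ?_
    rw [MonoidAlgebra.coeff_single, Finsupp.single_apply, if_neg]
    rintro rfl
    exact hn (Finset.mem_filter.mp hb).2

lemma coeff_mul_one_sub (f : DP) {q : ℕ} (hq : 0 < q) (n : ℕ) :
    (f * (1 - MonoidAlgebra.single q 1)).coeff n
      = f.coeff n - if q ∣ n then f.coeff (n / q) else 0 := by
  rw [mul_sub, mul_one]
  have h1 : (f - f * MonoidAlgebra.single q (1 : ℝ)).coeff n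
      = f.coeff n - (f * MonoidAlgebra.single q (1 : ℝ)).coeff n := rfl
  rw [h1]
  congr 1
  split_ifs with h
  · rw [MonoidAlgebra.coeff_mul_single_eq_coeff_mul (n / q), mul_one]
    intro m' _
    obtain ⟨k, rfl⟩ := h
    rw [Nat.mul_div_cancel_left k hq, mul_comm q k]
    exact Nat.mul_left_inj hq.ne'
  · apply MonoidAlgebra.coeff_mul_single_of_forall_mul_ne
    intro d hd
    exact h ⟨d, by rw [← hd, mul_comm]⟩

lemma smo_div {p0 q n : ℕ} {Y : ℝ} (hq : q.Prime) (hq0 : q ≤ p0) (hqn : q ∣ n) :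
    n / q ∈ Smo (Rst p0 Y) ↔ n ∈ Smo (Rst p0 Y) := by
  obtain ⟨k, rfl⟩ := hqn
  rw [Nat.mul_div_cancel_left k hq.pos]
  constructor
  · rintro ⟨hk, h⟩
    refine ⟨mul_ne_zero hq.ne_zero hk, fun p hp hpk => ?_⟩
    rcases (Nat.Prime.dvd_mul hp).mp hpk with h1 | h1
    · rw [(Nat.prime_dvd_prime_iff_eq hp hq).mp h1]
      exact fun h2 => absurd h2.1 (not_lt.mpr hq0)
    · exact h p hp h1
  · rintro ⟨hk, h⟩
    exact ⟨right_ne_zero_of_mul hk, fun p hp hpk => h p hp (hpk.mul_left q)⟩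

/-- the product over a set of small primes -/
noncomputable def D (S : Finset ℕ) : DP := ∏ p ∈ S, (1 - MonoidAlgebra.single p 1)

/-- the statement of the induction -/
def Ok (p0 : ℕ) (S : Finset ℕ) (C : ℝ) : Prop :=
  ∀ (B Lam : ℝ) (u : ℝ → ℝ), Cut B Lam u → ∀ Y L : ℝ, 1 ≤ L → ∀ n : ℕ,
    (n ∉ Smo (Rst p0 Y) → (RW u p0 Y L * D S).coeff n = 0) ∧
    (n ∈ Smo (Rst p0 Y) → (∀ p ∈ S, ¬ p ∣ n) →
      (RW u p0 Y L * D S).coeff n = u (Real.log n / L)) ∧
    (n ∈ Smo (Rst p0 Y) → (∃ p ∈ S, p ∣ n) → |(RW u p0 Y L * D S).coeff n| ≤ C * Lam / L) ∧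
    ((RW u p0 Y L * D S).coeff n ≠ 0 → Real.log n ≤ L + C)

lemma ok_empty (p0 : ℕ) : Ok p0 ∅ 0 := by
  intro B Lam u hu Y L hL n
  have h1 : RW u p0 Y L * D ∅ = RW u p0 Y L := by
    unfold D
    rw [Finset.prod_empty, mul_one]
  rw [h1, coeff_RW hu p0 Y hL n]
  refine ⟨fun h => if_neg h, fun h _ => if_pos h, fun _ h => ?_, fun h => ?_⟩
  · obtain ⟨p, hp, -⟩ := h
    exact absurd hp (Finset.notMem_empty p)
  · split_ifs at h with h2
    · by_contra h3
      rw [not_le, add_zero] at h3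
      exact h (hu.zero _ (by rw [le_div_iff₀ (by linarith)]; linarith))
    · exact absurd rfl h

lemma ok_insert {p0 : ℕ} {S : Finset ℕ} {C : ℝ} (hC : 0 ≤ C) (h : Ok p0 S C) {q : ℕ}
    (hq : q.Prime) (hq0 : q ≤ p0) (hqS : q ∉ S) (hS : ∀ p ∈ S, p.Prime) :
    Ok p0 (insert q S) (2 * C + Real.log q) := by
  intro B Lam u hu Y L hL n
  have hlam := lam_nonneg hu
  have hL0 : 0 < L := by linarith
  have hlq : 0 ≤ Real.log q := Real.log_nonneg (by exact_mod_cast hq.one_lt.le)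
  have h1 : RW u p0 Y L * D (insert q S) = RW u p0 Y L * D S * (1 - MonoidAlgebra.single q 1) := by
    unfold D
    rw [Finset.prod_insert hqS]
    ring
  rw [h1, coeff_mul_one_sub _ hq.pos]
  obtain ⟨a1, a2, a3, a4⟩ := h B Lam u hu Y L hL n
  obtain ⟨b1, b2, b3, b4⟩ := h B Lam u hu Y L hL (n / q)
  have hnn : C * Lam / L ≤ (2 * C + Real.log q) * Lam / L := by
    gcongr
    linarith
  have h2nn : C * Lam / L + C * Lam / L ≤ (2 * C + Real.log q) * Lam / L := by
    rw [← add_div]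
    gcongr
    nlinarith
  have hlnn : Real.log q * Lam / L ≤ (2 * C + Real.log q) * Lam / L := by
    gcongr
    linarith
  by_cases hqn : q ∣ n
  · rw [if_pos hqn]
    have hs := smo_div (Y := Y) hq hq0 hqn
    have hlog : n ≠ 0 → Real.log ((n / q : ℕ) : ℝ) = Real.log n - Real.log q := by
      intro hn
      rw [Nat.cast_div hqn (by exact_mod_cast hq.ne_zero), Real.log_div (by exact_mod_cast hn)
        (by exact_mod_cast hq.ne_zero)]
    refine ⟨fun hn => ?_, fun hn hp => ?_, fun hn hp => ?_, fun hne => ?_⟩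
    · rw [a1 hn, b1 (by rwa [hs]), sub_zero]
    · exact absurd hqn (hp q (Finset.mem_insert_self _ _))
    · by_cases hex : ∃ p ∈ S, p ∣ n
      · have hex' : ∃ p ∈ S, p ∣ n / q := by
          obtain ⟨r, hr, hrn⟩ := hex
          refine ⟨r, hr, ?_⟩
          obtain ⟨k, hk⟩ := hqn
          rw [hk, Nat.mul_div_cancel_left k hq.pos]
          rw [hk] at hrn
          rcases (Nat.Prime.dvd_mul (hS r hr)).mp hrn with h5 | h5
          · exact absurd ((Nat.prime_dvd_prime_iff_eq (hS r hr) hq).mp h5 ▸ hr) hqS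
          · exact h5
        have h5 := a3 hn hex
        have h6 := b3 (hs.mpr hn) hex'
        exact (abs_sub _ _).trans (by linarith)
      · push Not at hex
        have hex' : ∀ p ∈ S, ¬ p ∣ n / q := fun p hp hpn =>
          hex p hp (hpn.trans (Nat.div_dvd_of_dvd hqn))
        rw [a2 hn hex, b2 (hs.mpr hn) hex', hlog hn.1]
        refine (hu.lip _ _).trans ?_
        have e : Real.log n / L - (Real.log n - Real.log q) / L = Real.log q / L := by
          field_simp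
          ring
        rw [e, abs_of_nonneg (by positivity)]
        refine le_trans (le_of_eq ?_) hlnn
        ring
    · by_cases hz : (RW u p0 Y L * D S).coeff n = 0
      · rw [hz, zero_sub, neg_ne_zero] at hne
        have h5 := b4 hne
        have hn0 : n ≠ 0 := by
          rintro rfl
          rw [Nat.zero_div] at hne
          exact hne hz
        rw [hlog hn0] at h5
        linarith
      · have h5 := a4 hz
        linarith
  · rw [if_neg hqn, sub_zero]
    refine ⟨a1, fun hn hp => a2 hn fun p hpS => hp p (Finset.mem_insert_of_mem hpS),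
      fun hn hp => ?_, fun hne => ?_⟩
    · obtain ⟨p, hp, hpn⟩ := hp
      rcases Finset.mem_insert.mp hp with rfl | hp
      · exact absurd hpn hqn
      · exact (a3 hn ⟨p, hp, hpn⟩).trans hnn
    · have h5 := a4 hne
      linarith

lemma ok_all (p0 : ℕ) (S : Finset ℕ) (hS : ∀ p ∈ S, p.Prime ∧ p ≤ p0) :
    ∃ C : ℝ, 0 ≤ C ∧ Ok p0 S C := by
  classical
  induction S using Finset.induction_on with
  | empty => exact ⟨0, le_rfl, ok_empty p0⟩
  | insert q S hqS ih =>
    obtain ⟨C, hC, h⟩ := ih fun p hp => hS p (Finset.mem_insert_of_mem hp)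
    have hq := hS q (Finset.mem_insert_self _ _)
    refine ⟨2 * C + Real.log q, ?_, ok_insert hC h hq.1 hq.2 hqS
      fun p hp => (hS p (Finset.mem_insert_of_mem hp)).1⟩
    have : 0 ≤ Real.log q := Real.log_nonneg (by exact_mod_cast hq.1.one_lt.le)
    linarith

lemma mem_Psm {p0 p : ℕ} : p ∈ Psm p0 ↔ p.Prime ∧ p ≤ p0 := by
  unfold Psm
  rw [Finset.mem_filter, Finset.mem_Ioc]
  exact ⟨fun h => ⟨h.2, h.1.2⟩, fun h => ⟨⟨h.1.pos, h.2⟩, h.1⟩⟩

lemma smo_iff {p0 n : ℕ} {Y : ℝ} (hY : (p0 : ℝ) ≤ Real.exp Y) :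
    n ∈ Smo (Rst 0 Y) ↔ n ∈ Smo (Rst p0 Y) ∧ ∀ p ∈ Psm p0, ¬ p ∣ n := by
  have hfl : p0 ≤ ⌊Real.exp Y⌋₊ := Nat.le_floor hY
  constructor
  · rintro ⟨hn, h⟩
    have h1 : ∀ p, p.Prime → p ∣ n → ⌊Real.exp Y⌋₊ < p := by
      intro p hp hpn
      by_contra h2
      exact h p hp hpn ⟨hp.pos, not_lt.mp h2⟩
    refine ⟨⟨hn, fun p hp hpn h2 => absurd h2.2 (not_le.mpr (h1 p hp hpn))⟩, fun p hp hpn => ?_⟩
    have h2 := mem_Psm.mp hp
    have h3 := h1 p h2.1 hpn
    omega
  · rintro ⟨⟨hn, h⟩, h2⟩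
    refine ⟨hn, fun p hp hpn h3 => ?_⟩
    have h4 : p0 < p := by
      by_contra h5
      exact h2 p (mem_Psm.mpr ⟨hp, not_lt.mp h5⟩) hpn
    exact h p hp hpn ⟨h4, h3.2⟩

end T24

open T24 in
theorem smallCoef : SmallCoef := by
  classical
  intro p0 _
  obtain ⟨C, hC, h⟩ := ok_all p0 (Psm p0) fun p hp => mem_Psm.mp hp
  refine ⟨C, hC, fun B Lam u hu Y L hL hY n => ?_⟩
  have hlam := lam_nonneg hu
  have hL0 : 0 < L := by linarith
  have hD : Dsm p0 = D (Psm p0) := rfl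
  rw [hD]
  obtain ⟨a1, a2, a3, a4⟩ := h B Lam u hu Y L hL n
  have e : (RW u p0 Y L * D (Psm p0) - RW u 0 Y L).coeff n
      = (RW u p0 Y L * D (Psm p0)).coeff n - (RW u 0 Y L).coeff n := rfl
  rw [e, coeff_RW hu 0 Y hL n]
  have hnn : 0 ≤ C * Lam / L := by positivity
  by_cases hn : n ∈ Smo (Rst p0 Y)
  · by_cases hp : ∀ p ∈ Psm p0, ¬ p ∣ n
    · rw [if_pos ((smo_iff hY).mpr ⟨hn, hp⟩), a2 hn hp, sub_self, abs_zero]
      exact ⟨hnn, fun h => absurd rfl h⟩
    · rw [if_neg fun h5 => hp ((smo_iff hY).mp h5).2, sub_zero]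
      push Not at hp
      exact ⟨a3 hn hp, fun h5 => ⟨hn, a4 h5⟩⟩
  · rw [if_neg fun h5 => hn ((smo_iff hY).mp h5).1, a1 hn, sub_self, abs_zero]
    exact ⟨hnn, fun h => absurd rfl h⟩

end Pool.Agent.Lib.MT
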