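import Mathlib
import Pool.Agent.Lib.MP_f9aece_nt_mt.StmtsT
import Pool.Agent.Lib.MP_f9aece_nt_ms.Coeffs

/-!
Mesoscopic moments of zeta, module T26.

With E = RW u p0 Y L * Dsm p0 - RW u 0 Y L: the difference equals (ev t Dsm)^(-1) ev t (E * EI 0) (SmallLine: ev t Dsm != 0). Level with i = 0, F = E (A.y 0 = A.Y, support Smo (Rst p0 Y), n <= e^(L+C)), X >= exp(N L) with N from q (L + C) + ell 0, ell 0 <= 400000 q^3 v Y. En (E^q) <= C (C Lam/L)^(2q) ((X+y+1)/(y+1))^(q^2) (RoughEn with X = L + C, y = Y = L e^(-2v): the ratio is bounded in terms of v), exp(k^2 V) <= C (Y+1)^(k^2) <= C L^(k^2) (Mert). Total O(L^(-2k)) L^(k^2). (about 180 lines)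
-/

set_option autoImplicit false

namespace Pool.Agent.Lib.MT

open MeasureTheory Set Filter Topology Complex
open scoped ComplexConjugate
open scoped ArithmeticFunction.Omega
open Pool.Agent.Lib.MP_f9aece_nt (DP pair BK K1 ev PP VV Smo expo)
open Pool.Agent.Lib.MP_f9aece_nt_h40 (ind)
open Pool.Agent.Lib.MP_f9aece_nt_h85 (Rst)
open Pool.Agent.Lib.MP_f9aece_nt_h97 (Psm Dsm evs)
open Pool.Agent.Lib.NL (pt B0)
open Pool.Agent.Lib.J4 (En V2)
open Pool.Agent.Lib.MS (Len MVP Par RW TZ Cut un zr ex hq af ZS)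

private lemma T26_norm (P : DP) (t : ℝ) : ‖ev t P‖ ≤ ∑ a ∈ P.coeff.support, |P.coeff a| := by
  rw [MP_f9aece_nt.ev_apply]
  refine (norm_sum_le _ _).trans (Finset.sum_le_sum fun a _ => ?_)
  rw [norm_mul, Complex.norm_real, Real.norm_eq_abs]
  refine mul_le_of_le_one_right (abs_nonneg _) ?_
  rcases Nat.eq_zero_or_pos a with h | h
  · subst h
    rw [Nat.cast_zero, Complex.zero_cpow, norm_zero]
    · norm_num
    · intro h0
      have := congrArg Complex.re h0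
      simp at this
  · rw [Complex.norm_natCast_cpow_of_pos h]
    have h1 : (1 : ℝ) ≤ a := by exact_mod_cast h
    refine Real.rpow_le_one_of_one_le_of_nonpos h1 ?_
    simp

private lemma T26_int {ν : Measure ℝ} [IsProbabilityMeasure ν] (P : DP) {p : ℝ} (hp : 0 < p) :
    Integrable (fun t => ‖ev t P‖ ^ p) ν := by
  have hc : Continuous fun t : ℝ => ‖ev t P‖ ^ p :=
    (MP_f9aece_nt.continuous_ev P).norm.rpow_const fun _ => Or.inr hp.le
  refine Integrable.of_bound hc.aestronglyMeasurable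
    ((∑ a ∈ P.coeff.support, |P.coeff a|) ^ p) (Eventually.of_forall fun t => ?_)
  rw [Real.norm_eq_abs, abs_of_nonneg (Real.rpow_nonneg (norm_nonneg _) _)]
  exact Real.rpow_le_rpow (norm_nonneg _) (T26_norm P t) hp.le

private lemma T26_En (f : DP) : 0 ≤ En f := by
  unfold En
  rw [MP_f9aece_nt.BK_K1_eq, MP_f9aece_nt.pair_def]
  refine Finset.sum_nonneg fun a _ => ?_
  have h1 : 0 ≤ f.coeff a * f.coeff a := mul_self_nonneg _
  have h2 : (0 : ℝ) ≤ (a : ℝ)⁻¹ := by positivity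
  nlinarith [mul_nonneg h1 h2]

private lemma T26_y0 (A : Par) : A.y 0 = A.Y := by
  unfold Par.y J4.Yg
  simp

/-- lengths of the groups -/
private lemma T26_ell {A : Par} (hA : A.Ok) {L : ℝ} (hYL : A.Y ≤ L) :
    A.ell 0 ≤ 400000 * (A.q : ℝ) ^ 3 * A.v * L := by
  have hL0 : 0 ≤ L := hA.hY.le.trans hYL
  unfold Par.ell
  split_ifs
  · rw [T26_y0]
    calc 400000 * (A.q : ℝ) ^ 3 * A.v * (((0 : ℕ) : ℝ) + 1) ^ 2 * A.Y
        = 400000 * (A.q : ℝ) ^ 3 * A.v * A.Y := by push_cast; ring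
      _ ≤ _ := mul_le_mul_of_nonneg_left hYL (by positivity)
  · positivity

theorem errSmall (hl : MS.Level) (hm : MS.Mert) (hr : MS.RoughEn) (h24 : SmallCoef) (h25 : SmallLine) : ErrSmall := by
  intro q k hq1 hk hqk hkq v p0 hp0 B Lam ε hε
  obtain ⟨CL, hCL, hL⟩ := hl q hq1
  obtain ⟨CM, hCM, hM⟩ := hm
  obtain ⟨CR, hCR, hR⟩ := hr q p0 hq1 (by omega)
  obtain ⟨C4, hC4, h4⟩ := h24 p0 (by omega)
  obtain ⟨C5, hC5, h5⟩ := h25 p0
  have hq0 : (0 : ℝ) < q := by exact_mod_cast hq1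
  set ρ : ℝ := Real.exp (2 * v) + 1 + C4 with hρ
  have hρ0 : 0 < ρ := by have := Real.exp_pos (2 * (v : ℝ)); linarith
  set M : ℝ := CR * (C4 * |Lam|) ^ (2 * q) * ρ ^ (q ^ 2) with hMdef
  have hM0 : 0 ≤ M := by positivity
  set Ct : ℝ := C5 ^ (2 * k) * (CL * M ^ (k / q) * (2 : ℝ) ^ (k ^ 2) * Real.exp (k ^ 2 * CM)) with hCt
  have hCt0 : 0 ≤ Ct := by
    have h1 : 0 ≤ C5 ^ (2 * k) := Real.rpow_nonneg hC5 _
    have h2 : 0 ≤ M ^ (k / q) := Real.rpow_nonneg hM0 _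
    positivity
  set N1 : ℝ := ((Ct + 1) / ε) ^ (1 / (2 * k)) with hN1
  have hCt1 : 0 < (Ct + 1) / ε := by positivity
  have hN10 : 0 < N1 := Real.rpow_pos_of_pos hCt1 _
  set N : ℝ := max 1 (max N1 (max (q * (1 + C4) + 400000 * (q : ℝ) ^ 3 * v)
    (Real.log p0 * Real.exp (2 * v)))) with hN
  refine ⟨N, le_max_left _ _, ?_⟩
  intro A L X η ν hS u hu
  obtain ⟨hAq, hAv, hAp, hok, hNL, hAY, hmvp, hX, hη0, hηN⟩ := hS
  have hN1' : 1 ≤ N := le_max_left _ _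
  have hNN1 : N1 ≤ N := (le_max_left _ _).trans (le_max_right _ _)
  have hNq : q * (1 + C4) + 400000 * (q : ℝ) ^ 3 * v ≤ N :=
    (le_max_left _ _).trans ((le_max_right _ _).trans (le_max_right _ _))
  have hNp : Real.log p0 * Real.exp (2 * v) ≤ N :=
    (le_max_right _ _).trans ((le_max_right _ _).trans (le_max_right _ _))
  have hL1 : 1 ≤ L := hN1'.trans hNL
  have hL0 : 0 < L := by linarith
  have hη1 : η ≤ 1 := by
    by_contra hcon
    push Not at hcon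
    have : 1 < η * N := by nlinarith
    linarith
  have hYL : A.Y ≤ L := by
    rw [hAY]
    refine mul_le_of_le_one_right hL0.le (Real.exp_le_one_iff.2 ?_)
    have : (0 : ℝ) ≤ v := Nat.cast_nonneg v
    linarith
  have hY0 : 0 < A.Y := hok.hY
  have := hmvp.prob
  -- the small primes
  have hp0Y : (p0 : ℝ) ≤ Real.exp A.Y := by
    have hp0pos : (0 : ℝ) < p0 := by exact_mod_cast (by omega : 0 < p0)
    rw [← Real.log_le_iff_le_exp hp0pos, hAY, Real.exp_neg, ← div_eq_mul_inv,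
      le_div_iff₀ (Real.exp_pos _)]
    exact hNp.trans hNL
  set E : DP := RW u p0 A.Y L * Dsm p0 - RW u 0 A.Y L with hE
  have hE4 := h4 B Lam u hu A.Y L hL1 hp0Y
  have hE4' : ∀ n, |E.coeff n| ≤ C4 * |Lam| / L ∧
      (E.coeff n ≠ 0 → n ∈ Smo (Rst p0 A.Y) ∧ Real.log n ≤ L + C4) := by
    intro n
    refine ⟨(hE4 n).1.trans ?_, (hE4 n).2⟩
    have : Lam ≤ |Lam| := le_abs_self _
    gcongr
  -- the pointwise identity
  have hpt : ∀ t : ℝ, ‖ev t (RW u p0 A.Y L * A.EI 0)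
      - (evs (pt 0 t) (Dsm p0))⁻¹ * ev t (A.EI 0) * ev t (RW u 0 A.Y L)‖ ^ (2 * k)
      ≤ C5 ^ (2 * k) * ‖ev t (E * A.EI 0)‖ ^ (2 * k) := by
    intro t
    obtain ⟨h51, h52, h53⟩ := h5 t
    rw [h51]
    have e1 : ev t (RW u p0 A.Y L * A.EI 0)
        - (ev t (Dsm p0))⁻¹ * ev t (A.EI 0) * ev t (RW u 0 A.Y L)
        = (ev t (Dsm p0))⁻¹ * ev t (E * A.EI 0) := by
      rw [hE, map_mul, map_mul, map_sub, map_mul]
      field_simp
    rw [e1, norm_mul, Real.mul_rpow (norm_nonneg _) (norm_nonneg _)]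
    exact mul_le_mul_of_nonneg_right
      (Real.rpow_le_rpow (norm_nonneg _) h53 (by positivity))
      (Real.rpow_nonneg (norm_nonneg _) _)
  have hint : ∫ t, ‖ev t (RW u p0 A.Y L * A.EI 0)
      - (evs (pt 0 t) (Dsm p0))⁻¹ * ev t (A.EI 0) * ev t (RW u 0 A.Y L)‖ ^ (2 * k) ∂ν
      ≤ C5 ^ (2 * k) * ∫ t, ‖ev t (E * A.EI 0)‖ ^ (2 * k) ∂ν := by
    rw [← integral_const_mul]
    refine integral_mono_of_nonneg (Eventually.of_forall fun t => ?_)
      ((T26_int _ (by positivity)).const_mul _) (Eventually.of_forall hpt)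
    exact Real.rpow_nonneg (norm_nonneg _) _
  -- the level
  have hlev := hL A hAq hok k hk hqk.le hkq 0 (Nat.zero_le _) X (Real.exp (L + C4)) η ν hmvp hη1
    (Real.exp_pos _).le (by
      rw [← Real.exp_nat_mul, ← Real.exp_add]
      refine le_trans (Real.exp_le_exp.2 ?_) hX
      have h1 := T26_ell hok hYL
      rw [hAq, hAv] at h1
      have h2 : (q * (1 + C4) + 400000 * (q : ℝ) ^ 3 * v) * L ≤ N * L :=
        mul_le_mul_of_nonneg_right hNq hL0.le
      have h3 : (q : ℝ) * (L + C4) ≤ q * (1 + C4) * L := by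
        have : C4 ≤ C4 * L := le_mul_of_one_le_right hC4 hL1
        have h4 : L + C4 ≤ (1 + C4) * L := by linarith
        calc (q : ℝ) * (L + C4) ≤ q * ((1 + C4) * L) := mul_le_mul_of_nonneg_left h4 hq0.le
          _ = _ := by ring
      linarith) E (by
      intro n hn
      obtain ⟨h1, h2⟩ := (hE4' n).2 hn
      rw [T26_y0, hAp]
      refine ⟨h1, ?_⟩
      rcases Nat.eq_zero_or_pos n with h0 | h0
      · rw [h0, Nat.cast_zero]; exact (Real.exp_pos _).le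
      · rw [← Real.log_le_iff_le_exp (by exact_mod_cast h0)]
        exact h2)
  -- the energy
  have hEn := hR A.Y (L + C4) (C4 * |Lam| / L) hY0.le (by linarith) (by positivity) E hE4'
  have hratio : (L + C4 + A.Y + 1) / (A.Y + 1) ≤ ρ := by
    rw [div_le_iff₀ (by linarith), hρ]
    have h1 : L ≤ Real.exp (2 * v) * A.Y := by
      rw [hAY, mul_comm L, ← mul_assoc, ← Real.exp_add]
      simp
    have h2 : C4 ≤ C4 * (A.Y + 1) := le_mul_of_one_le_right hC4 (by linarith)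
    have h3 : 0 < Real.exp (2 * (v : ℝ)) := Real.exp_pos _
    nlinarith
  have hEn0 : 0 ≤ En (E ^ q) := T26_En _
  have hEn2 : En (E ^ q) ≤ M * (L⁻¹) ^ (2 * q) := by
    refine hEn.trans ?_
    have h1 : ((L + C4 + A.Y + 1) / (A.Y + 1)) ^ (q ^ 2) ≤ ρ ^ (q ^ 2) := by
      refine pow_le_pow_left₀ (by positivity) hratio _
    calc CR * (C4 * |Lam| / L) ^ (2 * q) * ((L + C4 + A.Y + 1) / (A.Y + 1)) ^ (q ^ 2)
        ≤ CR * (C4 * |Lam| / L) ^ (2 * q) * ρ ^ (q ^ 2) :=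
          mul_le_mul_of_nonneg_left h1 (by positivity)
      _ = M * (L⁻¹) ^ (2 * q) := by
          rw [hMdef, div_eq_mul_inv, mul_pow (C4 * |Lam|)]
          ring
  have hEn3 : En (E ^ q) ^ (k / q) ≤ M ^ (k / q) * (L⁻¹) ^ (2 * k) := by
    refine (Real.rpow_le_rpow hEn0 hEn2 (by positivity)).trans (le_of_eq ?_)
    rw [Real.mul_rpow hM0 (by positivity)]
    congr 1
    rw [← Real.rpow_natCast, ← Real.rpow_mul (by positivity)]
    congr 1
    push_cast
    field_simp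
  -- Mertens
  have hV : Real.exp (k ^ 2 * A.V 0) ≤ (2 : ℝ) ^ (k ^ 2) * Real.exp (k ^ 2 * CM) * L ^ (k ^ 2) := by
    have h1 := hM A hok 0
    rw [T26_y0] at h1
    have h2 : Real.log (A.Y + 1) ≤ Real.log (2 * L) := Real.log_le_log (by linarith) (by linarith)
    have h3 : k ^ 2 * A.V 0 ≤ k ^ 2 * (Real.log (2 * L) + CM) :=
      mul_le_mul_of_nonneg_left (by linarith) (by positivity)
    refine (Real.exp_le_exp.2 h3).trans (le_of_eq ?_)
    rw [mul_add, Real.exp_add, Real.log_mul two_ne_zero hL0.ne', mul_add, Real.exp_add,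
      Real.rpow_def_of_pos two_pos, Real.rpow_def_of_pos hL0]
    ring_nf
  have hCL0 : 0 ≤ CL := by linarith
  have hM1 : 0 ≤ M ^ (k / q) := Real.rpow_nonneg hM0 _
  have hLk : 0 ≤ (L⁻¹) ^ (2 * k) := Real.rpow_nonneg (by positivity) _
  have hlev2 : ∫ t, ‖ev t (E * A.EI 0)‖ ^ (2 * k) ∂ν ≤ CL * (M ^ (k / q) * (L⁻¹) ^ (2 * k)) *
      ((2 : ℝ) ^ (k ^ 2) * Real.exp (k ^ 2 * CM) * L ^ (k ^ 2)) := by
    refine hlev.trans ?_
    refine mul_le_mul (mul_le_mul_of_nonneg_left hEn3 hCL0) hV (Real.exp_pos _).le ?_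
    positivity
  have hC50 : 0 ≤ C5 ^ (2 * k) := Real.rpow_nonneg hC5 _
  have hfin : ∫ t, ‖ev t (RW u p0 A.Y L * A.EI 0)
      - (evs (pt 0 t) (Dsm p0))⁻¹ * ev t (A.EI 0) * ev t (RW u 0 A.Y L)‖ ^ (2 * k) ∂ν
      ≤ Ct * (L⁻¹) ^ (2 * k) * L ^ (k ^ 2) := by
    refine hint.trans ((mul_le_mul_of_nonneg_left hlev2 hC50).trans (le_of_eq ?_))
    rw [hCt]
    ring
  refine hfin.trans (mul_le_mul_of_nonneg_right ?_ (Real.rpow_nonneg hL0.le _))
  -- `Ct * L^(-2k) ≤ ε`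
  have h6 : (Ct + 1) / ε ≤ L ^ (2 * k) := by
    have h7 : N1 ^ (2 * k) = (Ct + 1) / ε := by
      rw [hN1, ← Real.rpow_mul hCt1.le]
      have : 1 / (2 * k) * (2 * k) = 1 := by field_simp
      rw [this, Real.rpow_one]
    rw [← h7]
    exact Real.rpow_le_rpow hN10.le (hNN1.trans hNL) (by positivity)
  rw [Real.inv_rpow hL0.le, ← div_eq_mul_inv, div_le_iff₀ (Real.rpow_pos_of_pos hL0 _)]
  rw [div_le_iff₀ hε] at h6
  linarith

end Pool.Agent.Lib.MT
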