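import Mathlib
import Pool.Agent.Lib.MP_f9aece_nt_mt.StmtsT
import Pool.Agent.Lib.MP_f9aece_nt_ms.Coeffs

/-!
Mesoscopic moments of zeta, module T27.

For u = re w and im w (both Cut B Lam): Windows (ε/C) and ErrSmall (with ε exp(-(2 k v (1-(q-k))))/C). ZS w L t = ev t (TZ re) + I ev t (TZ im), Mn is linear in the same way. (a1+..+a4)^(2k) <= 4^(2k) sum a_i^(2k); integrability: everything is continuous and bounded and ν is a probability measure. (about 120 lines)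
-/

set_option autoImplicit false

namespace Pool.Agent.Lib.MT

open MeasureTheory Set Filter Topology Complex
open scoped ComplexConjugate
open scoped ArithmeticFunction.Omega
open Pool.Agent.Lib.MP_f9aece_nt (DP pair BK K1 ev PP VV Smo expo)
open Pool.Agent.Lib.MP_f9aece_nt_h40 (ind)
open Pool.Agent.Lib.MP_f9aece_nt_h85 (Rst)
open Pool.Agent.Lib.MP_f9aece_nt_h97 (Psm Dsm evs)
open Pool.Agent.Lib.NL (pt B0)
open Pool.Agent.Lib.J4 (En V2)
open Pool.Agent.Lib.MS (Len MVP Par RW TZ Cut un zr ex hq af ZS)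

private theorem T27_bd (P : DP) : ∃ C : ℝ, 0 ≤ C ∧ ∀ t : ℝ, ‖ev t P‖ ≤ C := by
  refine ⟨∑ a ∈ P.coeff.support, |P.coeff a|, Finset.sum_nonneg fun _ _ => abs_nonneg _, ?_⟩
  intro t
  rw [Pool.Agent.Lib.MP_f9aece_nt.ev_apply]
  refine (norm_sum_le _ _).trans (Finset.sum_le_sum fun a _ => ?_)
  rw [norm_mul, Complex.norm_real, Real.norm_eq_abs]
  have h1 : ‖(a : ℂ) ^ (-(1 / 2 + I * t : ℂ))‖ ≤ 1 := by
    rcases Nat.eq_zero_or_pos a with h0 | h0
    · rw [h0, Nat.cast_zero, Complex.zero_cpow]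
      · simp
      · intro h
        have := congrArg Complex.re h
        simp at this
    · rw [Complex.norm_natCast_cpow_of_pos h0]
      refine Real.rpow_le_one_of_one_le_of_nonpos (by exact_mod_cast h0) ?_
      simp
  calc |P.coeff a| * ‖(a : ℂ) ^ (-(1 / 2 + I * t : ℂ))‖ ≤ |P.coeff a| * 1 :=
        mul_le_mul_of_nonneg_left h1 (abs_nonneg _)
    _ = |P.coeff a| := mul_one _

private theorem T27_ev_TZ (u : ℝ → ℝ) (L t : ℝ) : ev t (TZ u L) =
    ∑ n ∈ Finset.Icc 1 ⌊Real.exp L⌋₊, ((u (Real.log n / L) : ℝ) : ℂ) *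
      (n : ℂ) ^ (-(1 / 2 + I * t : ℂ)) := by
  unfold TZ
  rw [map_sum]
  exact Finset.sum_congr rfl fun n _ => Pool.Agent.Lib.MP_f9aece_nt.ev_single t n _

private theorem T27_ZS (w : ℝ → ℂ) (L t : ℝ) : ZS w L t =
    ev t (TZ (fun x => (w x).re) L) + I * ev t (TZ (fun x => (w x).im) L) := by
  rw [T27_ev_TZ, T27_ev_TZ, Finset.mul_sum, ← Finset.sum_add_distrib]
  unfold ZS
  refine Finset.sum_congr rfl fun n _ => ?_
  rw [← mul_assoc I, ← add_mul]
  congr 1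
  conv_lhs => rw [← Complex.re_add_im (w (Real.log n / L))]
  rw [mul_comm I]

private theorem T27_pow {a b c d s x : ℝ} (ha : 0 ≤ a) (hb : 0 ≤ b) (hc : 0 ≤ c) (hd : 0 ≤ d)
    (hx : 0 ≤ x) (hs : 0 < s) (h : x ≤ a + b + (c + d)) :
    x ^ s ≤ 4 ^ s * (a ^ s + b ^ s + (c ^ s + d ^ s)) := by
  have hA := Real.rpow_nonneg ha s
  have hB := Real.rpow_nonneg hb s
  have hC := Real.rpow_nonneg hc s
  have hD := Real.rpow_nonneg hd s
  have h4 : (0 : ℝ) ≤ 4 ^ s := Real.rpow_nonneg (by norm_num) s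
  have key : ∀ y : ℝ, 0 ≤ y → x ≤ 4 * y → y ^ s ≤ a ^ s + b ^ s + (c ^ s + d ^ s) →
      x ^ s ≤ 4 ^ s * (a ^ s + b ^ s + (c ^ s + d ^ s)) := by
    intro y hy hxy hys
    calc x ^ s ≤ (4 * y) ^ s := Real.rpow_le_rpow hx hxy hs.le
      _ = 4 ^ s * y ^ s := Real.mul_rpow (by norm_num) hy
      _ ≤ _ := mul_le_mul_of_nonneg_left hys h4
  rcases le_total a b with h1 | h1 <;> rcases le_total c d with h2 | h2
  · rcases le_total b d with h3 | h3
    · exact key d hd (by linarith) (by linarith)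
    · exact key b hb (by linarith) (by linarith)
  · rcases le_total b c with h3 | h3
    · exact key c hc (by linarith) (by linarith)
    · exact key b hb (by linarith) (by linarith)
  · rcases le_total a d with h3 | h3
    · exact key d hd (by linarith) (by linarith)
    · exact key a ha (by linarith) (by linarith)
  · rcases le_total a c with h3 | h3
    · exact key c hc (by linarith) (by linarith)
    · exact key a ha (by linarith) (by linarith)

private theorem T27_int {ν : Measure ℝ} (hν : IsProbabilityMeasure ν) {f : ℝ → ℂ} {s : ℝ}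
    (hs : 0 < s) (hf : Continuous f) {C : ℝ} (hC : ∀ t, ‖f t‖ ≤ C) :
    Integrable (fun t => ‖f t‖ ^ s) ν := by
  have hc : Continuous fun t => ‖f t‖ ^ s := hf.norm.rpow_const fun _ => Or.inr hs.le
  refine Integrable.of_bound hc.aestronglyMeasurable (C ^ s) (ae_of_all _ fun t => ?_)
  rw [Real.norm_eq_abs, abs_of_nonneg (Real.rpow_nonneg (norm_nonneg _) _)]
  exact Real.rpow_le_rpow (norm_nonneg _) (hC t) hs.le

private theorem T27_sum {ν : Measure ℝ} {a b c d : ℝ → ℝ} (ha : Integrable a ν)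
    (hb : Integrable b ν) (hc : Integrable c ν) (hd : Integrable d ν) {A B C D : ℝ}
    (hA : ∫ t, a t ∂ν ≤ A) (hB : ∫ t, b t ∂ν ≤ B) (hC : ∫ t, c t ∂ν ≤ C) (hD : ∫ t, d t ∂ν ≤ D) :
    ∫ t, (a t + b t + (c t + d t)) ∂ν ≤ A + B + (C + D) := by
  have hab : Integrable (fun t => a t + b t) ν := ha.add hb
  have hcd : Integrable (fun t => c t + d t) ν := hc.add hd
  rw [integral_add hab hcd, integral_add ha hb, integral_add hc hd]
  exact add_le_add (add_le_add hA hB) (add_le_add hC hD)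

private theorem T27_re {B Lam : ℝ} {w : ℝ → ℂ} (h : CutC B Lam w) :
    Cut B Lam fun x => (w x).re := by
  refine ⟨fun x => (Complex.abs_re_le_norm _).trans (h.bd x), fun x y => ?_, fun x hx => ?_⟩
  · rw [← Complex.sub_re]
    exact (Complex.abs_re_le_norm _).trans (h.lip x y)
  · rw [h.zero x hx, Complex.zero_re]

private theorem T27_im {B Lam : ℝ} {w : ℝ → ℂ} (h : CutC B Lam w) :
    Cut B Lam fun x => (w x).im := by
  refine ⟨fun x => (Complex.abs_im_le_norm _).trans (h.bd x), fun x y => ?_, fun x hx => ?_⟩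
  · rw [← Complex.sub_im]
    exact (Complex.abs_im_le_norm _).trans (h.lip x y)
  · rw [h.zero x hx, Complex.zero_im]

theorem errTot (hw : MS.Windows) (h25 : SmallLine) (h26 : ErrSmall) : ErrTot := by
  intro q k hq hk hqk hkq p0 hp0 B Lam ε hε
  have h4 : (0 : ℝ) < 4 ^ (2 * k) := Real.rpow_pos_of_pos (by norm_num) _
  have hε1 : 0 < ε / (4 * 4 ^ (2 * k)) := div_pos hε (mul_pos (by norm_num) h4)
  obtain ⟨v0, hv0⟩ := hw q k hq hk hqk hkq p0 hp0 B Lam _ hε1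
  refine ⟨v0, fun v hv => ?_⟩
  obtain ⟨C0, hC0, hW⟩ := hv0 v hv
  have hE : 0 < Real.exp (-(2 * k * v * (1 - (q - k)))) := Real.exp_pos _
  have hε2 : 0 < ε * Real.exp (-(2 * k * v * (1 - (q - k)))) / (4 * 4 ^ (2 * k)) :=
    div_pos (mul_pos hε hE) (mul_pos (by norm_num) h4)
  obtain ⟨N1, hN1, hS⟩ := h26 q k hq hk hqk hkq v p0 hp0 B Lam _ hε2
  refine ⟨max C0 N1, hC0.trans (le_max_left _ _), ?_⟩
  intro A L X η ν hA w hcw
  have hL0 : 0 ≤ L := le_trans (by linarith [le_max_left C0 N1]) hA.hL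
  have hν : IsProbabilityMeasure ν := hA.mvp.prob
  have hη1 : η ≤ 1 := by
    have h1 : η * 1 ≤ η * max C0 N1 :=
      mul_le_mul_of_nonneg_left (hC0.trans (le_max_left _ _)) hA.η0
    linarith [hA.ηN]
  have hStd : Std q v p0 N1 A L X η ν := by
    refine ⟨hA.hq, hA.hv, hA.hp, hA.ok, (le_max_right _ _).trans hA.hL, hA.hY, hA.mvp, ?_, hA.η0, ?_⟩
    · refine le_trans (Real.exp_le_exp.2 ?_) hA.hX
      exact mul_le_mul_of_nonneg_right (le_max_right _ _) hL0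
    · exact (mul_le_mul_of_nonneg_left (le_max_right _ _) hA.η0).trans hA.ηN
  have hY : A.Y = L * Real.exp (-(2 * A.v)) := by rw [hA.hv]; exact hA.hY
  have hX : Real.exp (C0 * L) ≤ X := by
    refine le_trans (Real.exp_le_exp.2 ?_) hA.hX
    exact mul_le_mul_of_nonneg_right (le_max_left _ _) hL0
  have hWu : ∀ u : ℝ → ℝ, Cut B Lam u → _ := fun u hu =>
    hW A hA.hq hA.hv hA.hp hA.ok L ((le_max_left _ _).trans hA.hL) hY X η ν hA.mvp hη1 hX u hu
  have hSu : ∀ u : ℝ → ℝ, Cut B Lam u → _ := fun u hu => hS A L X η ν hStd u hu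
  have hre := T27_re hcw
  have him := T27_im hcw
  have hW1 := hWu _ hre
  have hW2 := hWu _ him
  have hS1 := hSu _ hre
  have hS2 := hSu _ him
  clear hWu hSu
  have hs : 0 < 2 * k := by linarith
  obtain ⟨Cs, hCs0, hCs⟩ := h25 p0
  -- integrability of the pieces
  have hI1 : ∀ u : ℝ → ℝ, Integrable (fun t => ‖ev t (TZ u L) - ev t (RW u p0 A.Y L * A.EI 0)‖ ^ (2 * k)) ν := by
    intro u
    obtain ⟨C1, -, hC1⟩ := T27_bd (TZ u L)
    obtain ⟨C2, -, hC2⟩ := T27_bd (RW u p0 A.Y L * A.EI 0)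
    refine T27_int hν hs ((Pool.Agent.Lib.MP_f9aece_nt.continuous_ev _).sub
      (Pool.Agent.Lib.MP_f9aece_nt.continuous_ev _)) (C := C1 + C2) fun t => ?_
    exact (norm_sub_le _ _).trans (add_le_add (hC1 t) (hC2 t))
  have hDeq : ∀ t : ℝ, (evs (pt 0 t) (Dsm p0))⁻¹ = (ev t (Dsm p0))⁻¹ := fun t => by
    rw [(hCs t).1]
  have hI2 : ∀ u : ℝ → ℝ, Integrable (fun t => ‖ev t (RW u p0 A.Y L * A.EI 0)
      - (evs (pt 0 t) (Dsm p0))⁻¹ * ev t (A.EI 0) * ev t (RW u 0 A.Y L)‖ ^ (2 * k)) ν := by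
    intro u
    obtain ⟨C2, -, hC2⟩ := T27_bd (RW u p0 A.Y L * A.EI 0)
    obtain ⟨C3, hC30, hC3⟩ := T27_bd (A.EI 0)
    obtain ⟨C4, hC40, hC4⟩ := T27_bd (RW u 0 A.Y L)
    have hcont : Continuous fun t : ℝ => (evs (pt 0 t) (Dsm p0))⁻¹ := by
      have h1 : (fun t : ℝ => (evs (pt 0 t) (Dsm p0))⁻¹) = fun t : ℝ => (ev t (Dsm p0))⁻¹ :=
        funext hDeq
      rw [h1]
      exact (Pool.Agent.Lib.MP_f9aece_nt.continuous_ev _).inv₀ fun t => (hCs t).2.1
    refine T27_int hν hs ((Pool.Agent.Lib.MP_f9aece_nt.continuous_ev _).sub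
      ((hcont.mul (Pool.Agent.Lib.MP_f9aece_nt.continuous_ev _)).mul
        (Pool.Agent.Lib.MP_f9aece_nt.continuous_ev _))) (C := C2 + Cs * C3 * C4) fun t => ?_
    refine (norm_sub_le _ _).trans (add_le_add (hC2 t) ?_)
    rw [norm_mul, norm_mul, hDeq t]
    exact mul_le_mul (mul_le_mul (hCs t).2.2 (hC3 t) (norm_nonneg _) hCs0) (hC4 t)
      (norm_nonneg _) (mul_nonneg hCs0 hC30)
  -- pointwise bound
  have hpt : ∀ t : ℝ, ‖ZS w L t - Mn w A L t‖ ^ (2 * k) ≤ 4 ^ (2 * k) *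
      (‖ev t (TZ (fun x => (w x).re) L) - ev t (RW (fun x => (w x).re) p0 A.Y L * A.EI 0)‖ ^ (2 * k) +
       ‖ev t (RW (fun x => (w x).re) p0 A.Y L * A.EI 0)
          - (evs (pt 0 t) (Dsm p0))⁻¹ * ev t (A.EI 0) * ev t (RW (fun x => (w x).re) 0 A.Y L)‖ ^ (2 * k) +
       (‖ev t (TZ (fun x => (w x).im) L) - ev t (RW (fun x => (w x).im) p0 A.Y L * A.EI 0)‖ ^ (2 * k) +
       ‖ev t (RW (fun x => (w x).im) p0 A.Y L * A.EI 0)
          - (evs (pt 0 t) (Dsm p0))⁻¹ * ev t (A.EI 0) * ev t (RW (fun x => (w x).im) 0 A.Y L)‖ ^ (2 * k))) := by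
    intro t
    refine T27_pow (norm_nonneg _) (norm_nonneg _) (norm_nonneg _) (norm_nonneg _) (norm_nonneg _)
      hs ?_
    have h1 : ZS w L t - Mn w A L t =
        (ev t (TZ (fun x => (w x).re) L) - ev t (RW (fun x => (w x).re) p0 A.Y L * A.EI 0)) +
        (ev t (RW (fun x => (w x).re) p0 A.Y L * A.EI 0)
          - (evs (pt 0 t) (Dsm p0))⁻¹ * ev t (A.EI 0) * ev t (RW (fun x => (w x).re) 0 A.Y L)) +
        I * ((ev t (TZ (fun x => (w x).im) L) - ev t (RW (fun x => (w x).im) p0 A.Y L * A.EI 0)) +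
        (ev t (RW (fun x => (w x).im) p0 A.Y L * A.EI 0)
          - (evs (pt 0 t) (Dsm p0))⁻¹ * ev t (A.EI 0) * ev t (RW (fun x => (w x).im) 0 A.Y L))) := by
      rw [T27_ZS]
      unfold Mn SW
      rw [hA.hp]
      ring
    rw [h1]
    refine (norm_add_le _ _).trans (add_le_add (norm_add_le _ _) ?_)
    rw [norm_mul, Complex.norm_I, one_mul]
    exact norm_add_le _ _
  have hint := ((hI1 (fun x => (w x).re)).add (hI2 (fun x => (w x).re))).add
    ((hI1 (fun x => (w x).im)).add (hI2 (fun x => (w x).im)))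
  have hmono := integral_mono_of_nonneg (μ := ν)
    (ae_of_all _ fun t => Real.rpow_nonneg (norm_nonneg (ZS w L t - Mn w A L t)) (2 * k))
    (hint.const_mul (4 ^ (2 * k))) (ae_of_all _ hpt)
  refine hmono.trans ?_
  rw [integral_const_mul]
  have hsum : ∫ t, (‖ev t (TZ (fun x => (w x).re) L) - ev t (RW (fun x => (w x).re) p0 A.Y L * A.EI 0)‖ ^ (2 * k) +
       ‖ev t (RW (fun x => (w x).re) p0 A.Y L * A.EI 0)
          - (evs (pt 0 t) (Dsm p0))⁻¹ * ev t (A.EI 0) * ev t (RW (fun x => (w x).re) 0 A.Y L)‖ ^ (2 * k) +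
       (‖ev t (TZ (fun x => (w x).im) L) - ev t (RW (fun x => (w x).im) p0 A.Y L * A.EI 0)‖ ^ (2 * k) +
       ‖ev t (RW (fun x => (w x).im) p0 A.Y L * A.EI 0)
          - (evs (pt 0 t) (Dsm p0))⁻¹ * ev t (A.EI 0) * ev t (RW (fun x => (w x).im) 0 A.Y L)‖ ^ (2 * k))) ∂ν
      ≤ (ε / (4 * 4 ^ (2 * k)) * (L ^ (k ^ 2) * Real.exp (-(2 * k * v * (1 - (q - k))))) +
        ε * Real.exp (-(2 * k * v * (1 - (q - k)))) / (4 * 4 ^ (2 * k)) * L ^ (k ^ 2)) +
        (ε / (4 * 4 ^ (2 * k)) * (L ^ (k ^ 2) * Real.exp (-(2 * k * v * (1 - (q - k))))) +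
        ε * Real.exp (-(2 * k * v * (1 - (q - k)))) / (4 * 4 ^ (2 * k)) * L ^ (k ^ 2)) :=
    T27_sum (hI1 _) (hI2 _) (hI1 _) (hI2 _) hW1 hS1 hW2 hS2
  refine (mul_le_mul_of_nonneg_left hsum h4.le).trans (le_of_eq ?_)
  field_simp
  ring

end Pool.Agent.Lib.MT
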