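import Mathlib
import Pool.Agent.Lib.MP_f9aece_nt_mt.StmtsT
import Pool.Agent.Lib.MP_f9aece_nt_ms.Coeffs

/-!
Mesoscopic moments of zeta, module T28.

A.V 0 = sum over the groups g < J of VV (Sg g) = sum of 1/p over p0 < p <= e^Y: the groups are disjoint and, as Yg J <= log p0 (A.ok.hJ), every prime p0 < p <= e^Y lies in one of them (v >= 4, Yg decreasing; see J4 GroupsH.lean). M = M0 - sum_(p<=p0) 1/p with M0 from MertC. (about 100 lines)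
-/

set_option autoImplicit false

namespace Pool.Agent.Lib.MT

open MeasureTheory Set Filter Topology Complex
open scoped ComplexConjugate
open scoped ArithmeticFunction.Omega
open Pool.Agent.Lib.MP_f9aece_nt (DP pair BK K1 ev PP VV Smo expo)
open Pool.Agent.Lib.MP_f9aece_nt_h40 (ind)
open Pool.Agent.Lib.MP_f9aece_nt_h85 (Rst)
open Pool.Agent.Lib.MP_f9aece_nt_h97 (Psm Dsm evs)
open Pool.Agent.Lib.NL (pt B0)
open Pool.Agent.Lib.J4 (En V2)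
open Pool.Agent.Lib.MS (Len MVP Par RW TZ Cut un zr ex hq af ZS)

private lemma t28_V {A : Par} (hA : A.Ok) :
    A.V 0 = VV (MP_f9aece_nt_h6.Pall A.Y A.p0) := by
  have hp0 : 1 ≤ A.p0 := by have := hA.hp; omega
  unfold Par.V J4.Vs
  rw [Nat.Ico_zero_eq_range]
  have h2 := MP_f9aece_nt_h6.sum_VV_Sg (p0 := A.p0) hA.hY (Nat.cast_nonneg A.v : (0 : ℝ) ≤ A.v) A.J
  rw [MP_f9aece_nt_h6.biUnion_eq_Pall hp0 (by rw [← J4.Yg_eq]; exact hA.hJ.1)] at h2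
  rw [← h2]
  exact Finset.sum_congr rfl fun g _ => by rw [J4.Sg_eq]

private lemma t28_split {p0 : ℕ} {Y : ℝ} (h : (p0 : ℝ) ≤ Real.exp Y) :
    VV (MP_f9aece_nt_h6.Pall Y p0) =
      ∑ p ∈ (Finset.Icc 1 ⌊Real.exp Y⌋₊).filter Nat.Prime, (p : ℝ)⁻¹ -
        ∑ p ∈ (Finset.Icc 1 p0).filter Nat.Prime, (p : ℝ)⁻¹ := by
  have hf : p0 ≤ ⌊Real.exp Y⌋₊ := Nat.le_floor h
  have hdisj : Disjoint ((Finset.Icc 1 p0).filter Nat.Prime) (MP_f9aece_nt_h6.Pall Y p0) := by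
    rw [Finset.disjoint_left]
    intro p hp hp'
    have h1 := (Finset.mem_Icc.1 (Finset.mem_filter.1 hp).1).2
    have h2 := (MP_f9aece_nt_h6.mem_Pall.1 hp').2.2
    omega
  have hun : (Finset.Icc 1 ⌊Real.exp Y⌋₊).filter Nat.Prime =
      (Finset.Icc 1 p0).filter Nat.Prime ∪ MP_f9aece_nt_h6.Pall Y p0 := by
    ext p
    rw [Finset.mem_union, Finset.mem_filter, Finset.mem_filter, MP_f9aece_nt_h6.mem_Pall,
      Finset.mem_Icc, Finset.mem_Icc]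
    constructor
    · rintro ⟨⟨h1, h2⟩, h3⟩
      by_cases h4 : p ≤ p0
      · exact Or.inl ⟨⟨h1, h4⟩, h3⟩
      · exact Or.inr ⟨⟨h1, h2⟩, h3, by omega⟩
    · rintro (⟨⟨h1, h2⟩, h3⟩ | ⟨⟨h1, h2⟩, h3, h4⟩)
      · exact ⟨⟨h1, h2.trans hf⟩, h3⟩
      · exact ⟨⟨h1, h2⟩, h3⟩
  rw [hun, Finset.sum_union hdisj]
  unfold VV
  ring

theorem vLim (h3 : MertC) : VLim := by
  intro p0 hp0
  obtain ⟨M, hM⟩ := h3
  refine ⟨M - ∑ p ∈ (Finset.Icc 1 p0).filter Nat.Prime, (p : ℝ)⁻¹, ?_⟩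
  intro ε hε
  obtain ⟨N, hN⟩ := Filter.eventually_atTop.1 ((Metric.tendsto_nhds.1 hM) ε hε)
  refine ⟨max (max 1 N) (Real.log p0), (le_max_left _ _).trans (le_max_left _ _), ?_⟩
  intro A hA hAp hY
  subst hAp
  have h1 : N ≤ A.Y := ((le_max_right _ _).trans (le_max_left _ _)).trans hY
  have h2 : Real.log A.p0 ≤ A.Y := (le_max_right _ _).trans hY
  have h4 : (A.p0 : ℝ) ≤ Real.exp A.Y := by
    have h5 : (0 : ℝ) < A.p0 := by exact_mod_cast hp0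
    rwa [← Real.log_le_iff_le_exp h5]
  have h5 := hN A.Y h1
  rw [Real.dist_eq] at h5
  rw [t28_V hA, t28_split h4]
  refine le_of_eq_of_le ?_ h5.le
  congr 1
  ring

end Pool.Agent.Lib.MT
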