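import Mathlib
import Pool.Agent.Lib.MP_f9aece_nt_mt.StmtsT
import Pool.Agent.Lib.MP_f9aece_nt_ms.Coeffs

/-!
Mesoscopic moments of zeta, module T29: a block of the minorant.
-/

set_option autoImplicit false

namespace Pool.Agent.Lib.MT

open MeasureTheory Set Filter Topology Complex
open scoped ComplexConjugate
open scoped ArithmeticFunction.Omega
open Pool.Agent.Lib.MP_f9aece_nt (DP pair BK K1 ev PP VV Smo expo)
open Pool.Agent.Lib.MP_f9aece_nt_h40 (ind)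
open Pool.Agent.Lib.MP_f9aece_nt_h85 (Rst)
open Pool.Agent.Lib.MP_f9aece_nt_h97 (Psm Dsm evs)
open Pool.Agent.Lib.NL (pt B0)
open Pool.Agent.Lib.J4 (En V2)
open Pool.Agent.Lib.MS (Len MVP Par RW TZ Cut un zr ex hq af ZS)

namespace T29I

open Pool.Agent.Lib.MS

private lemma prod_two {S : Finset ℕ} {n : ℕ} (hn : n ∈ Smo (S : Set ℕ)) (x : ℕ → ℝ) :
    ∏ p ∈ S, (2 * x p) ^ n.factorization p = 2 ^ (Ω n) * ∏ p ∈ S, x p ^ n.factorization p := by
  simp_rw [mul_pow]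
  rw [Finset.prod_mul_distrib, Finset.prod_pow_eq_pow_sum]
  congr 2
  rw [Omega_eq]
  symm
  refine Finset.sum_subset ?_ fun p _ hp => ?_
  · intro p hp
    exact hn.2 p (Nat.prime_of_mem_primeFactors hp) (Nat.dvd_of_mem_primeFactors hp)
  · rw [← Nat.support_factorization, Finsupp.notMem_support_iff] at hp
    exact hp

/-- coefficients -/
private lemma coeff_eq {S : Finset ℕ} (hS : ∀ p ∈ S, p.Prime) {κ M m0 : ℕ} (c : ℝ) (h1 : m0 ≤ κ)
    (h2 : m0 ≤ M) {n : ℕ} (hn : n ∈ Smo (S : Set ℕ)) (hO : Ω n ≤ m0) :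
    af (ind κ S * expo c M S) n = hq 1 c n := by
  classical
  have hd : ∀ d, d ∣ n → d ∈ Smo (S : Set ℕ) ∧ Ω d ≤ m0 := by
    intro d hd
    refine ⟨MP_f9aece_nt_h97.dvd_smo hn hd, ?_⟩
    obtain ⟨e, rfl⟩ := hd
    have h3 : d ≠ 0 := by rintro rfl; exact hn.1 (zero_mul e)
    have h4 : e ≠ 0 := by rintro rfl; exact hn.1 (mul_zero d)
    rw [ArithmeticFunction.cardFactors_mul h3 h4] at hO
    omega
  have hi : ∀ d, d ∣ n → af (ind κ S) d = zr d := by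
    intro d hd'
    obtain ⟨g1, g2⟩ := hd d hd'
    rw [af_ind hS, if_pos ⟨g1, g2.trans h1⟩, zr_apply g1.1]
  rw [af_mul]
  unfold hq
  rw [pow_one]
  refine mul_agree (fun d hd' => hi d hd') fun d hd' => ?_
  obtain ⟨g1, g2⟩ := hd d hd'
  rw [af_expo hS, if_pos ⟨g1, g2.trans h2⟩]

private lemma abs_expo_le {S : Finset ℕ} (hS : ∀ p ∈ S, p.Prime) (M : ℕ) (c : ℝ) (m : ℕ) :
    |af (expo c M S) m| ≤ ex |c| m := by
  classical
  rw [af_expo hS]
  split_ifs with h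
  · exact abs_ex_le c m
  · rw [abs_zero]; exact (abs_nonneg _).trans (abs_ex_le c m)

private lemma coeff_le {S : Finset ℕ} (hS : ∀ p ∈ S, p.Prime) (κ M : ℕ) (c : ℝ) (n : ℕ) :
    |af (ind κ S * expo c M S) n| ≤ hq 1 |c| n := by
  classical
  rw [af_mul]
  unfold hq
  rw [pow_one]
  refine abs_mul_le (fun m => ?_) (fun m => abs_expo_le hS M c m) n
  rw [af_ind hS]
  split_ifs with h
  · rw [zr_apply h.1.1, abs_one]
  · rw [abs_zero]; exact (abs_nonneg _).trans (abs_zr_le m)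

/-- numerical facts -/
private lemma num {r : ℕ} (hr : 1 ≤ r) :
    (1 / 2 : ℝ) ^ (50000 * r) * Real.exp (16 * r) ≤ Real.exp (-(r : ℝ)) / 100 := by
  have h1 : Real.exp (17 * r) ≤ 2 ^ (34 * r) := by
    have e : Real.exp (17 * (r : ℝ)) = Real.exp 1 ^ (17 * r) := by
      rw [← Real.exp_nat_mul]; congr 1; push_cast; ring
    rw [e]
    calc Real.exp 1 ^ (17 * r) ≤ 4 ^ (17 * r) := by
          have := Real.exp_pos 1
          have := Real.exp_one_lt_d9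
          have h4 : Real.exp 1 ≤ 4 := by linarith
          gcongr
      _ = 2 ^ (34 * r) := by
          have : (4 : ℝ) = 2 ^ 2 := by norm_num
          rw [this, ← pow_mul]; congr 1; ring
  have h2 : (2 : ℝ) ^ (34 * r) * 100 ≤ 2 ^ (50000 * r) := by
    have h3 : (2 : ℝ) ^ (34 * r + 7) ≤ 2 ^ (50000 * r) := by
      exact pow_le_pow_right₀ (by norm_num) (by omega)
    rw [pow_add] at h3
    have h4 : (0 : ℝ) < 2 ^ (34 * r) := by positivity
    nlinarith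
  have h3 : (0 : ℝ) < 2 ^ (50000 * r) := by positivity
  have e2 : Real.exp (17 * r) = Real.exp (16 * r) * Real.exp r := by
    rw [← Real.exp_add]; congr 1; ring
  have h4 : Real.exp (-(r : ℝ)) = 1 / Real.exp r := by rw [Real.exp_neg, one_div]
  rw [h4, div_div, le_div_iff₀ (by positivity), mul_assoc, ← mul_assoc (Real.exp (16 * r)), ← e2,
    div_pow, one_pow, one_div, inv_mul_le_iff₀ h3, mul_one]
  calc Real.exp (17 * r) * 100 ≤ 2 ^ (34 * r) * 100 := by gcongr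
    _ ≤ _ := h2

/-- numerical facts -/
private lemma numP {q r : ℕ} (hq : 1 ≤ q) (hr : 1 ≤ r) :
    (1 / 4 : ℝ) ^ (100000 * q * r) * Real.exp (80802 * r) ≤ Real.exp (-(r : ℝ)) := by
  have h1 : Real.exp (80803 * r) ≤ 4 ^ (80803 * r) := by
    have e : Real.exp (80803 * (r : ℝ)) = Real.exp 1 ^ (80803 * r) := by
      rw [← Real.exp_nat_mul]; congr 1; push_cast; ring
    rw [e]
    have := Real.exp_pos 1
    have := Real.exp_one_lt_d9
    have h4 : Real.exp 1 ≤ 4 := by linarith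
    gcongr
  have h2 : (4 : ℝ) ^ (80803 * r) ≤ 4 ^ (100000 * q * r) := by
    refine pow_le_pow_right₀ (by norm_num) ?_
    calc 80803 * r ≤ 100000 * 1 * r := by omega
      _ ≤ 100000 * q * r := by gcongr
  have h3 : (0 : ℝ) < 4 ^ (100000 * q * r) := by positivity
  have e2 : Real.exp (80803 * r) = Real.exp (80802 * r) * Real.exp r := by
    rw [← Real.exp_add]; congr 1; ring
  have h4 : Real.exp (-(r : ℝ)) = 1 / Real.exp r := by rw [Real.exp_neg, one_div]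
  rw [h4, le_div_iff₀ (Real.exp_pos _), mul_assoc, ← e2, div_pow, one_pow, one_div,
    inv_mul_le_iff₀ h3, mul_one]
  exact h1.trans h2

/-- convolution at a prime power -/
private lemma conv_pp (f g : ArithmeticFunction ℝ) {p : ℕ} (hp : p.Prime) (k : ℕ) :
    (f * g) (p ^ k) = ∑ j ∈ Finset.range (k + 1), f (p ^ j) * g (p ^ (k - j)) := by
  rw [ArithmeticFunction.mul_apply,
    Nat.sum_divisorsAntidiagonal (fun a b => f a * g b), Nat.sum_divisors_prime_pow hp]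
  refine Finset.sum_congr rfl fun j hj => ?_
  rw [Finset.mem_range] at hj
  rw [Nat.pow_div (by omega) hp.pos]

private lemma ex_mul_ex (a b : ℝ) : ex a * ex b = ex (a + b) := by
  rw [((ex_mult a).mul (ex_mult b)).eq_iff_eq_on_prime_powers _ _ (ex_mult (a + b))]
  intro p i hp
  rw [conv_pp _ _ hp, ex_prime_pow _ hp, add_pow, Finset.sum_div]
  refine Finset.sum_congr rfl fun j hj => ?_
  rw [Finset.mem_range] at hj
  have hj' : j ≤ i := by omega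
  rw [ex_prime_pow _ hp, ex_prime_pow _ hp]
  have h1 : (i.choose j : ℝ) = (i.factorial : ℝ) / ((j.factorial : ℝ) * ((i - j).factorial : ℝ)) :=
    Nat.cast_choose ℝ hj'
  rw [h1]
  have h2 : (i.factorial : ℝ) ≠ 0 := by positivity
  have h3 : (j.factorial : ℝ) ≠ 0 := by positivity
  have h4 : ((i - j).factorial : ℝ) ≠ 0 := by positivity
  field_simp

private lemma hq_zero_eq (c : ℝ) : hq 0 c = ex c := by
  unfold hq
  rw [pow_zero, one_mul]

private lemma ex_nonneg {c : ℝ} (hc : 0 ≤ c) (n : ℕ) : 0 ≤ ex c n := by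
  have := abs_ex_le c n
  rw [abs_of_nonneg hc] at this
  exact (abs_nonneg _).trans this

private lemma coeffP_le {S : Finset ℕ} (hS : ∀ p ∈ S, p.Prime) (M' M : ℕ) {k z : ℝ} (hk : 0 ≤ k)
    (hz : 0 < z) (n : ℕ) :
    |af (expo k M' S * PP S ^ M) n| ≤ (M.factorial : ℝ) / z ^ M * hq 0 (k + z) n := by
  classical
  have h0 : ∀ m, |af (PP S ^ M) m| ≤ (((M.factorial : ℝ) / z ^ M) • ex z) m := by
    intro m
    change _ ≤ (M.factorial : ℝ) / z ^ M * ex z m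
    have hez : 0 ≤ ex z m := ex_nonneg hz.le m
    rw [af_PP_pow hS]
    split_ifs with h
    · have he1 : 0 ≤ ex 1 m := ex_nonneg zero_le_one m
      rw [abs_of_nonneg (by positivity), ex_scale z h.1.1, h.2]
      have : z ^ M ≠ 0 := by positivity
      field_simp
      exact le_rfl
    · rw [abs_zero]; positivity
  rw [af_mul, hq_zero_eq, ← ex_mul_ex]
  have h1 := abs_mul_le (f := af (expo k M' S)) (F := ex |k|) (G := ((M.factorial : ℝ) / z ^ M) • ex z)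
    (fun m => abs_expo_le hS M' k m) h0 n
  rw [abs_of_nonneg hk] at h1
  refine h1.trans (le_of_eq ?_)
  rw [ArithmeticFunction.mul_apply, ArithmeticFunction.mul_apply, Finset.mul_sum]
  refine Finset.sum_congr rfl fun p _ => ?_
  change ex k p.1 * ((M.factorial : ℝ) / z ^ M * ex z p.2) = _
  ring

private lemma hq_one_pp (c : ℝ) {p : ℕ} (hp : p.Prime) (e : ℕ) :
    hq 1 c (p ^ e) = ∑ j ∈ Finset.range (e + 1), c ^ j / (j.factorial : ℝ) := by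
  unfold hq
  rw [pow_one, conv_pp _ _ hp, ← Finset.sum_range_reflect]
  refine Finset.sum_congr rfl fun j hj => ?_
  rw [Finset.mem_range] at hj
  rw [show e + 1 - 1 - j = e - j by omega, show e - (e - j) = j by omega,
    zr_apply (pow_ne_zero _ hp.ne_zero), one_mul, ex_prime_pow _ hp]

/-- partial sums of the exponential series at arguments at least `-1` are nonnegative -/
private lemma partial_nonneg {c : ℝ} (hc : -1 ≤ c) (e : ℕ) :
    0 ≤ ∑ j ∈ Finset.range (e + 1), c ^ j / (j.factorial : ℝ) := by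
  rcases le_or_gt 0 c with h0 | h0
  · exact Finset.sum_nonneg fun j _ => by positivity
  -- alternating with decreasing terms
  have hd : ∀ m, 0 ≤ ∑ j ∈ Finset.range (2 * m + 1), c ^ j / (j.factorial : ℝ) - c ^ (2 * m) / ((2 * m).factorial : ℝ) ∧
      0 ≤ ∑ j ∈ Finset.range (2 * m + 2), c ^ j / (j.factorial : ℝ) := by
    intro m
    induction m with
    | zero =>
      constructor
      · simp
      · rw [show 2 * 0 + 2 = 2 from rfl, Finset.sum_range_succ, Finset.sum_range_succ,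
          Finset.sum_range_zero]
        simp
        linarith
    | succ m ih =>
      obtain ⟨i1, i2⟩ := ih
      have e1 : ∑ j ∈ Finset.range (2 * (m + 1) + 1), c ^ j / (j.factorial : ℝ)
          = ∑ j ∈ Finset.range (2 * m + 2), c ^ j / (j.factorial : ℝ)
            + c ^ (2 * (m + 1)) / ((2 * (m + 1)).factorial : ℝ) := by
        rw [show 2 * (m + 1) + 1 = 2 * m + 2 + 1 by ring, Finset.sum_range_succ]
        rw [show 2 * m + 2 = 2 * (m + 1) by ring]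
      have e2 : ∑ j ∈ Finset.range (2 * (m + 1) + 2), c ^ j / (j.factorial : ℝ)
          = ∑ j ∈ Finset.range (2 * (m + 1) + 1), c ^ j / (j.factorial : ℝ)
            + c ^ (2 * (m + 1) + 1) / ((2 * (m + 1) + 1).factorial : ℝ) := by
        rw [Finset.sum_range_succ]
      refine ⟨by rw [e1]; linarith, ?_⟩
      rw [e2, e1]
      have h1 : 0 ≤ c ^ (2 * (m + 1)) := by
        rw [pow_mul]; positivity
      have h2 : (2 * (m + 1) + 1).factorial = (2 * (m + 1) + 1) * (2 * (m + 1)).factorial :=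
        Nat.factorial_succ _
      have h3 : (0 : ℝ) < ((2 * (m + 1)).factorial : ℝ) := by positivity
      have h4 : c ^ (2 * (m + 1)) / ((2 * (m + 1)).factorial : ℝ)
          + c ^ (2 * (m + 1) + 1) / ((2 * (m + 1) + 1).factorial : ℝ)
          = c ^ (2 * (m + 1)) / ((2 * (m + 1)).factorial : ℝ)
            * (1 + c / (2 * ((m : ℝ) + 1) + 1)) := by
        rw [h2]
        push_cast
        have h5 : (2 * ((m : ℝ) + 1) + 1) ≠ 0 := by positivity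
        field_simp
        ring
      have h5 : 0 ≤ 1 + c / (2 * ((m : ℝ) + 1) + 1) := by
        have h6 : (0 : ℝ) < 2 * ((m : ℝ) + 1) + 1 := by positivity
        have h7 : (0 : ℝ) ≤ m := Nat.cast_nonneg m
        rw [← sub_neg_eq_add, sub_nonneg, ← neg_div, div_le_one h6]
        linarith
      have h6 : 0 ≤ c ^ (2 * (m + 1)) / ((2 * (m + 1)).factorial : ℝ)
            * (1 + c / (2 * ((m : ℝ) + 1) + 1)) := by positivity
      linarith
  rcases Nat.even_or_odd' e with ⟨m, h | h⟩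
  · rw [h]
    have := (hd m).1
    have h1 : 0 ≤ c ^ (2 * m) / ((2 * m).factorial : ℝ) := by
      have : 0 ≤ c ^ (2 * m) := by rw [pow_mul]; positivity
      positivity
    linarith
  · rw [h]
    exact (hd m).2

private lemma hq_one_nonneg {c : ℝ} (hc : -1 ≤ c) {S : Finset ℕ} (hS : ∀ p ∈ S, p.Prime) {n : ℕ}
    (hn : n ∈ Smo (S : Set ℕ)) : 0 ≤ hq 1 c n := by
  rw [mult_smo (hq_mult 1 c) hn]
  refine Finset.prod_nonneg fun p hp => ?_
  rw [hq_one_pp c (hS p hp)]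
  exact partial_nonneg hc _

private lemma hq_one_prime (c : ℝ) {p : ℕ} (hp : p.Prime) : hq 1 c p = 1 + c := by
  have := hq_one_pp c hp 1
  rw [pow_one] at this
  rw [this, Finset.sum_range_succ, Finset.sum_range_succ, Finset.sum_range_zero]
  simp


private lemma BK_af {f g : DP} (hf : ∀ n, f.coeff n ≠ 0 → 1 ≤ n) {F : Finset ℕ}
    (hF : f.coeff.support ⊆ F) :
    BK K1 f g = ∑ n ∈ F, af f n * af g n * (n : ℝ)⁻¹ := by
  rw [MP_f9aece_nt.BK_K1_eq, MP_f9aece_nt.pair_def, ← Finset.sum_subset hF]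
  · refine Finset.sum_congr rfl fun n hn => ?_
    have h1 := hf n (Finsupp.mem_support_iff.mp hn)
    rw [af_apply _ (by omega), af_apply _ (by omega)]
    ring
  · intro n _ hn
    rw [Finsupp.notMem_support_iff] at hn
    rcases eq_or_ne n 0 with h | h
    · subst h; simp
    · rw [af_apply _ h, hn, zero_mul, zero_mul]

/-- the tail -/
private lemma tail {q0 q : ℕ} {C0 : ℝ} (hC0 : 0 ≤ C0) (hE : ∀ S : Finset ℕ, (∀ p ∈ S, p.Prime) →
    ∀ y : ℕ → ℝ, (∀ p ∈ S, 0 ≤ y p ∧ y p ≤ 1 / 2) → ∀ c : ℝ, |c| ≤ q →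
    ∀ F : Finset ℕ, (∀ n ∈ F, n ∈ Smo (S : Set ℕ)) →
    ∑ n ∈ F, hq q0 c n ^ 2 * ∏ p ∈ S, y p ^ n.factorization p
      ≤ Real.exp (∑ p ∈ S, ((q0 + c) ^ 2 * y p + C0 * y p ^ 2)))
    {S : Finset ℕ} {r : ℕ} {c : ℝ} (hS : ∀ p ∈ S, p.Prime ∧ 1000 ≤ p) (hr : 1 ≤ r)
    (hV : q ^ 2 * VV S ≤ 2 * r) (hc : |c| ≤ q) (hqc : q0 + |c| ≤ 2 * q) (F : Finset ℕ)
    (hF : ∀ n ∈ F, n ∈ Smo (S : Set ℕ)) (hO : ∀ n ∈ F, 50000 * r < Ω n) :
    ∑ n ∈ F, hq q0 |c| n ^ 2 * (n : ℝ)⁻¹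
      ≤ Real.exp (-(r : ℝ)) / 100 * Real.exp (4 * C0 * V2 S) := by
  have hSp : ∀ p ∈ S, p.Prime := fun p hp => (hS p hp).1
  have hinv : ∀ p ∈ S, 0 ≤ (p : ℝ)⁻¹ ∧ (p : ℝ)⁻¹ ≤ 1 / 1000 := by
    intro p hp
    have h1 : (1000 : ℝ) ≤ p := by exact_mod_cast (hS p hp).2
    exact ⟨by positivity, by rw [one_div]; exact inv_anti₀ (by norm_num) h1⟩
  obtain ⟨m0, hm0⟩ : ∃ m0, m0 = 50000 * r := ⟨_, rfl⟩
  have h1 : ∀ n ∈ F, hq q0 |c| n ^ 2 * (n : ℝ)⁻¹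
      ≤ (1 / 2) ^ m0 * (hq q0 |c| n ^ 2 * ∏ p ∈ S, (2 * (p : ℝ)⁻¹) ^ n.factorization p) := by
    intro n hn
    have hsm := hF n hn
    rw [prod_two hsm, ← MP_f9aece_nt_h97.inv_smo hsm]
    have hO' := hO n hn
    rw [← hm0] at hO'
    have h3 : (1 : ℝ) ≤ (1 / 2) ^ m0 * 2 ^ Ω n := by
      rw [div_pow, one_pow, one_div, inv_mul_eq_div, le_div_iff₀ (by positivity), one_mul]
      exact pow_le_pow_right₀ (by norm_num) hO'.le
    have h4 : 0 ≤ hq q0 |c| n ^ 2 * (n : ℝ)⁻¹ := by positivity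
    calc hq q0 |c| n ^ 2 * (n : ℝ)⁻¹ = 1 * (hq q0 |c| n ^ 2 * (n : ℝ)⁻¹) := (one_mul _).symm
      _ ≤ ((1 / 2) ^ m0 * 2 ^ Ω n) * (hq q0 |c| n ^ 2 * (n : ℝ)⁻¹) := by gcongr
      _ = _ := by ring
  refine (Finset.sum_le_sum h1).trans ?_
  rw [← Finset.mul_sum]
  have h2 := hE S hSp (fun p => 2 * (p : ℝ)⁻¹) (fun p hp => by
    have := hinv p hp
    exact ⟨by linarith, by linarith⟩) |c| (by rw [abs_abs]; exact hc) F hF
  have h3 : ∑ p ∈ S, (((q0 : ℝ) + |c|) ^ 2 * (2 * (p : ℝ)⁻¹) + C0 * (2 * (p : ℝ)⁻¹) ^ 2)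
      ≤ 16 * r + 4 * C0 * V2 S := by
    have h4 : ∑ p ∈ S, (((q0 : ℝ) + |c|) ^ 2 * (2 * (p : ℝ)⁻¹) + C0 * (2 * (p : ℝ)⁻¹) ^ 2)
        = 2 * ((q0 : ℝ) + |c|) ^ 2 * VV S + 4 * C0 * V2 S := by
      unfold VV V2
      rw [Finset.mul_sum, Finset.mul_sum, ← Finset.sum_add_distrib]
      exact Finset.sum_congr rfl fun p _ => by ring
    rw [h4]
    have h5 : ((q0 : ℝ) + |c|) ^ 2 ≤ (2 * q) ^ 2 :=
      pow_le_pow_left₀ (by positivity) hqc 2
    have h6 := MP_f9aece_nt.VV_nonneg S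
    have h7 : ((q0 : ℝ) + |c|) ^ 2 * VV S ≤ (2 * q) ^ 2 * VV S := by gcongr
    nlinarith
  have h4 : ∑ n ∈ F, hq q0 |c| n ^ 2 * ∏ p ∈ S, (2 * (p : ℝ)⁻¹) ^ n.factorization p
      ≤ Real.exp (16 * r) * Real.exp (4 * C0 * V2 S) := by
    rw [← Real.exp_add]
    exact h2.trans (Real.exp_le_exp.mpr h3)
  have h5 := num hr
  rw [← hm0] at h5
  calc (1 / 2) ^ m0 * ∑ n ∈ F, hq q0 |c| n ^ 2 * ∏ p ∈ S, (2 * (p : ℝ)⁻¹) ^ n.factorization p
      ≤ (1 / 2) ^ m0 * (Real.exp (16 * r) * Real.exp (4 * C0 * V2 S)) := by gcongr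
    _ = ((1 / 2) ^ m0 * Real.exp (16 * r)) * Real.exp (4 * C0 * V2 S) := by ring
    _ ≤ _ := by gcongr

private lemma sup_F {S : Finset ℕ} (hSp : ∀ p ∈ S, p.Prime) (κ M : ℕ) (c : ℝ) :
    MP_f9aece_nt_h97.Sup (Smo (S : Set ℕ)) (ind κ S * expo c M S) := by
  have h1 : MP_f9aece_nt_h97.Sup (Smo (S : Set ℕ)) (ind κ S) :=
    (MP_f9aece_nt_h97.sup_of_cone (MP_f9aece_nt_h40.cone_ind hSp κ)).mono fun _ h => h.1
  have h2 : MP_f9aece_nt_h97.Sup (Smo (S : Set ℕ)) (expo c M S) :=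
    MP_f9aece_nt_h97.sup_expo hSp c M
  exact h1.mul h2 fun a ha b hb => MP_f9aece_nt.mul_mem_Smo ha hb

private lemma sup_P {S : Finset ℕ} (hSp : ∀ p ∈ S, p.Prime) (M' M : ℕ) (c : ℝ) :
    MP_f9aece_nt_h97.Sup (Smo (S : Set ℕ)) (expo c M' S * PP S ^ M) := by
  have h1 : MP_f9aece_nt_h97.Sup (Smo (S : Set ℕ)) (PP S ^ M) :=
    (MP_f9aece_nt_h97.sup_of_cone (MP_f9aece_nt.cone_PP_pow hSp M)).mono fun _ h => h.1
  have h2 : MP_f9aece_nt_h97.Sup (Smo (S : Set ℕ)) (expo c M' S) :=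
    MP_f9aece_nt_h97.sup_expo hSp c M'
  exact h2.mul h1 fun a ha b hb => MP_f9aece_nt.mul_mem_Smo ha hb

private lemma exp_le_one_add {x : ℝ} (hx : 0 ≤ x) : Real.exp (x - x ^ 2) ≤ 1 + x := by
  -- exp (x - x^2) ≤ 1 + x
  have h1 : 0 < 1 + x := by linarith
  rw [← Real.le_log_iff_exp_le h1]
  have h2 := Real.one_sub_inv_le_log_of_pos h1
  refine le_trans ?_ h2
  have h3 : 1 - (1 + x)⁻¹ = x / (1 + x) := by field_simp; ring
  rw [h3, le_div_iff₀ h1]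
  nlinarith [mul_nonneg hx (mul_nonneg hx hx)]

/-- part (a) -/
private lemma partA {q : ℕ} (hq1 : 1 ≤ q) {C0 C1 : ℝ} (hC0 : 0 ≤ C0) (hC1 : 0 ≤ C1)
    (hE0 : ∀ S : Finset ℕ, (∀ p ∈ S, p.Prime) →
    ∀ y : ℕ → ℝ, (∀ p ∈ S, 0 ≤ y p ∧ y p ≤ 1 / 2) → ∀ c : ℝ, |c| ≤ q →
    ∀ F : Finset ℕ, (∀ n ∈ F, n ∈ Smo (S : Set ℕ)) →
    ∑ n ∈ F, hq 0 c n ^ 2 * ∏ p ∈ S, y p ^ n.factorization p
      ≤ Real.exp (∑ p ∈ S, (((0 : ℕ) + c) ^ 2 * y p + C0 * y p ^ 2)))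
    (hE1 : ∀ S : Finset ℕ, (∀ p ∈ S, p.Prime) →
    ∀ y : ℕ → ℝ, (∀ p ∈ S, 0 ≤ y p ∧ y p ≤ 1 / 2) → ∀ c : ℝ, |c| ≤ q →
    ∀ F : Finset ℕ, (∀ n ∈ F, n ∈ Smo (S : Set ℕ)) →
    ∑ n ∈ F, hq 1 c n ^ 2 * ∏ p ∈ S, y p ^ n.factorization p
      ≤ Real.exp (∑ p ∈ S, (((1 : ℕ) + c) ^ 2 * y p + C1 * y p ^ 2)))
    {S : Finset ℕ} {r κ M : ℕ} {k : ℝ} (hS : ∀ p ∈ S, p.Prime ∧ 1000 ≤ p) (hr : 1 ≤ r)
    (hV : q ^ 2 * VV S ≤ 2 * r) (hk0 : 0 ≤ k) (hk : k ≤ q) (hκ : 50000 * r ≤ κ)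
    (hM : 50000 * r ≤ M) (hCV : (4 * C0 + 4 * C1 + q ^ 4) * V2 S ≤ 1) :
    Real.exp (k ^ 2 * VV S - (4 * C0 + 4 * C1 + q ^ 4) * V2 S - Real.exp (-r))
      ≤ BK K1 (ind κ S * expo (k - 1) M S) (expo k M S) := by
  classical
  have hSp : ∀ p ∈ S, p.Prime := fun p hp => (hS p hp).1
  have hq0 : (1 : ℝ) ≤ q := by exact_mod_cast hq1
  have hV2 : 0 ≤ V2 S := by unfold V2; exact Finset.sum_nonneg fun _ _ => by positivity
  have hVV := MP_f9aece_nt.VV_nonneg S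
  have hk1 : |k - 1| ≤ q := by
    rw [abs_le]; constructor <;> linarith
  have hk2 : (1 : ℕ) + |k - 1| ≤ 2 * (q : ℝ) := by
    push_cast
    linarith
  obtain ⟨m0, hm0⟩ : ∃ m0, m0 = 50000 * r := ⟨_, rfl⟩
  obtain ⟨P, hP⟩ : ∃ P : DP, P = ind κ S * expo (k - 1) M S := ⟨_, rfl⟩
  have hsup : MP_f9aece_nt_h97.Sup (Smo (S : Set ℕ)) P := by rw [hP]; exact sup_F hSp κ M _
  have hF : ∀ n ∈ P.coeff.support, n ∈ Smo (S : Set ℕ) := fun n hn =>
    hsup n (Finsupp.mem_support_iff.mp hn)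
  obtain ⟨T, hT⟩ : ∃ T : Finset ℕ, T = S.powerset.image (fun U => ∏ p ∈ U, p) := ⟨_, rfl⟩
  have hTm : ∀ n ∈ T, ∃ U ⊆ S, n = ∏ p ∈ U, p := by
    intro n hn
    rw [hT, Finset.mem_image] at hn
    obtain ⟨U, hU, rfl⟩ := hn
    exact ⟨U, Finset.mem_powerset.mp hU, rfl⟩
  have hTS : ∀ n ∈ T, n ∈ Smo (S : Set ℕ) := by
    intro n hn
    obtain ⟨U, hU, rfl⟩ := hTm n hn
    refine ⟨Finset.prod_ne_zero_iff.mpr fun p hp => (hSp p (hU hp)).ne_zero, fun l hl hd => ?_⟩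
    rw [Prime.dvd_finsetProd_iff hl.prime] at hd
    obtain ⟨p, hp, hd⟩ := hd
    rw [(Nat.prime_dvd_prime_iff_eq hl (hSp p (hU hp))).mp hd]
    exact hU hp
  have hTe : ∀ n ∈ T, hq 1 (k - 1) n = ex k n := by
    intro n hn
    obtain ⟨U, hU, rfl⟩ := hTm n hn
    rw [(hq_mult 1 (k - 1)).map_prod_of_prime U fun p hp => hSp p (hU hp),
      (ex_mult k).map_prod_of_prime U fun p hp => hSp p (hU hp)]
    refine Finset.prod_congr rfl fun p hp => ?_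
    rw [hq_one_prime _ (hSp p (hU hp))]
    have := ex_prime_pow k (hSp p (hU hp)) 1
    rw [pow_one] at this
    rw [this]; simp
  have hTsum : ∑ n ∈ T, ex k n ^ 2 * (n : ℝ)⁻¹ = ∏ p ∈ S, (1 + k ^ 2 * (p : ℝ)⁻¹) := by
    rw [Finset.prod_one_add, hT, Finset.sum_image]
    · refine Finset.sum_congr rfl fun U hU => ?_
      rw [Finset.mem_powerset] at hU
      rw [(ex_mult k).map_prod_of_prime U fun p hp => hSp p (hU hp), Nat.cast_prod,
        ← Finset.prod_inv_distrib, ← Finset.prod_pow, ← Finset.prod_mul_distrib]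
      refine Finset.prod_congr rfl fun p hp => ?_
      have := ex_prime_pow k (hSp p (hU hp)) 1
      rw [pow_one] at this
      rw [this]; simp
    · intro U hU U' hU' he
      have hU1 : U ⊆ S := Finset.mem_powerset.mp (Finset.mem_coe.mp hU)
      have hU1' : U' ⊆ S := Finset.mem_powerset.mp (Finset.mem_coe.mp hU')
      have h1 := Nat.primeFactors_prod (s := U) fun p hp => hSp p (hU1 hp)
      have h2 := Nat.primeFactors_prod (s := U') fun p hp => hSp p (hU1' hp)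
      change ∏ p ∈ U, p = ∏ p ∈ U', p at he
      rw [← h1, ← h2, he]
  obtain ⟨F, hFdef⟩ : ∃ F, F = P.coeff.support ∪ T := ⟨_, rfl⟩
  have hFS : ∀ n ∈ F, n ∈ Smo (S : Set ℕ) := by
    intro n hn
    rw [hFdef, Finset.mem_union] at hn
    rcases hn with hn | hn
    · exact hF n hn
    · exact hTS n hn
  have hBK : BK K1 P (expo k M S) = ∑ n ∈ F, af P n * af (expo k M S) n * (n : ℝ)⁻¹ :=
    BK_af (fun n hn => MP_f9aece_nt.Smo_pos (hsup n hn)) (by rw [hFdef]; exact Finset.subset_union_left)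
  have hterm : ∀ n ∈ F, (if n ∈ T then ex k n ^ 2 * (n : ℝ)⁻¹ else 0)
      - (if m0 < Ω n then 2 * (hq 1 |k - 1| n ^ 2 * (n : ℝ)⁻¹ + hq 0 |k| n ^ 2 * (n : ℝ)⁻¹) else 0)
      ≤ af P n * af (expo k M S) n * (n : ℝ)⁻¹ := by
    intro n hn
    have hsm := hFS n hn
    have hni : 0 ≤ (n : ℝ)⁻¹ := by positivity
    have hek : 0 ≤ ex k n := ex_nonneg hk0 n
    by_cases hO : m0 < Ω n
    · rw [if_pos hO]
      have h1 := coeff_le hSp κ M (k - 1) n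
      rw [← hP] at h1
      have h2 := abs_expo_le hSp M k n
      rw [hq_zero_eq, abs_of_nonneg hk0] at *
      have h3 : -(hq 1 |k - 1| n * ex k n) ≤ af P n * af (expo k M S) n := by
        have h4 : |af P n * af (expo k M S) n| ≤ hq 1 |k - 1| n * ex k n := by
          rw [abs_mul]
          exact mul_le_mul h1 h2 (abs_nonneg _) ((abs_nonneg _).trans h1)
        exact (abs_le.mp h4).1
      have h5 : hq 1 |k - 1| n * ex k n ≤ hq 1 |k - 1| n ^ 2 + ex k n ^ 2 := by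
        nlinarith [sq_nonneg (hq 1 |k - 1| n - ex k n), sq_nonneg (hq 1 |k - 1| n), sq_nonneg (ex k n)]
      have h6 : (if n ∈ T then ex k n ^ 2 * (n : ℝ)⁻¹ else 0) ≤ ex k n ^ 2 * (n : ℝ)⁻¹ := by
        split_ifs
        · exact le_rfl
        · positivity
      have h7 : -((hq 1 |k - 1| n ^ 2 + ex k n ^ 2) * (n : ℝ)⁻¹) ≤ af P n * af (expo k M S) n * (n : ℝ)⁻¹ := by
        rw [← neg_mul]
        exact mul_le_mul_of_nonneg_right (by linarith) hni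
      have h8 : 0 ≤ hq 1 |k - 1| n ^ 2 * (n : ℝ)⁻¹ := by positivity
      nlinarith
    · rw [if_neg hO, sub_zero]
      push Not at hO
      have h1 : af P n = hq 1 (k - 1) n := by
        rw [hP]; exact coeff_eq hSp (k - 1) (by omega) (by omega) hsm hO
      have h2 : af (expo k M S) n = ex k n := by
        rw [af_expo hSp, if_pos ⟨hsm, by omega⟩]
      rw [h1, h2]
      split_ifs with hnT
      · rw [hTe n hnT]
        apply le_of_eq; ring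
      · have := hq_one_nonneg (c := k - 1) (by linarith) hSp hsm
        positivity
  have hsum := Finset.sum_le_sum hterm
  rw [Finset.sum_sub_distrib] at hsum
  have hs1 : ∑ n ∈ F, (if n ∈ T then ex k n ^ 2 * (n : ℝ)⁻¹ else 0)
      = ∏ p ∈ S, (1 + k ^ 2 * (p : ℝ)⁻¹) := by
    rw [← Finset.sum_filter, ← hTsum]
    refine Finset.sum_congr ?_ fun _ _ => rfl
    ext n
    rw [Finset.mem_filter, hFdef, Finset.mem_union]
    tauto
  have hs2 : ∑ n ∈ F, (if m0 < Ω n then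
      2 * (hq 1 |k - 1| n ^ 2 * (n : ℝ)⁻¹ + hq 0 |k| n ^ 2 * (n : ℝ)⁻¹) else 0)
      ≤ 2 * (Real.exp (-(r : ℝ)) / 100 * Real.exp (4 * C1 * V2 S)
        + Real.exp (-(r : ℝ)) / 100 * Real.exp (4 * C0 * V2 S)) := by
    rw [← Finset.sum_filter, ← Finset.mul_sum, Finset.sum_add_distrib]
    have t1 := tail (q0 := 1) hC1 hE1 hS hr hV hk1 (by exact_mod_cast hk2)
      (F.filter fun n => m0 < Ω n) (fun n hn => hFS n (Finset.mem_filter.mp hn).1)
      (fun n hn => by rw [← hm0]; exact (Finset.mem_filter.mp hn).2)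
    have hk3 : |k| ≤ q := by rw [abs_of_nonneg hk0]; exact hk
    have t0 := tail (q0 := 0) hC0 hE0 hS hr hV hk3 (by push_cast; linarith)
      (F.filter fun n => m0 < Ω n) (fun n hn => hFS n (Finset.mem_filter.mp hn).1)
      (fun n hn => by rw [← hm0]; exact (Finset.mem_filter.mp hn).2)
    linarith
  rw [hs1] at hsum
  rw [← hP, hBK]
  refine le_trans ?_ hsum
  -- now the numerical estimate
  have hq4 : (0 : ℝ) ≤ q ^ 4 := by positivity
  have ha0 : 4 * C0 * V2 S ≤ 1 := by nlinarith [mul_nonneg hC1 hV2, mul_nonneg hq4 hV2]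
  have ha1 : 4 * C1 * V2 S ≤ 1 := by nlinarith [mul_nonneg hC0 hV2, mul_nonneg hq4 hV2]
  have haq : (q : ℝ) ^ 4 * V2 S ≤ 1 := by nlinarith [mul_nonneg hC0 hV2, mul_nonneg hC1 hV2]
  have he := Real.exp_one_lt_d9
  have hb0 : Real.exp (4 * C0 * V2 S) ≤ 3 :=
    (Real.exp_le_exp.mpr ha0).trans (by linarith)
  have hb1 : Real.exp (4 * C1 * V2 S) ≤ 3 :=
    (Real.exp_le_exp.mpr ha1).trans (by linarith)
  obtain ⟨x, hx⟩ : ∃ x, x = Real.exp (-(r : ℝ)) := ⟨_, rfl⟩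
  have hx0 : 0 < x := by rw [hx]; exact Real.exp_pos _
  have hr0 : (1 : ℝ) ≤ r := by exact_mod_cast hr
  have hx1 : x ≤ 1 / 2 := by
    rw [hx]
    have h1 : Real.exp (-(r : ℝ)) ≤ Real.exp (-1) := Real.exp_le_exp.mpr (by linarith)
    have h2 := Real.exp_neg_one_lt_d9
    linarith
  rw [← hx] at hs2 ⊢
  have hs3 : ∑ n ∈ F, (if m0 < Ω n then
      2 * (hq 1 |k - 1| n ^ 2 * (n : ℝ)⁻¹ + hq 0 |k| n ^ 2 * (n : ℝ)⁻¹) else 0)
      ≤ 12 / 100 * x := by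
    refine hs2.trans ?_
    nlinarith
  have hprod : Real.exp (k ^ 2 * VV S - q ^ 4 * V2 S) ≤ ∏ p ∈ S, (1 + k ^ 2 * (p : ℝ)⁻¹) := by
    have h1 : k ^ 2 * VV S - q ^ 4 * V2 S
        ≤ ∑ p ∈ S, (k ^ 2 * (p : ℝ)⁻¹ - (k ^ 2 * (p : ℝ)⁻¹) ^ 2) := by
      unfold VV V2
      rw [Finset.mul_sum, Finset.mul_sum, ← Finset.sum_sub_distrib]
      refine Finset.sum_le_sum fun p _ => ?_
      have h2 : k ^ 4 ≤ (q : ℝ) ^ 4 := pow_le_pow_left₀ hk0 hk 4
      have h3 : k ^ 4 * ((p : ℝ)⁻¹) ^ 2 ≤ q ^ 4 * ((p : ℝ)⁻¹) ^ 2 := by gcongr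
      nlinarith
    refine (Real.exp_le_exp.mpr h1).trans ?_
    rw [Real.exp_sum]
    exact Finset.prod_le_prod (fun _ _ => (Real.exp_pos _).le) fun p _ => exp_le_one_add (by positivity)
  refine le_trans ?_ (sub_le_sub hprod hs3)
  -- exp(A) - 0.12 x ≥ exp(A - x) when A ≥ -1
  have hA : -1 ≤ k ^ 2 * VV S - q ^ 4 * V2 S := by
    have : 0 ≤ k ^ 2 * VV S := by positivity
    linarith
  have h1 : Real.exp (k ^ 2 * VV S - (4 * C0 + 4 * C1 + q ^ 4) * V2 S - x)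
      ≤ Real.exp (k ^ 2 * VV S - q ^ 4 * V2 S) * Real.exp (-x) := by
    rw [← Real.exp_add]
    apply Real.exp_le_exp.mpr
    nlinarith [mul_nonneg hC0 hV2, mul_nonneg hC1 hV2]
  refine h1.trans ?_
  have h2 : Real.exp (-x) ≤ 1 - x / 2 := by
    have h3 : Real.exp (-x) ≤ 1 / (1 + x) := by
      rw [Real.exp_neg, one_div]
      apply inv_anti₀ (by linarith)
      have := Real.add_one_le_exp x
      linarith
    refine h3.trans ?_
    rw [div_le_iff₀ (by linarith)]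
    nlinarith
  have h3 : 1 / 3 ≤ Real.exp (k ^ 2 * VV S - q ^ 4 * V2 S) := by
    have h4 := Real.exp_le_exp.mpr hA
    have h5 : 1 / 3 ≤ Real.exp (-1) := by
      have := Real.exp_neg_one_gt_d9
      linarith
    linarith
  obtain ⟨E, hEE⟩ : ∃ E, E = Real.exp (k ^ 2 * VV S - q ^ 4 * V2 S) := ⟨_, rfl⟩
  rw [← hEE] at h3 ⊢
  have h4 : E * Real.exp (-x) ≤ E * (1 - x / 2) := mul_le_mul_of_nonneg_left h2 (by linarith)
  nlinarith

/-- part (b) -/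
private lemma partB {q : ℕ} (hq1 : 1 ≤ q) {C1 : ℝ} (hC1 : 0 ≤ C1)
    (hE1 : ∀ S : Finset ℕ, (∀ p ∈ S, p.Prime) →
    ∀ y : ℕ → ℝ, (∀ p ∈ S, 0 ≤ y p ∧ y p ≤ 1 / 2) → ∀ c : ℝ, |c| ≤ q →
    ∀ F : Finset ℕ, (∀ n ∈ F, n ∈ Smo (S : Set ℕ)) →
    ∑ n ∈ F, hq 1 c n ^ 2 * ∏ p ∈ S, y p ^ n.factorization p
      ≤ Real.exp (∑ p ∈ S, (((1 : ℕ) + c) ^ 2 * y p + C1 * y p ^ 2)))
    {S : Finset ℕ} {r κ M : ℕ} {k : ℝ} (hS : ∀ p ∈ S, p.Prime ∧ 1000 ≤ p) (hr : 1 ≤ r)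
    (hV : q ^ 2 * VV S ≤ 2 * r) (hk0 : 0 ≤ k) (hk : k ≤ q) (hκ : 50000 * r ≤ κ)
    (hM : 50000 * r ≤ M) :
    En (ind κ S * expo (k - 1) M S)
      ≤ Real.exp (k ^ 2 * VV S + 4 * C1 * V2 S + Real.exp (-r)) := by
  classical
  have hSp : ∀ p ∈ S, p.Prime := fun p hp => (hS p hp).1
  have hq0 : (1 : ℝ) ≤ q := by exact_mod_cast hq1
  have hV2 : 0 ≤ V2 S := by unfold V2; exact Finset.sum_nonneg fun _ _ => by positivity
  have hVV := MP_f9aece_nt.VV_nonneg S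
  have hk1 : |k - 1| ≤ q := by
    rw [abs_le]; constructor <;> linarith
  have hk2 : (1 : ℕ) + |k - 1| ≤ 2 * (q : ℝ) := by
    push_cast
    linarith
  have hinv : ∀ p ∈ S, 0 ≤ (p : ℝ)⁻¹ ∧ (p : ℝ)⁻¹ ≤ 1 / 1000 := by
    intro p hp
    have h1 : (1000 : ℝ) ≤ p := by exact_mod_cast (hS p hp).2
    exact ⟨by positivity, by rw [one_div]; exact inv_anti₀ (by norm_num) h1⟩
  obtain ⟨m0, hm0⟩ : ∃ m0, m0 = 50000 * r := ⟨_, rfl⟩
  obtain ⟨P, hP⟩ : ∃ P : DP, P = ind κ S * expo (k - 1) M S := ⟨_, rfl⟩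
  have hsup : MP_f9aece_nt_h97.Sup (Smo (S : Set ℕ)) P := by rw [hP]; exact sup_F hSp κ M _
  have hF : ∀ n ∈ P.coeff.support, n ∈ Smo (S : Set ℕ) := fun n hn =>
    hsup n (Finsupp.mem_support_iff.mp hn)
  rw [← hP, En_af fun n hn => MP_f9aece_nt.Smo_pos (hsup n hn),
    ← Finset.sum_filter_add_sum_filter_not P.coeff.support (fun n => Ω n ≤ m0)]
  have hA : ∑ n ∈ P.coeff.support.filter (fun n => Ω n ≤ m0), af P n ^ 2 * (n : ℝ)⁻¹
      ≤ Real.exp (k ^ 2 * VV S + 4 * C1 * V2 S) := by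
    have h1 : ∀ n ∈ P.coeff.support.filter (fun n => Ω n ≤ m0), af P n ^ 2 * (n : ℝ)⁻¹
        = hq 1 (k - 1) n ^ 2 * ∏ p ∈ S, ((p : ℝ)⁻¹) ^ n.factorization p := by
      intro n hn
      rw [Finset.mem_filter] at hn
      rw [← MP_f9aece_nt_h97.inv_smo (hF n hn.1), hP,
        coeff_eq hSp (k - 1) (by omega) (by omega) (hF n hn.1) (hn.2)]
    rw [Finset.sum_congr rfl h1]
    refine (hE1 S hSp (fun p => (p : ℝ)⁻¹) (fun p hp => ⟨(hinv p hp).1, by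
      linarith [(hinv p hp).2]⟩) (k - 1) hk1 _ fun n hn => hF n (Finset.mem_filter.mp hn).1).trans ?_
    apply Real.exp_le_exp.mpr
    unfold VV V2
    rw [Finset.mul_sum, Finset.mul_sum, ← Finset.sum_add_distrib]
    refine Finset.sum_le_sum fun p hp => ?_
    have h2 : 0 ≤ C1 * ((p : ℝ)⁻¹) ^ 2 := by positivity
    have h3 : ((1 : ℕ) : ℝ) + (k - 1) = k := by push_cast; ring
    rw [h3]
    linarith
  have hB : ∑ n ∈ P.coeff.support.filter (fun n => ¬ Ω n ≤ m0), af P n ^ 2 * (n : ℝ)⁻¹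
      ≤ Real.exp (-(r : ℝ)) * Real.exp (4 * C1 * V2 S) := by
    have h1 : ∀ n ∈ P.coeff.support.filter (fun n => ¬ Ω n ≤ m0), af P n ^ 2 * (n : ℝ)⁻¹
        ≤ hq 1 |k - 1| n ^ 2 * (n : ℝ)⁻¹ := by
      intro n hn
      have h2 : af P n ^ 2 ≤ hq 1 |k - 1| n ^ 2 := by
        rw [← sq_abs (af P n), hP]
        exact pow_le_pow_left₀ (abs_nonneg _) (coeff_le hSp κ M (k - 1) n) 2
      gcongr
    refine (Finset.sum_le_sum h1).trans ?_
    have t1 := tail (q0 := 1) hC1 hE1 hS hr hV hk1 (by exact_mod_cast hk2)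
      (P.coeff.support.filter fun n => ¬ Ω n ≤ m0) (fun n hn => hF n (Finset.mem_filter.mp hn).1)
      (fun n hn => by rw [← hm0]; exact not_le.mp (Finset.mem_filter.mp hn).2)
    refine t1.trans ?_
    have h3 := Real.exp_pos (-(r : ℝ))
    have h4 := Real.exp_pos (4 * C1 * V2 S)
    gcongr
    linarith
  refine (add_le_add hA hB).trans ?_
  have h6 : Real.exp (4 * C1 * V2 S) ≤ Real.exp (k ^ 2 * VV S + 4 * C1 * V2 S) := by
    apply Real.exp_le_exp.mpr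
    have : 0 ≤ k ^ 2 * VV S := by positivity
    linarith
  have h7 := Real.add_one_le_exp (Real.exp (-(r : ℝ)))
  have h8 := Real.exp_pos (-(r : ℝ))
  have h9 := Real.exp_pos (k ^ 2 * VV S + 4 * C1 * V2 S)
  rw [Real.exp_add _ (Real.exp (-(r : ℝ)))]
  calc Real.exp (k ^ 2 * VV S + 4 * C1 * V2 S)
        + Real.exp (-(r : ℝ)) * Real.exp (4 * C1 * V2 S)
      ≤ Real.exp (k ^ 2 * VV S + 4 * C1 * V2 S)
        + Real.exp (-(r : ℝ)) * Real.exp (k ^ 2 * VV S + 4 * C1 * V2 S) := by gcongr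
    _ = Real.exp (k ^ 2 * VV S + 4 * C1 * V2 S) * (Real.exp (-(r : ℝ)) + 1) := by ring
    _ ≤ _ := by gcongr

/-- part (c) -/
private lemma partC {q : ℕ} (hq1 : 1 ≤ q) {C0 : ℝ}
    (hE : ∀ S : Finset ℕ, (∀ p ∈ S, p.Prime) →
    ∀ y : ℕ → ℝ, (∀ p ∈ S, 0 ≤ y p ∧ y p ≤ 1 / 2) → ∀ c : ℝ, |c| ≤ 201 * q →
    ∀ F : Finset ℕ, (∀ n ∈ F, n ∈ Smo (S : Set ℕ)) →
    ∑ n ∈ F, hq 0 c n ^ 2 * ∏ p ∈ S, y p ^ n.factorization p
      ≤ Real.exp (∑ p ∈ S, (((0 : ℕ) + c) ^ 2 * y p + C0 * y p ^ 2)))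
    {S : Finset ℕ} {r M' : ℕ} {k : ℝ} (hS : ∀ p ∈ S, p.Prime ∧ 1000 ≤ p) (hr : 1 ≤ r)
    (hV : q ^ 2 * VV S ≤ 2 * r) (hk0 : 0 ≤ k) (hk : k ≤ q) :
    ((1000 * (r : ℝ)) ^ (2 * (100000 * q * r)))⁻¹ * En (expo k M' S * PP S ^ (100000 * q * r))
      ≤ Real.exp (C0 * V2 S) * Real.exp (-r) := by
  classical
  have hq0 : (1 : ℝ) ≤ q := by exact_mod_cast hq1
  obtain ⟨z, hz⟩ : ∃ z : ℝ, z = 200 * q := ⟨_, rfl⟩
  have hz0 : 0 < z := by rw [hz]; positivity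
  have hSp : ∀ p ∈ S, p.Prime := fun p hp => (hS p hp).1
  have hr0 : (1 : ℝ) ≤ r := by exact_mod_cast hr
  have hinv : ∀ p ∈ S, 0 ≤ (p : ℝ)⁻¹ ∧ (p : ℝ)⁻¹ ≤ 1 / 1000 := by
    intro p hp
    have h1 : (1000 : ℝ) ≤ p := by exact_mod_cast (hS p hp).2
    exact ⟨by positivity, by rw [one_div]; exact inv_anti₀ (by norm_num) h1⟩
  obtain ⟨M, hM⟩ : ∃ M, M = 100000 * q * r := ⟨_, rfl⟩
  rw [← hM]
  obtain ⟨P, hP⟩ : ∃ P : DP, P = expo k M' S * PP S ^ M := ⟨_, rfl⟩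
  have hsup : MP_f9aece_nt_h97.Sup (Smo (S : Set ℕ)) P := by rw [hP]; exact sup_P hSp M' M k
  have hF : ∀ n ∈ P.coeff.support, n ∈ Smo (S : Set ℕ) := fun n hn =>
    hsup n (Finsupp.mem_support_iff.mp hn)
  have hVV := MP_f9aece_nt.VV_nonneg S
  have hEn : En P ≤ ((M.factorial : ℝ) / z ^ M) ^ 2 * Real.exp (80802 * r + C0 * V2 S) := by
    rw [En_af fun n hn => MP_f9aece_nt.Smo_pos (hsup n hn)]
    have h1 : ∀ n ∈ P.coeff.support, af P n ^ 2 * (n : ℝ)⁻¹ ≤ ((M.factorial : ℝ) / z ^ M) ^ 2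
        * (hq 0 (k + z) n ^ 2 * ∏ p ∈ S, ((p : ℝ)⁻¹) ^ n.factorization p) := by
      intro n hn
      rw [← MP_f9aece_nt_h97.inv_smo (hF n hn)]
      have h2 : af P n ^ 2 ≤ ((M.factorial : ℝ) / z ^ M * hq 0 (k + z) n) ^ 2 := by
        rw [← sq_abs (af P n), hP]
        exact pow_le_pow_left₀ (abs_nonneg _) (coeffP_le hSp M' M hk0 hz0 n) 2
      calc af P n ^ 2 * (n : ℝ)⁻¹ ≤ ((M.factorial : ℝ) / z ^ M * hq 0 (k + z) n) ^ 2 * (n : ℝ)⁻¹ := by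
            gcongr
        _ = _ := by ring
    refine (Finset.sum_le_sum h1).trans ?_
    rw [← Finset.mul_sum]
    refine mul_le_mul_of_nonneg_left ?_ (sq_nonneg _)
    refine (hE S hSp (fun p => (p : ℝ)⁻¹) (fun p hp => ⟨(hinv p hp).1, by
      linarith [(hinv p hp).2]⟩) (k + z) (by rw [abs_of_nonneg (by positivity), hz]; linarith) _ hF).trans ?_
    apply Real.exp_le_exp.mpr
    have h4 : ∑ p ∈ S, (((0 : ℕ) + (k + z)) ^ 2 * (p : ℝ)⁻¹ + C0 * ((p : ℝ)⁻¹) ^ 2)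
        = (k + z) ^ 2 * VV S + C0 * V2 S := by
      unfold VV V2
      rw [Finset.mul_sum, Finset.mul_sum, ← Finset.sum_add_distrib]
      refine Finset.sum_congr rfl fun p _ => ?_
      push_cast
      ring
    rw [h4]
    have h5 : (k + z) ^ 2 ≤ (201 * q) ^ 2 :=
      pow_le_pow_left₀ (by positivity) (by rw [hz]; linarith) 2
    have h6 : (k + z) ^ 2 * VV S ≤ (201 * q) ^ 2 * VV S := by gcongr
    have h7 : ((201 : ℝ) * q) ^ 2 * VV S = 40401 * (q ^ 2 * VV S) := by ring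
    linarith
  have hfac : (M.factorial : ℝ) / z ^ M ≤ (1 / 2) ^ M * (1000 * (r : ℝ)) ^ M := by
    have h1 : (M.factorial : ℝ) ≤ (M : ℝ) ^ M := by exact_mod_cast Nat.factorial_le_pow M
    rw [div_le_iff₀ (by positivity), ← mul_pow, ← mul_pow]
    refine h1.trans (le_of_eq ?_)
    congr 1
    rw [hM, hz]
    push_cast
    ring
  have hR : (0 : ℝ) < (1000 * (r : ℝ)) ^ (2 * M) := by positivity
  have hnum := numP hq1 hr
  rw [← hM] at hnum
  rw [inv_mul_le_iff₀ hR, ← hP]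
  have hf0 : 0 ≤ (M.factorial : ℝ) / z ^ M := by positivity
  calc En P ≤ ((M.factorial : ℝ) / z ^ M) ^ 2 * Real.exp (80802 * r + C0 * V2 S) := hEn
    _ ≤ ((1 / 2) ^ M * (1000 * (r : ℝ)) ^ M) ^ 2 * Real.exp (80802 * r + C0 * V2 S) := by gcongr
    _ = (1000 * (r : ℝ)) ^ (2 * M) * (((1 / 4 : ℝ) ^ M * Real.exp (80802 * r))
          * Real.exp (C0 * V2 S)) := by
        rw [Real.exp_add, mul_pow, ← pow_mul, ← pow_mul, mul_comm M 2, pow_mul (1 / 2 : ℝ) 2 M]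
        norm_num
        ring
    _ ≤ (1000 * (r : ℝ)) ^ (2 * M) * (Real.exp (-(r : ℝ)) * Real.exp (C0 * V2 S)) := by gcongr
    _ = _ := by ring

end T29I

open T29I

theorem lowBlk (h : MS.EnW) : LowBlk := by
  intro q hq1
  obtain ⟨C0, hC0, hE0⟩ := h 0 q (Nat.cast_nonneg q)
  obtain ⟨C1, hC1, hE1⟩ := h 1 q (Nat.cast_nonneg q)
  obtain ⟨C2, hC2, hE2⟩ := h 0 (201 * q) (by positivity)
  refine ⟨4 * C0 + 4 * C1 + q ^ 4 + C2, by positivity, fun S r κ M k hS hr hV hk0 hk hκ hM hCV => ?_⟩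
  have hV2 : 0 ≤ V2 S := by unfold V2; exact Finset.sum_nonneg fun _ _ => by positivity
  have hq4 : (0 : ℝ) ≤ q ^ 4 := by positivity
  have b0 := mul_nonneg hC0 hV2
  have b1 := mul_nonneg hC1 hV2
  have b2 := mul_nonneg hC2 hV2
  have b3 := mul_nonneg hq4 hV2
  refine ⟨?_, ?_, ?_⟩
  · refine le_trans (Real.exp_le_exp.mpr ?_) (partA hq1 hC0 hC1 hE0 hE1 hS hr hV hk0 hk hκ hM
      (by nlinarith))
    nlinarith
  · refine (partB hq1 hC1 hE1 hS hr hV hk0 hk hκ hM).trans (Real.exp_le_exp.mpr ?_)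
    nlinarith
  · refine (partC hq1 hE2 hS hr hV hk0 hk).trans ?_
    have h1 : Real.exp (C2 * V2 S) ≤ Real.exp ((4 * C0 + 4 * C1 + q ^ 4 + C2) * V2 S) :=
      Real.exp_le_exp.mpr (by nlinarith)
    have h2 := Real.exp_pos (-(r : ℝ))
    gcongr

end Pool.Agent.Lib.MT
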