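import Mathlib
import Pool.Agent.Lib.MP_f9aece_nt_mt.StmtsT
import Pool.Agent.Lib.MP_f9aece_nt_ms.Coeffs

/-!
Mesoscopic moments of zeta, module T2.

Choose c_k, n_k for ε = 1/(k+1). For k, l a common element of S (max n_k n_l) (antitone, nonempty) gives |c_k - c_l| <= 1/(k+1) + 1/(l+1), so c_k is Cauchy with limit c. (about 50 lines)
-/

set_option autoImplicit false

namespace Pool.Agent.Lib.MT

open MeasureTheory Set Filter Topology Complex
open scoped ComplexConjugate
open scoped ArithmeticFunction.Omega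
open Pool.Agent.Lib.MP_f9aece_nt (DP pair BK K1 ev PP VV Smo expo)
open Pool.Agent.Lib.MP_f9aece_nt_h40 (ind)
open Pool.Agent.Lib.MP_f9aece_nt_h85 (Rst)
open Pool.Agent.Lib.MP_f9aece_nt_h97 (Psm Dsm evs)
open Pool.Agent.Lib.NL (pt B0)
open Pool.Agent.Lib.J4 (En V2)
open Pool.Agent.Lib.MS (Len MVP Par RW TZ Cut un zr ex hq af ZS)

theorem cauL : CauL := by
  intro ι S f hS hne h
  choose i hi using hne
  have hmem : ∀ n m, n ≤ m → i m ∈ S n := fun n m hnm => hS hnm (hi m)
  have hcau : CauchySeq fun n => f (i n) := by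
    rw [Metric.cauchySeq_iff']
    intro ε hε
    obtain ⟨c, n, hc⟩ := h (ε / 4) (by positivity)
    refine ⟨n, fun m hm => ?_⟩
    have h1 := hc _ (hmem n m hm)
    have h2 := hc _ (hmem n n le_rfl)
    rw [Real.dist_eq]
    have h3 : f (i m) - f (i n) = (f (i m) - c) - (f (i n) - c) := by ring
    rw [h3]
    calc |f (i m) - c - (f (i n) - c)| ≤ |f (i m) - c| + |f (i n) - c| := abs_sub _ _
      _ ≤ ε / 4 + ε / 4 := add_le_add h1 h2
      _ < ε := by linarith
  obtain ⟨L, hL⟩ := cauchySeq_tendsto_of_complete hcau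
  refine ⟨L, fun ε hε => ?_⟩
  obtain ⟨c, n, hc⟩ := h (ε / 2) (by positivity)
  refine ⟨n, fun j hj => ?_⟩
  have h1 : |L - c| ≤ ε / 2 := by
    refine le_of_tendsto ((hL.sub_const c).abs) ?_
    filter_upwards [Filter.eventually_ge_atTop n] with m hm
    exact hc _ (hmem n m hm)
  have h2 := hc j hj
  have h3 : f j - L = (f j - c) - (L - c) := by ring
  rw [h3]
  calc |f j - c - (L - c)| ≤ |f j - c| + |L - c| := abs_sub _ _
    _ ≤ ε / 2 + ε / 2 := add_le_add h2 h1
    _ = ε := by ring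

end Pool.Agent.Lib.MT
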