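import Mathlib
import Pool.Agent.Lib.MP_f9aece_nt_mt.StmtsT
import Pool.Agent.Lib.MP_f9aece_nt_ms.Coeffs
import Pool.Agent.Lib.MP_f9aece_nt_n4.SumW
import Pool.Agent.Lib.MP_f9aece_nt_n4.SumEI

/-!
Mesoscopic moments of zeta, module T30: all groups.
-/

set_option autoImplicit false

namespace Pool.Agent.Lib.MT

open MeasureTheory Set Filter Topology Complex
open scoped ComplexConjugate
open scoped ArithmeticFunction.Omega
open Pool.Agent.Lib.MP_f9aece_nt (DP pair BK K1 ev PP VV Smo expo)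
open Pool.Agent.Lib.MP_f9aece_nt_h40 (ind)
open Pool.Agent.Lib.MP_f9aece_nt_h85 (Rst)
open Pool.Agent.Lib.MP_f9aece_nt_h97 (Psm Dsm evs)
open Pool.Agent.Lib.NL (pt B0)
open Pool.Agent.Lib.J4 (En V2)
open Pool.Agent.Lib.MS (Len MVP Par RW TZ Cut un zr ex hq af ZS)

namespace T30

open Pool.Agent.Lib.MP_f9aece_nt (mulKer_K1 VV_nonneg mul_mem_Smo)
open Pool.Agent.Lib.MP_f9aece_nt_h97 (Sup sup_of_cone)
open Pool.Agent.Lib.J4 (BK_prod_sup' sgDisj Sg_prime Sg_gt sup_PPpow sup_expo' En_nonneg')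

lemma BK_sum (f g : DP) {s : Finset ℕ} (hs : f.coeff.support ⊆ s) :
    BK K1 f g = ∑ a ∈ s, f.coeff a * g.coeff a * (a : ℝ)⁻¹ := by
  rw [MP_f9aece_nt.BK_K1_eq, MP_f9aece_nt.pair_def]
  rw [← Finset.sum_subset hs]
  · exact Finset.sum_congr rfl fun a _ => by ring
  · intro a _ ha
    rw [Finsupp.notMem_support_iff.mp ha]
    ring

lemma BK_comm (f g : DP) : BK K1 f g = BK K1 g f := by
  classical
  rw [BK_sum f g (s := f.coeff.support ∪ g.coeff.support) Finset.subset_union_left,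
    BK_sum g f (s := f.coeff.support ∪ g.coeff.support) Finset.subset_union_right]
  exact Finset.sum_congr rfl fun a _ => by ring

lemma En_sub (f g : DP) : En (f - g) = En f - 2 * BK K1 f g + En g := by
  unfold En
  have e : f - g = f + (-1 : ℝ) • g := by rw [neg_one_smul]; abel
  rw [e, MP_f9aece_nt.BK_add_left, MP_f9aece_nt.BK_add_right, MP_f9aece_nt.BK_add_right,
    MP_f9aece_nt.BK_smul_left, MP_f9aece_nt.BK_smul_left, MP_f9aece_nt.BK_smul_right,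
    MP_f9aece_nt.BK_smul_right, BK_comm g f]
  ring

lemma BK_sq (f g : DP) : BK K1 f g ^ 2 ≤ En f * En g := by
  classical
  set s := f.coeff.support ∪ g.coeff.support with hs
  have h1 := BK_sum f g (s := s) Finset.subset_union_left
  have h2 := BK_sum f f (s := s) Finset.subset_union_left
  have h3 := BK_sum g g (s := s) Finset.subset_union_right
  unfold En
  rw [h1, h2, h3]
  have h4 := Finset.sum_mul_sq_le_sq_mul_sq s (fun a => f.coeff a * Real.sqrt ((a : ℝ)⁻¹))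
    (fun a => g.coeff a * Real.sqrt ((a : ℝ)⁻¹))
  have e : ∀ (a : ℕ), Real.sqrt ((a : ℝ)⁻¹) * Real.sqrt ((a : ℝ)⁻¹) = (a : ℝ)⁻¹ := fun a =>
    Real.mul_self_sqrt (by positivity)
  have e1 : ∀ (x y : ℝ) (a : ℕ), x * Real.sqrt ((a : ℝ)⁻¹) * (y * Real.sqrt ((a : ℝ)⁻¹))
      = x * y * (a : ℝ)⁻¹ := by
    intro x y a
    calc x * Real.sqrt ((a : ℝ)⁻¹) * (y * Real.sqrt ((a : ℝ)⁻¹))
        = x * y * (Real.sqrt ((a : ℝ)⁻¹) * Real.sqrt ((a : ℝ)⁻¹)) := by ring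
      _ = _ := by rw [e a]
  have h5 : ∑ a ∈ s, f.coeff a * g.coeff a * (a : ℝ)⁻¹
      = ∑ a ∈ s, f.coeff a * Real.sqrt ((a : ℝ)⁻¹) * (g.coeff a * Real.sqrt ((a : ℝ)⁻¹)) :=
    Finset.sum_congr rfl fun a _ => (e1 _ _ a).symm
  have h6 : ∑ a ∈ s, f.coeff a * f.coeff a * (a : ℝ)⁻¹
      = ∑ a ∈ s, (f.coeff a * Real.sqrt ((a : ℝ)⁻¹)) ^ 2 :=
    Finset.sum_congr rfl fun a _ => by rw [sq, e1]
  have h7 : ∑ a ∈ s, g.coeff a * g.coeff a * (a : ℝ)⁻¹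
      = ∑ a ∈ s, (g.coeff a * Real.sqrt ((a : ℝ)⁻¹)) ^ 2 :=
    Finset.sum_congr rfl fun a _ => by rw [sq, e1]
  rw [h5, h6, h7]
  exact h4

lemma sup_ind (κ : ℕ) {I : Finset ℕ} (hI : ∀ p ∈ I, p.Prime) : Sup (Smo (I : Set ℕ)) (ind κ I) :=
  (sup_of_cone (MP_f9aece_nt_h40.cone_ind hI κ)).mono fun _ h => h.1

lemma sup_ex (c : ℝ) (M : ℕ) {I : Finset ℕ} (hI : ∀ p ∈ I, p.Prime) :
    Sup (Smo (I : Set ℕ)) (expo c M I) := (sup_expo' hI c M).mono fun _ hn => hn.1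

lemma sup_pp (M : ℕ) {I : Finset ℕ} (hI : ∀ p ∈ I, p.Prime) :
    Sup (Smo (I : Set ℕ)) (PP I ^ M) := (sup_PPpow hI M).mono fun _ hn => hn.1

lemma prime_S (A : Par) (g : ℕ) : ∀ p ∈ A.S g, p.Prime := fun p hp => Sg_prime p hp

lemma BK_prodS (A : Par) (hY : 0 ≤ A.Y) (t : Finset ℕ) (f h : ℕ → DP)
    (hf : ∀ g ∈ t, Sup (Smo (A.S g : Set ℕ)) (f g)) (hh : ∀ g ∈ t, Sup (Smo (A.S g : Set ℕ)) (h g)) :
    BK K1 (∏ g ∈ t, f g) (∏ g ∈ t, h g) = ∏ g ∈ t, BK K1 (f g) (h g) :=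
  BK_prod_sup' mulKer_K1 _ (fun g => A.S g) (fun g _ h _ hgh => sgDisj A.v A.p0 A.Y hY g h hgh) _ _
    hf hh

lemma B_eq (A : Par) (k : ℝ) : A.B k 0 ∅ = ∏ g ∈ Finset.Ico 0 A.J, expo k (A.K g) (A.S g) := by
  unfold Par.B
  simp

lemma ED_eq (A : Par) (k : ℝ) : A.EI 0 * A.B k 0 ∅
    = ∏ g ∈ Finset.Ico 0 A.J, (ind (A.κ g) (A.S g) * expo k (A.K g) (A.S g)) := by
  rw [B_eq, Finset.prod_mul_distrib]
  rfl

lemma VV_S (A : Par) (hA : A.Ok) (g : ℕ) : (A.q : ℝ) ^ 2 * VV (A.S g) ≤ 2 * (A.r g : ℝ) := by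
  have h := MP_f9aece_nt_h6.VV_Sg_le (p0 := A.p0) hA.hY (v := (A.v : ℝ))
    (by exact_mod_cast hA.hv) g
  have h2 : VV (A.S g) ≤ 2 * ((A.v : ℝ) * (g + 1)) := by
    unfold Par.S
    rw [J4.Sg_eq]
    refine h.trans (le_of_eq ?_)
    unfold MP_f9aece_nt_h6.rg
    ring
  have h3 : (0 : ℝ) ≤ (A.q : ℝ) ^ 2 := by positivity
  calc (A.q : ℝ) ^ 2 * VV (A.S g) ≤ (A.q : ℝ) ^ 2 * (2 * ((A.v : ℝ) * (g + 1))) := by gcongr
    _ = 2 * (A.r g : ℝ) := by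
      unfold Par.r
      push_cast
      ring

lemma one_le_r (A : Par) (hA : A.Ok) (g : ℕ) : 1 ≤ A.r g := by
  unfold Par.r
  have h1 := hA.hq
  have h2 := hA.hv
  have h3 : 0 < A.q ^ 2 * A.v * (g + 1) := by positivity
  omega

lemma sum_exp (A : Par) (hA : A.Ok) (t : Finset ℕ) :
    ∑ g ∈ t, Real.exp (-(A.r g : ℝ)) ≤ 2 * Real.exp (-(A.v : ℝ)) := by
  refine le_trans (Finset.sum_le_sum fun g _ => ?_)
    (N4.sum_exp_rg_le' (v := A.v) (by have := hA.hv; omega) t)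
  apply Real.exp_le_exp.mpr
  have h3 : J4.rg A.v g ≤ A.r g := by
    unfold J4.rg Par.r
    have h4 : 1 ≤ A.q ^ 2 := Nat.one_le_pow _ _ hA.hq
    calc A.v * (g + 1) = 1 * (A.v * (g + 1)) := (one_mul _).symm
      _ ≤ A.q ^ 2 * (A.v * (g + 1)) := Nat.mul_le_mul_right _ h4
      _ = _ := by ring
  have h5 : (J4.rg A.v g : ℝ) ≤ A.r g := by exact_mod_cast h3
  linarith

lemma exp_le_lin {x : ℝ} (h0 : 0 ≤ x) (h1 : x ≤ 1 / 2) : Real.exp x ≤ 1 + 2 * x := by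
  have h2 : 1 - x ≤ Real.exp (-x) := by
    have := Real.add_one_le_exp (-x)
    linarith
  rw [Real.exp_neg] at h2
  have h3 := Real.exp_pos x
  have h4 : (1 - x) * Real.exp x ≤ 1 := by
    calc (1 - x) * Real.exp x ≤ (Real.exp x)⁻¹ * Real.exp x := by gcongr
      _ = 1 := inv_mul_cancel₀ h3.ne'
  nlinarith

/-- the numerical part -/
lemma num_low {a b c x F : ℝ} (hF : 0 < F) (hx0 : 0 ≤ x) (hx : x ≤ 1 / 4)
    (hab : b ^ 2 ≤ a * c) (ha0 : 0 ≤ a) (hb : F * Real.exp (-x) ≤ b) (ha : a ≤ F * Real.exp x)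
    (hc : c ≤ F) : (1 - 4 * x) * F ≤ c ∧ a - 2 * b + c ≤ 4 * x * F := by
  have e1 : 1 - x ≤ Real.exp (-x) := by
    have := Real.add_one_le_exp (-x)
    linarith
  have e2 := exp_le_lin hx0 (by linarith : x ≤ 1 / 2)
  have e3 := Real.exp_pos x
  have e4 := Real.exp_pos (-x)
  constructor
  · have h1 : (F * Real.exp (-x)) ^ 2 ≤ F * Real.exp x * c := by
      have hb0 : 0 < b := lt_of_lt_of_le (by positivity) hb
      have hc0 : 0 ≤ c := by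
        by_contra hlt
        push Not at hlt
        nlinarith [mul_nonneg ha0 (neg_nonneg.mpr hlt.le)]
      calc (F * Real.exp (-x)) ^ 2 ≤ b ^ 2 := by gcongr
        _ ≤ a * c := hab
        _ ≤ F * Real.exp x * c := by gcongr
    have h2 : F * Real.exp (-x) ^ 2 ≤ Real.exp x * c := by
      have h3 : F * (F * Real.exp (-x) ^ 2) ≤ F * (Real.exp x * c) := by
        calc F * (F * Real.exp (-x) ^ 2) = (F * Real.exp (-x)) ^ 2 := by ring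
          _ ≤ _ := h1
          _ = _ := by ring
      exact le_of_mul_le_mul_left h3 hF
    have h4 : F * Real.exp (-x) ^ 3 ≤ c := by
      have h5 : Real.exp (-x) * (F * Real.exp (-x) ^ 2) ≤ Real.exp (-x) * (Real.exp x * c) := by
        gcongr
      have h6 : Real.exp (-x) * Real.exp x = 1 := by rw [← Real.exp_add]; simp
      calc F * Real.exp (-x) ^ 3 = Real.exp (-x) * (F * Real.exp (-x) ^ 2) := by ring
        _ ≤ Real.exp (-x) * (Real.exp x * c) := h5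
        _ = c := by rw [← mul_assoc, h6, one_mul]
    have h7 : 1 - 4 * x ≤ Real.exp (-x) ^ 3 := by
      have h8 : (1 - x) ^ 3 ≤ Real.exp (-x) ^ 3 := by
        have : 0 ≤ 1 - x := by linarith
        gcongr
      nlinarith [mul_nonneg hx0 hx0, mul_nonneg (mul_nonneg hx0 hx0) hx0]
    calc (1 - 4 * x) * F ≤ Real.exp (-x) ^ 3 * F := by gcongr
      _ = F * Real.exp (-x) ^ 3 := mul_comm _ _
      _ ≤ c := h4
  · have h1 : F * (1 - x) ≤ b := (by gcongr : F * (1 - x) ≤ F * Real.exp (-x)).trans hb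
    have h2 : a ≤ F * (1 + 2 * x) := ha.trans (by gcongr)
    nlinarith


/-- everything which is needed from the blocks -/
structure Blk (A : Par) (k C₁ : ℝ) (g : ℕ) : Prop where
  small : C₁ * V2 (A.S g) ≤ 1
  low : Real.exp (k ^ 2 * VV (A.S g) - C₁ * V2 (A.S g) - Real.exp (-(A.r g : ℝ)))
      ≤ BK K1 (ind (A.κ g) (A.S g) * expo (k - 1) (A.K g) (A.S g)) (expo k (A.K g) (A.S g))
  up : En (ind (A.κ g) (A.S g) * expo (k - 1) (A.K g) (A.S g))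
        ≤ Real.exp (k ^ 2 * VV (A.S g) + C₁ * V2 (A.S g) + Real.exp (-(A.r g : ℝ)))
  pow : (A.R g ^ (2 * A.M g))⁻¹ * En (expo k (A.K g) (A.S g) * PP (A.S g) ^ A.M g)
        ≤ Real.exp (C₁ * V2 (A.S g)) * Real.exp (-(A.r g : ℝ))

lemma sum_V2 (A : Par) (hA : A.Ok) (i J : ℕ) :
    ∑ g ∈ Finset.Ico i J, V2 (A.S g) ≤ 1 / A.p0 :=
  N4.sum_V2_le A.v (le_trans (by norm_num) hA.hp) hA.hY.le i J

lemma V2_le (A : Par) (hA : A.Ok) (g : ℕ) : V2 (A.S g) ≤ 1 / A.p0 := by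
  have h1 := sum_V2 A hA g (g + 1)
  rwa [Nat.Ico_succ_singleton, Finset.sum_singleton] at h1

lemma κ_ge (A : Par) (g : ℕ) : 50000 * A.r g ≤ A.κ g := by
  unfold Par.κ
  exact Nat.le_mul_of_pos_right _ (Nat.succ_pos g)

lemma K_ge (A : Par) (hA : A.Ok) (g : ℕ) : 50000 * A.r g ≤ A.K g := by
  unfold Par.K
  exact Nat.mul_le_mul_right _ (Nat.le_mul_of_pos_right _ hA.hq)

lemma blk (A : Par) (hA : A.Ok) {k C₁ : ℝ} (hk0 : 0 ≤ k) (hkq : k ≤ A.q) (g : ℕ)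
    (h29 : ∀ (S : Finset ℕ) (r κ M : ℕ) (k : ℝ),
      (∀ p ∈ S, p.Prime ∧ 1000 ≤ p) → 1 ≤ r → (A.q : ℝ) ^ 2 * VV S ≤ 2 * r → 0 ≤ k → k ≤ A.q →
      50000 * r ≤ κ → 50000 * r ≤ M → C₁ * V2 S ≤ 1 →
      Real.exp (k ^ 2 * VV S - C₁ * V2 S - Real.exp (-r))
        ≤ BK K1 (ind κ S * expo (k - 1) M S) (expo k M S) ∧
      En (ind κ S * expo (k - 1) M S) ≤ Real.exp (k ^ 2 * VV S + C₁ * V2 S + Real.exp (-r)) ∧
      ((1000 * (r : ℝ)) ^ (2 * (100000 * A.q * r)))⁻¹ * En (expo k M S * PP S ^ (100000 * A.q * r))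
        ≤ Real.exp (C₁ * V2 S) * Real.exp (-r))
    (hs : C₁ * V2 (A.S g) ≤ 1) : Blk A k C₁ g := by
  have h := h29 (A.S g) (A.r g) (A.κ g) (A.K g) k
    (fun p hp => ⟨Sg_prime p hp, hA.hp.trans (Sg_gt p hp).le⟩) (one_le_r A hA g)
    (VV_S A hA g) hk0 hkq (κ_ge A g) (K_ge A hA g) hs
  exact ⟨hs, h.1, h.2.1, h.2.2⟩

section forms

variable {A : Par} {k C₁ : ℝ}

lemma sE (A : Par) (k : ℝ) (g : ℕ) : Sup (Smo (A.S g : Set ℕ)) (expo k (A.K g) (A.S g)) :=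
  sup_ex _ _ (prime_S A g)

lemma sD (A : Par) (k : ℝ) (g : ℕ) : Sup (Smo (A.S g : Set ℕ))
    (ind (A.κ g) (A.S g) * expo k (A.K g) (A.S g)) :=
  (sup_ind _ (prime_S A g)).mul (sup_ex _ _ (prime_S A g)) fun _ ha _ hb => mul_mem_Smo ha hb

lemma sP (A : Par) (k : ℝ) (g : ℕ) : Sup (Smo (A.S g : Set ℕ))
    (expo k (A.K g) (A.S g) * PP (A.S g) ^ A.M g) :=
  (sup_ex _ _ (prime_S A g)).mul (sup_pp _ (prime_S A g)) fun _ ha _ hb => mul_mem_Smo ha hb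

lemma En_prod_le (hY : 0 ≤ A.Y) (t : Finset ℕ) :
    ∏ h ∈ t, En (expo k (A.K h) (A.S h)) ≤ Real.exp (∑ h ∈ t, k ^ 2 * VV (A.S h)) := by
  rw [Real.exp_sum]
  exact Finset.prod_le_prod (fun g _ => En_nonneg' _)
    fun g _ => MP_f9aece_nt.BK_expo (prime_S A g) k _

lemma En_B (hY : 0 ≤ A.Y) : En (A.B k 0 ∅) ≤ Real.exp (k ^ 2 * A.V 0) := by
  have h1 : En (A.B k 0 ∅) = ∏ h ∈ Finset.Ico 0 A.J, En (expo k (A.K h) (A.S h)) := by
    rw [B_eq]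
    exact BK_prodS A hY _ _ _ (fun g _ => sE A k g) (fun g _ => sE A k g)
  have h2 : k ^ 2 * A.V 0 = ∑ h ∈ Finset.Ico 0 A.J, k ^ 2 * VV (A.S h) := by
    rw [← Finset.mul_sum]
    rfl
  rw [h1, h2]
  exact En_prod_le hY _

/-- the total error -/
noncomputable def xx (A : Par) (C₁ : ℝ) : ℝ :=
  ∑ g ∈ Finset.Ico 0 A.J, (C₁ * V2 (A.S g) + Real.exp (-(A.r g : ℝ)))

lemma xx_nonneg (hC : 0 ≤ C₁) : 0 ≤ xx A C₁ := Finset.sum_nonneg fun g _ => by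
  have h1 : 0 ≤ V2 (A.S g) := Finset.sum_nonneg fun p _ => by positivity
  exact add_nonneg (mul_nonneg hC h1) (Real.exp_pos _).le

lemma xx_le (hA : A.Ok) (hC : 0 ≤ C₁) :
    xx A C₁ ≤ C₁ * (1 / A.p0) + 2 * Real.exp (-(A.v : ℝ)) := by
  unfold xx
  rw [Finset.sum_add_distrib, ← Finset.mul_sum]
  exact add_le_add (mul_le_mul_of_nonneg_left (sum_V2 A hA 0 A.J) hC) (sum_exp A hA _)

lemma BK_low (hY : 0 ≤ A.Y) (hb : ∀ g, Blk A k C₁ g) :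
    Real.exp (k ^ 2 * A.V 0) * Real.exp (-xx A C₁)
      ≤ BK K1 (A.EI 0 * A.B (k - 1) 0 ∅) (A.B k 0 ∅) := by
  have h1 : BK K1 (A.EI 0 * A.B (k - 1) 0 ∅) (A.B k 0 ∅) = ∏ g ∈ Finset.Ico 0 A.J,
      BK K1 (ind (A.κ g) (A.S g) * expo (k - 1) (A.K g) (A.S g)) (expo k (A.K g) (A.S g)) := by
    rw [ED_eq, B_eq]
    exact BK_prodS A hY _ _ _ (fun g _ => sD A (k - 1) g) (fun g _ => sE A k g)
  have h2 : k ^ 2 * A.V 0 + -xx A C₁ = ∑ g ∈ Finset.Ico 0 A.J,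
      (k ^ 2 * VV (A.S g) - C₁ * V2 (A.S g) - Real.exp (-(A.r g : ℝ))) := by
    have h3 : k ^ 2 * A.V 0 = ∑ h ∈ Finset.Ico 0 A.J, k ^ 2 * VV (A.S h) := by
      rw [← Finset.mul_sum]
      rfl
    unfold xx
    rw [h3, ← sub_eq_add_neg, ← Finset.sum_sub_distrib]
    exact Finset.sum_congr rfl fun g _ => by ring
  rw [h1, ← Real.exp_add, h2, Real.exp_sum]
  exact Finset.prod_le_prod (fun g _ => (Real.exp_pos _).le) fun g _ => (hb g).low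

lemma En_up (hY : 0 ≤ A.Y) (hb : ∀ g, Blk A k C₁ g) :
    En (A.EI 0 * A.B (k - 1) 0 ∅) ≤ Real.exp (k ^ 2 * A.V 0) * Real.exp (xx A C₁) := by
  have h1 : En (A.EI 0 * A.B (k - 1) 0 ∅) = ∏ g ∈ Finset.Ico 0 A.J,
      En (ind (A.κ g) (A.S g) * expo (k - 1) (A.K g) (A.S g)) := by
    rw [ED_eq]
    exact BK_prodS A hY _ _ _ (fun g _ => sD A (k - 1) g) (fun g _ => sD A (k - 1) g)
  have h2 : k ^ 2 * A.V 0 + xx A C₁ = ∑ g ∈ Finset.Ico 0 A.J,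
      (k ^ 2 * VV (A.S g) + C₁ * V2 (A.S g) + Real.exp (-(A.r g : ℝ))) := by
    have h3 : k ^ 2 * A.V 0 = ∑ h ∈ Finset.Ico 0 A.J, k ^ 2 * VV (A.S h) := by
      rw [← Finset.mul_sum]
      rfl
    unfold xx
    rw [h3, ← Finset.sum_add_distrib]
    exact Finset.sum_congr rfl fun g _ => by ring
  rw [h1, ← Real.exp_add, h2, Real.exp_sum]
  exact Finset.prod_le_prod (fun g _ => En_nonneg' _) fun g _ => (hb g).up

lemma B_mul (t : Finset ℕ) (f : ℕ → DP) (Q : DP) {g : ℕ} (hg : g ∈ t) :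
    (∏ h ∈ t, f h) * Q = ∏ h ∈ t, (if h = g then f h * Q else f h) := by
  classical
  rw [← Finset.mul_prod_erase t f hg, ← Finset.mul_prod_erase t _ hg, if_pos rfl]
  have h1 : ∏ h ∈ t.erase g, (if h = g then f h * Q else f h) = ∏ h ∈ t.erase g, f h :=
    Finset.prod_congr rfl fun h hh => if_neg (Finset.ne_of_mem_erase hh)
  rw [h1]
  exact mul_right_comm _ _ _

lemma En_one (hY : 0 ≤ A.Y) {t : Finset ℕ} {g : ℕ} (hg : g ∈ t) :
    En ((∏ h ∈ t, expo k (A.K h) (A.S h)) * PP (A.S g) ^ A.M g)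
      = En (expo k (A.K g) (A.S g) * PP (A.S g) ^ A.M g)
        * ∏ h ∈ t.erase g, En (expo k (A.K h) (A.S h)) := by
  classical
  rw [B_mul t (fun h => expo k (A.K h) (A.S h)) _ hg]
  have hs : ∀ h ∈ t, Sup (Smo (A.S h : Set ℕ))
      (if h = g then expo k (A.K h) (A.S h) * PP (A.S g) ^ A.M g else expo k (A.K h) (A.S h)) := by
    intro h _
    by_cases hh : h = g
    · subst hh
      rw [if_pos rfl]
      exact sP A k _
    · rw [if_neg hh]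
      exact sE A k h
  have h1 := BK_prodS A hY t _ _ hs hs
  unfold En
  rw [h1, ← Finset.mul_prod_erase t _ hg, if_pos rfl]
  congr 1
  exact Finset.prod_congr rfl fun h hh => by rw [if_neg (Finset.ne_of_mem_erase hh)]

lemma one_term (hY : 0 ≤ A.Y) {g : ℕ} (hb : Blk A k C₁ g) (hg : g ∈ Finset.Ico 0 A.J) :
    (A.R g ^ (2 * A.M g))⁻¹ * En (A.B k 0 ∅ * PP (A.S g) ^ A.M g)
      ≤ Real.exp (k ^ 2 * A.V 0) * (3 * Real.exp (-(A.r g : ℝ))) := by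
  have h1 : En (A.B k 0 ∅ * PP (A.S g) ^ A.M g)
      = En (expo k (A.K g) (A.S g) * PP (A.S g) ^ A.M g)
        * ∏ h ∈ (Finset.Ico 0 A.J).erase g, En (expo k (A.K h) (A.S h)) := by
    rw [B_eq]
    exact En_one hY hg
  have h2 : ∏ h ∈ (Finset.Ico 0 A.J).erase g, En (expo k (A.K h) (A.S h))
      ≤ Real.exp (k ^ 2 * A.V 0) := by
    refine (En_prod_le hY _).trans (Real.exp_le_exp.mpr ?_)
    have h3 : k ^ 2 * A.V 0 = ∑ h ∈ Finset.Ico 0 A.J, k ^ 2 * VV (A.S h) := by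
      rw [← Finset.mul_sum]
      rfl
    rw [h3]
    exact Finset.sum_le_sum_of_subset_of_nonneg (Finset.erase_subset _ _)
      fun h _ _ => mul_nonneg (sq_nonneg _) (VV_nonneg _)
  have h4 : Real.exp (C₁ * V2 (A.S g)) ≤ 3 := by
    have := Real.exp_le_exp.mpr hb.small
    have := Real.exp_one_lt_d9
    linarith
  have h5 : 0 ≤ ∏ h ∈ (Finset.Ico 0 A.J).erase g, En (expo k (A.K h) (A.S h)) :=
    Finset.prod_nonneg fun _ _ => En_nonneg' _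
  have h6 := hb.pow.trans (mul_le_mul_of_nonneg_right h4 (Real.exp_pos (-(A.r g : ℝ))).le)
  rw [h1, ← mul_assoc, mul_comm (Real.exp (k ^ 2 * A.V 0))]
  exact mul_le_mul h6 h2 h5 (mul_nonneg (by norm_num) (Real.exp_pos _).le)

end forms

lemma num_fin {C₁ x P E F : ℝ} (hC : 0 ≤ C₁) (hP : 0 ≤ P) (hE : 0 ≤ E)
    (hx : x ≤ C₁ * P + 2 * E) : 4 * x ≤ (4 * C₁ + 8) * (P + E) ∧ 6 * E ≤ (4 * C₁ + 8) * (P + E) := by
  have h1 : 0 ≤ C₁ * E := mul_nonneg hC hE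
  have h2 : 0 ≤ C₁ * P := mul_nonneg hC hP
  constructor <;> nlinarith

end T30

open T30 in
theorem lowForm (h29 : LowBlk) : LowForm := by
  intro q hq
  obtain ⟨C₁, hC1, h29⟩ := h29 q hq
  refine ⟨4 * C₁ + 8, by positivity, fun A hAq hA k hk0 hkq hsmall => ?_⟩
  subst hAq
  have hY := hA.hY.le
  have hE := (Real.exp_pos (-(A.v : ℝ))).le
  have hP : 0 ≤ 1 / (A.p0 : ℝ) := by positivity
  obtain ⟨n1, n2⟩ := num_fin (F := 1) hC1 hP hE (xx_le hA hC1)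
  have hs : ∀ g, C₁ * V2 (A.S g) ≤ 1 := by
    intro g
    have h1 := mul_le_mul_of_nonneg_left (V2_le A hA g) hC1
    have h2 : C₁ * (1 / (A.p0 : ℝ)) ≤ (4 * C₁ + 8) * (1 / A.p0 + Real.exp (-(A.v : ℝ))) := by
      have h3 : 0 ≤ C₁ * Real.exp (-(A.v : ℝ)) := mul_nonneg hC1 hE
      have h4 : 0 ≤ C₁ * (1 / (A.p0 : ℝ)) := mul_nonneg hC1 hP
      nlinarith
    linarith
  have hb : ∀ g, Blk A k C₁ g := fun g => blk A hA hk0.le hkq g h29 (hs g)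
  have hF : 0 < Real.exp (k ^ 2 * A.V 0) := Real.exp_pos _
  obtain ⟨r1, r2⟩ := num_low hF (xx_nonneg (A := A) hC1) (by linarith)
    (BK_sq (A.EI 0 * A.B (k - 1) 0 ∅) (A.B k 0 ∅)) (J4.En_nonneg' _) (BK_low hY hb) (En_up hY hb)
    (En_B hY)
  refine ⟨En_B hY, ?_, ?_, ?_⟩
  · refine le_trans (mul_le_mul_of_nonneg_right ?_ hF.le) r1
    linarith
  · rw [En_sub]
    exact r2.trans (mul_le_mul_of_nonneg_right n1 hF.le)
  · have h1 : ∀ g ∈ Finset.range A.J,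
        (A.R g ^ (2 * A.M g))⁻¹ * En (A.B k 0 ∅ * PP (A.S g) ^ A.M g)
          ≤ Real.exp (k ^ 2 * A.V 0) * (3 * Real.exp (-(A.r g : ℝ))) := fun g hg =>
      one_term hY (hb g) (Finset.mem_Ico.mpr ⟨Nat.zero_le _, Finset.mem_range.mp hg⟩)
    refine (Finset.sum_le_sum h1).trans ?_
    rw [← Finset.mul_sum, ← Finset.mul_sum, mul_comm]
    refine mul_le_mul_of_nonneg_right ?_ hF.le
    have h2 := sum_exp A hA (Finset.range A.J)
    linarith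

end Pool.Agent.Lib.MT
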