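import Mathlib
import Pool.Agent.Lib.MP_f9aece_nt_mt.StmtsT
import Pool.Agent.Lib.MP_f9aece_nt_ms.Coeffs
import Pool.Agent.Lib.MP_f9aece_nt_nl.H

/-!
Mesoscopic moments of zeta, module T31.

As NL/H.lean (NL.LowerPt), with P g = ev t (PP (A.S g)). If some ‖P g‖ > R g the subtracted sum is >= 1 and the left side is <= 0. Otherwise ev t (A.B c 0 ∅) = prod EE (K g) (c P g) and ‖c P g‖ <= q 1000 r g <= (K g + 1)/10, so EE = exp up to a relative error exp(-r g) (EE_sub_exp), the products up to 2 e^(-v)·2: b = exp(k ΣP)(1+small), d = exp((k-1) ΣP)(1+small), ‖b/d‖^(2k) >= (1-ε) ‖b‖^2, ‖z‖ >= ‖b/d‖ (1 - x), x = ‖z d - b‖/‖b‖, (1-x)_+^(2k) >= 1 - max(1,2k) x >= 1 - 2(q+1) x. (about 200 lines)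
-/

set_option autoImplicit false

namespace Pool.Agent.Lib.MT

open MeasureTheory Set Filter Topology Complex
open scoped ComplexConjugate
open scoped ArithmeticFunction.Omega
open Pool.Agent.Lib.MP_f9aece_nt (DP pair BK K1 ev PP VV Smo expo)
open Pool.Agent.Lib.MP_f9aece_nt_h40 (ind)
open Pool.Agent.Lib.MP_f9aece_nt_h85 (Rst)
open Pool.Agent.Lib.MP_f9aece_nt_h97 (Psm Dsm evs)
open Pool.Agent.Lib.NL (pt B0)
open Pool.Agent.Lib.J4 (En V2)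
open Pool.Agent.Lib.MS (Len MVP Par RW TZ Cut un zr ex hq af ZS)

private lemma t31_evB (A : Par) (c t : ℝ) : ev t (A.B c 0 ∅)
    = ∏ g ∈ Finset.range A.J, MP_f9aece_nt.EE (A.K g) (c * ev t (PP (A.S g))) := by
  unfold Par.B
  rw [Finset.sdiff_empty, Finset.prod_empty, mul_one, map_prod, Finset.range_eq_Ico]
  refine Finset.prod_congr rfl fun g _ => ?_
  rw [MP_f9aece_nt.ev_expo]

private lemma t31_K (A : Par) (h : A.Ok) (g : ℕ) : A.v + g ≤ A.K g := by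
  have hq := h.hq
  have hv := h.hv
  unfold Par.K Par.r
  have h1 : 1 * (A.v * (g + 1)) ≤ (50000 * A.q * A.q ^ 2) * (A.v * (g + 1)) := by
    refine Nat.mul_le_mul_right _ ?_
    have : 1 ≤ A.q ^ 2 := Nat.one_le_pow _ _ hq
    nlinarith [Nat.mul_le_mul hq this]
  have h2 : A.v + g ≤ A.v * (g + 1) := by nlinarith
  calc A.v + g ≤ 1 * (A.v * (g + 1)) := by rw [one_mul]; exact h2
    _ ≤ _ := h1
    _ = _ := by ring

private lemma t31_sum (A : Par) (h : A.Ok) (J : ℕ) :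
    ∑ g ∈ Finset.range J, MP_f9aece_nt_h97.dl (A.K g) ≤ (1 / 3) ^ A.v := by
  have h1 : ∀ g, MP_f9aece_nt_h97.dl (A.K g) ≤ (2 / 3 * (1 / 3) ^ A.v) * (1 / 3) ^ g := by
    intro g
    unfold MP_f9aece_nt_h97.dl
    calc 2 * (1 / 3 : ℝ) ^ (A.K g + 1) ≤ 2 * (1 / 3 : ℝ) ^ (A.v + g + 1) := by
          refine mul_le_mul_of_nonneg_left ?_ (by norm_num)
          exact pow_le_pow_of_le_one (by norm_num) (by norm_num) (by have := t31_K A h g; omega)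
      _ = _ := by rw [pow_succ, pow_add]; ring
  have h2 : ∑ g ∈ Finset.range J, ((1 / 3 : ℝ)) ^ g ≤ 3 / 2 := by
    rw [geom_sum_eq (by norm_num)]
    have : (0 : ℝ) ≤ (1 / 3) ^ J := by positivity
    rw [div_le_iff_of_neg (by norm_num)]
    linarith
  calc ∑ g ∈ Finset.range J, MP_f9aece_nt_h97.dl (A.K g)
      ≤ ∑ g ∈ Finset.range J, (2 / 3 * (1 / 3) ^ A.v) * (1 / 3) ^ g :=
        Finset.sum_le_sum fun g _ => h1 g
    _ = (2 / 3 * (1 / 3) ^ A.v) * ∑ g ∈ Finset.range J, ((1 / 3 : ℝ)) ^ g := by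
        rw [Finset.mul_sum]
    _ ≤ (2 / 3 * (1 / 3) ^ A.v) * (3 / 2) := mul_le_mul_of_nonneg_left h2 (by positivity)
    _ = _ := by ring

theorem ptLow : PtLow := by
  intro q k ε hq hk0 hk hε hε4
  have hq' : (1 : ℝ) ≤ q := by exact_mod_cast hq
  have hq0 : (0 : ℝ) < q := by linarith
  obtain ⟨v1, hv1⟩ : ∃ v1 : ℕ, ∀ v : ℕ, v1 ≤ v → Real.exp (6 * q * (1 / 3) ^ v) ≤ 1 + ε := by
    have h1 : Tendsto (fun m : ℕ => 6 * (q : ℝ) * (1 / 3) ^ m) atTop (𝓝 (6 * (q : ℝ) * 0)) :=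
      (tendsto_pow_atTop_nhds_zero_of_lt_one (by norm_num) (by norm_num)).const_mul _
    rw [mul_zero] at h1
    have h2 := (Real.continuous_exp.tendsto 0).comp h1
    rw [Real.exp_zero] at h2
    have h3 := h2.eventually_le_const (show (1 : ℝ) < 1 + ε by linarith)
    exact eventually_atTop.1 h3
  refine ⟨v1, fun A hAq hv hok t z => ?_⟩
  have hrhs : 0 ≤ ‖z‖ ^ (2 * k) := by positivity
  obtain ⟨Bv, hB⟩ : ∃ Bv, Bv = ev t (A.B k 0 ∅) := ⟨_, rfl⟩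
  obtain ⟨D, hD⟩ : ∃ D, D = ev t (A.B (k - 1) 0 ∅) := ⟨_, rfl⟩
  rw [← hB, ← hD]
  have hr1 : ∀ g, 1 ≤ A.r g := by
    intro g
    unfold Par.r
    have h1 : 1 ≤ A.q ^ 2 := Nat.one_le_pow _ _ hok.hq
    have h2 : 1 ≤ A.v := le_trans (by norm_num) hok.hv
    exact Nat.one_le_iff_ne_zero.2 (by positivity)
  have hr1' : ∀ g, (1 : ℝ) ≤ A.r g := fun g => by exact_mod_cast hr1 g
  have hRpos : ∀ g, 0 < A.R g := by
    intro g
    unfold Par.R
    have := hr1' g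
    positivity
  obtain ⟨Q, hQ⟩ : ∃ Q, Q = ∑ g ∈ Finset.range A.J, (‖ev t (PP (A.S g))‖ / A.R g) ^ (2 * A.M g) :=
    ⟨_, rfl⟩
  rw [← hQ]
  have hterm : ∀ g, 0 ≤ (‖ev t (PP (A.S g))‖ / A.R g) ^ (2 * A.M g) := fun g => by
    have := hRpos g
    positivity
  have hQ0 : 0 ≤ Q := by rw [hQ]; exact Finset.sum_nonneg fun j _ => hterm j
  have hBn : 0 ≤ ‖Bv‖ := norm_nonneg _
  have hEn : 0 ≤ ‖z * D - Bv‖ := norm_nonneg _
  have hBE : 0 ≤ 2 * ((q : ℝ) + 1) * (‖Bv‖ * ‖z * D - Bv‖) := by positivity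
  by_cases hbig : ∃ g ∈ Finset.range A.J, A.R g < ‖ev t (PP (A.S g))‖
  · obtain ⟨j, hj, hj1⟩ := hbig
    have h1 : 1 ≤ Q := by
      have h2 : 1 ≤ (‖ev t (PP (A.S j))‖ / A.R j) ^ (2 * A.M j) := by
        apply one_le_pow₀
        rw [le_div_iff₀ (hRpos j)]
        linarith
      rw [hQ]
      exact h2.trans (Finset.single_le_sum (fun i _ => hterm i) hj)
    refine le_trans ?_ hrhs
    have h3 : ‖Bv‖ ^ 2 ≤ ‖Bv‖ ^ 2 * Q := le_mul_of_one_le_right (by positivity) h1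
    have h4 : 0 ≤ (1 - 2 * ε) * (2 * ((q : ℝ) + 1) * (‖Bv‖ * ‖z * D - Bv‖)) :=
      mul_nonneg (by linarith) hBE
    have h5 : 0 ≤ 2 * ε * ‖Bv‖ ^ 2 := by positivity
    have e5 : (1 - 2 * ε) * (‖Bv‖ ^ 2 - 2 * ((q : ℝ) + 1) * (‖Bv‖ * ‖z * D - Bv‖)) - ‖Bv‖ ^ 2 * Q
        = (‖Bv‖ ^ 2 - ‖Bv‖ ^ 2 * Q) - 2 * ε * ‖Bv‖ ^ 2
          - (1 - 2 * ε) * (2 * ((q : ℝ) + 1) * (‖Bv‖ * ‖z * D - Bv‖)) := by ring
    rw [e5]
    linarith
  · push Not at hbig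
    have hKM : ∀ g, 1 ≤ A.K g := fun g => by
      have h1 := t31_K A hok g
      have h2 := hok.hv
      omega
    have hPK : ∀ g ∈ Finset.range A.J, ‖ev t (PP (A.S g))‖ ≤ (A.K g : ℝ) / (10 * q) := by
      intro g hg
      refine (hbig g hg).trans ?_
      unfold Par.R Par.K
      rw [hAq, le_div_iff₀ (by positivity)]
      push_cast
      have h1 := hr1' g
      have h2 : 0 ≤ (q : ℝ) * A.r g := by positivity
      nlinarith
    have hblock := fun g (hg : g ∈ Finset.range A.J) =>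
      NL.HPt.block hq hk0 hk (hKM g) (hPK g hg)
    have hPB : 0 < ∏ g ∈ Finset.range A.J,
        ‖MP_f9aece_nt.EE (A.K g) (k * ev t (PP (A.S g)))‖ :=
      Finset.prod_pos fun j hj => (hblock j hj).1
    have hPD : 0 ≤ ∏ g ∈ Finset.range A.J,
        ‖MP_f9aece_nt.EE (A.K g) ((-(1 - k) : ℝ) * ev t (PP (A.S g)))‖ :=
      Finset.prod_nonneg fun _ _ => norm_nonneg _
    have hprod : (∏ g ∈ Finset.range A.J,
        ‖MP_f9aece_nt.EE (A.K g) ((-(1 - k) : ℝ) * ev t (PP (A.S g)))‖) ^ (2 * k)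
        * (∏ g ∈ Finset.range A.J,
        ‖MP_f9aece_nt.EE (A.K g) (k * ev t (PP (A.S g)))‖) ^ (2 - 2 * k) ≤ 1 + ε := by
      rw [← Real.finsetProd_rpow _ _ (fun _ _ => norm_nonneg _),
        ← Real.finsetProd_rpow _ _ (fun _ _ => norm_nonneg _), ← Finset.prod_mul_distrib]
      calc _ ≤ ∏ g ∈ Finset.range A.J, Real.exp (6 * q * MP_f9aece_nt_h97.dl (A.K g)) :=
            Finset.prod_le_prod (fun _ _ => by positivity) fun j hj => (hblock j hj).2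
        _ = Real.exp (6 * q * ∑ g ∈ Finset.range A.J, MP_f9aece_nt_h97.dl (A.K g)) := by
            rw [← Real.exp_sum, Finset.mul_sum]
        _ ≤ Real.exp (6 * q * (1 / 3) ^ A.v) := by
            apply Real.exp_le_exp.mpr
            refine mul_le_mul_of_nonneg_left (t31_sum A hok A.J) (by positivity)
        _ ≤ 1 + ε := hv1 _ hv
    have hBn' : ‖Bv‖ = ‖(1 : ℂ)‖ * ∏ g ∈ Finset.range A.J,
        ‖MP_f9aece_nt.EE (A.K g) (k * ev t (PP (A.S g)))‖ := by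
      rw [hB, t31_evB, norm_prod, norm_one, one_mul]
    have hDn' : ‖D‖ = ‖(1 : ℂ)‖ * (‖(1 : ℂ)‖ * ∏ g ∈ Finset.range A.J,
        ‖MP_f9aece_nt.EE (A.K g) ((-(1 - k) : ℝ) * ev t (PP (A.S g)))‖) := by
      rw [hD, t31_evB, norm_prod, norm_one, one_mul, one_mul]
      have : -(1 - k) = k - 1 := by ring
      rw [this]
    have h6 := NL.HPt.final (z := z) hq hε hε4 hk0 hk hPB hPD hBn' hDn'
      (by rw [norm_one, Real.one_rpow]; linarith) hprod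
    have hBQ : 0 ≤ ‖Bv‖ ^ 2 * Q := mul_nonneg (by positivity) hQ0
    have h7 : (1 - 2 * ε) * (‖Bv‖ ^ 2 - 2 * ((q : ℝ) + 1) * (‖Bv‖ * ‖z * D - Bv‖))
        ≤ (1 - 2 * ε) * (‖Bv‖ ^ 2 - 2 * (q : ℝ) * (‖Bv‖ * ‖z * D - Bv‖)) := by
      refine mul_le_mul_of_nonneg_left ?_ (by linarith)
      have : 0 ≤ ‖Bv‖ * ‖z * D - Bv‖ := by positivity
      nlinarith
    linarith

end Pool.Agent.Lib.MT
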