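import Mathlib
import Pool.Agent.Lib.MP_f9aece_nt_mt.StmtsT
import Pool.Agent.Lib.MP_f9aece_nt_ms.Q8Level
import Pool.Agent.Lib.MP_f9aece_nt_nl.A2

/-!
Mesoscopic moments of zeta: common lemmas for the upper and the lower bound of the main term.
-/

set_option autoImplicit false

namespace Pool.Agent.Lib.MT

open MeasureTheory Set Filter Topology Complex
open scoped ComplexConjugate
open scoped ArithmeticFunction.Omega
open Pool.Agent.Lib.MP_f9aece_nt (DP pair BK K1 ev PP VV Smo expo)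
open Pool.Agent.Lib.MP_f9aece_nt_h40 (ind)
open Pool.Agent.Lib.MP_f9aece_nt_h85 (Rst)
open Pool.Agent.Lib.MP_f9aece_nt_h97 (Psm Dsm evs Sup)
open Pool.Agent.Lib.NL (pt B0)
open Pool.Agent.Lib.J4 (En V2)
open Pool.Agent.Lib.MS (Len MVP Par RW TZ Cut un zr ex hq af ZS)

namespace MainI

open Pool.Agent.Lib.MP_f9aece_nt (ev_apply continuous_ev mul_mem_Smo Smo_pos one_mem_Smo)

lemma evs_pt (D : DP) (t : ℝ) : evs (pt 0 t) D = ev t D := by
  rw [ev_apply]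
  unfold evs pt
  refine Finset.sum_congr rfl fun h _ => ?_
  norm_num

/-- supports in the groups and lengths -/
def LS (A : Par) (ℓ : ℝ) (F : DP) : Prop :=
  ∀ n, F.coeff n ≠ 0 → n ∈ Smo (A.SU 0 : Set ℕ) ∧ (n : ℝ) ≤ Real.exp ℓ

lemma LS.mul {A : Par} {a b : ℝ} {F G : DP} (hF : LS A a F) (hG : LS A b G) : LS A (a + b) (F * G) := by
  intro n hn
  obtain ⟨x, y, hx, hy, rfl⟩ := J4.NInt.coeff_mul_ne hn
  refine ⟨mul_mem_Smo (hF x hx).1 (hG y hy).1, ?_⟩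
  push_cast
  rw [Real.exp_add]
  have h1 := (hF x hx).2
  have h2 := (hG y hy).2
  gcongr

lemma LS.mono {A : Par} {a b : ℝ} {F : DP} (hF : LS A a F) (hab : a ≤ b) : LS A b F :=
  fun n hn => ⟨(hF n hn).1, (hF n hn).2.trans (Real.exp_le_exp.mpr hab)⟩

lemma LS.sub {A : Par} {a : ℝ} {F G : DP} (hF : LS A a F) (hG : LS A a G) : LS A a (F - G) := by
  intro n hn
  by_cases h : F.coeff n ≠ 0
  · exact hF n h
  · have h2 : G.coeff n ≠ 0 := by
      intro h3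
      push Not at h
      apply hn
      rw [MonoidAlgebra.coeff_sub, Finsupp.sub_apply, h, h3, sub_zero]
    exact hG n h2

lemma ls_of_log {A : Par} {ℓ : ℝ} {F : DP}
    (h : ∀ n, F.coeff n ≠ 0 → n ∈ Smo (A.SU 0 : Set ℕ) ∧ 1 ≤ n ∧ Real.log n ≤ ℓ) : LS A ℓ F := by
  intro n hn
  obtain ⟨h1, h2, h3⟩ := h n hn
  refine ⟨h1, ?_⟩
  have h4 : (0 : ℝ) < n := by exact_mod_cast h2
  rw [← Real.exp_log h4]
  exact Real.exp_le_exp.mpr h3

lemma SU_le {A : Par} {p : ℕ} (hp : p ∈ A.SU 0) : p ≤ ⌊Real.exp A.Y⌋₊ := by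
  unfold Par.SU J4.SU at hp
  obtain ⟨g, -, hg⟩ := Finset.mem_biUnion.mp hp
  unfold J4.Sg at hg
  exact (Finset.mem_Icc.mp (Finset.mem_filter.mp hg).1).2

/-- the energy of the product with the small primes -/
lemma En_B0_mul {A : Par} (hA : A.Ok) (k : ℝ) (Kb : ℕ) {a : ℝ} {F : DP} (hF : LS A a F) :
    En (B0 k Kb A.p0 * F) = En (B0 k Kb A.p0) * En F := by
  refine N4.P3.En_mul (v := A.v) (p0 := A.p0) hA.hY 0 A.J ?_ (fun n hn => (hF n hn).1)
  refine (NL.sup_B0 k Kb A.p0).mono fun n hn => ⟨hn.1, fun p hp hpn => ?_⟩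
  have h1 := hn.2 p hp hpn
  simp only [Finset.mem_coe, Psm, Finset.mem_filter, Finset.mem_Ioc] at h1
  intro h2
  omega

/-- bound for the support of a polynomial -/
lemma supp_bd (P : DP) : ∃ N0 : ℝ, 0 ≤ N0 ∧ ∀ n, P.coeff n ≠ 0 → (n : ℝ) ≤ Real.exp N0 := by
  obtain ⟨m, hm⟩ : ∃ m : ℕ, ∀ n ∈ P.coeff.support, n ≤ m :=
    ⟨P.coeff.support.sup id, fun n hn => Finset.le_sup (f := id) hn⟩
  refine ⟨m, Nat.cast_nonneg _, fun n hn => ?_⟩
  have h1 : (n : ℝ) ≤ m := by exact_mod_cast hm n (Finsupp.mem_support_iff.mpr hn)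
  have h2 := Real.add_one_le_exp (m : ℝ)
  linarith

/-- the weight -/
noncomputable def wt (k : ℝ) (w : ℝ → ℂ) (A : Par) (L t : ℝ) : ℝ := ‖SW w 0 A.Y L t‖ ^ (2 * k)

lemma wt_nonneg (k : ℝ) (w : ℝ → ℂ) (A : Par) (L t : ℝ) : 0 ≤ wt k w A L t := by
  unfold wt; positivity

lemma cont_SW (w : ℝ → ℂ) (p0 : ℕ) (Y L : ℝ) : Continuous (SW w p0 Y L) := by
  unfold SW
  exact (continuous_ev _).add (continuous_const.mul (continuous_ev _))

lemma bdd_SW (w : ℝ → ℂ) (p0 : ℕ) (Y L : ℝ) : ∃ C : ℝ, 0 ≤ C ∧ ∀ t, ‖SW w p0 Y L t‖ ≤ C := by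
  obtain ⟨C1, h1, h2⟩ := MS.Q8.bdd_ev (RW (fun x => (w x).re) p0 Y L)
  obtain ⟨C2, h3, h4⟩ := MS.Q8.bdd_ev (RW (fun x => (w x).im) p0 Y L)
  refine ⟨C1 + C2, by positivity, fun t => ?_⟩
  unfold SW
  refine (norm_add_le _ _).trans ?_
  rw [norm_mul, Complex.norm_I, one_mul]
  exact add_le_add (h2 t) (h4 t)

lemma cont_wt {k : ℝ} (hk : 0 < k) (w : ℝ → ℂ) (A : Par) (L : ℝ) : Continuous (wt k w A L) := by
  unfold wt
  exact (cont_SW w 0 A.Y L).norm.rpow_const fun t => Or.inr (by positivity)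

lemma bdd_wt {k : ℝ} (hk : 0 < k) (w : ℝ → ℂ) (A : Par) (L : ℝ) :
    ∃ C : ℝ, 0 ≤ C ∧ ∀ t, wt k w A L t ≤ C := by
  obtain ⟨C, hC, h⟩ := bdd_SW w 0 A.Y L
  exact ⟨C ^ (2 * k), by positivity, fun t =>
    Real.rpow_le_rpow (norm_nonneg _) (h t) (by positivity)⟩

/-- weighted means are integrable -/
lemma integ_wt {k : ℝ} (hk : 0 < k) (w : ℝ → ℂ) (A : Par) (L : ℝ) {ν : Measure ℝ}
    [IsProbabilityMeasure ν] (P : DP) : Integrable (fun t => ‖ev t P‖ ^ 2 * wt k w A L t) ν := by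
  obtain ⟨C, hC0, hC⟩ := MS.Q8.bdd_ev P
  obtain ⟨D, hD0, hD⟩ := bdd_wt hk w A L
  refine MS.Q8.integ (((continuous_ev P).norm.pow 2).mul (cont_wt hk w A L)) (C := C ^ 2 * D) fun t => ?_
  rw [abs_of_nonneg (mul_nonneg (by positivity) (wt_nonneg _ _ _ _ _))]
  exact mul_le_mul (pow_le_pow_left₀ (norm_nonneg _) (hC t) 2) (hD t) (wt_nonneg _ _ _ _ _)
    (by positivity)

/-- the mean of the rough part against a polynomial over the groups -/
lemma mean_eq (h23 : DecPhi) {q : ℕ} {k : ℝ} {w : ℝ → ℂ} {g : ℝ} (hg : 1 ≤ g) {v p0 Kb : ℕ}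
    (hDec : Dec k w (Real.exp (2 * v)) g) {ε D : ℝ} (hε : 0 < ε) (hD : 0 ≤ D) : ∃ N : ℝ, 1 ≤ N ∧
    ∀ (A : Par) (L X η : ℝ) (ν : Measure ℝ), Std q v p0 N A L X η ν → ∀ F : DP, LS A (D * L) F →
    |∫ t, ‖ev t (B0 k Kb p0 * F)‖ ^ 2 * wt k w A L t ∂ν - g * (En (B0 k Kb p0) * En F)|
      ≤ ε * (g * (En (B0 k Kb p0) * En F)) := by
  obtain ⟨N1, hN1, h⟩ := h23 k w _ g (by linarith) hDec ε hε
  obtain ⟨N0, hN0, hsb⟩ := supp_bd (B0 k Kb p0)
  have hE : 1 ≤ Real.exp (2 * v) := Real.one_le_exp (by positivity)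
  refine ⟨(N1 + Real.log p0 + p0) * Real.exp (2 * v) + 2 * N0 + 2 * D, ?_, ?_⟩
  · have h1 : 0 ≤ Real.log (p0 : ℝ) := Real.log_natCast_nonneg _
    have h2 : (0 : ℝ) ≤ p0 := Nat.cast_nonneg _
    nlinarith
  intro A L X η ν hS F hF
  have hp0n : (0 : ℝ) ≤ p0 := Nat.cast_nonneg _
  have hlog : 0 ≤ Real.log (p0 : ℝ) := Real.log_natCast_nonneg _
  have hNe : N1 * Real.exp (2 * v) ≤ (N1 + Real.log p0 + p0) * Real.exp (2 * v) := by
    gcongr; linarith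
  have hN1' : N1 ≤ N1 * Real.exp (2 * v) := by nlinarith
  have hL1 : N1 ≤ L := by linarith [hS.hL]
  have hL0 : 1 ≤ L := by linarith
  have hYL : A.Y ≤ L := by
    rw [hS.hY]
    have : Real.exp (-(2 * (v : ℝ))) ≤ 1 := Real.exp_le_one_iff.mpr (by
      have : (0 : ℝ) ≤ v := Nat.cast_nonneg _
      linarith)
    nlinarith
  have hee : Real.exp (2 * (v : ℝ)) * Real.exp (-(2 * v)) = 1 := by
    rw [← Real.exp_add, add_neg_cancel, Real.exp_zero]
  have hKY : Real.exp (2 * v) * A.Y = L := by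
    rw [hS.hY]
    calc Real.exp (2 * (v : ℝ)) * (L * Real.exp (-(2 * v)))
        = L * (Real.exp (2 * (v : ℝ)) * Real.exp (-(2 * v))) := by ring
      _ = L := by rw [hee, mul_one]
  have hY1 : N1 + Real.log p0 + p0 ≤ A.Y := by
    have h1 : (N1 + Real.log p0 + p0) * Real.exp (2 * v) ≤ Real.exp (2 * v) * A.Y := by
      rw [hKY]; linarith [hS.hL]
    have h2 : 0 < Real.exp (2 * (v : ℝ)) := Real.exp_pos _
    nlinarith
  have hη0 := hS.η0
  have hηN : η * N1 ≤ 1 := by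
    refine le_trans (mul_le_mul_of_nonneg_left ?_ hη0) hS.ηN
    linarith
  have hX1 : Real.exp (N1 * A.Y) ≤ X := by
    refine le_trans (Real.exp_le_exp.mpr ?_) hS.hX
    have h1 : N1 * A.Y ≤ N1 * L := by gcongr
    have h2 : N1 * L ≤ ((N1 + Real.log p0 + p0) * Real.exp (2 * v) + 2 * N0 + 2 * D) * L := by
      gcongr; linarith
    linarith
  have hp0Y : p0 ≤ ⌊Real.exp A.Y⌋₊ := by
    refine Nat.le_floor ?_
    have h2 := Real.add_one_le_exp A.Y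
    linarith
  have hA := hS.ok
  have hpe := hS.hp
  have hEF : En (B0 k Kb p0 * F) = En (B0 k Kb p0) * En F := by
    rw [← hpe]; exact En_B0_mul hA k Kb hF
  have hfin := h ν X η A.Y (B0 k Kb p0 * F) hS.mvp (by linarith) hX1 hη0 hηN (by
    intro n hn
    obtain ⟨x, y, hx, hy, rfl⟩ := J4.NInt.coeff_mul_ne hn
    obtain ⟨h1, h2⟩ := hF y hy
    have h3 := NL.sup_B0 k Kb p0 x hx
    have h4 := hsb x hx
    refine ⟨mul_mem_Smo ?_ ?_, ?_⟩
    · refine ⟨h3.1, fun p hp hpn => ?_⟩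
      have h5 := h3.2 p hp hpn
      simp only [Finset.mem_coe, Psm, Finset.mem_filter, Finset.mem_Ioc] at h5
      exact h5.1.2.trans hp0Y
    · exact ⟨h1.1, fun p hp hpn => SU_le (h1.2 p hp hpn)⟩
    · refine le_trans ?_ hS.hX
      push_cast
      calc ((x : ℝ) * y) ^ 2 ≤ (Real.exp N0 * Real.exp (D * L)) ^ 2 := by gcongr
        _ = Real.exp (2 * N0 + 2 * (D * L)) := by
            rw [← Real.exp_add, ← Real.exp_nat_mul]
            congr 1
            push_cast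
            ring
        _ ≤ _ := by
            apply Real.exp_le_exp.mpr
            have h6 : 2 * N0 ≤ 2 * N0 * L := by nlinarith
            have h7 : 0 ≤ (N1 + Real.log p0 + p0) * Real.exp (2 * v) * L := by positivity
            nlinarith)
  rw [hKY, hEF] at hfin
  refine hfin.trans ?_
  have h8 : 0 ≤ En (B0 k Kb p0) * En F := mul_nonneg (J4.En_nonneg' _) (J4.En_nonneg' _)
  exact mul_le_mul_of_nonneg_left (le_mul_of_one_le_left h8 hg) hε.le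

end MainI

end Pool.Agent.Lib.MT
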