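import Mathlib
import Pool.Agent.Lib.MP_f9aece_nt_mt.MainBase

/-!
Mesoscopic moments of zeta, module T32: upper bound for the main term.
-/

set_option autoImplicit false

namespace Pool.Agent.Lib.MT

open MeasureTheory Set Filter Topology Complex
open scoped ComplexConjugate
open scoped ArithmeticFunction.Omega
open Pool.Agent.Lib.MP_f9aece_nt (DP pair BK K1 ev PP VV Smo expo)
open Pool.Agent.Lib.MP_f9aece_nt_h40 (ind)
open Pool.Agent.Lib.MP_f9aece_nt_h85 (Rst)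
open Pool.Agent.Lib.MP_f9aece_nt_h97 (Psm Dsm evs)
open Pool.Agent.Lib.NL (pt B0)
open Pool.Agent.Lib.J4 (En V2)
open Pool.Agent.Lib.MS (Len MVP Par RW TZ Cut un zr ex hq af ZS)

open MainI
open Pool.Agent.Lib.MP_f9aece_nt (ev_apply continuous_ev mul_mem_Smo Smo_pos one_mem_Smo)

namespace MainI

/-- length of the polynomials over the groups -/
lemma ell_le {q v p0 : ℕ} {N L X η : ℝ} {A : Par} {ν : Measure ℝ} (hN : 1 ≤ N)
    (hS : Std q v p0 N A L X η ν) : A.ell 0 ≤ 400000 * (q : ℝ) ^ 3 * v * L := by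
  have hL : 1 ≤ L := hN.trans hS.hL
  have hYL : A.Y ≤ L := by
    rw [hS.hY]
    have : Real.exp (-(2 * (v : ℝ))) ≤ 1 := Real.exp_le_one_iff.mpr (by
      have : (0 : ℝ) ≤ v := Nat.cast_nonneg _
      linarith)
    nlinarith
  unfold Par.ell
  split_ifs
  · have h1 : A.y 0 = A.Y := by
      unfold Par.y J4.Yg
      simp
    rw [h1, hS.hq, hS.hv]
    have h2 : 0 ≤ 400000 * (q : ℝ) ^ 3 * v := by positivity
    calc 400000 * (q : ℝ) ^ 3 * v * ((0 : ℕ) + 1) ^ 2 * A.Y = 400000 * (q : ℝ) ^ 3 * v * A.Y := by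
          push_cast; ring
      _ ≤ _ := by gcongr
  · positivity

lemma bdd_Mn_cont {A : Par} {k : ℝ} (hk : 0 < k) (w : ℝ → ℂ) (L : ℝ) {b : ℝ}
    (hd : ∀ t, ‖(ev t (Dsm A.p0))⁻¹‖ ≤ b) (hd0 : ∀ t, ev t (Dsm A.p0) ≠ 0) {ν : Measure ℝ}
    [IsProbabilityMeasure ν] : Integrable (fun t => ‖Mn w A L t‖ ^ (2 * k)) ν := by
  obtain ⟨C1, h1, h2⟩ := MS.Q8.bdd_ev (A.EI 0)
  obtain ⟨C2, h3, h4⟩ := bdd_SW w 0 A.Y L
  have hb : 0 ≤ b := (norm_nonneg _).trans (hd 0)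
  have hM : ∀ t, Mn w A L t = (ev t (Dsm A.p0))⁻¹ * ev t (A.EI 0) * SW w 0 A.Y L t := by
    intro t
    unfold Mn
    rw [evs_pt]
  refine MS.Q8.integ (C := (b * C1 * C2) ^ (2 * k)) ?_ fun t => ?_
  · refine Continuous.rpow_const ?_ fun t => Or.inr (by positivity)
    simp only [hM]
    exact ((((continuous_ev _).inv₀ hd0).mul (continuous_ev _)).mul (cont_SW w 0 A.Y L)).norm
  · rw [abs_of_nonneg (by positivity)]
    refine Real.rpow_le_rpow (norm_nonneg _) ?_ (by positivity)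
    rw [hM, norm_mul, norm_mul]
    have := hd t
    have := h2 t
    have := h4 t
    gcongr

/-- the small primes: consequences of `SmallOk` -/
lemma small_bd {k δ : ℝ} (hk : 0 < k) {p0 Kb : ℕ} (h : SmallOk k δ p0 Kb) (hδ1 : δ ≤ 1 / 2) (t : ℝ) :
    ev t (Dsm p0) ≠ 0 ∧
    (‖ev t (Dsm p0)‖ ^ (2 * k))⁻¹ ≤ (1 - δ)⁻¹ * ‖ev t (B0 k Kb p0)‖ ^ 2 ∧
    (0 ≤ δ → (1 + δ)⁻¹ * ‖ev t (B0 k Kb p0)‖ ^ 2 ≤ (‖ev t (Dsm p0)‖ ^ (2 * k))⁻¹) := by
  have h1 := h t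
  rw [evs_pt, evs_pt, abs_le] at h1
  have hd0 : ev t (Dsm p0) ≠ 0 := by
    intro h2
    rw [h2, norm_zero, Real.zero_rpow (by positivity), mul_zero] at h1
    linarith [h1.1]
  have hd : 0 < ‖ev t (Dsm p0)‖ ^ (2 * k) := Real.rpow_pos_of_pos (norm_pos_iff.mpr hd0) _
  refine ⟨hd0, ?_, fun hδ => ?_⟩
  · rw [inv_eq_one_div, div_le_iff₀ hd, mul_assoc]
    have h3 : (1 - δ) ≤ ‖ev t (B0 k Kb p0)‖ ^ 2 * ‖ev t (Dsm p0)‖ ^ (2 * k) := by linarith [h1.1]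
    have h4 : 0 < 1 - δ := by linarith
    calc (1 : ℝ) = (1 - δ)⁻¹ * (1 - δ) := (inv_mul_cancel₀ h4.ne').symm
      _ ≤ _ := by gcongr
  · rw [le_inv_comm₀ ?_ hd]
    · rw [mul_inv, inv_inv]
      by_cases h0 : ‖ev t (B0 k Kb p0)‖ ^ 2 = 0
      · exfalso
        rw [h0, zero_mul] at h1
        linarith [h1.1]
      · have h5 : 0 < ‖ev t (B0 k Kb p0)‖ ^ 2 := lt_of_le_of_ne (by positivity) (Ne.symm h0)
        rw [← div_eq_mul_inv, le_div_iff₀ h5]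
        linarith [h1.2]
    · have h5 : 0 < ‖ev t (B0 k Kb p0)‖ ^ 2 := by
        by_contra h6
        have h7 : ‖ev t (B0 k Kb p0)‖ ^ 2 = 0 := le_antisymm (not_lt.mp h6) (by positivity)
        rw [h7, zero_mul] at h1
        linarith [h1.1]
      positivity

lemma norm_Mn {A : Par} {k : ℝ} (w : ℝ → ℂ) (L t : ℝ) :
    ‖Mn w A L t‖ ^ (2 * k) = (‖ev t (Dsm A.p0)‖ ^ (2 * k))⁻¹ * ‖ev t (A.EI 0)‖ ^ (2 * k) * wt k w A L t := by
  unfold Mn wt
  rw [evs_pt, norm_mul, norm_mul, Real.mul_rpow (by positivity) (by positivity),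
    Real.mul_rpow (by positivity) (by positivity), norm_inv, Real.inv_rpow (by positivity)]

end MainI

theorem mainUp (hy : MS.PtYoung) (he : MS.SumE) (hb : MS.SumB) (hl : MS.LenB) (_h25 : SmallLine) (h23 : DecPhi) :
    MainUp := by
  intro q k ε hq1 hk0 hk1 hk2 hε
  obtain ⟨CE, hCE, hE⟩ := he q hq1
  obtain ⟨CB, hCB, hB⟩ := hb q hq1
  have hq0 : (0 : ℝ) < q := by exact_mod_cast hq1
  obtain ⟨x, hx⟩ : ∃ x, x = Real.log (1 + ε) := ⟨_, rfl⟩
  have hx0 : 0 < x := by rw [hx]; exact Real.log_pos (by linarith)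
  have hxe : Real.exp x = 1 + ε := by rw [hx]; exact Real.exp_log (by linarith)
  obtain ⟨δ, hδ⟩ : ∃ δ, δ = min (1 / 2) (x / 8) := ⟨_, rfl⟩
  have hδ0 : 0 < δ := by rw [hδ]; exact lt_min (by norm_num) (by linarith)
  have hδ1 : δ ≤ 1 / 2 := by rw [hδ]; exact min_le_left _ _
  have hδ2 : δ ≤ x / 8 := by rw [hδ]; exact min_le_right _ _
  obtain ⟨p1, hp1⟩ := exists_nat_ge (1000 + 4 * (CE + CB) / x)
  obtain ⟨v1, hv1⟩ : ∃ v1 : ℕ, ∀ v : ℕ, v1 ≤ v → 5 * Real.exp (-(v : ℝ)) ≤ x / 4 := by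
    have h1 : Tendsto (fun v : ℕ => 5 * Real.exp (-(v : ℝ))) atTop (𝓝 (5 * 0)) :=
      (Real.tendsto_exp_neg_atTop_nhds_zero.comp tendsto_natCast_atTop_atTop).const_mul 5
    rw [mul_zero] at h1
    exact eventually_atTop.mp (h1.eventually_le_const (by positivity))
  refine ⟨δ, p1, max 4 v1, hδ0, ?_, le_max_left _ _, ?_⟩
  · have h1 : (1000 : ℝ) ≤ p1 := by
      have : 0 ≤ 4 * (CE + CB) / x := by positivity
      linarith
    exact_mod_cast h1
  intro p0 v Kb hp0 hv hSm w g hg hDec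
  obtain ⟨N, hN, hmean⟩ := mean_eq h23 (q := q) (p0 := p0) hg hDec (Kb := Kb) (ε := x / 4)
    (D := 400000 * (q : ℝ) ^ 3 * v) (by positivity) (by positivity)
  refine ⟨N, hN, fun A L X η ν hS => ?_⟩
  have hA := hS.ok
  have hAq := hS.hq
  have hAv := hS.hv
  have hAp := hS.hp
  have := hS.mvp.prob
  rw [← hAp] at hSm hmean ⊢
  obtain ⟨α, hα⟩ : ∃ α : ℝ, α = k / q := ⟨_, rfl⟩
  have hα0 : 0 < α := by rw [hα]; positivity
  have hα1 : α ≤ 1 := by rw [hα, div_le_one hq0]; exact hk2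
  have hell := ell_le hN hS
  have hlen := hl A hA 0 (Nat.zero_le _)
  rw [hAq] at hlen
  obtain ⟨Eb, hEb⟩ : ∃ Eb, Eb = En (B0 k Kb A.p0) := ⟨_, rfl⟩
  have hEb0 : 0 ≤ Eb := by rw [hEb]; exact J4.En_nonneg' _
  rw [← hEb] at hmean ⊢
  -- the two families
  set P1 : Finset ℕ → DP := fun s => A.EI 0 ^ q * A.B (k - q) 0 s with hP1
  set P2 : Finset ℕ → DP := fun s => A.B k 0 s with hP2
  have hI1 : ∀ s ∈ (Finset.Ico 0 A.J).powerset,
      ∫ t, ‖ev t (B0 k Kb A.p0 * P1 s)‖ ^ 2 * wt k w A L t ∂ν ≤ (1 + x / 4) * (g * Eb) * En (P1 s) := by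
    intro s hs
    have h1 := hmean A L X η ν (by rw [hAp]; exact hS) (P1 s)
      ((ls_of_log fun n hn => (hlen (k - q) s hs n).1 hn).mono hell)
    have h2 := (abs_le.mp h1).2
    nlinarith
  have hI2 : ∀ s ∈ (Finset.Ico 0 A.J).powerset,
      ∫ t, ‖ev t (B0 k Kb A.p0 * P2 s)‖ ^ 2 * wt k w A L t ∂ν ≤ (1 + x / 4) * (g * Eb) * En (P2 s) := by
    intro s hs
    have h1 := hmean A L X η ν (by rw [hAp]; exact hS) (P2 s)
      ((ls_of_log fun n hn => (hlen k s hs n).2.1 hn).mono hell)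
    have h2 := (abs_le.mp h1).2
    nlinarith
  obtain ⟨E0, hE0⟩ : ∃ E0, E0 = Real.exp (Real.exp (-(A.v : ℝ))) := ⟨_, rfl⟩
  have hE00 : 0 < E0 := by rw [hE0]; exact Real.exp_pos _
  have hδi : 0 < (1 - δ)⁻¹ := inv_pos.mpr (by linarith)
  -- pointwise bound
  have hpt : ∀ t : ℝ, ‖Mn w A L t‖ ^ (2 * k)
      ≤ (1 - δ)⁻¹ * E0 * (α * (∑ s ∈ (Finset.Ico 0 A.J).powerset,
          A.W s * (‖ev t (B0 k Kb A.p0 * P1 s)‖ ^ 2 * wt k w A L t))
        + (1 - α) * (∑ s ∈ (Finset.Ico 0 A.J).powerset,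
          A.W s * (‖ev t (B0 k Kb A.p0 * P2 s)‖ ^ 2 * wt k w A L t))) := by
    intro t
    obtain ⟨G, H, hG, hH, hz, hGb, hHb⟩ := hy A hA 0 k hk0 (by rw [hAq]; linarith)
      (by rw [hAq]; exact hk2) t
    rw [hAq] at hz hGb
    rw [← hE0] at hGb hHb
    rw [norm_Mn, hz (ev t (A.EI 0))]
    have h1 := MS.Q8.amgm (x := ‖ev t (A.EI 0)‖ ^ (2 * q) * G) (y := H) (by positivity) hH.le
      hα0.le hα1 one_pos
    rw [Real.one_rpow, Real.one_rpow, one_mul, one_mul] at h1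
    obtain ⟨-, h2, -⟩ := small_bd hk0 hSm hδ1 t
    have hw := wt_nonneg k w A L t
    have h3 : ‖ev t (A.EI 0)‖ ^ (2 * q) * G
        ≤ E0 * ∑ s ∈ (Finset.Ico 0 A.J).powerset, A.W s * ‖ev t (P1 s)‖ ^ 2 := by
      calc ‖ev t (A.EI 0)‖ ^ (2 * q) * G
          ≤ ‖ev t (A.EI 0)‖ ^ (2 * q) * (E0 * ∑ s ∈ (Finset.Ico 0 A.J).powerset,
              A.W s * ‖ev t (A.B (k - q) 0 s)‖ ^ 2) := by gcongr
        _ = _ := by
            rw [Finset.mul_sum, Finset.mul_sum, Finset.mul_sum]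
            refine Finset.sum_congr rfl fun s _ => ?_
            simp only [hP1, map_mul, map_pow, norm_mul, norm_pow]
            ring
    have h4 : (‖ev t (A.EI 0)‖ ^ (2 * q) * G) ^ (k / q) * H ^ (1 - k / q)
        ≤ α * (E0 * ∑ s ∈ (Finset.Ico 0 A.J).powerset, A.W s * ‖ev t (P1 s)‖ ^ 2)
          + (1 - α) * (E0 * ∑ s ∈ (Finset.Ico 0 A.J).powerset, A.W s * ‖ev t (P2 s)‖ ^ 2) := by
      rw [← hα]
      refine h1.trans (add_le_add ?_ ?_)
      · exact mul_le_mul_of_nonneg_left h3 hα0.le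
      · exact mul_le_mul_of_nonneg_left hHb (by linarith)
    have h5 : 0 ≤ (‖ev t (A.EI 0)‖ ^ (2 * q) * G) ^ (k / q) * H ^ (1 - k / q) := by positivity
    calc (‖ev t (Dsm A.p0)‖ ^ (2 * k))⁻¹ * ((‖ev t (A.EI 0)‖ ^ (2 * q) * G) ^ (k / q) * H ^ (1 - k / q))
          * wt k w A L t
        ≤ ((1 - δ)⁻¹ * ‖ev t (B0 k Kb A.p0)‖ ^ 2) *
          (α * (E0 * ∑ s ∈ (Finset.Ico 0 A.J).powerset, A.W s * ‖ev t (P1 s)‖ ^ 2)
          + (1 - α) * (E0 * ∑ s ∈ (Finset.Ico 0 A.J).powerset, A.W s * ‖ev t (P2 s)‖ ^ 2))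
          * wt k w A L t := by gcongr
      _ = _ := by
          have e1 : ∀ P : Finset ℕ → DP, ∑ s ∈ (Finset.Ico 0 A.J).powerset,
              A.W s * (‖ev t (B0 k Kb A.p0 * P s)‖ ^ 2 * wt k w A L t)
              = ‖ev t (B0 k Kb A.p0)‖ ^ 2 * wt k w A L t
                * ∑ s ∈ (Finset.Ico 0 A.J).powerset, A.W s * ‖ev t (P s)‖ ^ 2 := by
            intro P
            rw [Finset.mul_sum]
            refine Finset.sum_congr rfl fun s _ => ?_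
            rw [map_mul, norm_mul]
            ring
          rw [e1, e1]
          ring
  have hint : ∀ (P : Finset ℕ → DP), Integrable (fun t : ℝ =>
      ∑ s ∈ (Finset.Ico 0 A.J).powerset, A.W s * (‖ev t (B0 k Kb A.p0 * P s)‖ ^ 2 * wt k w A L t)) ν := by
    intro P
    exact integrable_finsetSum _ fun s _ => (integ_wt hk0 w A L _).const_mul _
  have hsum : ∀ (P : Finset ℕ → DP), ∫ t, (∑ s ∈ (Finset.Ico 0 A.J).powerset,
      A.W s * (‖ev t (B0 k Kb A.p0 * P s)‖ ^ 2 * wt k w A L t)) ∂ν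
      = ∑ s ∈ (Finset.Ico 0 A.J).powerset,
      A.W s * ∫ t, ‖ev t (B0 k Kb A.p0 * P s)‖ ^ 2 * wt k w A L t ∂ν := by
    intro P
    rw [integral_finsetSum _ fun s _ => (integ_wt hk0 w A L _).const_mul _]
    exact Finset.sum_congr rfl fun s _ => integral_const_mul _ _
  obtain ⟨V, hV⟩ : ∃ V, V = A.V 0 := ⟨_, rfl⟩
  obtain ⟨y, hyd⟩ : ∃ y, y = x / 4 + 4 * Real.exp (-(A.v : ℝ)) := ⟨_, rfl⟩
  have hpA : (0 : ℝ) < A.p0 := by
    have := hA.hp
    exact_mod_cast (by omega : 0 < A.p0)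
  have hCp : ∀ C : ℝ, 0 ≤ C → C ≤ CE + CB → C / A.p0 ≤ x / 4 := by
    intro C hC0 hC
    rw [div_le_iff₀ hpA]
    have h1 : (p1 : ℝ) ≤ A.p0 := by
      rw [hAp]; exact_mod_cast hp0
    have h2 : 4 * (CE + CB) / x ≤ A.p0 := by linarith
    rw [div_le_iff₀ hx0] at h2
    nlinarith
  have hS1 : ∑ s ∈ (Finset.Ico 0 A.J).powerset,
      A.W s * ∫ t, ‖ev t (B0 k Kb A.p0 * P1 s)‖ ^ 2 * wt k w A L t ∂ν
      ≤ (1 + x / 4) * (g * Eb) * Real.exp (k ^ 2 * V + y) := by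
    calc ∑ s ∈ (Finset.Ico 0 A.J).powerset,
          A.W s * ∫ t, ‖ev t (B0 k Kb A.p0 * P1 s)‖ ^ 2 * wt k w A L t ∂ν
        ≤ ∑ s ∈ (Finset.Ico 0 A.J).powerset, A.W s * ((1 + x / 4) * (g * Eb) * En (P1 s)) :=
          Finset.sum_le_sum fun s hs => mul_le_mul_of_nonneg_left (hI1 s hs) (MS.Q8.Wnn A s)
      _ = (1 + x / 4) * (g * Eb) * ∑ s ∈ (Finset.Ico 0 A.J).powerset, A.W s * En (P1 s) := by
          rw [Finset.mul_sum]
          exact Finset.sum_congr rfl fun s _ => by ring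
      _ ≤ (1 + x / 4) * (g * Eb) * Real.exp ((q + (k - q)) ^ 2 * A.V 0 + CE / A.p0
            + 4 * Real.exp (-(A.v : ℝ))) := by
          refine mul_le_mul_of_nonneg_left ?_ (by positivity)
          exact hE A hAq hA 0 (k - q) (abs_le.2 ⟨by linarith, by linarith⟩)
      _ ≤ _ := by
          refine mul_le_mul_of_nonneg_left ?_ (by positivity)
          apply Real.exp_le_exp.2
          have e1 : ((q : ℝ) + (k - q)) = k := by ring
          rw [e1, hyd, ← hV]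
          have := hCp CE hCE (by linarith)
          linarith
  have hS2 : ∑ s ∈ (Finset.Ico 0 A.J).powerset,
      A.W s * ∫ t, ‖ev t (B0 k Kb A.p0 * P2 s)‖ ^ 2 * wt k w A L t ∂ν
      ≤ (1 + x / 4) * (g * Eb) * Real.exp (k ^ 2 * V + y) := by
    calc ∑ s ∈ (Finset.Ico 0 A.J).powerset,
          A.W s * ∫ t, ‖ev t (B0 k Kb A.p0 * P2 s)‖ ^ 2 * wt k w A L t ∂ν
        ≤ ∑ s ∈ (Finset.Ico 0 A.J).powerset, A.W s * ((1 + x / 4) * (g * Eb) * En (P2 s)) :=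
          Finset.sum_le_sum fun s hs => mul_le_mul_of_nonneg_left (hI2 s hs) (MS.Q8.Wnn A s)
      _ = (1 + x / 4) * (g * Eb) * ∑ s ∈ (Finset.Ico 0 A.J).powerset, A.W s * En (P2 s) := by
          rw [Finset.mul_sum]
          exact Finset.sum_congr rfl fun s _ => by ring
      _ ≤ (1 + x / 4) * (g * Eb) * Real.exp (k ^ 2 * A.V 0 + CB / A.p0
            + 4 * Real.exp (-(A.v : ℝ))) := by
          refine mul_le_mul_of_nonneg_left ?_ (by positivity)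
          exact hB A hAq hA 0 k (by rw [abs_of_pos hk0]; exact hk2)
      _ ≤ _ := by
          refine mul_le_mul_of_nonneg_left ?_ (by positivity)
          apply Real.exp_le_exp.2
          rw [hyd, ← hV]
          have := hCp CB hCB (by linarith)
          linarith
  have hδe : (1 - δ)⁻¹ ≤ Real.exp (x / 4) := by
    have h1 : Real.exp (-(2 * δ)) ≤ 1 - δ := by
      have h2 := Real.exp_bound_div_one_sub_of_interval (x := 2 * δ) (by linarith)
      by_cases hlt : 2 * δ < 1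
      · have h3 : Real.exp (-(2 * δ)) ≤ 1 - 2 * δ + (2 * δ) ^ 2 / 2 := by
          have := Real.exp_bound' (x := 2 * δ) (by linarith) (by linarith) (n := 1) (by norm_num)
          have h5 := Real.quadratic_le_exp_of_nonneg (x := 2 * δ) (by linarith)
          have h6 : Real.exp (-(2 * δ)) * Real.exp (2 * δ) = 1 := by
            rw [← Real.exp_add, neg_add_cancel, Real.exp_zero]
          have h7 : 0 < Real.exp (-(2 * δ)) := Real.exp_pos _
          have h8 : 1 ≤ (1 - 2 * δ + (2 * δ) ^ 2 / 2) * (1 + 2 * δ + (2 * δ) ^ 2 / 2) := by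
            nlinarith [sq_nonneg δ, pow_pos hδ0 2, pow_pos hδ0 4]
          by_contra hcon
          push Not at hcon
          have h9 : 0 < 1 - 2 * δ + (2 * δ) ^ 2 / 2 := by nlinarith [sq_nonneg (1 - 2 * δ)]
          nlinarith
        nlinarith
      · have h3 : δ = 1 / 2 := by linarith
        rw [h3]
        have h4 := Real.add_one_le_exp (1 : ℝ)
        have h6 : Real.exp (-(2 * (1 / 2))) * Real.exp 1 = 1 := by
          rw [← Real.exp_add]; norm_num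
        have h7 : 0 < Real.exp (-(2 * (1 / 2))) := Real.exp_pos _
        nlinarith
    calc (1 - δ)⁻¹ ≤ (Real.exp (-(2 * δ)))⁻¹ := inv_anti₀ (Real.exp_pos _) h1
      _ = Real.exp (2 * δ) := by rw [Real.exp_neg, inv_inv]
      _ ≤ _ := Real.exp_le_exp.mpr (by linarith)
  have hone : (1 + x / 4) ≤ Real.exp (x / 4) := by
    have := Real.add_one_le_exp (x / 4)
    linarith
  have hMi : Integrable (fun t => ‖Mn w A L t‖ ^ (2 * k)) ν := by
    obtain ⟨Cb, hCb0, hCb⟩ := MS.Q8.bdd_ev (B0 k Kb A.p0)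
    refine bdd_Mn_cont hk0 w L (b := (((1 - δ)⁻¹ * Cb ^ 2) ^ (2 * k)⁻¹)) (fun t => ?_)
      fun t => (small_bd hk0 hSm hδ1 t).1
    obtain ⟨h1, h2, -⟩ := small_bd hk0 hSm hδ1 t
    have h3 : ‖(ev t (Dsm A.p0))⁻¹‖ ^ (2 * k) ≤ (1 - δ)⁻¹ * Cb ^ 2 := by
      rw [norm_inv, Real.inv_rpow (norm_nonneg _)]
      refine h2.trans ?_
      have := hCb t
      gcongr
    calc ‖(ev t (Dsm A.p0))⁻¹‖ = (‖(ev t (Dsm A.p0))⁻¹‖ ^ (2 * k)) ^ (2 * k)⁻¹ := by
          rw [← Real.rpow_mul (norm_nonneg _), mul_inv_cancel₀ (by positivity), Real.rpow_one]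
      _ ≤ _ := Real.rpow_le_rpow (by positivity) h3 (by positivity)
  calc ∫ t, ‖Mn w A L t‖ ^ (2 * k) ∂ν
      ≤ ∫ t, (1 - δ)⁻¹ * E0 * (α * (∑ s ∈ (Finset.Ico 0 A.J).powerset,
          A.W s * (‖ev t (B0 k Kb A.p0 * P1 s)‖ ^ 2 * wt k w A L t))
        + (1 - α) * (∑ s ∈ (Finset.Ico 0 A.J).powerset,
          A.W s * (‖ev t (B0 k Kb A.p0 * P2 s)‖ ^ 2 * wt k w A L t))) ∂ν :=
        integral_mono hMi ((((hint P1).const_mul _).add ((hint P2).const_mul _)).const_mul _) hpt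
    _ = (1 - δ)⁻¹ * E0 * (α * (∑ s ∈ (Finset.Ico 0 A.J).powerset,
          A.W s * ∫ t, ‖ev t (B0 k Kb A.p0 * P1 s)‖ ^ 2 * wt k w A L t ∂ν)
        + (1 - α) * (∑ s ∈ (Finset.Ico 0 A.J).powerset,
          A.W s * ∫ t, ‖ev t (B0 k Kb A.p0 * P2 s)‖ ^ 2 * wt k w A L t ∂ν)) := by
        rw [integral_const_mul, integral_add ((hint P1).const_mul _) ((hint P2).const_mul _),
          integral_const_mul, integral_const_mul, hsum, hsum]
    _ ≤ (1 - δ)⁻¹ * E0 * (α * ((1 + x / 4) * (g * Eb) * Real.exp (k ^ 2 * V + y))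
        + (1 - α) * ((1 + x / 4) * (g * Eb) * Real.exp (k ^ 2 * V + y))) := by
        have : 0 ≤ 1 - α := by linarith
        gcongr
    _ = (1 - δ)⁻¹ * E0 * (1 + x / 4) * Real.exp y * (g * Eb * Real.exp (k ^ 2 * V)) := by
        rw [Real.exp_add]; ring
    _ ≤ Real.exp (x / 4) * E0 * Real.exp (x / 4) * Real.exp y * (g * Eb * Real.exp (k ^ 2 * V)) := by
        gcongr
    _ ≤ (1 + ε) * (g * Eb * Real.exp (k ^ 2 * V)) := by
        refine mul_le_mul_of_nonneg_right ?_ (by positivity)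
        rw [← hxe, hE0, ← Real.exp_add, ← Real.exp_add, ← Real.exp_add]
        apply Real.exp_le_exp.mpr
        have h1 := hv1 v ((le_max_right _ _).trans hv)
        rw [hyd, hAv]
        linarith
    _ = (1 + ε) * (Eb * g * Real.exp (k ^ 2 * A.V 0)) := by rw [hV]; ring

end Pool.Agent.Lib.MT
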