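import Mathlib
import Pool.Agent.Lib.MP_f9aece_nt_mt.T32MainUp

/-!
Mesoscopic moments of zeta, module T33: lower bound for the main term.
-/

set_option autoImplicit false

namespace Pool.Agent.Lib.MT

open MeasureTheory Set Filter Topology Complex
open scoped ComplexConjugate
open scoped ArithmeticFunction.Omega
open Pool.Agent.Lib.MP_f9aece_nt (DP pair BK K1 ev PP VV Smo expo)
open Pool.Agent.Lib.MP_f9aece_nt_h40 (ind)
open Pool.Agent.Lib.MP_f9aece_nt_h85 (Rst)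
open Pool.Agent.Lib.MP_f9aece_nt_h97 (Psm Dsm evs)
open Pool.Agent.Lib.NL (pt B0)
open Pool.Agent.Lib.J4 (En V2)
open Pool.Agent.Lib.MS (Len MVP Par RW TZ Cut un zr ex hq af ZS)

open MainI
open Pool.Agent.Lib.MP_f9aece_nt (ev_apply continuous_ev mul_mem_Smo Smo_pos one_mem_Smo)

namespace MainI

/-- length of the powers of the prime sums -/
lemma ls_PPpow {q v p0 : ℕ} {N L X η : ℝ} {A : Par} {ν : Measure ℝ} (hN : 1 ≤ N)
    (hS : Std q v p0 N A L X η ν) {g : ℕ} (hg : g < A.J) :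
    LS A (400000 * (q : ℝ) ^ 3 * v * L) (PP (A.S g) ^ A.M g) := by
  have hA := hS.ok
  have hL : 1 ≤ L := hN.trans hS.hL
  have hYL : A.Y ≤ L := by
    rw [hS.hY]
    have : Real.exp (-(2 * (v : ℝ))) ≤ 1 := Real.exp_le_one_iff.mpr (by
      have : (0 : ℝ) ≤ v := Nat.cast_nonneg _
      linarith)
    nlinarith
  have hy0 : 0 ≤ A.y g := by
    unfold Par.y J4.Yg
    have := hA.hY
    positivity
  have hsup : ∀ n, (PP (A.S g)).coeff n ≠ 0 → n ∈ Smo (A.SU 0 : Set ℕ) ∧ (n : ℝ) ≤ Real.exp (A.y g) := by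
    intro n hn
    have h1 : n ∈ A.S g := by
      by_contra h2
      apply hn
      unfold PP
      rw [MonoidAlgebra.coeff_sum, Finsupp.finsetSum_apply]
      refine Finset.sum_eq_zero fun p hp => ?_
      rw [MonoidAlgebra.coeff_single, Finsupp.single_apply, if_neg]
      rintro rfl
      exact h2 hp
    have h2 : n.Prime ∧ A.p0 < n ∧ J4.Yg A.v A.Y (g + 1) < Real.log n ∧
        Real.log n ≤ J4.Yg A.v A.Y g := by
      unfold Par.S J4.Sg at h1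
      exact (Finset.mem_filter.mp h1).2
    constructor
    · refine ⟨h2.1.ne_zero, fun p hp hpn => ?_⟩
      have h3 : p = n := (Nat.prime_dvd_prime_iff_eq hp h2.1).mp hpn
      rw [h3]
      unfold Par.SU J4.SU
      exact_mod_cast Finset.mem_biUnion.mpr ⟨g, Finset.mem_Ico.mpr ⟨Nat.zero_le _, hg⟩, h1⟩
    · have h4 : (0 : ℝ) < n := by exact_mod_cast h2.1.pos
      rw [← Real.exp_log h4]
      exact Real.exp_le_exp.mpr h2.2.2.2
  have h1 := MS.Q8.len_pow (Real.one_le_exp hy0) hsup (A.M g)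
  intro n hn
  refine ⟨(h1 n hn).1, (h1 n hn).2.trans ?_⟩
  rw [← Real.exp_nat_mul]
  apply Real.exp_le_exp.mpr
  have h2 : (g + 1 : ℝ) * A.y g ≤ A.Y := by
    unfold Par.y J4.Yg
    have h3 : (g + 1 : ℝ) * Real.exp (-((A.v : ℝ) * g * (g + 1) / 2)) ≤ 1 := by
      have h4 : (g : ℝ) + 1 ≤ Real.exp g := Real.add_one_le_exp _
      have h5 : (4 : ℝ) ≤ A.v := by exact_mod_cast hA.hv
      have h6 : (g : ℝ) ≤ (A.v : ℝ) * g * (g + 1) / 2 := by
        have h7 : (0 : ℝ) ≤ g := Nat.cast_nonneg _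
        have h8 : (4 : ℝ) * g ≤ A.v * g := by gcongr
        nlinarith [mul_nonneg h7 h7]
      calc (g + 1 : ℝ) * Real.exp (-((A.v : ℝ) * g * (g + 1) / 2))
          ≤ Real.exp g * Real.exp (-(g : ℝ)) := by gcongr
        _ = 1 := by rw [← Real.exp_add, add_neg_cancel, Real.exp_zero]
    calc (g + 1 : ℝ) * (A.Y * Real.exp (-((A.v : ℝ) * g * (g + 1) / 2)))
        = A.Y * ((g + 1 : ℝ) * Real.exp (-((A.v : ℝ) * g * (g + 1) / 2))) := by ring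
      _ ≤ A.Y * 1 := by
          have := hA.hY.le
          gcongr
      _ = A.Y := mul_one _
  have h3 : (A.M g : ℝ) = 100000 * (q : ℝ) ^ 3 * v * (g + 1) := by
    unfold Par.M Par.r
    rw [hS.hq, hS.hv]
    push_cast
    ring
  rw [h3]
  have h4 : 0 ≤ 100000 * (q : ℝ) ^ 3 * v := by positivity
  calc 100000 * (q : ℝ) ^ 3 * v * (g + 1) * A.y g = 100000 * (q : ℝ) ^ 3 * v * ((g + 1) * A.y g) := by ring
    _ ≤ 100000 * (q : ℝ) ^ 3 * v * L := by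
        have := h2.trans hYL
        gcongr
    _ ≤ 400000 * (q : ℝ) ^ 3 * v * L := by
        have : 0 ≤ (q : ℝ) ^ 3 * v * L := by positivity
        nlinarith

lemma int_comb {ν : Measure ℝ} {f1 f2 : ℝ → ℝ} {f3 : ℕ → ℝ → ℝ} {s : Finset ℕ} (i1 : Integrable f1 ν)
    (i2 : Integrable f2 ν) (i3 : ∀ g ∈ s, Integrable (f3 g) ν) (a b c : ℝ) (r : ℕ → ℝ) :
    Integrable (fun t => a * (b * (b * f1 t - c * f2 t) - ∑ g ∈ s, r g * f3 g t)) ν ∧
    ∫ t, a * (b * (b * f1 t - c * f2 t) - ∑ g ∈ s, r g * f3 g t) ∂ν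
      = a * (b * (b * (∫ t, f1 t ∂ν) - c * ∫ t, f2 t ∂ν) - ∑ g ∈ s, r g * ∫ t, f3 g t ∂ν) := by
  have h1 : Integrable (fun t => b * f1 t - c * f2 t) ν := (i1.const_mul b).sub (i2.const_mul c)
  have h2 : Integrable (fun t => b * (b * f1 t - c * f2 t)) ν := h1.const_mul b
  have h3 : Integrable (fun t => ∑ g ∈ s, r g * f3 g t) ν :=
    integrable_finsetSum _ fun g hg => (i3 g hg).const_mul _
  refine ⟨(h2.sub h3).const_mul a, ?_⟩
  rw [integral_const_mul, integral_sub h2 h3, integral_const_mul,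
    integral_sub (i1.const_mul b) (i2.const_mul c), integral_const_mul, integral_const_mul,
    integral_finsetSum _ fun g hg => (i3 g hg).const_mul _]
  congr 2
  exact Finset.sum_congr rfl fun g _ => integral_const_mul _ _

end MainI

theorem mainLow (hl : MS.LenB) (_h25 : SmallLine) (h23 : DecPhi) (h30 : LowForm) (h31 : PtLow) :
    MainLow := by
  intro q k ε hq1 hk0 hk1 hk2 hε
  obtain ⟨C, hC, hF⟩ := h30 q hq1
  have hq0 : (0 : ℝ) < q := by exact_mod_cast hq1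
  have hq1' : (1 : ℝ) ≤ q := by exact_mod_cast hq1
  obtain ⟨e, he⟩ : ∃ e, e = min ε (1 / 2) / 16 := ⟨_, rfl⟩
  have hmin : 0 < min ε (1 / 2) := lt_min hε (by norm_num)
  have he0 : 0 < e := by rw [he]; positivity
  have he1 : 16 * e ≤ ε := by rw [he]; have := min_le_left ε (1 / 2); linarith
  have he2 : e ≤ 1 / 32 := by rw [he]; have := min_le_right ε (1 / 2); linarith
  obtain ⟨v2, hv2⟩ := h31 q k (e / 2) hq1 hk0 hk2 (by linarith) (by linarith)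
  obtain ⟨x0, hx0⟩ : ∃ x0, x0 = e ^ 2 / (q + 1) ^ 2 := ⟨_, rfl⟩
  have hx00 : 0 < x0 := by rw [hx0]; positivity
  obtain ⟨p1, hp1⟩ := exists_nat_ge (1000 + 2 * C / x0)
  obtain ⟨v1, hv1⟩ : ∃ v1 : ℕ, ∀ v : ℕ, v1 ≤ v → C * Real.exp (-(v : ℝ)) ≤ x0 / 2 := by
    have h1 : Tendsto (fun v : ℕ => C * Real.exp (-(v : ℝ))) atTop (𝓝 (C * 0)) :=
      (Real.tendsto_exp_neg_atTop_nhds_zero.comp tendsto_natCast_atTop_atTop).const_mul C
    rw [mul_zero] at h1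
    exact eventually_atTop.mp (h1.eventually_le_const (by positivity))
  refine ⟨e, p1, max 4 (max v1 v2), he0, ?_, le_max_left _ _, ?_⟩
  · have h1 : (1000 : ℝ) ≤ p1 := by
      have : 0 ≤ 2 * C / x0 := by positivity
      linarith
    exact_mod_cast h1
  intro p0 v Kb hp0 hv hSm w g hg hDec
  obtain ⟨D, hD⟩ : ∃ D : ℝ, D = 400000 * (q : ℝ) ^ 3 * v := ⟨_, rfl⟩
  have hD0 : 0 ≤ D := by rw [hD]; positivity
  obtain ⟨N, hN, hmean⟩ := mean_eq h23 (q := q) (p0 := p0) hg hDec (Kb := Kb) (ε := e)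
    (D := 2 * D) he0 (by positivity)
  refine ⟨N, hN, fun A L X η ν hS => ?_⟩
  have hA := hS.ok
  have hAq := hS.hq
  have hAv := hS.hv
  have hAp := hS.hp
  have hL1 : 1 ≤ L := hN.trans hS.hL
  have := hS.mvp.prob
  rw [← hAp] at hSm hmean ⊢
  have hell := ell_le hN hS
  rw [← hD] at hell
  have hDL : D * L ≤ 2 * D * L := by nlinarith [mul_nonneg hD0 (by linarith : (0:ℝ) ≤ L)]
  have hlen := hl A hA 0 (Nat.zero_le _)
  obtain ⟨Eb, hEb⟩ : ∃ Eb, Eb = En (B0 k Kb A.p0) := ⟨_, rfl⟩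
  have hEb0 : 0 ≤ Eb := by rw [hEb]; exact J4.En_nonneg' _
  rw [← hEb] at hmean ⊢
  have he3 : (∅ : Finset ℕ) ∈ (Finset.Ico 0 A.J).powerset := Finset.empty_mem_powerset _
  have lb : LS A (D * L) (A.B k 0 ∅) := (ls_of_log fun n hn => (hlen k ∅ he3 n).2.1 hn).mono hell
  have ld : LS A (D * L) (A.B (k - 1) 0 ∅) :=
    (ls_of_log fun n hn => (hlen (k - 1) ∅ he3 n).2.1 hn).mono hell
  have lE : LS A (D * L) (A.EI 0) := (ls_of_log fun n hn => (hlen k ∅ he3 n).2.2 hn).mono hell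
  have lEd : LS A (2 * D * L) (A.EI 0 * A.B (k - 1) 0 ∅ - A.B k 0 ∅) :=
    LS.sub ((lE.mul ld).mono (by linarith)) (lb.mono hDL)
  have lP : ∀ g ∈ Finset.range A.J, LS A (2 * D * L) (A.B k 0 ∅ * PP (A.S g) ^ A.M g) := by
    intro g hg
    have h1 := ls_PPpow hN hS (Finset.mem_range.mp hg)
    rw [← hD] at h1
    exact (lb.mul h1).mono (by linarith)
  obtain ⟨EV, hEV⟩ : ∃ EV, EV = Real.exp (k ^ 2 * A.V 0) := ⟨_, rfl⟩
  have hEV0 : 0 < EV := by rw [hEV]; exact Real.exp_pos _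
  obtain ⟨x, hx⟩ : ∃ x, x = C * (1 / A.p0 + Real.exp (-(A.v : ℝ))) := ⟨_, rfl⟩
  have hpA : (0 : ℝ) < A.p0 := by
    have := hA.hp
    exact_mod_cast (by omega : 0 < A.p0)
  have hxn : 0 ≤ x := by rw [hx]; positivity
  have hxx : x ≤ x0 := by
    rw [hx, mul_add]
    have h1 : C * (1 / (A.p0 : ℝ)) ≤ x0 / 2 := by
      rw [mul_one_div, div_le_iff₀ hpA]
      have h2 : (p1 : ℝ) ≤ A.p0 := by rw [hAp]; exact_mod_cast hp0
      have h3 : 2 * C / x0 ≤ A.p0 := by linarith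
      rw [div_le_iff₀ hx00] at h3
      linarith
    have h2 := hv1 v ((le_max_left _ _).trans ((le_max_right _ _).trans hv))
    rw [← hAv] at h2
    linarith
  have hx01 : x0 ≤ e := by
    rw [hx0, div_le_iff₀ (by positivity)]
    have : e ^ 2 ≤ e := by nlinarith
    nlinarith [mul_nonneg he0.le (by positivity : (0:ℝ) ≤ q ^ 2 + 2 * q)]
  obtain ⟨hb1, hb2, hb3, hb4⟩ := hF A hAq hA k hk0 hk2 (by rw [← hx]; linarith)
  rw [← hx] at hb2 hb3 hb4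
  rw [← hEV] at hb1 hb2 hb3 hb4
  -- the means
  obtain ⟨I1, hI1⟩ : ∃ I1, I1 = ∫ t, ‖ev t (B0 k Kb A.p0 * A.B k 0 ∅)‖ ^ 2 * wt k w A L t ∂ν := ⟨_, rfl⟩
  obtain ⟨I2, hI2⟩ : ∃ I2, I2 = ∫ t, ‖ev t (B0 k Kb A.p0 * (A.EI 0 * A.B (k - 1) 0 ∅ - A.B k 0 ∅))‖ ^ 2
    * wt k w A L t ∂ν := ⟨_, rfl⟩
  obtain ⟨I3, hI3⟩ : ∃ I3 : ℕ → ℝ, I3 = fun g => ∫ t, ‖ev t (B0 k Kb A.p0 * (A.B k 0 ∅
    * PP (A.S g) ^ A.M g))‖ ^ 2 * wt k w A L t ∂ν := ⟨_, rfl⟩
  have hgE : 0 ≤ g * Eb := by positivity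
  have hm1 : (1 - e) * ((1 - x) * EV) * (g * Eb) ≤ I1 := by
    have h1 := hmean A L X η ν (by rw [hAp]; exact hS) _ (lb.mono hDL)
    rw [← hI1] at h1
    have h2 := (abs_le.mp h1).1
    have h3 : (1 - e) * ((1 - x) * EV) * (g * Eb) ≤ (1 - e) * En (A.B k 0 ∅) * (g * Eb) := by
      have : 0 ≤ 1 - e := by linarith
      gcongr
    nlinarith
  have hm2 : I2 ≤ (1 + e) * (x * EV) * (g * Eb) := by
    have h1 := hmean A L X η ν (by rw [hAp]; exact hS) _ lEd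
    rw [← hI2] at h1
    have h2 := (abs_le.mp h1).2
    have h3 : (1 + e) * En (A.EI 0 * A.B (k - 1) 0 ∅ - A.B k 0 ∅) * (g * Eb)
        ≤ (1 + e) * (x * EV) * (g * Eb) := by
      gcongr
    nlinarith
  have hm3 : ∑ g ∈ Finset.range A.J, (A.R g ^ (2 * A.M g))⁻¹ * I3 g ≤ (1 + e) * (x * EV) * (g * Eb) := by
    calc ∑ g' ∈ Finset.range A.J, (A.R g' ^ (2 * A.M g'))⁻¹ * I3 g'
        ≤ ∑ g' ∈ Finset.range A.J, (A.R g' ^ (2 * A.M g'))⁻¹ *
          ((1 + e) * (g * Eb) * En (A.B k 0 ∅ * PP (A.S g') ^ A.M g')) := by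
          refine Finset.sum_le_sum fun g' hg' => ?_
          have h0 : 0 ≤ (A.R g' ^ (2 * A.M g'))⁻¹ := by
            unfold Par.R
            positivity
          refine mul_le_mul_of_nonneg_left ?_ h0
          have h1 := hmean A L X η ν (by rw [hAp]; exact hS) _ (lP g' hg')
          have h2 := (abs_le.mp h1).2
          rw [hI3]
          simp only
          nlinarith
      _ = (1 + e) * (g * Eb) * ∑ g' ∈ Finset.range A.J, (A.R g' ^ (2 * A.M g'))⁻¹ *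
          En (A.B k 0 ∅ * PP (A.S g') ^ A.M g') := by
          rw [Finset.mul_sum]
          exact Finset.sum_congr rfl fun s _ => by ring
      _ ≤ (1 + e) * (g * Eb) * (x * EV) := by gcongr
      _ = _ := by ring
  obtain ⟨τ, hτ⟩ : ∃ τ : ℝ, τ = e / (q + 1) := ⟨_, rfl⟩
  have hτ0 : 0 < τ := by rw [hτ]; positivity
  have hτq : (q + 1) * τ = e := by rw [hτ]; field_simp
  have hτi : (q + 1) * τ⁻¹ = (q + 1) ^ 2 / e := by rw [hτ, inv_div]; ring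
  have hei : 0 < (1 + e)⁻¹ := by positivity
  -- pointwise bound
  have hpt : ∀ t : ℝ, (1 + e)⁻¹ * ((1 - e) * ((1 - e) * (‖ev t (B0 k Kb A.p0 * A.B k 0 ∅)‖ ^ 2
        * wt k w A L t) - (q + 1) ^ 2 / e * (‖ev t (B0 k Kb A.p0 * (A.EI 0 * A.B (k - 1) 0 ∅
        - A.B k 0 ∅))‖ ^ 2 * wt k w A L t)) - ∑ g' ∈ Finset.range A.J, (A.R g' ^ (2 * A.M g'))⁻¹ *
        (‖ev t (B0 k Kb A.p0 * (A.B k 0 ∅ * PP (A.S g') ^ A.M g'))‖ ^ 2 * wt k w A L t))
      ≤ ‖Mn w A L t‖ ^ (2 * k) := by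
    intro t
    obtain ⟨hd0, -, hsm⟩ := small_bd hk0 hSm (by linarith) t
    have hsm := hsm he0.le
    have hw := wt_nonneg k w A L t
    have hp := hv2 A hAq (by
      rw [hAv]
      exact (le_max_right _ _).trans ((le_max_right _ _).trans hv)) hA t (ev t (A.EI 0))
    rw [norm_Mn]
    obtain ⟨b, hb⟩ : ∃ b, b = ‖ev t (A.B k 0 ∅)‖ := ⟨_, rfl⟩
    obtain ⟨z, hz⟩ : ∃ z, z = ‖ev t (A.EI 0) * ev t (A.B (k - 1) 0 ∅) - ev t (A.B k 0 ∅)‖ := ⟨_, rfl⟩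
    obtain ⟨β, hβ⟩ : ∃ β, β = ‖ev t (B0 k Kb A.p0)‖ := ⟨_, rfl⟩
    obtain ⟨Q, hQ⟩ : ∃ Q, Q = ∑ g' ∈ Finset.range A.J, (‖ev t (PP (A.S g'))‖ / A.R g') ^ (2 * A.M g') :=
      ⟨_, rfl⟩
    rw [← hb, ← hz, ← hQ] at hp
    have hb0 : 0 ≤ b := by rw [hb]; exact norm_nonneg _
    have hz0 : 0 ≤ z := by rw [hz]; exact norm_nonneg _
    have hβ0 : 0 ≤ β := by rw [hβ]; exact norm_nonneg _
    have e1 : ‖ev t (B0 k Kb A.p0 * A.B k 0 ∅)‖ ^ 2 = β ^ 2 * b ^ 2 := by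
      rw [map_mul, norm_mul, hβ, hb]; ring
    have e2 : ‖ev t (B0 k Kb A.p0 * (A.EI 0 * A.B (k - 1) 0 ∅ - A.B k 0 ∅))‖ ^ 2 = β ^ 2 * z ^ 2 := by
      rw [map_mul, map_sub, map_mul, norm_mul, hβ, hz]; ring
    have e3 : ∑ g' ∈ Finset.range A.J, (A.R g' ^ (2 * A.M g'))⁻¹ *
        (‖ev t (B0 k Kb A.p0 * (A.B k 0 ∅ * PP (A.S g') ^ A.M g'))‖ ^ 2 * wt k w A L t)
        = β ^ 2 * (b ^ 2 * Q) * wt k w A L t := by
      rw [hQ, Finset.mul_sum, Finset.mul_sum, Finset.sum_mul]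
      refine Finset.sum_congr rfl fun g' _ => ?_
      rw [map_mul, map_mul, map_pow, norm_mul, norm_mul, norm_pow, hβ, hb, div_pow, div_eq_inv_mul,
        pow_mul' _ 2 (A.M g')]
      ring
    rw [e1, e2, e3]
    have hbz : b * z ≤ (τ * b ^ 2 + τ⁻¹ * z ^ 2) / 2 := by
      have h1 : 0 ≤ (τ * b - z) ^ 2 := sq_nonneg _
      have h2 : τ * b ^ 2 + τ⁻¹ * z ^ 2 - 2 * (b * z) = τ⁻¹ * (τ * b - z) ^ 2 := by
        field_simp; ring
      have h3 : 0 ≤ τ⁻¹ * (τ * b - z) ^ 2 := by positivity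
      linarith
    have hlow : (1 - e) * ((1 - e) * b ^ 2 - (q + 1) ^ 2 / e * z ^ 2) - b ^ 2 * Q
        ≤ ‖ev t (A.EI 0)‖ ^ (2 * k) := by
      refine le_trans ?_ hp
      have h1 : (q + 1) * (2 * (b * z)) ≤ e * b ^ 2 + (q + 1) ^ 2 / e * z ^ 2 := by
        calc (q + 1 : ℝ) * (2 * (b * z)) ≤ (q + 1) * (τ * b ^ 2 + τ⁻¹ * z ^ 2) := by
              gcongr; linarith
          _ = ((q + 1) * τ) * b ^ 2 + ((q + 1) * τ⁻¹) * z ^ 2 := by ring
          _ = _ := by rw [hτq, hτi]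
      have h2 : (1 - 2 * (e / 2)) = 1 - e := by ring
      rw [h2]
      have h3 : 0 ≤ 1 - e := by linarith
      have h4 : (1 - e) * ((1 - e) * b ^ 2 - (q + 1) ^ 2 / e * z ^ 2)
          ≤ (1 - e) * (b ^ 2 - 2 * (q + 1) * (b * z)) := by
        refine mul_le_mul_of_nonneg_left ?_ h3
        linarith
      linarith
    have hn : 0 ≤ ‖ev t (A.EI 0)‖ ^ (2 * k) := by positivity
    calc (1 + e)⁻¹ * ((1 - e) * ((1 - e) * (β ^ 2 * b ^ 2 * wt k w A L t)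
          - (q + 1) ^ 2 / e * (β ^ 2 * z ^ 2 * wt k w A L t)) - β ^ 2 * (b ^ 2 * Q) * wt k w A L t)
        = (1 + e)⁻¹ * β ^ 2 * ((1 - e) * ((1 - e) * b ^ 2 - (q + 1) ^ 2 / e * z ^ 2) - b ^ 2 * Q)
          * wt k w A L t := by ring
      _ ≤ (1 + e)⁻¹ * β ^ 2 * ‖ev t (A.EI 0)‖ ^ (2 * k) * wt k w A L t := by gcongr
      _ ≤ (‖ev t (Dsm A.p0)‖ ^ (2 * k))⁻¹ * ‖ev t (A.EI 0)‖ ^ (2 * k) * wt k w A L t := by
          rw [hβ]
          gcongr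
  have hMi : Integrable (fun t => ‖Mn w A L t‖ ^ (2 * k)) ν := by
    obtain ⟨Cb, hCb0, hCb⟩ := MS.Q8.bdd_ev (B0 k Kb A.p0)
    refine bdd_Mn_cont hk0 w L (b := (((1 - e)⁻¹ * Cb ^ 2) ^ (2 * k)⁻¹)) (fun t => ?_)
      fun t => (small_bd hk0 hSm (by linarith) t).1
    obtain ⟨h1, h2, -⟩ := small_bd hk0 hSm (by linarith) t
    have h3 : ‖(ev t (Dsm A.p0))⁻¹‖ ^ (2 * k) ≤ (1 - e)⁻¹ * Cb ^ 2 := by
      rw [norm_inv, Real.inv_rpow (norm_nonneg _)]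
      refine h2.trans ?_
      have := hCb t
      have : 0 ≤ (1 - e)⁻¹ := inv_nonneg.mpr (by linarith)
      gcongr
    calc ‖(ev t (Dsm A.p0))⁻¹‖ = (‖(ev t (Dsm A.p0))⁻¹‖ ^ (2 * k)) ^ (2 * k)⁻¹ := by
          rw [← Real.rpow_mul (norm_nonneg _), mul_inv_cancel₀ (by positivity), Real.rpow_one]
      _ ≤ _ := Real.rpow_le_rpow (by positivity) h3 (by positivity)
  have i1 := integ_wt hk0 w A L (ν := ν) (B0 k Kb A.p0 * A.B k 0 ∅)
  have i2 := integ_wt hk0 w A L (ν := ν) (B0 k Kb A.p0 * (A.EI 0 * A.B (k - 1) 0 ∅ - A.B k 0 ∅))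
  obtain ⟨ic1, ic2⟩ := int_comb i1 i2 (f3 := fun g' t => ‖ev t (B0 k Kb A.p0 * (A.B k 0 ∅
      * PP (A.S g') ^ A.M g'))‖ ^ 2 * wt k w A L t) (s := Finset.range A.J)
    (fun g' _ => integ_wt hk0 w A L (ν := ν) _) (1 + e)⁻¹ (1 - e) ((q + 1 : ℝ) ^ 2 / e)
    (fun g' => (A.R g' ^ (2 * A.M g'))⁻¹)
  have hlow := integral_mono ic1 hMi hpt
  rw [ic2, ← hI1, ← hI2] at hlow
  have hI3' : ∀ g', ∫ t, ‖ev t (B0 k Kb A.p0 * (A.B k 0 ∅ * PP (A.S g') ^ A.M g'))‖ ^ 2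
      * wt k w A L t ∂ν = I3 g' := fun g' => by rw [hI3]
  simp only [hI3'] at hlow
  refine le_trans ?_ hlow
  obtain ⟨U, hU⟩ : ∃ U, U = g * Eb * EV := ⟨_, rfl⟩
  have hU0 : 0 ≤ U := by rw [hU]; positivity
  have hxq : (q + 1) ^ 2 / e * x ≤ e := by
    calc (q + 1 : ℝ) ^ 2 / e * x ≤ (q + 1) ^ 2 / e * x0 := by gcongr
      _ = e := by rw [hx0]; field_simp
  have f1 : (1 - e) * (1 - e) * U ≤ I1 := by
    refine le_trans ?_ hm1
    have h1 : (1 - e) * (1 - e) ≤ (1 - e) * (1 - x) := by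
      have : 0 ≤ 1 - e := by linarith
      have : x ≤ e := by linarith
      gcongr
    calc (1 - e) * (1 - e) * U ≤ (1 - e) * (1 - x) * U := by gcongr
      _ = _ := by rw [hU]; ring
  have f2 : (q + 1) ^ 2 / e * I2 ≤ 2 * e * U := by
    calc (q + 1 : ℝ) ^ 2 / e * I2 ≤ (q + 1) ^ 2 / e * ((1 + e) * (x * EV) * (g * Eb)) := by gcongr
      _ = ((q + 1) ^ 2 / e * x) * ((1 + e) * U) := by rw [hU]; ring
      _ ≤ e * (2 * U) := by
          have : 1 + e ≤ 2 := by linarith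
          gcongr
      _ = _ := by ring
  have f3 : ∑ g' ∈ Finset.range A.J, (A.R g' ^ (2 * A.M g'))⁻¹ * I3 g' ≤ 2 * e * U := by
    refine hm3.trans ?_
    calc (1 + e) * (x * EV) * (g * Eb) = (1 + e) * x * U := by rw [hU]; ring
      _ ≤ 2 * e * U := by
          have : 1 + e ≤ 2 := by linarith
          have : x ≤ e := by linarith
          gcongr
  have f4 : (1 - 8 * e) * U ≤ (1 - e) * ((1 - e) * I1 - (q + 1) ^ 2 / e * I2)
        - ∑ g' ∈ Finset.range A.J, (A.R g' ^ (2 * A.M g'))⁻¹ * I3 g' := by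
    have h1 : 0 ≤ 1 - e := by linarith
    have h2 : (1 - e) * ((1 - e) * ((1 - e) * (1 - e) * U) - 2 * e * U)
        ≤ (1 - e) * ((1 - e) * I1 - (q + 1) ^ 2 / e * I2) := by
      refine mul_le_mul_of_nonneg_left ?_ h1
      have := mul_le_mul_of_nonneg_left f1 h1
      linarith
    have h3 : (1 - 8 * e) * U ≤ (1 - e) * ((1 - e) * ((1 - e) * (1 - e) * U) - 2 * e * U) - 2 * e * U := by
      have h4 : 1 - 8 * e ≤ (1 - e) * ((1 - e) * ((1 - e) * (1 - e)) - 2 * e) - 2 * e := by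
        nlinarith [pow_pos he0 2, pow_pos he0 3, pow_pos he0 4]
      have := mul_le_mul_of_nonneg_right h4 hU0
      linarith
    linarith
  calc (1 - ε) * (Eb * g * Real.exp (k ^ 2 * A.V 0)) = (1 - ε) * U := by rw [hU, hEV]; ring
    _ ≤ (1 - 16 * e) * U := by gcongr
    _ ≤ (1 + e)⁻¹ * ((1 - 8 * e) * U) := by
        rw [← mul_assoc]
        refine mul_le_mul_of_nonneg_right ?_ hU0
        rw [← div_eq_inv_mul, le_div_iff₀ (by linarith)]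
        nlinarith
    _ ≤ _ := mul_le_mul_of_nonneg_left f4 hei.le

end Pool.Agent.Lib.MT
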