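import Mathlib
import Pool.Agent.Lib.MP_f9aece_nt_mt.StmtsT
import Pool.Agent.Lib.MP_f9aece_nt_ms.Coeffs
import Pool.Agent.Lib.MP_f9aece_nt_nl.G

/-!
Mesoscopic moments of zeta, module T34.

ε/4 in MainUp, MainLow: δ, p1, v1. For p0 >= p1: Kb from NL.smallPt (N = ceil k, δ), a = En (B0 k Kb p0) exp(k^2 M), M from VLim p0; En (B0) >= 1 > 0 (coefficient 1 at n = 1). exp(k^2 A.V 0) = Y^(k^2) exp(k^2 M) exp(k^2 o(1)), Y = L e^(-2v): Y^(k^2) = sz k v L. (about 120 lines)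
-/

set_option autoImplicit false

namespace Pool.Agent.Lib.MT

open MeasureTheory Set Filter Topology Complex
open scoped ComplexConjugate
open scoped ArithmeticFunction.Omega
open Pool.Agent.Lib.MP_f9aece_nt (DP pair BK K1 ev PP VV Smo expo)
open Pool.Agent.Lib.MP_f9aece_nt_h40 (ind)
open Pool.Agent.Lib.MP_f9aece_nt_h85 (Rst)
open Pool.Agent.Lib.MP_f9aece_nt_h97 (Psm Dsm evs)
open Pool.Agent.Lib.NL (pt B0)
open Pool.Agent.Lib.J4 (En V2)
open Pool.Agent.Lib.MS (Len MVP Par RW TZ Cut un zr ex hq af ZS)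

/-- coefficient of the local factor at one -/
private lemma t34_Lk (k : ℝ) (K p : ℕ) (hp : p.Prime) : af (NL.Lk k K p) 1 = 1 := by
  unfold NL.Lk
  rw [MS.af_sum_apply, Finset.sum_eq_single 0]
  · rw [MS.af_apply _ one_ne_zero, pow_zero, MonoidAlgebra.coeff_single, Finsupp.single_apply,
      if_pos rfl]
    simp [NL.bk]
  · intro i _ hi
    rw [MS.af_apply _ one_ne_zero, MonoidAlgebra.coeff_single, Finsupp.single_apply, if_neg]
    intro h
    rcases Nat.pow_eq_one.1 h with h1 | h1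
    · exact hp.one_lt.ne' h1
    · exact hi h1
  · intro h
    exact absurd (Finset.mem_range.mpr (Nat.succ_pos K)) h

private lemma t34_B0 (k : ℝ) (K p0 : ℕ) : (B0 k K p0).coeff 1 = 1 := by
  rw [← MS.af_apply _ one_ne_zero, NL.B0, MS.af_prod]
  have h : ∀ S : Finset ℕ, (∀ p ∈ S, p.Prime) → (∏ p ∈ S, af (NL.Lk k K p)) 1 = 1 := by
    intro S
    classical
    induction S using Finset.induction_on with
    | empty =>
      intro _
      rw [Finset.prod_empty]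
      exact ArithmeticFunction.one_one
    | insert a s ha ih =>
      intro hS
      rw [Finset.prod_insert ha, ArithmeticFunction.mul_apply_one,
        t34_Lk k K a (hS a (Finset.mem_insert_self a s)),
        ih fun p hp => hS p (Finset.mem_insert_of_mem hp), one_mul]
  exact h _ fun p hp => (Finset.mem_filter.mp hp).2

private lemma t34_En (k : ℝ) (K p0 : ℕ) : 1 ≤ En (B0 k K p0) := by
  unfold En
  rw [MP_f9aece_nt.BK_K1_eq, MP_f9aece_nt.pair_def]
  have h1 : (1 : ℕ) ∈ (B0 k K p0).coeff.support := by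
    rw [Finsupp.mem_support_iff, t34_B0]
    exact one_ne_zero
  refine le_trans (le_of_eq ?_) (Finset.single_le_sum (fun n _ => ?_) h1)
  · rw [t34_B0]
    simp
  · have h2 : (0 : ℝ) ≤ (n : ℝ)⁻¹ := by positivity
    have h3 := mul_self_nonneg ((B0 k K p0).coeff n)
    nlinarith

private lemma t34_std {q v p0 : ℕ} {N N' : ℝ} {A : Par} {L X η : ℝ} {ν : Measure ℝ}
    (h : Std q v p0 N A L X η ν) (h0 : 0 ≤ N') (h' : N' ≤ N) : Std q v p0 N' A L X η ν :=
  ⟨h.hq, h.hv, h.hp, h.ok, h'.trans h.hL, h.hY, h.mvp,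
    (Real.exp_le_exp.2 (mul_le_mul_of_nonneg_right h' ((h0.trans h').trans h.hL))).trans h.hX,
    h.η0, (mul_le_mul_of_nonneg_left h' h.η0).trans h.ηN⟩

private lemma t34_num {x I S e ε : ℝ} (hS : 0 ≤ S) (he : 0 < e) (he1 : e ≤ 1) (h3 : 3 * e ≤ ε)
    (hx1 : x ≤ (1 + e) * S) (hx2 : (1 - e) * S ≤ x) (hI1 : I ≤ (1 + e) * x)
    (hI2 : (1 - e) * x ≤ I) : |I - S| ≤ ε * S := by
  rw [abs_le]
  constructor
  · have h4 : (1 - e) * ((1 - e) * S) ≤ (1 - e) * x := mul_le_mul_of_nonneg_left hx2 (by linarith)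
    nlinarith [mul_nonneg (mul_nonneg he.le he.le) hS, mul_nonneg (sub_nonneg.2 h3) hS,
      mul_nonneg he.le hS]
  · have h4 : (1 + e) * x ≤ (1 + e) * ((1 + e) * S) := mul_le_mul_of_nonneg_left hx1 (by linarith)
    nlinarith [mul_nonneg (mul_nonneg he.le (sub_nonneg.2 he1)) hS,
      mul_nonneg (sub_nonneg.2 h3) hS]

theorem mainAsym (h32 : MainUp) (h33 : MainLow) (h28 : VLim) : MainAsym := by
  intro q k ε hq hk0 hqk hkq hε
  set e : ℝ := min 1 (ε / 3) with he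
  have he0 : 0 < e := lt_min one_pos (by linarith)
  have he1 : e ≤ 1 := min_le_left _ _
  have he3 : 3 * e ≤ ε := by
    have := min_le_right (1 : ℝ) (ε / 3)
    linarith
  obtain ⟨δ₁, p₁, v₁, hδ₁, hp₁, hv₁, H1⟩ := h32 q k e hq hk0 hqk hkq he0
  obtain ⟨δ₂, p₂, v₂, hδ₂, hp₂, hv₂, H2⟩ := h33 q k e hq hk0 hqk hkq he0
  refine ⟨max p₁ p₂, hp₁.trans (le_max_left _ _), fun p0 hp0 => ?_⟩
  have hp01 : p₁ ≤ p0 := (le_max_left _ _).trans hp0
  have hp02 : p₂ ≤ p0 := (le_max_right _ _).trans hp0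
  obtain ⟨Kb, hKb⟩ := NL.smallPt q p0 (min δ₁ δ₂) (lt_min hδ₁ hδ₂)
  have hok : ∀ t : ℝ, |‖evs (pt 0 t) (B0 k Kb p0)‖ ^ 2 * ‖evs (pt 0 t) (Dsm p0)‖ ^ (2 * k) - 1|
      ≤ min δ₁ δ₂ := fun t => hKb Kb le_rfl k hk0.le hkq 0 t le_rfl
  have hok1 : SmallOk k δ₁ p0 Kb := fun t => (hok t).trans (min_le_left _ _)
  have hok2 : SmallOk k δ₂ p0 Kb := fun t => (hok t).trans (min_le_right _ _)
  obtain ⟨M, hM⟩ := h28 p0 (by omega)
  have hEn := t34_En k Kb p0
  refine ⟨En (B0 k Kb p0) * Real.exp (k ^ 2 * M), max v₁ v₂,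
    mul_pos (by linarith) (Real.exp_pos _), hv₁.trans (le_max_left _ _), fun v hv w g hg hD => ?_⟩
  obtain ⟨N₁, hN₁, H1'⟩ := H1 p0 v Kb hp01 ((le_max_left _ _).trans hv) hok1 w g hg hD
  obtain ⟨N₂, hN₂, H2'⟩ := H2 p0 v Kb hp02 ((le_max_right _ _).trans hv) hok2 w g hg hD
  have hk2 : 0 < k ^ 2 := by positivity
  obtain ⟨N₃, hN₃, H3⟩ := hM (Real.log (1 + e) / k ^ 2)
    (div_pos (Real.log_pos (by linarith)) hk2)
  refine ⟨max (max N₁ N₂) (N₃ * Real.exp (2 * v)),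
    hN₁.trans ((le_max_left _ _).trans (le_max_left _ _)), fun A L X η ν hS => ?_⟩
  have hS1 := t34_std hS (zero_le_one.trans hN₁) ((le_max_left _ _).trans (le_max_left _ _))
  have hS2 := t34_std hS (zero_le_one.trans hN₂) ((le_max_right _ _).trans (le_max_left _ _))
  have hI1 := H1' A L X η ν hS1
  have hI2 := H2' A L X η ν hS2
  have hL3 : N₃ * Real.exp (2 * v) ≤ L := (le_max_right _ _).trans hS.hL
  have hL0 : 0 < L := lt_of_lt_of_le (mul_pos (zero_lt_one.trans_le hN₃) (Real.exp_pos _)) hL3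
  have hY3 : N₃ ≤ A.Y := by
    rw [hS.hY, Real.exp_neg, ← div_eq_mul_inv, le_div_iff₀ (Real.exp_pos _)]
    exact hL3
  have hV := H3 A hS.ok hS.hp hY3
  have hlogY : Real.log A.Y = Real.log L - 2 * v := by
    rw [hS.hY, Real.log_mul hL0.ne' (Real.exp_pos _).ne', Real.log_exp]
    ring
  set θ : ℝ := A.V 0 - Real.log A.Y - M with hθ
  have hθ1 : k ^ 2 * θ ≤ Real.log (1 + e) := by
    have h1 := (abs_le.1 hV).2
    rw [le_div_iff₀ hk2] at h1
    linarith
  have hθ2 : -Real.log (1 + e) ≤ k ^ 2 * θ := by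
    have h1 := (abs_le.1 hV).1
    rw [← neg_div, div_le_iff₀ hk2] at h1
    linarith
  have hx : Real.exp (k ^ 2 * A.V 0) = Real.exp (k ^ 2 * M) * sz k v L * Real.exp (k ^ 2 * θ) := by
    unfold sz
    rw [Real.rpow_def_of_pos hL0, ← Real.exp_add, ← Real.exp_add, ← Real.exp_add]
    congr 1
    rw [hθ, hlogY]
    ring
  have hg0 : 0 < g := zero_lt_one.trans_le hg
  have hsz : 0 < sz k v L := by
    unfold sz
    positivity
  set S : ℝ := En (B0 k Kb p0) * Real.exp (k ^ 2 * M) * g * sz k v L with hSdef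
  have hSpos : 0 < S := mul_pos (mul_pos (mul_pos (by linarith) (Real.exp_pos _)) hg0) hsz
  have hxS : En (B0 k Kb p0) * g * Real.exp (k ^ 2 * A.V 0) = Real.exp (k ^ 2 * θ) * S := by
    rw [hx, hSdef]
    ring
  rw [hxS] at hI1 hI2
  have he01 : 0 < 1 + e := by linarith
  have hu : Real.exp (k ^ 2 * θ) ≤ 1 + e := by
    rw [← Real.exp_log he01]
    exact Real.exp_le_exp.2 hθ1
  have hl : 1 - e ≤ Real.exp (k ^ 2 * θ) := by
    refine le_trans ?_ (Real.exp_le_exp.2 hθ2)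
    rw [Real.exp_neg, Real.exp_log he01, ← one_div, le_div_iff₀ he01]
    nlinarith
  exact t34_num hSpos.le he0 he1 he3 (mul_le_mul_of_nonneg_right hu hSpos.le)
    (mul_le_mul_of_nonneg_right hl hSpos.le) hI1 hI2

end Pool.Agent.Lib.MT
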