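import Mathlib
import Pool.Agent.Lib.MP_f9aece_nt_mt.StmtsT
import Pool.Agent.Lib.MP_f9aece_nt_ms.Coeffs

/-!
Mesoscopic moments of zeta, module T36.

First replace w by w1 x = w (max x 0) (Lipschitz, bounded by Lam, same ZS since log n/L >= 0), CutC. X = T^(1/4), ν = un x T is MVP with η = 2 X^2/T = 2 T^(-1/2); N L <= log T with N large gives exp(N1 L) <= X, η N1 <= 1. int over un x T = T^(-1) int_x^(x+T). c >= 0 from LimEx; positivity for complex w: w1 = conj w: ZS w1 L t = conj (ZS w L (-t)), so its moments over [x,x+T] are those of w over [-x-T,-x]: same c. u = re w = (w + conj w)/2 has im = 0, u 0 = 1, so c(u) > 0, and ‖ZS u‖^(2k) <= ‖ZS w‖^(2k) + ‖ZS w1‖^(2k), so 0 < c(u) <= 2 c(w).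
-/

set_option autoImplicit false

namespace Pool.Agent.Lib.MT

open MeasureTheory Set Filter Topology Complex
open scoped ComplexConjugate
open scoped ArithmeticFunction.Omega
open Pool.Agent.Lib.MP_f9aece_nt (DP pair BK K1 ev PP VV Smo expo)
open Pool.Agent.Lib.MP_f9aece_nt_h40 (ind)
open Pool.Agent.Lib.MP_f9aece_nt_h85 (Rst)
open Pool.Agent.Lib.MP_f9aece_nt_h97 (Psm Dsm evs)
open Pool.Agent.Lib.NL (pt B0)
open Pool.Agent.Lib.J4 (En V2)
open Pool.Agent.Lib.MS (Len MVP Par RW TZ Cut un zr ex hq af ZS)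

private theorem T36_cont (w : ℝ → ℂ) (L : ℝ) : Continuous fun t : ℝ => ZS w L t := by
  unfold ZS
  refine continuous_finsetSum _ fun n hn => continuous_const.mul ?_
  refine Continuous.const_cpow (by fun_prop) (Or.inl ?_)
  have := (Finset.mem_Icc.1 hn).1
  exact_mod_cast (by omega : n ≠ 0)

private theorem T36_contP (w : ℝ → ℂ) (L : ℝ) {k : ℝ} (hk : 0 < k) :
    Continuous fun t : ℝ => ‖ZS w L t‖ ^ (2 * k) :=
  (T36_cont w L).norm.rpow_const fun _ => Or.inr (by linarith)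

private theorem T36_int (x : ℝ) {T : ℝ} (hT : 0 < T) (f : ℝ → ℝ) :
    ∫ t, f t ∂(un x T) = T⁻¹ * ∫ t in x..(x + T), f t := by
  unfold MS.un
  rw [integral_smul_measure, ENNReal.toReal_inv, ENNReal.toReal_ofReal hT.le,
    intervalIntegral.integral_of_le (by linarith), integral_Icc_eq_integral_Ioc, smul_eq_mul]

/-- the moments over intervals -/
private theorem T36_mom {k c : ℝ} {w : ℝ → ℂ} (h0 : MS.UnifMVP)
    (h : ∀ ε : ℝ, 0 < ε → ∃ N : ℝ, 1 ≤ N ∧ ∀ (L X η : ℝ) (ν : Measure ℝ),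
      N ≤ L → MVP ν X η → Real.exp (N * L) ≤ X → 0 ≤ η → η * N ≤ 1 →
      |∫ t, ‖ZS w L t‖ ^ (2 * k) ∂ν - c * L ^ (k ^ 2)| ≤ ε * L ^ (k ^ 2)) {ε : ℝ} (hε : 0 < ε) :
    ∃ C : ℝ, 0 < C ∧ ∀ L T : ℝ, C ≤ L → 1 ≤ T → C * L ≤ Real.log T → ∀ x : ℝ,
      |T⁻¹ * (∫ t in x..(x + T), ‖ZS w L t‖ ^ (2 * k)) - c * L ^ (k ^ 2)| ≤ ε * L ^ (k ^ 2) := by
  obtain ⟨N, hN1, hN⟩ := h ε hε
  refine ⟨4 * N, by linarith, fun L T hL hT hLT x => ?_⟩
  have hT0 : 0 < T := by linarith
  have hTe : T = Real.exp (Real.log T) := (Real.exp_log hT0).symm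
  have hX : T ^ (1 / 4 : ℝ) = Real.exp (Real.log T / 4) := by
    rw [Real.rpow_def_of_pos hT0]
    congr 1
    ring
  have hX1 : 1 ≤ T ^ (1 / 4 : ℝ) := Real.one_le_rpow hT (by norm_num)
  have hlog : 16 * N ^ 2 ≤ Real.log T := by nlinarith
  have hη : 2 * (T ^ (1 / 4 : ℝ)) ^ 2 / T = 2 * Real.exp (-(Real.log T / 2)) := by
    have e1 : (T ^ (1 / 4 : ℝ)) ^ 2 = Real.exp (Real.log T / 2) := by
      rw [hX, ← Real.exp_nat_mul]
      congr 1
      push_cast
      ring
    have e2 : T = Real.exp (Real.log T / 2) * Real.exp (Real.log T / 2) := by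
      rw [← Real.exp_add]
      rw [add_halves]
      exact hTe
    rw [e1, Real.exp_neg]
    have e3 : Real.exp (Real.log T / 2) ≠ 0 := (Real.exp_pos _).ne'
    have e4 : 2 * Real.exp (Real.log T / 2) / T =
        2 * Real.exp (Real.log T / 2) / (Real.exp (Real.log T / 2) *
          Real.exp (Real.log T / 2)) := by rw [← e2]
    rw [e4]
    field_simp
  have key := hN L (T ^ (1 / 4 : ℝ)) (2 * (T ^ (1 / 4 : ℝ)) ^ 2 / T) (un x T) (by linarith)
    (h0 x T _ hT0 hX1) ?_ ?_ ?_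
  · rwa [T36_int x hT0] at key
  · rw [hX, Real.exp_le_exp]
    nlinarith
  · positivity
  · rw [hη]
    have e5 : 2 * N ≤ Real.exp (Real.log T / 2) := by
      have := Real.add_one_le_exp (Real.log T / 2)
      nlinarith
    rw [Real.exp_neg, mul_comm, ← mul_assoc, mul_comm N 2, ← div_eq_mul_inv,
      div_le_one (Real.exp_pos _)]
    exact e5

/-- the sum with the conjugate weight -/
private theorem T36_conj (w : ℝ → ℂ) (L t : ℝ) :
    ZS (fun x => conj (w x)) L t = conj (ZS w L (-t)) := by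
  unfold ZS
  rw [map_sum]
  refine Finset.sum_congr rfl fun n _ => ?_
  rw [map_mul]
  congr 1
  have h1 : ((n : ℂ)).arg ≠ Real.pi := by
    rw [Complex.natCast_arg]
    exact Real.pi_pos.ne
  have h2 := Complex.cpow_conj (n : ℂ) (-(1 / 2 + I * ((-t : ℝ) : ℂ))) h1
  rw [Complex.conj_natCast] at h2
  rw [← h2]
  congr 1
  simp only [map_neg, map_add, map_mul, map_div₀, map_one, Complex.conj_I, Complex.conj_ofReal,
    map_ofNat, Complex.ofReal_neg, neg_mul, mul_neg, neg_neg]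

private theorem T36_half (w : ℝ → ℂ) (L t : ℝ) :
    ZS (fun x => (((w x).re : ℝ) : ℂ)) L t =
      (ZS w L t + ZS (fun x => conj (w x)) L t) / 2 := by
  unfold ZS
  rw [← Finset.sum_add_distrib, Finset.sum_div]
  refine Finset.sum_congr rfl fun n _ => ?_
  beta_reduce
  rw [Complex.re_eq_add_conj]
  ring

/-- the symmetric interval -/
private theorem T36_symm (w : ℝ → ℂ) (L : ℝ) {k : ℝ} (hk : 0 < k) {T : ℝ} (hT : 0 < T) :
    T⁻¹ * (∫ t in (-(T / 2))..(-(T / 2) + T),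
      ‖ZS (fun x => (((w x).re : ℝ) : ℂ)) L t‖ ^ (2 * k)) ≤
      2 * (T⁻¹ * (∫ t in (-(T / 2))..(-(T / 2) + T), ‖ZS w L t‖ ^ (2 * k))) := by
  have e : -(T / 2) + T = T / 2 := by ring
  rw [e]
  have h1 : ∫ t in (-(T / 2))..(T / 2), ‖ZS (fun x => conj (w x)) L t‖ ^ (2 * k) =
      ∫ t in (-(T / 2))..(T / 2), ‖ZS w L t‖ ^ (2 * k) := by
    have h2 : ∀ t, ‖ZS (fun x => conj (w x)) L t‖ ^ (2 * k) = ‖ZS w L (-t)‖ ^ (2 * k) := by
      intro t
      rw [T36_conj, RCLike.norm_conj]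
    simp_rw [h2]
    rw [intervalIntegral.integral_comp_neg (fun t => ‖ZS w L t‖ ^ (2 * k)), neg_neg]
  have h3 : ∫ t in (-(T / 2))..(T / 2), ‖ZS (fun x => (((w x).re : ℝ) : ℂ)) L t‖ ^ (2 * k) ≤
      ∫ t in (-(T / 2))..(T / 2), (‖ZS w L t‖ ^ (2 * k) +
        ‖ZS (fun x => conj (w x)) L t‖ ^ (2 * k)) := by
    refine intervalIntegral.integral_mono_on (by linarith)
      ((T36_contP _ L hk).intervalIntegrable _ _)
      (((T36_contP w L hk).add (T36_contP _ L hk)).intervalIntegrable _ _) fun t _ => ?_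
    rw [T36_half]
    have h4 : ‖(ZS w L t + ZS (fun x => conj (w x)) L t) / 2‖ ≤
        max ‖ZS w L t‖ ‖ZS (fun x => conj (w x)) L t‖ := by
      rw [norm_div, Complex.norm_ofNat]
      have h5 := norm_add_le (ZS w L t) (ZS (fun x => conj (w x)) L t)
      have h6 := le_max_left ‖ZS w L t‖ ‖ZS (fun x => conj (w x)) L t‖
      have h7 := le_max_right ‖ZS w L t‖ ‖ZS (fun x => conj (w x)) L t‖
      rw [div_le_iff₀ (by norm_num)]
      linarith
    refine (Real.rpow_le_rpow (norm_nonneg _) h4 (by linarith)).trans ?_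
    rcases max_choice ‖ZS w L t‖ ‖ZS (fun x => conj (w x)) L t‖ with h | h
    · rw [h]
      have := Real.rpow_nonneg (norm_nonneg (ZS (fun x => conj (w x)) L t)) (2 * k)
      linarith
    · rw [h]
      have := Real.rpow_nonneg (norm_nonneg (ZS w L t)) (2 * k)
      linarith
  rw [intervalIntegral.integral_add ((T36_contP w L hk).intervalIntegrable _ _)
    ((T36_contP _ L hk).intervalIntegrable _ _), h1] at h3
  have h8 : 0 ≤ T⁻¹ := by positivity
  calc T⁻¹ * (∫ t in (-(T / 2))..(T / 2), ‖ZS (fun x => (((w x).re : ℝ) : ℂ)) L t‖ ^ (2 * k))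
      ≤ T⁻¹ * ((∫ t in (-(T / 2))..(T / 2), ‖ZS w L t‖ ^ (2 * k)) +
        ∫ t in (-(T / 2))..(T / 2), ‖ZS w L t‖ ^ (2 * k)) := mul_le_mul_of_nonneg_left h3 h8
    _ = _ := by ring

set_option linter.unusedVariables false in
theorem thmOne (h1 : PowIneq) (h35 : LimEx) (h0 : MS.UnifMVP) : MS.MomentsT1 := by
  intro w Lam hw hw0 hw1 k hk
  -- the truncated weight
  obtain ⟨v, hv⟩ : ∃ v : ℝ → ℂ, v = fun x => w (max x 0) := ⟨_, rfl⟩
  have hLam : 0 ≤ Lam := by
    have h2 := hw 0 1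
    rw [hw0, hw1 1 le_rfl] at h2
    norm_num at h2
    linarith
  have hvC : CutC Lam Lam v := by
    refine ⟨fun x => ?_, fun x y => ?_, fun x hx => ?_⟩
    · rw [hv]
      change ‖w (max x 0)‖ ≤ Lam
      rcases le_total 1 (max x 0) with h | h
      · rw [hw1 _ h, norm_zero]
        exact hLam
      · have h2 := hw (max x 0) 1
        rw [hw1 1 le_rfl, sub_zero] at h2
        have h3 : 0 ≤ max x 0 := le_max_right _ _
        have h4 : |max x 0 - 1| ≤ 1 := by
          rw [abs_le]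
          constructor <;> linarith
        exact h2.trans (mul_le_of_le_one_right hLam h4)
    · rw [hv]
      refine (hw _ _).trans (mul_le_mul_of_nonneg_left ?_ hLam)
      exact abs_max_sub_max_le_abs x y 0
    · rw [hv]
      change w (max x 0) = 0
      rw [max_eq_left (by linarith)]
      exact hw1 x hx
  have hv0 : v 0 = 1 := by
    rw [hv]
    change w (max 0 0) = 1
    rw [max_self, hw0]
  have hZS : ∀ L t : ℝ, 0 < L → ZS w L t = ZS v L t := by
    intro L t hL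
    unfold ZS
    refine Finset.sum_congr rfl fun n hn => ?_
    have h2 : 0 ≤ Real.log n / L := div_nonneg (Real.log_natCast_nonneg n) hL.le
    rw [hv]
    change _ = w (max (Real.log n / L) 0) * _
    rw [max_eq_left h2]
  -- the real part
  have huC : CutC Lam Lam (fun x => (((v x).re : ℝ) : ℂ)) := by
    refine ⟨fun x => ?_, fun x y => ?_, fun x hx => ?_⟩
    · rw [Complex.norm_real]
      exact (Complex.abs_re_le_norm _).trans (hvC.bd x)
    · rw [← Complex.ofReal_sub, ← Complex.sub_re, Complex.norm_real]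
      exact (Complex.abs_re_le_norm _).trans (hvC.lip x y)
    · rw [hvC.zero x hx]
      simp
  obtain ⟨c, hc0, -, hc⟩ := h35 k Lam Lam v hk hvC hv0
  obtain ⟨c', -, hc1, hc'⟩ := h35 k Lam Lam (fun x => (((v x).re : ℝ) : ℂ)) hk huC
    (by rw [hv0]; simp)
  have hcp' : 0 < c' := hc1 fun x => Complex.ofReal_im _
  -- positivity
  have hcp : 0 < c := by
    obtain ⟨C1, hC1, hM1⟩ := T36_mom h0 hc (ε := c' / 8) (by positivity)
    obtain ⟨C2, hC2, hM2⟩ := T36_mom h0 hc' (ε := c' / 8) (by positivity)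
    obtain ⟨L, hLd⟩ : ∃ L, L = max C1 C2 := ⟨_, rfl⟩
    have hL1 : C1 ≤ L := by rw [hLd]; exact le_max_left _ _
    have hL2 : C2 ≤ L := by rw [hLd]; exact le_max_right _ _
    have hL0 : 0 < L := by linarith
    have hT1 : 1 ≤ Real.exp (L * L) := Real.one_le_exp (by positivity)
    have hT0 : 0 < Real.exp (L * L) := Real.exp_pos _
    have a1 := hM1 L (Real.exp (L * L)) hL1 hT1 (by
      rw [Real.log_exp]
      exact mul_le_mul_of_nonneg_right hL1 hL0.le) (-(Real.exp (L * L) / 2))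
    have a2 := hM2 L (Real.exp (L * L)) hL2 hT1 (by
      rw [Real.log_exp]
      exact mul_le_mul_of_nonneg_right hL2 hL0.le) (-(Real.exp (L * L) / 2))
    have a3 := T36_symm v L hk hT0
    have b1 := (abs_le.1 a1).2
    have b2 := (abs_le.1 a2).1
    have hP : 0 < L ^ (k ^ 2) := Real.rpow_pos_of_pos hL0 _
    by_contra hcon
    have hc00 : c = 0 := le_antisymm (not_lt.1 hcon) hc0
    rw [hc00] at b1
    have : 0 < c' * L ^ (k ^ 2) := mul_pos hcp' hP
    nlinarith
  refine ⟨c, hcp, fun ε hε => ?_⟩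
  obtain ⟨C, hC, hM⟩ := T36_mom h0 hc hε
  refine ⟨C, hC, fun L T hL hT hLT x => ?_⟩
  have h2 := hM L T hL hT hLT x
  have hL0 : 0 < L := by linarith
  simp_rw [hZS L _ hL0]
  exact h2

end Pool.Agent.Lib.MT
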