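import Mathlib
import Pool.Agent.Lib.MP_f9aece_nt_mt.StmtsT
import Pool.Agent.Lib.MP_f9aece_nt_ms.Coeffs
import Pool.Agent.Lib.MP_bf4c7f_nt3.Mert

/-!
Mesoscopic moments of zeta, module T3: Mertens' second theorem with a constant, by Abel summation
from Mertens' first theorem.
-/

set_option autoImplicit false

namespace Pool.Agent.Lib.MT

open MeasureTheory Set Filter Topology Complex
open scoped ComplexConjugate
open scoped ArithmeticFunction.Omega
open Pool.Agent.Lib.MP_f9aece_nt (DP pair BK K1 ev PP VV Smo expo)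
open Pool.Agent.Lib.MP_f9aece_nt_h40 (ind)
open Pool.Agent.Lib.MP_f9aece_nt_h85 (Rst)
open Pool.Agent.Lib.MP_f9aece_nt_h97 (Psm Dsm evs)
open Pool.Agent.Lib.NL (pt B0)
open Pool.Agent.Lib.J4 (En V2)
open Pool.Agent.Lib.MS (Len MVP Par RW TZ Cut un zr ex hq af ZS)

namespace T3

open Pool.Agent.Lib.MP_bf4c7f (Ls Ls_upper_gen Ls_lower_gen)

/-- sums over the primes -/
noncomputable def sp (h : ℕ → ℝ) (n : ℕ) : ℝ := ∑ p ∈ (Finset.Icc 1 n).filter Nat.Prime, h p

lemma sp_succ (h : ℕ → ℝ) (n : ℕ) :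
    sp h (n + 1) = sp h n + if (n + 1).Prime then h (n + 1) else 0 := by
  unfold sp
  rw [Finset.sum_filter, Finset.sum_filter, Finset.sum_Icc_succ_top (by omega)]

lemma Ls_bound : ∃ C : ℝ, 0 ≤ C ∧ ∀ n : ℕ, 1000 ≤ n → |Ls n - Real.log n| ≤ C := by
  refine ⟨100, by norm_num, fun n hn => ?_⟩
  have h1 := Ls_upper_gen n hn
  have h2 := Ls_lower_gen n (by omega)
  have hnR : (1000 : ℝ) ≤ n := by exact_mod_cast hn
  have h3 : Real.log n ≤ n := (Real.log_le_sub_one_of_pos (by linarith)).trans (by linarith)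
  have h0 : 0 ≤ Real.log n := Real.log_nonneg (by linarith)
  have h4 : (2 * Real.log n + 1) / n ≤ 3 := by
    rw [div_le_iff₀ (by linarith)]
    linarith
  have h5 : (31 + Real.log n / 2) / n ≤ 32 := by
    rw [div_le_iff₀ (by linarith)]
    linarith
  have h6 : 3.36 / Real.sqrt n ≤ 3.36 := by
    have : 1 ≤ Real.sqrt n := by
      rw [Real.one_le_sqrt]
      linarith
    exact div_le_self (by norm_num) this
  rw [abs_le]
  constructor <;> norm_num at * <;> linarith

/-- the step of the comparison -/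
lemma delta {A B : ℝ} (hA : 1 ≤ A) (hAB : A ≤ B) (hB : B ≤ A + 1) :
    |(B - A) * B⁻¹ - (Real.log B - Real.log A)| ≤ A⁻¹ - B⁻¹ := by
  have hA0 : 0 < A := by linarith
  have hB0 : 0 < B := by linarith
  have h1 : Real.log B - Real.log A = Real.log (B / A) := by
    rw [Real.log_div hB0.ne' hA0.ne']
  have h2 := Real.one_sub_inv_le_log_of_pos (div_pos hB0 hA0)
  have h3 := Real.log_le_sub_one_of_pos (div_pos hB0 hA0)
  rw [h1]
  have e1 : 1 - (B / A)⁻¹ = (B - A) * B⁻¹ := by
    field_simp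
  have e2 : B / A - 1 = (B - A) * A⁻¹ := by
    field_simp
  rw [e1] at h2
  rw [e2] at h3
  have h4 : 0 ≤ A⁻¹ - B⁻¹ := by
    have := inv_anti₀ hA0 hAB
    linarith
  have h5 : (B - A) * (A⁻¹ - B⁻¹) ≤ 1 * (A⁻¹ - B⁻¹) := by
    apply mul_le_mul_of_nonneg_right _ h4
    linarith
  rw [abs_le]
  constructor
  · nlinarith
  · linarith

/-- convergence of the sum with weights `1/(p-1)` -/
lemma conv1 : ∃ M : ℝ, Tendsto (fun n : ℕ => sp (fun p => ((p : ℝ) - 1)⁻¹) n
    - Real.log (Real.log n)) atTop (𝓝 M) := by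
  obtain ⟨C, hC, hE⟩ := Ls_bound
  have hlog : ∀ n : ℕ, 1000 ≤ n → 1 ≤ Real.log n := by
    intro n hn
    have h1 : (3 : ℝ) ≤ n := by
      have : (1000 : ℝ) ≤ n := by exact_mod_cast hn
      linarith
    rw [Real.le_log_iff_exp_le (by linarith)]
    have := Real.exp_one_lt_d9
    linarith
  have hstep : ∀ n : ℕ, 1000 ≤ n → Real.log n ≤ Real.log ((n + 1 : ℕ) : ℝ) ∧
      Real.log ((n + 1 : ℕ) : ℝ) ≤ Real.log n + 1 := by
    intro n hn
    have h0 : (1000 : ℝ) ≤ n := by exact_mod_cast hn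
    constructor
    · apply Real.log_le_log (by linarith)
      push_cast
      linarith
    · have h1 : Real.log ((n + 1 : ℕ) : ℝ) - Real.log n = Real.log (((n + 1 : ℕ) : ℝ) / n) := by
        rw [Real.log_div (by positivity) (by positivity)]
      have h2 := Real.log_le_sub_one_of_pos (x := ((n + 1 : ℕ) : ℝ) / n) (by positivity)
      have h3 : ((n + 1 : ℕ) : ℝ) / n - 1 ≤ 1 := by
        have : ((n + 1 : ℕ) : ℝ) / n = 1 + 1 / n := by
          push_cast
          field_simp
        rw [this]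
        have : (1 : ℝ) / n ≤ 1 := by
          rw [div_le_one (by linarith)]
          linarith
        linarith
      linarith
  set P := sp (fun p => ((p : ℝ) - 1)⁻¹) with hP
  set g : ℕ → ℝ := fun n => (Real.log n)⁻¹ with hg
  set E : ℕ → ℝ := fun n => Ls n - Real.log n with hEdef
  set G : ℕ → ℝ := fun n => P n - Real.log (Real.log n) - E n * g n with hG
  have hPs : ∀ n : ℕ, 1000 ≤ n → P (n + 1) - P n = (Ls (n + 1) - Ls n) * g (n + 1) := by
    intro n hn
    have h1 : Ls (n + 1) = Ls n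
        + if (n + 1).Prime then Real.log ((n + 1 : ℕ) : ℝ) / (((n + 1 : ℕ) : ℝ) - 1) else 0 := by
      have := sp_succ (fun p => Real.log p / ((p : ℝ) - 1)) n
      exact this
    rw [hP, sp_succ, h1]
    have h2 := hlog (n + 1) (by omega)
    by_cases hp : (n + 1).Prime
    · rw [if_pos hp, if_pos hp]
      simp only [hg]
      rw [add_sub_cancel_left, add_sub_cancel_left]
      field_simp
    · rw [if_neg hp, if_neg hp]
      ring
  have hkey : ∀ n : ℕ, 1000 ≤ n → |G (n + 1) - G n| ≤ (C + 1) * (g n - g (n + 1)) := by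
    intro n hn
    have hA := hlog n hn
    obtain ⟨hAB, hB⟩ := hstep n hn
    have h1 := delta hA hAB hB
    have h2 := hPs n hn
    have h3 : 0 ≤ g n - g (n + 1) := by
      have := inv_anti₀ (by linarith : 0 < Real.log n) hAB
      simp only [hg]
      linarith
    have h4 : G (n + 1) - G n = E n * (g n - g (n + 1))
        + ((Real.log ((n + 1 : ℕ) : ℝ) - Real.log n) * (Real.log ((n + 1 : ℕ) : ℝ))⁻¹
          - (Real.log (Real.log ((n + 1 : ℕ) : ℝ)) - Real.log (Real.log n))) := by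
      have e1 : P (n + 1) = P n + (Ls (n + 1) - Ls n) * g (n + 1) := by linarith
      simp only [hG, hEdef]
      rw [e1]
      simp only [hg]
      ring
    rw [h4]
    refine (abs_add_le _ _).trans ?_
    rw [abs_mul, abs_of_nonneg h3]
    have h5 := hE n hn
    have h6 : |E n| * (g n - g (n + 1)) ≤ C * (g n - g (n + 1)) :=
      mul_le_mul_of_nonneg_right h5 h3
    have h7 : (Real.log n)⁻¹ - (Real.log ((n + 1 : ℕ) : ℝ))⁻¹ = g n - g (n + 1) := rfl
    rw [h7] at h1
    linarith
  have hanti : Antitone fun n : ℕ => G (n + 1000) + (C + 1) * g (n + 1000) := by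
    refine antitone_nat_of_succ_le fun n => ?_
    have h1 := (abs_le.mp (hkey (n + 1000) (by omega))).2
    have e : n + 1 + 1000 = n + 1000 + 1 := by omega
    rw [e]
    linarith
  have hmono : Monotone fun n : ℕ => G (n + 1000) - (C + 1) * g (n + 1000) := by
    refine monotone_nat_of_le_succ fun n => ?_
    have h1 := (abs_le.mp (hkey (n + 1000) (by omega))).1
    have e : n + 1 + 1000 = n + 1000 + 1 := by omega
    rw [e]
    linarith
  have hg0 : ∀ n : ℕ, 0 ≤ g (n + 1000) := by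
    intro n
    have := hlog (n + 1000) (by omega)
    simp only [hg]
    positivity
  have hbdd : BddBelow (Set.range fun n : ℕ => G (n + 1000) + (C + 1) * g (n + 1000)) := by
    refine ⟨G (0 + 1000) - (C + 1) * g (0 + 1000), ?_⟩
    rintro _ ⟨n, rfl⟩
    have h1 := hmono (Nat.zero_le n)
    simp only at h1 ⊢
    have h2 := mul_nonneg (by linarith : 0 ≤ C + 1) (hg0 n)
    linarith
  have hlim := tendsto_atTop_ciInf hanti hbdd
  have hgl : Tendsto (fun n : ℕ => g (n + 1000)) atTop (𝓝 0) := by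
    simp only [hg]
    exact (Real.tendsto_log_atTop.comp
      (tendsto_natCast_atTop_atTop.comp (tendsto_add_atTop_nat 1000))).inv_tendsto_atTop
  have hEg : Tendsto (fun n : ℕ => E (n + 1000) * g (n + 1000)) atTop (𝓝 0) := by
    refine squeeze_zero_norm (a := fun n : ℕ => C * g (n + 1000)) (fun n => ?_) ?_
    · rw [Real.norm_eq_abs, abs_mul, abs_of_nonneg (hg0 n)]
      exact mul_le_mul_of_nonneg_right (hE _ (by omega)) (hg0 n)
    · simpa using hgl.const_mul C
  refine ⟨(⨅ n : ℕ, G (n + 1000) + (C + 1) * g (n + 1000)) - (C + 1) * 0 + 0, ?_⟩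
  rw [← tendsto_add_atTop_iff_nat 1000]
  refine ((hlim.sub (hgl.const_mul (C + 1))).add hEg).congr fun n => ?_
  simp only [hG]
  ring

/-- the difference of the two weights -/
lemma conv2 : ∃ M : ℝ, Tendsto (fun n : ℕ => sp (fun p => ((p : ℝ) - 1)⁻¹ - (p : ℝ)⁻¹) n)
    atTop (𝓝 M) := by
  have hnn : ∀ p : ℕ, p.Prime → 0 ≤ ((p : ℝ) - 1)⁻¹ - (p : ℝ)⁻¹ := by
    intro p hp
    have h2 : (2 : ℝ) ≤ p := by exact_mod_cast hp.two_le
    have := inv_anti₀ (by linarith : 0 < (p : ℝ) - 1) (by linarith : (p : ℝ) - 1 ≤ p)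
    linarith
  have hmono : Monotone fun n : ℕ => sp (fun p => ((p : ℝ) - 1)⁻¹ - (p : ℝ)⁻¹) n := by
    refine monotone_nat_of_le_succ fun n => ?_
    rw [sp_succ]
    split_ifs with h
    · have := hnn _ h
      linarith
    · linarith
  have hle : ∀ n : ℕ, sp (fun p => ((p : ℝ) - 1)⁻¹ - (p : ℝ)⁻¹) (n + 1) ≤ 1 - ((n + 1 : ℕ) : ℝ)⁻¹ := by
    intro n
    induction n with
    | zero =>
      have h1 : (Finset.Icc 1 (0 + 1)).filter Nat.Prime = ∅ := by decide
      unfold sp
      rw [h1]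
      simp
    | succ n ih =>
      rw [sp_succ]
      split_ifs with h
      · have e : (((n + 1 + 1 : ℕ) : ℝ) - 1) = ((n + 1 : ℕ) : ℝ) := by push_cast; ring
        rw [e]
        linarith
      · have : (((n + 1 + 1 : ℕ) : ℝ))⁻¹ ≤ ((n + 1 : ℕ) : ℝ)⁻¹ := by
          apply inv_anti₀ (by positivity)
          push_cast
          linarith
        linarith
  have hbdd : BddAbove (Set.range fun n : ℕ => sp (fun p => ((p : ℝ) - 1)⁻¹ - (p : ℝ)⁻¹) n) := by
    refine ⟨1, ?_⟩
    rintro _ ⟨n, rfl⟩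
    refine (hmono (Nat.le_succ n)).trans ((hle n).trans ?_)
    have : (0 : ℝ) ≤ ((n + 1 : ℕ) : ℝ)⁻¹ := by positivity
    linarith
  exact ⟨_, tendsto_atTop_ciSup hmono hbdd⟩

/-- Mertens' second theorem over the natural numbers -/
lemma convN : ∃ M : ℝ, Tendsto (fun n : ℕ => sp (fun p => (p : ℝ)⁻¹) n
    - Real.log (Real.log n)) atTop (𝓝 M) := by
  obtain ⟨M1, h1⟩ := conv1
  obtain ⟨M2, h2⟩ := conv2
  refine ⟨M1 - M2, (h1.sub h2).congr fun n => ?_⟩
  unfold sp
  rw [Finset.sum_sub_distrib]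
  ring

end T3

open T3 in
theorem mertC : MertC := by
  obtain ⟨M, hM⟩ := convN
  refine ⟨M, ?_⟩
  have hn : Tendsto (fun Y : ℝ => ⌊Real.exp Y⌋₊) atTop atTop :=
    tendsto_nat_floor_atTop.comp Real.tendsto_exp_atTop
  have h1 := hM.comp hn
  have h2 : Tendsto (fun Y : ℝ => Real.log (Real.log (⌊Real.exp Y⌋₊ : ℝ)) - Real.log Y) atTop
      (𝓝 0) := by
    have h3 : Tendsto (fun Y : ℝ => Real.log (⌊Real.exp Y⌋₊ : ℝ) / Y) atTop (𝓝 1) := by
      have h4 : Tendsto (fun Y : ℝ => 1 - Real.log 2 / Y) atTop (𝓝 1) := by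
        have := (tendsto_const_nhds (x := Real.log 2)).div_atTop (tendsto_id (α := ℝ) (x := atTop))
        have h5 := (tendsto_const_nhds (x := (1 : ℝ))).sub this
        simpa using h5
      refine tendsto_of_tendsto_of_tendsto_of_le_of_le' h4 tendsto_const_nhds ?_ ?_
      · filter_upwards [eventually_ge_atTop (1 : ℝ)] with Y hY
        have h6 : (2 : ℝ) ≤ Real.exp Y := by
          have := Real.add_one_le_exp Y
          linarith
        have h7 : Real.exp Y / 2 ≤ (⌊Real.exp Y⌋₊ : ℝ) := by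
          have := Nat.lt_floor_add_one (Real.exp Y)
          linarith
        have h8 := Real.log_le_log (by positivity) h7
        rw [Real.log_div (Real.exp_pos _).ne' (by norm_num), Real.log_exp] at h8
        rw [le_div_iff₀ (by linarith)]
        calc (1 - Real.log 2 / Y) * Y = Y - Real.log 2 := by field_simp
          _ ≤ _ := h8
      · filter_upwards [eventually_ge_atTop (1 : ℝ)] with Y hY
        have h6 : (1 : ℝ) ≤ Real.exp Y := by
          have := Real.add_one_le_exp Y
          linarith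
        have h7 : (⌊Real.exp Y⌋₊ : ℝ) ≤ Real.exp Y := Nat.floor_le (Real.exp_pos _).le
        have h9 : (0 : ℝ) < (⌊Real.exp Y⌋₊ : ℝ) := by
          have := Nat.one_le_floor_iff (Real.exp Y) |>.mpr h6
          exact_mod_cast this
        have h8 := Real.log_le_log h9 h7
        rw [Real.log_exp] at h8
        rw [div_le_one (by linarith)]
        exact h8
    have h5 := (Real.continuousAt_log (one_ne_zero)).tendsto.comp h3
    rw [Real.log_one] at h5
    refine h5.congr' ?_
    filter_upwards [eventually_ge_atTop (3 : ℝ)] with Y hY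
    have h6 : (4 : ℝ) ≤ Real.exp Y := by
      have := Real.add_one_le_exp Y
      linarith
    have h7 : (3 : ℝ) ≤ (⌊Real.exp Y⌋₊ : ℝ) := by
      have := Nat.lt_floor_add_one (Real.exp Y)
      linarith
    have h8 : 0 < Real.log (⌊Real.exp Y⌋₊ : ℝ) := Real.log_pos (by linarith)
    simp only [Function.comp]
    rw [Real.log_div h8.ne' (by linarith)]
  have h3 := h1.add h2
  rw [add_zero] at h3
  refine h3.congr fun Y => ?_
  simp only [Function.comp, sp]
  ring

end Pool.Agent.Lib.MT
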