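import Mathlib
import Pool.Agent.Lib.MP_f9aece_nt_mt.StmtsT
import Pool.Agent.Lib.MP_f9aece_nt_ms.Coeffs

/-!
Mesoscopic moments of zeta, module T4a.

cgm s is a probability measure (map of a product of probability measures under a measurable map); gam is a pi of them. Integrability of ‖z‖^p (sup norm): ‖z‖^p <= sum_j ‖z_j‖^p (m >= 1) or constant (m = 0); each coordinate has law cgm (measurePreserving_eval for Measure.pi), ‖x + I y‖^p <= 2^p (|x|^p + |y|^p), and real Gaussians have all moments (memLp_id_gaussianReal). (about 120 lines)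
-/

set_option autoImplicit false

namespace Pool.Agent.Lib.MT

open MeasureTheory Set Filter Topology Complex
open scoped ComplexConjugate
open scoped ArithmeticFunction.Omega
open Pool.Agent.Lib.MP_f9aece_nt (DP pair BK K1 ev PP VV Smo expo)
open Pool.Agent.Lib.MP_f9aece_nt_h40 (ind)
open Pool.Agent.Lib.MP_f9aece_nt_h85 (Rst)
open Pool.Agent.Lib.MP_f9aece_nt_h97 (Psm Dsm evs)
open Pool.Agent.Lib.NL (pt B0)
open Pool.Agent.Lib.J4 (En V2)
open Pool.Agent.Lib.MS (Len MVP Par RW TZ Cut un zr ex hq af ZS)

namespace T4a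

lemma cgm_prob (s : ℝ) : IsProbabilityMeasure (cgm s) := by
  unfold cgm
  exact Measure.isProbabilityMeasure_map (by fun_prop)

lemma cgm_memLp (s : ℝ) (p : ℕ) : MemLp (fun z : ℂ => z) p (cgm s) := by
  unfold cgm
  rw [memLp_map_measure_iff (by fun_prop) (by fun_prop)]
  have h : MemLp (fun x : ℝ => (x : ℂ)) p (ProbabilityTheory.gaussianReal 0 s.toNNReal) := by
    have h0 := ProbabilityTheory.memLp_id_gaussianReal' (μ := 0) (v := s.toNNReal) (p : ENNReal)
      (by simp)
    exact h0.ofReal
  have h1 := h.comp_fst (ProbabilityTheory.gaussianReal 0 s.toNNReal)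
  have h2 := (h.comp_snd (ProbabilityTheory.gaussianReal 0 s.toNNReal)).const_mul I
  exact h1.add h2

end T4a

theorem gauA : GauA := by
  intro m σ _
  have : ∀ j, IsProbabilityMeasure (cgm (σ j / 2)) := fun j => T4a.cgm_prob _
  have hp : IsProbabilityMeasure (gam m σ) := by
    unfold gam
    infer_instance
  refine ⟨hp, fun p => ?_⟩
  have h : MemLp (fun z : Fin m → ℂ => z) p (gam m σ) := by
    rw [memLp_pi_iff]
    intro j
    exact (T4a.cgm_memLp (σ j / 2) p).comp_measurePreserving
      (measurePreserving_eval (fun j => cgm (σ j / 2)) j)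
  exact h.integrable_norm_pow'

end Pool.Agent.Lib.MT
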