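import Mathlib
import Pool.Agent.Lib.MP_f9aece_nt_mt.StmtsT
import Pool.Agent.Lib.MP_f9aece_nt_ms.Coeffs

/-!
Mesoscopic moments of zeta, module T4b.

cexp (I (sum ξ_j z_j).re) = prod_j cexp (I (ξ_j z_j).re); integral_fintype_prod_eq_prod (or MeasureTheory.integral_fintype_prod_eq_prod for Measure.pi), then for one coordinate integral_map, (ξ (x + I y)).re = ξ.re x - ξ.im y, integral_prod_mul, charFun_gaussianReal (mean 0, variance σ/2): exp(-(ξ.re^2 + ξ.im^2) (σ/2)/2). (about 120 lines)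
-/

set_option autoImplicit false

namespace Pool.Agent.Lib.MT

open MeasureTheory Set Filter Topology Complex
open scoped ComplexConjugate
open scoped ArithmeticFunction.Omega
open Pool.Agent.Lib.MP_f9aece_nt (DP pair BK K1 ev PP VV Smo expo)
open Pool.Agent.Lib.MP_f9aece_nt_h40 (ind)
open Pool.Agent.Lib.MP_f9aece_nt_h85 (Rst)
open Pool.Agent.Lib.MP_f9aece_nt_h97 (Psm Dsm evs)
open Pool.Agent.Lib.NL (pt B0)
open Pool.Agent.Lib.J4 (En V2)
open Pool.Agent.Lib.MS (Len MVP Par RW TZ Cut un zr ex hq af ZS)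

namespace T4b

lemma cgm_prob (s : ℝ) : IsProbabilityMeasure (cgm s) := by
  unfold cgm
  exact Measure.isProbabilityMeasure_map (by fun_prop)

lemma gauss_int (s : ℝ) (hs : 0 ≤ s) (c : ℝ) :
    ∫ x : ℝ, cexp (I * ((c * x : ℝ) : ℂ)) ∂(ProbabilityTheory.gaussianReal 0 s.toNNReal)
      = cexp (-((s * c ^ 2 / 2 : ℝ) : ℂ)) := by
  have h := ProbabilityTheory.charFun_gaussianReal (μ := 0) (v := s.toNNReal) c
  rw [charFun_apply_real] at h
  have e : ∀ x : ℝ, cexp (I * ((c * x : ℝ) : ℂ)) = cexp (c * x * I) := by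
    intro x
    congr 1
    push_cast
    ring
  simp_rw [e]
  rw [h]
  congr 1
  have : ((s.toNNReal : ℝ) : ℂ) = (s : ℂ) := by
    rw [Real.coe_toNNReal s hs]
  rw [this]
  push_cast
  ring

lemma cgm_int (s : ℝ) (hs : 0 ≤ s) (ξ : ℂ) :
    ∫ z, cexp (I * ((ξ * z).re : ℂ)) ∂(cgm s)
      = cexp (-((s * ‖ξ‖ ^ 2 / 2 : ℝ) : ℂ)) := by
  unfold cgm
  rw [integral_map (by fun_prop) (by fun_prop)]
  have e : ∀ p : ℝ × ℝ, cexp (I * ((ξ * ((p.1 : ℂ) + I * p.2)).re : ℂ))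
      = cexp (I * ((ξ.re * p.1 : ℝ) : ℂ)) * cexp (I * (((-ξ.im) * p.2 : ℝ) : ℂ)) := by
    intro p
    rw [← Complex.exp_add, ← mul_add, ← Complex.ofReal_add]
    congr 3
    simp [Complex.mul_re, Complex.add_re, Complex.add_im]
    try ring
  simp_rw [e]
  rw [integral_prod_mul (fun x : ℝ => cexp (I * ((ξ.re * x : ℝ) : ℂ)))
    (fun y : ℝ => cexp (I * (((-ξ.im) * y : ℝ) : ℂ))), gauss_int s hs, gauss_int s hs,
    ← Complex.exp_add]
  congr 1
  rw [← Complex.ofReal_neg, ← Complex.ofReal_neg, ← Complex.ofReal_neg, ← Complex.ofReal_add]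
  congr 1
  rw [← Complex.normSq_eq_norm_sq, Complex.normSq_apply]
  ring

end T4b

theorem gauB : GauB := by
  intro m σ hσ ξ
  have : ∀ j, IsProbabilityMeasure (cgm (σ j / 2)) := fun j => T4b.cgm_prob _
  have e : ∀ z : Fin m → ℂ, cexp (I * ((∑ j, ξ j * z j).re : ℂ))
      = ∏ j, cexp (I * ((ξ j * z j).re : ℂ)) := by
    intro z
    rw [← Complex.exp_sum, ← Finset.mul_sum, ← Complex.ofReal_sum, ← Complex.re_sum]
  simp_rw [e]
  unfold gam
  rw [integral_fintype_prod_eq_prod (fun (j : Fin m) (z : ℂ) => cexp (I * ((ξ j * z).re : ℂ)))]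
  simp_rw [fun j => T4b.cgm_int (σ j / 2) (by linarith [hσ j]) (ξ j)]
  rw [← Complex.exp_sum, Complex.ofReal_exp]
  congr 1
  rw [Finset.sum_neg_distrib, ← Complex.ofReal_sum, ← Complex.ofReal_neg]
  congr 1
  rw [neg_div, Finset.sum_div]
  congr 1
  refine Finset.sum_congr rfl fun j _ => ?_
  ring

end Pool.Agent.Lib.MT
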