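import Mathlib
import Pool.Agent.Lib.MP_f9aece_nt_mt.StmtsT
import Pool.Agent.Lib.MP_f9aece_nt_ms.Coeffs

/-!
Mesoscopic moments of zeta, module T4c.

Both measures are finite and have the same characteristic function: for a continuous real linear functional on Fin m -> C, written L z = (sum ξ_j z_j).re, the integral of exp(I L(c z)) uses ξ_j c with ‖ξ_j c‖ = ‖ξ_j‖. Conclude with Measure.ext_of_charFunDual (or transport to EuclideanSpace and Measure.ext_of_charFun). (about 100 lines)
-/

set_option autoImplicit false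

namespace Pool.Agent.Lib.MT

open MeasureTheory Set Filter Topology Complex
open scoped ComplexConjugate
open scoped ArithmeticFunction.Omega
open Pool.Agent.Lib.MP_f9aece_nt (DP pair BK K1 ev PP VV Smo expo)
open Pool.Agent.Lib.MP_f9aece_nt_h40 (ind)
open Pool.Agent.Lib.MP_f9aece_nt_h85 (Rst)
open Pool.Agent.Lib.MP_f9aece_nt_h97 (Psm Dsm evs)
open Pool.Agent.Lib.NL (pt B0)
open Pool.Agent.Lib.J4 (En V2)
open Pool.Agent.Lib.MS (Len MVP Par RW TZ Cut un zr ex hq af ZS)

private lemma t4c_repr {m : ℕ} (L : StrongDual ℝ (Fin m → ℂ)) :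
    ∃ ξ : Fin m → ℂ, ∀ z : Fin m → ℂ, L z = (∑ j, ξ j * z j).re := by
  classical
  refine ⟨fun j => (L (Pi.single j (1 : ℂ)) : ℂ) - I * (L (Pi.single j I) : ℂ), ?_⟩
  intro z
  have h1 : z = ∑ j, Pi.single j (z j) := (Finset.univ_sum_single z).symm
  have h2 : ∀ j, (Pi.single j (z j) : Fin m → ℂ) =
      (z j).re • (Pi.single j (1 : ℂ) : Fin m → ℂ) + (z j).im • (Pi.single j I : Fin m → ℂ) := by
    intro j
    rw [← Pi.single_smul, ← Pi.single_smul, ← Pi.single_add]
    congr 1
    apply Complex.ext <;> simp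
  conv_lhs => rw [h1]
  rw [map_sum, Complex.re_sum]
  apply Finset.sum_congr rfl
  intro j _
  rw [h2 j, map_add, map_smul, map_smul]
  simp
  ring

theorem gauC (ha : GauA) (hb : GauB) : GauC := by
  intro m σ hσ c hc
  have : IsProbabilityMeasure (gam m σ) := (ha m σ hσ).1
  have hmeas : Measurable (fun (z : Fin m → ℂ) j => c * z j) := by fun_prop
  have : IsProbabilityMeasure ((gam m σ).map (fun z j => c * z j)) :=
    Measure.isProbabilityMeasure_map hmeas.aemeasurable
  apply Measure.ext_of_charFunDual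
  funext L
  obtain ⟨ξ, hξ⟩ := t4c_repr L
  rw [charFunDual_apply, charFunDual_apply, integral_map hmeas.aemeasurable (by fun_prop)]
  have e1 : ∀ z : Fin m → ℂ, cexp ((L (fun j => c * z j) : ℂ) * I) =
      cexp (I * ((∑ j, (ξ j * c) * z j).re : ℂ)) := by
    intro z
    rw [hξ, mul_comm]
    congr 4
    apply Finset.sum_congr rfl
    intro j _
    ring
  have e2 : ∀ z : Fin m → ℂ, cexp ((L z : ℂ) * I) = cexp (I * ((∑ j, ξ j * z j).re : ℂ)) := by
    intro z
    rw [hξ, mul_comm]
  simp_rw [e1, e2]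
  have h1 := hb m σ hσ (fun j => ξ j * c)
  have h2 := hb m σ hσ ξ
  rw [h1, h2]
  simp only [norm_mul, hc, mul_one]

end Pool.Agent.Lib.MT
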