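import Mathlib
import Pool.Agent.Lib.MP_f9aece_nt_mt.StmtsT
import Pool.Agent.Lib.MP_f9aece_nt_ms.Coeffs

/-!
Mesoscopic moments of zeta, module T5.

For every N: |cexp (I x) - sum_(p<2N) (I x)^p/p!| <= |x|^(2N)/(2N)! (Mathlib: bound for exp of an imaginary argument, e.g. norm_exp_sub_sum_le_norm_mul_exp is too weak; prove by induction/Taylor or use Complex exp bounds for real part 0), so |int cexp(I x) dμ_n - sum_(p<2N) I^p/p! int x^p dμ_n| <= int x^(2N) dμ_n/(2N)!. Let n -> oo: limsup |int cexp - sum_(p<2N) I^p/p! gm1 s p| <= gm1 s (2N)/(2N)! = (s/4)^N/N!. And sum_(p<2N) I^p/p! gm1 s p = sum_(j<N) (-s/4)^j/j! -> exp(-s/4), (s/4)^N/N! -> 0. (about 150 lines)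
-/

set_option autoImplicit false

namespace Pool.Agent.Lib.MT

open MeasureTheory Set Filter Topology Complex
open scoped ComplexConjugate
open scoped ArithmeticFunction.Omega
open Pool.Agent.Lib.MP_f9aece_nt (DP pair BK K1 ev PP VV Smo expo)
open Pool.Agent.Lib.MP_f9aece_nt_h40 (ind)
open Pool.Agent.Lib.MP_f9aece_nt_h85 (Rst)
open Pool.Agent.Lib.MP_f9aece_nt_h97 (Psm Dsm evs)
open Pool.Agent.Lib.NL (pt B0)
open Pool.Agent.Lib.J4 (En V2)
open Pool.Agent.Lib.MS (Len MVP Par RW TZ Cut un zr ex hq af ZS)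

namespace OneDimAux

/-- the Taylor polynomials of `exp (I x)` -/
noncomputable def Sn (n : ℕ) (x : ℝ) : ℂ :=
  ∑ p ∈ Finset.range n, (I * (x : ℂ)) ^ p / (p.factorial : ℂ)

theorem Sn_succ (n : ℕ) (x : ℝ) :
    Sn (n + 1) x = Sn n x + (I * (x : ℂ)) ^ n / (n.factorial : ℂ) := by
  rw [Sn, Finset.sum_range_succ]
  rfl

theorem hasDerivAt_Ix (x : ℝ) : HasDerivAt (fun y : ℝ => I * (y : ℂ)) I x := by
  have h := (Complex.ofRealCLM.hasDerivAt (x := x)).const_mul I
  simpa using h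

theorem hasDerivAt_term (n : ℕ) (x : ℝ) :
    HasDerivAt (fun y : ℝ => (I * (y : ℂ)) ^ (n + 1) / ((n + 1).factorial : ℂ))
      (I * ((I * (x : ℂ)) ^ n / (n.factorial : ℂ))) x := by
  have h := ((hasDerivAt_Ix x).pow (n + 1)).div_const ((n + 1).factorial : ℂ)
  refine HasDerivAt.congr_deriv (f := fun y : ℝ => (I * (y : ℂ)) ^ (n + 1) /
    ((n + 1).factorial : ℂ)) h ?_
  have h1 : ((n + 1).factorial : ℂ) = ((n : ℂ) + 1) * (n.factorial : ℂ) := by
    rw [Nat.factorial_succ]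
    push_cast
    ring
  have h2 : (n.factorial : ℂ) ≠ 0 := by exact_mod_cast n.factorial_ne_zero
  have h3 : ((n : ℂ) + 1) ≠ 0 := by exact_mod_cast n.succ_ne_zero
  rw [h1]
  simp only [Nat.add_sub_cancel]
  push_cast
  field_simp

theorem hasDerivAt_Sn (n : ℕ) (x : ℝ) : HasDerivAt (Sn (n + 1)) (I * Sn n x) x := by
  induction n with
  | zero =>
    have h : Sn (0 + 1) = fun _ : ℝ => (1 : ℂ) := by
      funext y
      simp [Sn]
    rw [h]
    have h2 : I * Sn 0 x = 0 := by simp [Sn]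
    rw [h2]
    exact hasDerivAt_const x 1
  | succ n ih =>
    have h : Sn (n + 1 + 1) = fun y : ℝ => Sn (n + 1) y +
        (I * (y : ℂ)) ^ (n + 1) / ((n + 1).factorial : ℂ) := by
      funext y
      exact Sn_succ _ _
    rw [h, Sn_succ, mul_add]
    exact ih.add (hasDerivAt_term n x)

theorem hasDerivAt_R (n : ℕ) (x : ℝ) :
    HasDerivAt (fun y : ℝ => cexp (I * y) - Sn (n + 1) y) (I * (cexp (I * x) - Sn n x)) x := by
  have h := (hasDerivAt_Ix x).cexp.sub (hasDerivAt_Sn n x)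
  refine HasDerivAt.congr_deriv (f := fun y : ℝ => cexp (I * y) - Sn (n + 1) y) h ?_
  ring

theorem R_le_pos (n : ℕ) (x : ℝ) (hx : 0 ≤ x) :
    ‖cexp (I * x) - Sn n x‖ ≤ x ^ n / (n.factorial : ℝ) := by
  induction n generalizing x with
  | zero =>
    simp only [Sn, Finset.range_zero, Finset.sum_empty, sub_zero, pow_zero, Nat.factorial_zero,
      Nat.cast_one, div_one]
    rw [Complex.norm_exp_I_mul_ofReal]
  | succ n ih =>
    have hB : ∀ y : ℝ, HasDerivAt (fun y : ℝ => y ^ (n + 1) / ((n + 1).factorial : ℝ))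
        (y ^ n / (n.factorial : ℝ)) y := by
      intro y
      have h := (hasDerivAt_pow (n + 1) y).div_const ((n + 1).factorial : ℝ)
      refine h.congr_deriv ?_
      have h1 : ((n + 1).factorial : ℝ) = ((n : ℝ) + 1) * (n.factorial : ℝ) := by
        rw [Nat.factorial_succ]
        push_cast
        ring
      have h2 : (n.factorial : ℝ) ≠ 0 := by exact_mod_cast n.factorial_ne_zero
      have h3 : ((n : ℝ) + 1) ≠ 0 := by exact_mod_cast n.succ_ne_zero
      rw [h1]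
      simp only [Nat.add_sub_cancel]
      push_cast
      field_simp
    have key := image_norm_le_of_norm_deriv_right_le_deriv_boundary
      (f := fun y : ℝ => cexp (I * y) - Sn (n + 1) y)
      (f' := fun y : ℝ => I * (cexp (I * y) - Sn n y)) (a := 0) (b := x)
      (fun y _ => (hasDerivAt_R n y).continuousAt.continuousWithinAt)
      (fun y _ => (hasDerivAt_R n y).hasDerivWithinAt)
      (B := fun y : ℝ => y ^ (n + 1) / ((n + 1).factorial : ℝ))
      (B' := fun y : ℝ => y ^ n / (n.factorial : ℝ)) ?_ hB ?_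
    · exact key ⟨hx, le_rfl⟩
    · have h0 : Sn (n + 1) 0 = 1 := by
        rw [Sn, Finset.sum_range_succ']
        simp
      simp only [Complex.ofReal_zero, mul_zero, Complex.exp_zero, h0, sub_self, norm_zero]
      positivity
    · intro y hy
      rw [norm_mul, Complex.norm_I, one_mul]
      exact ih y hy.1

theorem conj_R (n : ℕ) (x : ℝ) :
    conj (cexp (I * x) - Sn n x) = cexp (I * ((-x : ℝ) : ℂ)) - Sn n (-x) := by
  rw [map_sub, ← Complex.exp_conj, Sn, Sn, map_sum]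
  congr 1
  · congr 1
    rw [map_mul, Complex.conj_I, Complex.conj_ofReal]
    push_cast
    ring
  · refine Finset.sum_congr rfl fun p _ => ?_
    rw [map_div₀, map_pow, map_mul, Complex.conj_I, Complex.conj_ofReal, Complex.conj_natCast]
    push_cast
    congr 2
    ring

theorem R_le (n : ℕ) (x : ℝ) :
    ‖cexp (I * x) - Sn n x‖ ≤ |x| ^ n / (n.factorial : ℝ) := by
  rcases le_total 0 x with hx | hx
  · rw [abs_of_nonneg hx]
    exact R_le_pos n x hx
  · rw [abs_of_nonpos hx, ← Complex.norm_conj, conj_R]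
    exact R_le_pos n (-x) (by linarith)

/-- the truncated sums of the moments -/
noncomputable def An (m : ℕ → ℝ) (n : ℕ) : ℂ :=
  ∑ p ∈ Finset.range n, I ^ p / (p.factorial : ℂ) * (m p : ℂ)

theorem integral_le (μ : Measure ℝ) [IsProbabilityMeasure μ]
    (h : ∀ p : ℕ, Integrable (fun x : ℝ => x ^ p) μ) (N : ℕ) :
    ‖∫ x : ℝ, cexp (I * x) ∂μ - An (fun p => ∫ x, x ^ p ∂μ) (2 * N)‖
      ≤ (∫ x, x ^ (2 * N) ∂μ) / ((2 * N).factorial : ℝ) := by
  have h1 : Integrable (fun x : ℝ => cexp (I * x)) μ := by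
    refine Integrable.mono' (integrable_const (1 : ℝ)) ?_ ?_
    · exact (Continuous.cexp (by fun_prop)).aestronglyMeasurable
    · refine Eventually.of_forall fun x => ?_
      rw [Complex.norm_exp_I_mul_ofReal]
  have h2 : ∀ p : ℕ, Integrable (fun x : ℝ => (I * (x : ℂ)) ^ p / (p.factorial : ℂ)) μ := by
    intro p
    have h3 : (fun x : ℝ => (I * (x : ℂ)) ^ p / (p.factorial : ℂ)) =
        fun x : ℝ => (I ^ p / (p.factorial : ℂ)) * ((x ^ p : ℝ) : ℂ) := by
      funext x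
      push_cast
      ring
    rw [h3]
    exact (h p).ofReal.const_mul _
  have h4 : Integrable (Sn (2 * N)) μ := by
    have : Sn (2 * N) = fun x : ℝ => ∑ p ∈ Finset.range (2 * N),
        (I * (x : ℂ)) ^ p / (p.factorial : ℂ) := rfl
    rw [this]
    exact integrable_finsetSum _ fun p _ => h2 p
  have h5 : ∫ x, Sn (2 * N) x ∂μ = An (fun p => ∫ x, x ^ p ∂μ) (2 * N) := by
    have : Sn (2 * N) = fun x : ℝ => ∑ p ∈ Finset.range (2 * N),
        (I * (x : ℂ)) ^ p / (p.factorial : ℂ) := rfl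
    rw [this, integral_finsetSum _ fun p _ => h2 p, An]
    refine Finset.sum_congr rfl fun p _ => ?_
    have h3 : (fun x : ℝ => (I * (x : ℂ)) ^ p / (p.factorial : ℂ)) =
        fun x : ℝ => (I ^ p / (p.factorial : ℂ)) * ((x ^ p : ℝ) : ℂ) := by
      funext x
      push_cast
      ring
    rw [h3, integral_const_mul, integral_complex_ofReal]
  rw [← h5, ← integral_sub h1 h4]
  have h6 : Integrable (fun x : ℝ => x ^ (2 * N) / ((2 * N).factorial : ℝ)) μ :=
    (h (2 * N)).div_const _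
  refine (norm_integral_le_integral_norm _).trans ?_
  rw [← integral_div]
  refine integral_mono (h1.sub h4).norm h6 fun x => ?_
  have := R_le (2 * N) x
  rwa [(even_two_mul N).pow_abs] at this

theorem An_gm1 (s : ℝ) (N : ℕ) :
    An (gm1 s) (2 * N) = ((∑ j ∈ Finset.range N, (-s / 4) ^ j / (j.factorial : ℝ) : ℝ) : ℂ) := by
  induction N with
  | zero => simp [An]
  | succ N ih =>
    have e : 2 * (N + 1) = 2 * N + 1 + 1 := by ring
    rw [e, An, Finset.sum_range_succ, Finset.sum_range_succ, Finset.sum_range_succ]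
    have h1 : gm1 s (2 * N + 1) = 0 := by
      rw [gm1, if_neg]
      rw [Nat.not_even_iff_odd]
      exact ⟨N, rfl⟩
    have h2 : gm1 s (2 * N) = ((2 * N).factorial : ℝ) / (N.factorial : ℝ) * (s / 4) ^ N := by
      rw [gm1, if_pos (even_two_mul N), Nat.mul_div_cancel_left N two_pos]
    have h3 : ∑ p ∈ Finset.range (2 * N), I ^ p / (p.factorial : ℂ) * (gm1 s p : ℂ) =
        An (gm1 s) (2 * N) := rfl
    rw [h1, h2, h3, ih]
    have h4 : ((2 * N).factorial : ℂ) ≠ 0 := by exact_mod_cast (2 * N).factorial_ne_zero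
    have h5 : (N.factorial : ℂ) ≠ 0 := by exact_mod_cast N.factorial_ne_zero
    have h6 : I ^ (2 * N) = (-1) ^ N := by rw [pow_mul, I_sq]
    rw [h6]
    push_cast
    have h7 : (-(s : ℂ) / 4) ^ N = (-1) ^ N * ((s : ℂ) / 4) ^ N := by
      rw [← mul_pow]
      congr 1
      ring
    rw [h7, mul_zero, add_zero]
    congr 1
    field_simp

end OneDimAux

open OneDimAux in
theorem oneDim : OneDim := by
  intro s hs μ hμ hint hmom
  rw [Metric.tendsto_atTop]
  intro ε hε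
  -- the choice of `N`
  have hA : Tendsto (fun N : ℕ => ∑ j ∈ Finset.range N, (-s / 4) ^ j / (j.factorial : ℝ)) atTop
      (𝓝 (Real.exp (-s / 4))) := by
    rw [Real.exp_eq_exp_ℝ]
    exact (NormedSpace.expSeries_div_hasSum_exp (-s / 4 : ℝ)).tendsto_sum_nat
  have hb := FloorSemiring.tendsto_pow_div_factorial_atTop (s / 4)
  have hA' := Metric.tendsto_atTop.1 hA (ε / 4) (by positivity)
  have hb' := Metric.tendsto_atTop.1 hb (ε / 4) (by positivity)
  obtain ⟨N1, hN1⟩ := hA'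
  obtain ⟨N2, hN2⟩ := hb'
  obtain ⟨N, hNa, hNb⟩ : ∃ N, N1 ≤ N ∧ N2 ≤ N := ⟨max N1 N2, le_max_left _ _, le_max_right _ _⟩
  have hAN := hN1 N hNa
  have hbN := hN2 N hNb
  have hgm : gm1 s (2 * N) / ((2 * N).factorial : ℝ) = (s / 4) ^ N / (N.factorial : ℝ) := by
    rw [gm1, if_pos (even_two_mul N), Nat.mul_div_cancel_left N two_pos]
    have h4 : ((2 * N).factorial : ℝ) ≠ 0 := by exact_mod_cast (2 * N).factorial_ne_zero
    field_simp
  -- convergence in `n`
  have hc1 : Tendsto (fun n => (∫ x, x ^ (2 * N) ∂(μ n)) / ((2 * N).factorial : ℝ)) atTop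
      (𝓝 ((s / 4) ^ N / (N.factorial : ℝ))) := by
    rw [← hgm]
    exact (hmom (2 * N)).div_const _
  have hc2 : Tendsto (fun n => An (fun p => ∫ x, x ^ p ∂(μ n)) (2 * N)) atTop
      (𝓝 (An (gm1 s) (2 * N))) := by
    have e1 : (fun n => An (fun p => ∫ x, x ^ p ∂(μ n)) (2 * N)) = fun n =>
        ∑ p ∈ Finset.range (2 * N), I ^ p / (p.factorial : ℂ) * ((∫ x, x ^ p ∂(μ n) : ℝ) : ℂ) := rfl
    have e2 : An (gm1 s) (2 * N) = ∑ p ∈ Finset.range (2 * N),
        I ^ p / (p.factorial : ℂ) * ((gm1 s p : ℝ) : ℂ) := rfl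
    rw [e1, e2]
    refine tendsto_finsetSum _ fun p _ => Tendsto.const_mul _ ?_
    exact (Complex.continuous_ofReal.tendsto _).comp (hmom p)
  obtain ⟨n1, hn1⟩ := Metric.tendsto_atTop.1 hc1 (ε / 4) (by positivity)
  obtain ⟨n2, hn2⟩ := Metric.tendsto_atTop.1 hc2 (ε / 4) (by positivity)
  refine ⟨max n1 n2, fun n hn => ?_⟩
  have g1 := hn1 n (le_trans (le_max_left _ _) hn)
  have g2 := hn2 n (le_trans (le_max_right _ _) hn)
  have := hμ n
  have g3 := integral_le (μ n) (hint n) N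
  rw [Real.dist_eq] at hAN hbN g1
  rw [dist_eq_norm] at g2 ⊢
  have g4 : ‖An (gm1 s) (2 * N) - (Real.exp (-s / 4) : ℂ)‖ < ε / 4 := by
    rw [An_gm1, ← Complex.ofReal_sub, Complex.norm_real, Real.norm_eq_abs]
    exact hAN
  have g5 : ‖∫ x : ℝ, cexp (I * x) ∂(μ n) - (Real.exp (-s / 4) : ℂ)‖ ≤
      ‖∫ x : ℝ, cexp (I * x) ∂(μ n) - An (fun p => ∫ x, x ^ p ∂(μ n)) (2 * N)‖ +
      ‖An (fun p => ∫ x, x ^ p ∂(μ n)) (2 * N) - An (gm1 s) (2 * N)‖ +
      ‖An (gm1 s) (2 * N) - (Real.exp (-s / 4) : ℂ)‖ := by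
    have e : ∫ x : ℝ, cexp (I * x) ∂(μ n) - (Real.exp (-s / 4) : ℂ) =
      (∫ x : ℝ, cexp (I * x) ∂(μ n) - An (fun p => ∫ x, x ^ p ∂(μ n)) (2 * N)) +
      (An (fun p => ∫ x, x ^ p ∂(μ n)) (2 * N) - An (gm1 s) (2 * N)) +
      (An (gm1 s) (2 * N) - (Real.exp (-s / 4) : ℂ)) := by ring
    rw [e]
    exact norm_add₃_le
  have g6 := (abs_lt.1 g1).2
  have g7 := (abs_lt.1 hbN).2
  linarith

end Pool.Agent.Lib.MT
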