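import Mathlib
import Pool.Agent.Lib.MP_f9aece_nt_mt.StmtsT
import Pool.Agent.Lib.MP_f9aece_nt_ms.Coeffs

/-!
Mesoscopic moments of zeta, module T6.

(sum ξ_j z_j).re = (V + conj V)/2, V = sum ξ_j z_j. Binomial theorem: 2^p X^p = sum_(a+b=p) choose V^a (conj V)^b. Multinomial theorem (Finset.sum_pow_eq_sum_piAntidiag): V^a = sum over α with |α| = a of a!/prod α_j! prod ξ_j^α_j z_j^α_j. All integrals of monomials exist (MomC.int: |prod z_j^a_j| <= ‖z‖^|a|, or 1 + ‖z‖^..) and converge by MomC.mom: int V^a conj V^b -> 0 if a != b (no α = β), and for a = b -> sum_α (a!/prod α_j!)^2 prod ‖ξ_j‖^(2α_j) α_j! σ_j^α_j = a! (sum ‖ξ_j‖^2 σ_j)^a (multinomial again). Then 2^(-p) choose(p,p/2) (p/2)! S^(p/2) = p!/(p/2)! (S/4)^(p/2). (about 200 lines)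
-/

set_option autoImplicit false

namespace Pool.Agent.Lib.MT

open MeasureTheory Set Filter Topology Complex
open scoped ComplexConjugate
open scoped ArithmeticFunction.Omega
open Pool.Agent.Lib.MP_f9aece_nt (DP pair BK K1 ev PP VV Smo expo)
open Pool.Agent.Lib.MP_f9aece_nt_h40 (ind)
open Pool.Agent.Lib.MP_f9aece_nt_h85 (Rst)
open Pool.Agent.Lib.MP_f9aece_nt_h97 (Psm Dsm evs)
open Pool.Agent.Lib.NL (pt B0)
open Pool.Agent.Lib.J4 (En V2)
open Pool.Agent.Lib.MS (Len MVP Par RW TZ Cut un zr ex hq af ZS)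

private theorem t6_norm {m : ℕ} (z : Fin m → ℂ) (a : Fin m → ℕ) :
    ‖∏ j, z j ^ a j‖ ≤ ‖z‖ ^ (∑ j, a j) := by
  rw [norm_prod, ← Finset.prod_pow_eq_pow_sum]
  refine Finset.prod_le_prod (fun j _ => norm_nonneg _) fun j _ => ?_
  rw [norm_pow]
  exact pow_le_pow_left₀ (norm_nonneg _) (norm_le_pi_norm z j) _

private theorem t6_int {m : ℕ} {σ : Fin m → ℝ} {μ : ℕ → Measure (Fin m → ℂ)} (h : MomC m σ μ)
    (n : ℕ) (a b : Fin m → ℕ) :
    Integrable (fun z : Fin m → ℂ => (∏ j, z j ^ a j) * conj (∏ j, z j ^ b j)) (μ n) := by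
  refine (h.int n (∑ j, a j + ∑ j, b j)).mono' ?_ ?_
  · apply Continuous.aestronglyMeasurable
    have h1 : ∀ c : Fin m → ℕ, Continuous fun z : Fin m → ℂ => ∏ j, z j ^ c j := fun c => by
      fun_prop
    exact (h1 a).mul (Complex.continuous_conj.comp (h1 b))
  · refine Filter.Eventually.of_forall fun z => ?_
    rw [norm_mul, RCLike.norm_conj, pow_add]
    exact mul_le_mul (t6_norm z a) (t6_norm z b) (norm_nonneg _) (by positivity)

/-- the coefficients of a power of a linear form -/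
private noncomputable def t6c {m : ℕ} (ξ : Fin m → ℂ) (α : Fin m → ℕ) : ℂ :=
  (Nat.multinomial Finset.univ α : ℂ) * ∏ j, ξ j ^ α j

private theorem t6_pow {m : ℕ} (ξ z : Fin m → ℂ) (a : ℕ) :
    (∑ j, ξ j * z j) ^ a = ∑ α ∈ Finset.univ.piAntidiag a, t6c ξ α * ∏ j, z j ^ α j := by
  rw [Finset.sum_pow_eq_sum_piAntidiag]
  refine Finset.sum_congr rfl fun α _ => ?_
  simp only [mul_pow, Finset.prod_mul_distrib, t6c]
  ring

private theorem t6_val {m : ℕ} (σ : Fin m → ℝ) (ξ : Fin m → ℂ) (a b : ℕ) :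
    ∑ α ∈ Finset.univ.piAntidiag a, ∑ β ∈ Finset.univ.piAntidiag b,
      (t6c ξ α * conj (t6c ξ β)) * gmom m σ α β =
    if a = b then (a.factorial : ℂ) * ((∑ j, ‖ξ j‖ ^ 2 * σ j : ℝ) : ℂ) ^ a else 0 := by
  split_ifs with hab
  · subst hab
    rw [Complex.ofReal_sum, Finset.sum_pow_eq_sum_piAntidiag, Finset.mul_sum]
    refine Finset.sum_congr rfl fun α hα => ?_
    rw [Finset.sum_eq_single α]
    · have hsum : ∑ j, α j = a := (Finset.mem_piAntidiag.1 hα).1
      have hM : ((a.factorial : ℕ) : ℂ) =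
          (∏ j, ((α j).factorial : ℂ)) * (Nat.multinomial Finset.univ α : ℂ) := by
        rw [← hsum, ← Nat.multinomial_spec Finset.univ α]
        push_cast
        rfl
      rw [hM, gmom, if_pos rfl, t6c, map_mul, map_prod, Complex.conj_natCast]
      have hx : ∀ j, ((‖ξ j‖ ^ 2 * σ j : ℝ) : ℂ) ^ α j =
          ξ j ^ α j * conj (ξ j ^ α j) * (σ j : ℂ) ^ α j := by
        intro j
        rw [map_pow, ← mul_pow, ← mul_pow, Complex.mul_conj, Complex.normSq_eq_norm_sq]
        push_cast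
        rfl
      simp only [hx, Finset.prod_mul_distrib]
      ring
    · intro β hβ hne
      rw [gmom, if_neg (Ne.symm hne), mul_zero]
    · intro h
      exact absurd hα h
  · refine Finset.sum_eq_zero fun α hα => Finset.sum_eq_zero fun β hβ => ?_
    have h1 : ∑ j, α j = a := (Finset.mem_piAntidiag.1 hα).1
    have h2 : ∑ j, β j = b := (Finset.mem_piAntidiag.1 hβ).1
    have hne : α ≠ β := by
      rintro rfl
      exact hab (h1.symm.trans h2)
    rw [gmom, if_neg hne, mul_zero]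

private theorem t6_exp {m : ℕ} (ξ z : Fin m → ℂ) (a b : ℕ) :
    (∑ j, ξ j * z j) ^ a * conj ((∑ j, ξ j * z j) ^ b) =
      ∑ α ∈ Finset.univ.piAntidiag a, ∑ β ∈ Finset.univ.piAntidiag b,
        (t6c ξ α * conj (t6c ξ β)) * ((∏ j, z j ^ α j) * conj (∏ j, z j ^ β j)) := by
  rw [t6_pow, t6_pow, map_sum, Finset.sum_mul_sum]
  refine Finset.sum_congr rfl fun α _ => Finset.sum_congr rfl fun β _ => ?_
  rw [map_mul]
  ring

private theorem t6_integrable {m : ℕ} {σ : Fin m → ℝ} {μ : ℕ → Measure (Fin m → ℂ)}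
    (h : MomC m σ μ) (ξ : Fin m → ℂ) (a b n : ℕ) :
    Integrable (fun z => (∑ j, ξ j * z j) ^ a * conj ((∑ j, ξ j * z j) ^ b)) (μ n) := by
  simp only [t6_exp]
  exact integrable_finsetSum _ fun α _ => integrable_finsetSum _ fun β _ =>
    (t6_int h n α β).const_mul _

private theorem t6_lim {m : ℕ} {σ : Fin m → ℝ} {μ : ℕ → Measure (Fin m → ℂ)} (h : MomC m σ μ)
    (ξ : Fin m → ℂ) (a b : ℕ) :
    Tendsto (fun n => ∫ z, (∑ j, ξ j * z j) ^ a * conj ((∑ j, ξ j * z j) ^ b) ∂(μ n)) atTop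
      (𝓝 (if a = b then (a.factorial : ℂ) * ((∑ j, ‖ξ j‖ ^ 2 * σ j : ℝ) : ℂ) ^ a else 0)) := by
  have hint : ∀ n, ∫ z, (∑ j, ξ j * z j) ^ a * conj ((∑ j, ξ j * z j) ^ b) ∂(μ n) =
      ∑ α ∈ Finset.univ.piAntidiag a, ∑ β ∈ Finset.univ.piAntidiag b,
        (t6c ξ α * conj (t6c ξ β)) * ∫ z, (∏ j, z j ^ α j) * conj (∏ j, z j ^ β j) ∂(μ n) := by
    intro n
    simp only [t6_exp]
    rw [integral_finsetSum _ fun α _ => integrable_finsetSum _ fun β _ =>
      (t6_int h n α β).const_mul _]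
    refine Finset.sum_congr rfl fun α _ => ?_
    rw [integral_finsetSum _ fun β _ => (t6_int h n α β).const_mul _]
    refine Finset.sum_congr rfl fun β _ => ?_
    rw [integral_const_mul]
  simp only [hint]
  rw [← t6_val]
  exact tendsto_finsetSum _ fun α _ => tendsto_finsetSum _ fun β _ =>
    (h.mom α β).const_mul _

theorem linMom : LinMom := by
  intro m σ hσ μ h ξ p
  set S : ℝ := ∑ j, ‖ξ j‖ ^ 2 * σ j with hS
  have hexp : ∀ z : Fin m → ℂ, ((((∑ j, ξ j * z j).re) ^ p : ℝ) : ℂ) =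
      ∑ a ∈ Finset.range (p + 1), (((2 : ℂ) ^ p)⁻¹ * (p.choose a : ℂ)) *
        ((∑ j, ξ j * z j) ^ a * conj ((∑ j, ξ j * z j) ^ (p - a))) := by
    intro z
    have h1 : ((∑ j, ξ j * z j).re : ℂ) = 2⁻¹ * ((∑ j, ξ j * z j) + conj (∑ j, ξ j * z j)) := by
      rw [Complex.add_conj]
      push_cast
      ring
    rw [Complex.ofReal_pow, h1, mul_pow, add_pow, Finset.mul_sum, inv_pow]
    refine Finset.sum_congr rfl fun a _ => ?_
    rw [map_pow]
    ring
  have hint : ∀ n, ((∫ z, ((∑ j, ξ j * z j).re) ^ p ∂(μ n) : ℝ) : ℂ) =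
      ∑ a ∈ Finset.range (p + 1), (((2 : ℂ) ^ p)⁻¹ * (p.choose a : ℂ)) *
        ∫ z, (∑ j, ξ j * z j) ^ a * conj ((∑ j, ξ j * z j) ^ (p - a)) ∂(μ n) := by
    intro n
    rw [← integral_complex_ofReal]
    simp only [hexp]
    rw [integral_finsetSum _ fun a _ => (t6_integrable h ξ a (p - a) n).const_mul _]
    refine Finset.sum_congr rfl fun a _ => ?_
    rw [integral_const_mul]
  have hlim : Tendsto (fun n => ((∫ z, ((∑ j, ξ j * z j).re) ^ p ∂(μ n) : ℝ) : ℂ)) atTop
      (𝓝 (∑ a ∈ Finset.range (p + 1), (((2 : ℂ) ^ p)⁻¹ * (p.choose a : ℂ)) *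
        (if a = p - a then (a.factorial : ℂ) * (S : ℂ) ^ a else 0))) := by
    simp only [hint]
    exact tendsto_finsetSum _ fun a _ => (t6_lim h ξ a (p - a)).const_mul _
  have hval : ∑ a ∈ Finset.range (p + 1), (((2 : ℂ) ^ p)⁻¹ * (p.choose a : ℂ)) *
        (if a = p - a then (a.factorial : ℂ) * (S : ℂ) ^ a else 0) = ((gm1 S p : ℝ) : ℂ) := by
    rw [gm1]
    split_ifs with hp
    · obtain ⟨q, rfl⟩ := hp
      have hq : (q + q) / 2 = q := by omega
      rw [Finset.sum_eq_single q, hq, if_pos (by omega)]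
      · have h2 := Nat.choose_mul_factorial_mul_factorial (Nat.le_add_left q q)
        rw [Nat.add_sub_cancel] at h2
        have h3 : ((q + q).factorial : ℂ) =
            ((q + q).choose q : ℂ) * (q.factorial : ℂ) * (q.factorial : ℂ) := by
          exact_mod_cast h2.symm
        have h4 : (q.factorial : ℂ) ≠ 0 := by exact_mod_cast q.factorial_ne_zero
        push_cast
        rw [h3, div_pow, pow_add]
        have h5 : (4 : ℂ) ^ q = 2 ^ q * 2 ^ q := by rw [← mul_pow]; norm_num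
        rw [h5]
        field_simp
      · intro a ha hne
        rw [if_neg (by omega), mul_zero]
      · intro h
        exact absurd (Finset.mem_range.2 (by omega)) h
    · rw [Finset.sum_eq_zero]
      · simp
      · intro a ha
        rw [if_neg, mul_zero]
        intro h1
        apply hp
        refine ⟨a, ?_⟩
        have := Finset.mem_range.1 ha
        omega
  rw [hval] at hlim
  have h1 := (Complex.continuous_re.tendsto _).comp hlim
  exact h1

end Pool.Agent.Lib.MT
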