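import Mathlib
import Pool.Agent.Lib.MP_f9aece_nt_mt.StmtsT
import Pool.Agent.Lib.MP_f9aece_nt_ms.Coeffs

/-!
Mesoscopic moments of zeta, module T7.

Mathlib: MeasureTheory.ProbabilityMeasure.tendsto_iff_tendsto_charFun (LevyConvergence.lean) on a finite dimensional inner product space. Transport by a continuous linear equivalence between Fin m -> C and EuclideanSpace R (Fin m x Bool) (or EuclideanSpace C (Fin m) with its real inner product): inner t x = (sum ξ_j z_j).re for a suitable ξ. Then f composed with the inverse is bounded continuous: ProbabilityMeasure.tendsto_iff_forall_integral_tendsto. (about 150 lines)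
-/

set_option autoImplicit false

namespace Pool.Agent.Lib.MT

open MeasureTheory Set Filter Topology Complex
open scoped ComplexConjugate
open scoped ArithmeticFunction.Omega
open Pool.Agent.Lib.MP_f9aece_nt (DP pair BK K1 ev PP VV Smo expo)
open Pool.Agent.Lib.MP_f9aece_nt_h40 (ind)
open Pool.Agent.Lib.MP_f9aece_nt_h85 (Rst)
open Pool.Agent.Lib.MP_f9aece_nt_h97 (Psm Dsm evs)
open Pool.Agent.Lib.NL (pt B0)
open Pool.Agent.Lib.J4 (En V2)
open Pool.Agent.Lib.MS (Len MVP Par RW TZ Cut un zr ex hq af ZS)

private lemma t7_inner (m : ℕ) (z : Fin m → ℂ) (t : PiLp 2 (fun _ : Fin m => ℂ)) :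
    inner ℝ (WithLp.toLp 2 z : PiLp 2 (fun _ : Fin m => ℂ)) t = (∑ j, conj (t j) * z j).re := by
  rw [PiLp.inner_apply, Complex.re_sum]
  refine Finset.sum_congr rfl fun j _ => ?_
  rw [Complex.inner]
  simp [Complex.mul_re]

theorem levyC : LevyC := by
  intro m μ γ hμ hγ h f hf hC
  obtain ⟨C, hC⟩ := hC
  let E := PiLp 2 (fun _ : Fin m => ℂ)
  let e : (Fin m → ℂ) → E := fun z => WithLp.toLp 2 z
  have he : Continuous e := PiLp.continuous_toLp 2 _
  have hem : Measurable e := he.measurable
  have hprob : ∀ n, IsProbabilityMeasure ((μ n).map e) := fun n =>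
    Measure.isProbabilityMeasure_map hem.aemeasurable
  have hprob0 : IsProbabilityMeasure (γ.map e) :=
    Measure.isProbabilityMeasure_map hem.aemeasurable
  let ν : ℕ → ProbabilityMeasure E := fun n => ⟨(μ n).map e, hprob n⟩
  let ν0 : ProbabilityMeasure E := ⟨γ.map e, hprob0⟩
  have hchar : ∀ (ρ : Measure (Fin m → ℂ)) (t : E), charFun (ρ.map e) t =
      ∫ z, cexp (I * ((∑ j, conj (t j) * z j).re : ℂ)) ∂ρ := by
    intro ρ t
    rw [charFun_apply, integral_map hem.aemeasurable]
    · refine integral_congr_ae (Filter.Eventually.of_forall fun z => ?_)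
      change cexp ((inner ℝ (WithLp.toLp 2 z : PiLp 2 (fun _ : Fin m => ℂ)) t : ℝ) * I) = _
      rw [t7_inner, mul_comm]
    · apply Continuous.aestronglyMeasurable
      fun_prop
  have hlim : Tendsto ν atTop (𝓝 ν0) := by
    rw [ProbabilityMeasure.tendsto_iff_tendsto_charFun]
    intro t
    have h1 := h fun j => conj (t j)
    change Tendsto (fun n => charFun ((μ n).map e) t) atTop (𝓝 (charFun (γ.map e) t))
    simp_rw [hchar]
    exact h1
  rw [ProbabilityMeasure.tendsto_iff_forall_integral_tendsto] at hlim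
  have hg : Continuous fun x : E => f (WithLp.ofLp x) := hf.comp (PiLp.continuous_ofLp 2 _)
  let g : BoundedContinuousFunction E ℝ :=
    BoundedContinuousFunction.ofNormedAddCommGroup (fun x : E => f (WithLp.ofLp x)) hg C (by
      intro x
      rw [Real.norm_eq_abs]
      exact hC _)
  have h2 := hlim g
  have h3 : ∀ ρ : Measure (Fin m → ℂ), ∫ x, g x ∂(ρ.map e) = ∫ z, f z ∂ρ := by
    intro ρ
    rw [integral_map hem.aemeasurable]
    · rfl
    · exact g.continuous.aestronglyMeasurable
  change Tendsto (fun n => ∫ x, g x ∂((μ n).map e)) atTop (𝓝 (∫ x, g x ∂(γ.map e))) at h2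
  simp_rw [h3] at h2
  exact h2

end Pool.Agent.Lib.MT
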