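import Mathlib
import Pool.Agent.Lib.MP_f9aece_nt_mt.StmtsT
import Pool.Agent.Lib.MP_f9aece_nt_ms.Coeffs

/-!
Mesoscopic moments of zeta, module T9.

Characteristic functions: push μ_n forward by z -> (sum ξ_j z_j).re, apply OneDim with s = sum ‖ξ_j‖^2 σ_j and LinMom; limit = GauB. LevyC gives bounded continuous f. Bounded moments: ‖z‖^(2p) <= sum_j |z_j|^(2p) + 0^.. (m >= 1; m = 0 trivial), whose integrals are MomC.mom with a = b = p e_j, convergent hence bounded; ‖z‖^p <= 1 + ‖z‖^(2p). UnifInt. (about 150 lines)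
-/

set_option autoImplicit false

namespace Pool.Agent.Lib.MT

open MeasureTheory Set Filter Topology Complex
open scoped ComplexConjugate
open scoped ArithmeticFunction.Omega
open Pool.Agent.Lib.MP_f9aece_nt (DP pair BK K1 ev PP VV Smo expo)
open Pool.Agent.Lib.MP_f9aece_nt_h40 (ind)
open Pool.Agent.Lib.MP_f9aece_nt_h85 (Rst)
open Pool.Agent.Lib.MP_f9aece_nt_h97 (Psm Dsm evs)
open Pool.Agent.Lib.NL (pt B0)
open Pool.Agent.Lib.J4 (En V2)
open Pool.Agent.Lib.MS (Len MVP Par RW TZ Cut un zr ex hq af ZS)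

private theorem mc_norm_le {m : ℕ} (z : Fin m → ℂ) (p : ℕ) :
    ‖z‖ ^ p ≤ 2 + ∑ j, ‖z j‖ ^ (2 * p) := by
  have h0 : 0 ≤ ‖z‖ := norm_nonneg z
  have h1 : ‖z‖ ^ p ≤ 1 + ‖z‖ ^ (2 * p) := by
    have h2 : ‖z‖ ^ (2 * p) = (‖z‖ ^ p) ^ 2 := by rw [← pow_mul]; ring_nf
    rw [h2]
    nlinarith [sq_nonneg (‖z‖ ^ p - 1 / 2)]
  have h3 : ‖z‖ ^ (2 * p) ≤ 1 + ∑ j, ‖z j‖ ^ (2 * p) := by
    rcases isEmpty_or_nonempty (Fin m) with hm | hm
    · have hz : ‖z‖ ≤ 0 := (pi_norm_le_iff_of_nonneg le_rfl).2 fun j => (hm.false j).elim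
      have hz' : ‖z‖ = 0 := le_antisymm hz h0
      rw [hz']
      have : (0 : ℝ) ^ (2 * p) ≤ 1 := pow_le_one₀ le_rfl zero_le_one
      have h4 : 0 ≤ ∑ j, ‖z j‖ ^ (2 * p) := Finset.sum_nonneg fun j _ => by positivity
      linarith
    · obtain ⟨j0, hj0⟩ := Finite.exists_max fun j => ‖z j‖
      have hz : ‖z‖ ≤ ‖z j0‖ := (pi_norm_le_iff_of_nonneg (norm_nonneg _)).2 hj0
      have h4 : ‖z‖ ^ (2 * p) ≤ ‖z j0‖ ^ (2 * p) := pow_le_pow_left₀ h0 hz _
      have h5 : ‖z j0‖ ^ (2 * p) ≤ ∑ j, ‖z j‖ ^ (2 * p) :=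
        Finset.single_le_sum (f := fun j => ‖z j‖ ^ (2 * p)) (fun j _ => by positivity)
          (Finset.mem_univ j0)
      linarith
  linarith

private theorem mc_prod {m : ℕ} (z : Fin m → ℂ) (j : Fin m) (p : ℕ) :
    (∏ i, z i ^ (Pi.single j p : Fin m → ℕ) i) * conj (∏ i, z i ^ (Pi.single j p : Fin m → ℕ) i)
      = ((‖z j‖ ^ (2 * p) : ℝ) : ℂ) := by
  have h1 : ∏ i, z i ^ (Pi.single j p : Fin m → ℕ) i = z j ^ p := by
    rw [Finset.prod_eq_single j]
    · rw [Pi.single_eq_same]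
    · intro i _ hi
      rw [Pi.single_eq_of_ne hi, pow_zero]
    · intro h
      exact absurd (Finset.mem_univ j) h
  rw [h1, Complex.mul_conj, Complex.normSq_eq_norm_sq, norm_pow]
  congr 1
  ring

private theorem mc_bd {m : ℕ} {σ : Fin m → ℝ} {μ : ℕ → Measure (Fin m → ℂ)} (hM : MomC m σ μ)
    (p : ℕ) : ∃ C : ℝ, ∀ n, ∫ z, ‖z‖ ^ p ∂(μ n) ≤ C := by
  have hj : ∀ j : Fin m, ∃ C : ℝ, ∀ n, Integrable (fun z : Fin m → ℂ => ‖z j‖ ^ (2 * p)) (μ n) ∧
      ∫ z, ‖z j‖ ^ (2 * p) ∂(μ n) ≤ C := by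
    intro j
    have h1 := (hM.mom (Pi.single j p) (Pi.single j p)).norm.bddAbove_range
    obtain ⟨C, hC⟩ := h1
    refine ⟨C, fun n => ⟨?_, ?_⟩⟩
    · refine (hM.int n (2 * p)).mono' ?_ ?_
      · have hc : Continuous fun z : Fin m → ℂ => ‖z j‖ ^ (2 * p) := by fun_prop
        exact hc.aestronglyMeasurable
      · refine Eventually.of_forall fun z => ?_
        rw [Real.norm_eq_abs, abs_of_nonneg (by positivity)]
        exact pow_le_pow_left₀ (norm_nonneg _) (norm_le_pi_norm z j) _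
    · have h2 := hC (Set.mem_range_self n)
      simp only [mc_prod] at h2
      rw [integral_complex_ofReal, Complex.norm_real] at h2
      exact (le_abs_self _).trans h2
  choose C hC using hj
  refine ⟨2 + ∑ j, C j, fun n => ?_⟩
  have := hM.prob n
  have h3 : ∫ z, ‖z‖ ^ p ∂(μ n) ≤ ∫ z, (2 + ∑ j, ‖z j‖ ^ (2 * p)) ∂(μ n) := by
    refine integral_mono (hM.int n p) ?_ fun z => mc_norm_le z p
    exact (integrable_const _).add (integrable_finsetSum _ fun j _ => (hC j n).1)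
  refine h3.trans ?_
  rw [integral_add (integrable_const _) (integrable_finsetSum _ fun j _ => (hC j n).1),
    integral_finsetSum _ fun j _ => (hC j n).1, integral_const, probReal_univ, one_smul]
  have h4 : ∑ j, ∫ z, ‖z j‖ ^ (2 * p) ∂(μ n) ≤ ∑ j, C j := Finset.sum_le_sum fun j _ => (hC j n).2
  linarith

private theorem mc_lin_le {m : ℕ} (ξ z : Fin m → ℂ) :
    |(∑ j, ξ j * z j).re| ≤ (∑ j, ‖ξ j‖) * ‖z‖ := by
  refine (Complex.abs_re_le_norm _).trans ((norm_sum_le _ _).trans ?_)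
  rw [Finset.sum_mul]
  refine Finset.sum_le_sum fun j _ => ?_
  rw [norm_mul]
  exact mul_le_mul_of_nonneg_left (norm_le_pi_norm z j) (norm_nonneg _)

theorem momConv (ha : GauA) (hb : GauB) (h5 : OneDim) (h6 : LinMom) (h7 : LevyC) (h8 : UnifInt) : MomConv := by
  intro m σ hσ μ hM f hf hbd
  obtain ⟨hγ, hγi⟩ := ha m σ hσ
  refine h8 m μ (gam m σ) hM.prob hγ ?_ hM.int hγi (fun p => mc_bd hM p) f hf hbd
  refine h7 m μ (gam m σ) hM.prob hγ fun ξ => ?_
  rw [hb m σ hσ ξ]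
  have hLc : Continuous fun z : Fin m → ℂ => (∑ j, ξ j * z j).re := by fun_prop
  have hLm : ∀ n, AEMeasurable (fun z : Fin m → ℂ => (∑ j, ξ j * z j).re) (μ n) :=
    fun n => hLc.measurable.aemeasurable
  have hs : 0 ≤ ∑ j, ‖ξ j‖ ^ 2 * σ j := Finset.sum_nonneg fun j _ => mul_nonneg (by positivity) (hσ j)
  have hpc : ∀ p : ℕ, Continuous fun x : ℝ => x ^ p := fun p => continuous_pow p
  have key := h5 (∑ j, ‖ξ j‖ ^ 2 * σ j) hs
    (fun n => (μ n).map fun z : Fin m → ℂ => (∑ j, ξ j * z j).re) ?_ ?_ ?_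
  · refine key.congr fun n => ?_
    rw [integral_map (hLm n)]
    have hc : Continuous fun x : ℝ => cexp (I * x) := Continuous.cexp (by fun_prop)
    exact hc.aestronglyMeasurable
  · intro n
    have := hM.prob n
    exact Measure.isProbabilityMeasure_map (hLm n)
  · intro n p
    rw [integrable_map_measure (hpc p).aestronglyMeasurable (hLm n)]
    refine ((hM.int n p).const_mul ((∑ j, ‖ξ j‖) ^ p)).mono' ?_ ?_
    · exact ((hpc p).comp hLc).aestronglyMeasurable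
    · refine Eventually.of_forall fun z => ?_
      change ‖((∑ j, ξ j * z j).re) ^ p‖ ≤ _
      rw [norm_pow, Real.norm_eq_abs, ← mul_pow]
      exact pow_le_pow_left₀ (abs_nonneg _) (mc_lin_le ξ z) _
  · intro p
    refine (h6 m σ hσ μ hM ξ p).congr fun n => ?_
    rw [integral_map (hLm n) (hpc p).aestronglyMeasurable]

end Pool.Agent.Lib.MT
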