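import Pool.Agent.Lib.MP_f9aece_nt_mt.T1PowIneq
import Pool.Agent.Lib.MP_f9aece_nt_mt.T2CauL
import Pool.Agent.Lib.MP_f9aece_nt_mt.T3MertC
import Pool.Agent.Lib.MP_f9aece_nt_mt.T4aGauA
import Pool.Agent.Lib.MP_f9aece_nt_mt.T4bGauB
import Pool.Agent.Lib.MP_f9aece_nt_mt.T4cGauC
import Pool.Agent.Lib.MP_f9aece_nt_mt.T5OneDim
import Pool.Agent.Lib.MP_f9aece_nt_mt.T6LinMom
import Pool.Agent.Lib.MP_f9aece_nt_mt.T7LevyC
import Pool.Agent.Lib.MP_f9aece_nt_mt.T8UnifInt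
import Pool.Agent.Lib.MP_f9aece_nt_mt.T9MomConv
import Pool.Agent.Lib.MP_f9aece_nt_mt.T10BlVV
import Pool.Agent.Lib.MP_f9aece_nt_mt.T11PowEn
import Pool.Agent.Lib.MP_f9aece_nt_mt.T12BlMom
import Pool.Agent.Lib.MP_f9aece_nt_mt.T13aApCoef
import Pool.Agent.Lib.MP_f9aece_nt_mt.T13bApSum
import Pool.Agent.Lib.MP_f9aece_nt_mt.T13Appr
import Pool.Agent.Lib.MP_f9aece_nt_mt.T14DecM
import Pool.Agent.Lib.MP_f9aece_nt_mt.T15PMPD
import Pool.Agent.Lib.MP_f9aece_nt_mt.T16DecA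
import Pool.Agent.Lib.MP_f9aece_nt_mt.T17Jen
import Pool.Agent.Lib.MP_f9aece_nt_mt.T18GmLow
import Pool.Agent.Lib.MP_f9aece_nt_mt.T19DecLimit
import Pool.Agent.Lib.MP_f9aece_nt_mt.T20aRgLow
import Pool.Agent.Lib.MP_f9aece_nt_mt.T20LowK
import Pool.Agent.Lib.MP_f9aece_nt_mt.T21DecLow
import Pool.Agent.Lib.MP_f9aece_nt_mt.T22Tilt
import Pool.Agent.Lib.MP_f9aece_nt_mt.T23DecPhi
import Pool.Agent.Lib.MP_f9aece_nt_mt.T24SmallCoef
import Pool.Agent.Lib.MP_f9aece_nt_mt.T25SmallLine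
import Pool.Agent.Lib.MP_f9aece_nt_mt.T26ErrSmall
import Pool.Agent.Lib.MP_f9aece_nt_mt.T27ErrTot
import Pool.Agent.Lib.MP_f9aece_nt_mt.T28VLim
import Pool.Agent.Lib.MP_f9aece_nt_mt.T29LowBlk
import Pool.Agent.Lib.MP_f9aece_nt_mt.T30LowForm
import Pool.Agent.Lib.MP_f9aece_nt_mt.T31PtLow
import Pool.Agent.Lib.MP_f9aece_nt_mt.T32MainUp
import Pool.Agent.Lib.MP_f9aece_nt_mt.T33MainLow
import Pool.Agent.Lib.MP_f9aece_nt_mt.T34MainAsym
import Pool.Agent.Lib.MP_f9aece_nt_mt.T35LimEx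
import Pool.Agent.Lib.MP_f9aece_nt_mt.T36ThmOne
import Pool.Agent.Lib.MP_f9aece_nt_ms.Q0Unif
import Pool.Agent.Lib.MP_f9aece_nt_ms.Q10RoughQ
import Pool.Agent.Lib.MP_f9aece_nt_ms.Q11OmQ
import Pool.Agent.Lib.MP_f9aece_nt_ms.Q12RoughEn
import Pool.Agent.Lib.MP_f9aece_nt_ms.Q13WinEn
import Pool.Agent.Lib.MP_f9aece_nt_ms.Q14Telescope
import Pool.Agent.Lib.MP_f9aece_nt_ms.Q15QCoeff
import Pool.Agent.Lib.MP_f9aece_nt_ms.Q16WinQ
import Pool.Agent.Lib.MP_f9aece_nt_ms.Q17NumWin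
import Pool.Agent.Lib.MP_f9aece_nt_ms.Q18Windows
import Pool.Agent.Lib.MP_f9aece_nt_ms.Q1EnW
import Pool.Agent.Lib.MP_f9aece_nt_ms.Q2BlockE
import Pool.Agent.Lib.MP_f9aece_nt_ms.Q3BlockP
import Pool.Agent.Lib.MP_f9aece_nt_ms.Q4SumE
import Pool.Agent.Lib.MP_f9aece_nt_ms.Q5SumB
import Pool.Agent.Lib.MP_f9aece_nt_ms.Q6PtYoung
import Pool.Agent.Lib.MP_f9aece_nt_ms.Q7LenB
import Pool.Agent.Lib.MP_f9aece_nt_ms.Q8Level
import Pool.Agent.Lib.MP_f9aece_nt_ms.Q9Mert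
import Pool.Agent.Lib.MP_f9aece_nt_ms.Z1Approx
import Pool.Agent.Lib.MP_f9aece_nt_ms.Z2Ident
import Pool.Agent.Lib.MP_f9aece_nt_ms.Z3PsiLip
import Pool.Agent.Lib.MP_f9aece_nt_ms.Z4ResBound
import Pool.Agent.Lib.MP_f9aece_nt_ms.Z5ResMom
import Pool.Agent.Lib.MP_f9aece_nt_ms.Z6PowClose
import Pool.Agent.Lib.MP_f9aece_nt_ms.Z7MomentsT2

/-!
Mesoscopic moments of zeta: assembly of the modules.
-/

set_option autoImplicit false

namespace Pool.Agent.Lib.MT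

open Pool.Agent.Lib

theorem xLevel : MS.Level :=
  MS.level MS.ptYoung MS.lenB (MS.sumE (MS.blockE MS.enW) (MS.blockP MS.enW)) MS.sumB

theorem xRough : MS.RoughQ := MS.roughQ MS.enW

theorem xWindows : MS.Windows := MS.windows xLevel MS.telescope MS.qCoeff
  (MS.winQ (MS.winEn xRough (MS.omQ MS.enW)) MS.qCoeff) MS.numWin MS.mert

theorem xBlVV : BlVV := blVV mertC

theorem xDecM : DecM := decM (momConv gauA gauB oneDim linMom levyC unifInt) (blMom xBlVV powEn) xBlVV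

theorem xDecA : DecA := decA (appr apCoef (apSum MS.enW)) pmpd

theorem xGmLow : GmLow := gmLow gauA (gauC gauA gauB) jen

theorem xDecLimit : DecLimit := decLimit powIneq cauL xDecM xDecA xGmLow MS.unifMVP

theorem xDecLow : DecLow := decLow (lowK (rgLow mertC)) MS.unifMVP

theorem xDecPhi : DecPhi := decPhi tilt

theorem xErrTot : ErrTot := errTot xWindows smallLine
  (errSmall xLevel MS.mert (MS.roughEn xRough) smallCoef smallLine)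

theorem xMainAsym : MainAsym := mainAsym
  (mainUp MS.ptYoung (MS.sumE (MS.blockE MS.enW) (MS.blockP MS.enW)) MS.sumB MS.lenB smallLine xDecPhi)
  (mainLow MS.lenB smallLine xDecPhi (lowForm (lowBlk MS.enW)) ptLow) (vLim mertC)

theorem xLimEx : LimEx := limEx powIneq cauL xDecLimit xDecLow smallLine xErrTot xMainAsym MS.unifMVP

theorem xThmOne : MS.MomentsT1 := thmOne powIneq xLimEx MS.unifMVP

theorem xThmTwo : MS.MomentsT2 := MS.momentsT2 xThmOne MS.zIdent MS.psiLip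
  (MS.resBound MS.psiLip) MS.resMom MS.powClose

end Pool.Agent.Lib.MT
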