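import Mathlib
import Pool.Agent.Lib.MP_f9aece_nt_mt.StmtsT
import Pool.Agent.Lib.MP_f9aece_nt_ms.Coeffs

/-!
Mesoscopic moments of zeta, module T16: distance of the rough part and its approximations.
-/

set_option autoImplicit false
set_option linter.style.haveILetI false

namespace Pool.Agent.Lib.MT

open MeasureTheory Set Filter Topology Complex
open scoped ComplexConjugate
open scoped ArithmeticFunction.Omega
open Pool.Agent.Lib.MP_f9aece_nt (DP pair BK K1 ev PP VV Smo expo)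
open Pool.Agent.Lib.MP_f9aece_nt_h40 (ind)
open Pool.Agent.Lib.MP_f9aece_nt_h85 (Rst)
open Pool.Agent.Lib.MP_f9aece_nt_h97 (Psm Dsm evs)
open Pool.Agent.Lib.NL (pt B0)
open Pool.Agent.Lib.J4 (En V2)
open Pool.Agent.Lib.MS (Len MVP Par RW TZ Cut un zr ex hq af ZS)
open Pool.Agent.Lib.MP_f9aece_nt (ev_apply continuous_ev BK_K1_eq pair_def mul_mem_Smo one_mem_Smo
  prime_mem_Smo)
open Pool.Agent.Lib.MP_f9aece_nt_h97 (Sup Sup.mono Sup.zero Sup.single Sup.one Sup.add Sup.smul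
  Sup.sub Sup.sum Sup.mul)

private lemma T16_En_nonneg (f : DP) : 0 ≤ En f := by
  unfold En
  rw [BK_K1_eq, pair_def]
  refine Finset.sum_nonneg fun n _ => ?_
  have h1 : f.coeff n * (f.coeff n * (n : ℝ)⁻¹) = f.coeff n ^ 2 * (n : ℝ)⁻¹ := by ring
  rw [h1]
  positivity

/-- numbers with large prime factors and bounded logarithm -/
private def T16S (Y L : ℝ) : Set ℕ := {n | n ∈ Smo (Rst 0 Y) ∧ Real.log n ≤ L}

private lemma T16_mul {Y L1 L2 : ℝ} {a b : ℕ} (ha : a ∈ T16S Y L1) (hb : b ∈ T16S Y L2) :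
    a * b ∈ T16S Y (L1 + L2) := by
  refine ⟨mul_mem_Smo ha.1 hb.1, ?_⟩
  have h1 : (a : ℝ) ≠ 0 := by exact_mod_cast ha.1.1
  have h2 : (b : ℝ) ≠ 0 := by exact_mod_cast hb.1.1
  push_cast
  rw [Real.log_mul h1 h2]
  exact add_le_add ha.2 hb.2

private lemma T16_mono {Y L1 L2 : ℝ} (h : L1 ≤ L2) : T16S Y L1 ⊆ T16S Y L2 :=
  fun _ hn => ⟨hn.1, hn.2.trans h⟩

private lemma T16_one {Y L : ℝ} (hL : 0 ≤ L) : 1 ∈ T16S Y L :=
  ⟨one_mem_Smo _, by simpa using hL⟩

private lemma T16_prod {ι : Type} {Y L : ℝ} (s : Finset ι) (f : ι → DP)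
    (hf : ∀ i ∈ s, Sup (T16S Y L) (f i)) : Sup (T16S Y (s.card * L)) (∏ i ∈ s, f i) := by
  classical
  induction s using Finset.induction_on with
  | empty =>
    rw [Finset.prod_empty]
    exact Sup.one (T16_one (by simp))
  | insert a s ha ih =>
    rw [Finset.prod_insert ha, Finset.card_insert_of_notMem ha]
    have h1 := (hf a (Finset.mem_insert_self _ _)).mul
      (ih fun i hi => hf i (Finset.mem_insert_of_mem hi)) fun x hx y hy => T16_mul hx hy
    refine h1.mono (T16_mono ?_)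
    push_cast
    linarith

private lemma T16_pow {Y L : ℝ} {f : DP} (hf : Sup (T16S Y L) f) (q : ℕ) :
    Sup (T16S Y (q * L)) (f ^ q) := by
  have h1 := T16_prod (Finset.univ : Finset (Fin q)) (fun _ => f) fun _ _ => hf
  simpa using h1

private lemma T16_RW (u : ℝ → ℝ) {Y L : ℝ} : Sup (T16S Y L) (RW u 0 Y L) := by
  classical
  unfold RW
  refine Sup.sum _ fun n hn => Sup.single ?_ _
  obtain ⟨h1, h2⟩ := Finset.mem_filter.mp hn
  refine ⟨h2, ?_⟩
  have h3 := (Finset.mem_Icc.mp h1)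
  have h4 : (n : ℝ) ≤ Real.exp L := (Nat.le_floor_iff (Real.exp_pos L).le).mp h3.2
  have h5 : (0 : ℝ) < n := by exact_mod_cast h3.1
  exact (Real.log_le_iff_le_exp h5).mpr h4

private lemma T16_PP {K Y : ℝ} (hK : 1 < K) (hY : 0 ≤ Y) {m : ℕ} (j : ℕ) :
    Sup (T16S Y (K * Y)) (PP (Bl K m Y j)) := by
  unfold PP
  refine Sup.sum _ fun p hp => Sup.single ?_ _
  unfold Bl at hp
  obtain ⟨h1, h2, h3, _⟩ := Finset.mem_filter.mp hp
  have h4 := Finset.mem_Icc.mp h1
  have h5 : (p : ℝ) ≤ Real.exp (K * Y) := (Nat.le_floor_iff (Real.exp_pos _).le).mp h4.2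
  have h6 : (0 : ℝ) < p := by exact_mod_cast h2.pos
  refine ⟨prime_mem_Smo h2 ?_, (Real.log_le_iff_le_exp h6).mpr h5⟩
  show ¬ (0 < p ∧ p ≤ ⌊Real.exp Y⌋₊)
  rintro ⟨_, h7⟩
  have h8 : (p : ℝ) ≤ Real.exp Y := (Nat.le_floor_iff (Real.exp_pos _).le).mp h7
  have h9 : Real.log p ≤ Y := (Real.log_le_iff_le_exp h6).mpr h8
  have h10 : 1 ≤ uj K m j := by
    unfold uj
    have : 0 ≤ (K - 1) * j / m := by
      apply div_nonneg (mul_nonneg (by linarith) (by positivity)) (by positivity)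
    linarith
  nlinarith

private lemma T16_PD (u : ℝ → ℝ) {K Y : ℝ} (hK : 1 < K) (hY : 0 ≤ Y) {m : ℕ} :
    Sup (T16S Y (⌊K⌋₊ * (K * Y))) (PD u K m Y) := by
  unfold PD
  refine Sup.sum _ fun r hr => Sup.smul ?_ _
  refine Sup.sum _ fun j _ => Sup.smul ?_ _
  have h1 := T16_prod (Finset.univ : Finset (Fin r)) (fun i => PP (Bl K m Y (j i)))
    fun i _ => T16_PP hK hY (j i : ℕ)
  refine h1.mono (T16_mono ?_)
  rw [Finset.card_univ, Fintype.card_fin]
  have h2 : (r : ℝ) ≤ ⌊K⌋₊ := by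
    have := Finset.mem_range.mp hr
    exact_mod_cast (by omega : r ≤ ⌊K⌋₊)
  exact mul_le_mul_of_nonneg_right h2 (by nlinarith)

private lemma T16_bdd (f : DP) : ∃ M : ℝ, 0 ≤ M ∧ (Sup {n | n ≠ 0} f → ∀ t, ‖ev t f‖ ≤ M) := by
  refine ⟨∑ a ∈ f.coeff.support, |f.coeff a| * (a : ℝ) ^ (-(1 / 2) : ℝ),
    Finset.sum_nonneg fun a _ => by positivity, fun hf t => ?_⟩
  rw [ev_apply]
  refine (norm_sum_le _ _).trans (Finset.sum_le_sum fun a ha => ?_)
  have ha1 : 0 < a := Nat.pos_of_ne_zero (hf a (Finsupp.mem_support_iff.mp ha))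
  rw [norm_mul, Complex.norm_natCast_cpow_of_pos ha1, Complex.norm_real, Real.norm_eq_abs]
  simp

private lemma T16_int {ν : Measure ℝ} [IsProbabilityMeasure ν] {g : ℝ → ℝ} (hg : Continuous g)
    {M : ℝ} (h : ∀ t, |g t| ≤ M) : Integrable g ν :=
  (integrable_const M).mono' hg.aestronglyMeasurable (Eventually.of_forall fun t => by
    rw [Real.norm_eq_abs]
    exact h t)

private lemma T16_jensen {ν : Measure ℝ} [IsProbabilityMeasure ν] {f : ℝ → ℝ} {s M : ℝ}
    (hs : 0 < s) (hs1 : s ≤ 1) (hM : 0 < M) (h0 : ∀ t, 0 ≤ f t) (hi : Integrable f ν)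
    (hi2 : Integrable (fun t => f t ^ s) ν) (h : ∫ t, f t ∂ν ≤ M) :
    ∫ t, f t ^ s ∂ν ≤ M ^ s := by
  have key : ∀ t, f t ^ s ≤ M ^ s * (1 + s * (f t / M - 1)) := by
    intro t
    have h1 : -1 ≤ f t / M - 1 := by
      have : 0 ≤ f t / M := div_nonneg (h0 t) hM.le
      linarith
    have h2 := rpow_one_add_le_one_add_mul_self h1 hs.le hs1
    have h3 : (1 + (f t / M - 1)) = f t / M := by ring
    rw [h3, Real.div_rpow (h0 t) hM.le, div_le_iff₀ (Real.rpow_pos_of_pos hM s)] at h2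
    linarith
  have hi3 : Integrable (fun t => M ^ s * (1 + s * (f t / M - 1))) ν :=
    (((integrable_const (1 : ℝ)).add
      (((hi.div_const M).sub (integrable_const 1)).const_mul s))).const_mul _
  calc ∫ t, f t ^ s ∂ν ≤ ∫ t, M ^ s * (1 + s * (f t / M - 1)) ∂ν :=
        integral_mono hi2 hi3 key
    _ = M ^ s * (1 + s * ((∫ t, f t ∂ν) / M - 1)) := by
      have e1 : ∫ t, (f t / M - 1) ∂ν = (∫ t, f t ∂ν) / M - 1 := by
        rw [integral_sub (hi.div_const M) (integrable_const 1), integral_div]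
        simp
      have e2 : ∫ t, s * (f t / M - 1) ∂ν = s * ((∫ t, f t ∂ν) / M - 1) := by
        rw [integral_const_mul, e1]
      have e3 : ∫ t, (1 + s * (f t / M - 1)) ∂ν = 1 + s * ((∫ t, f t ∂ν) / M - 1) := by
        have hi4 : Integrable (fun t => s * (f t / M - 1)) ν :=
          ((hi.div_const M).sub (integrable_const 1)).const_mul s
        rw [integral_add (integrable_const _) hi4, e2]
        simp
      rw [integral_const_mul, e3]
    _ ≤ M ^ s * 1 := by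
      apply mul_le_mul_of_nonneg_left _ (Real.rpow_nonneg hM.le s)
      have h1 : (∫ t, f t ∂ν) / M ≤ 1 := by
        rw [div_le_one hM]
        exact h
      nlinarith
    _ = M ^ s := mul_one _

/-- the moment of one Dirichlet polynomial -/
private lemma T16_one_poly {ν : Measure ℝ} {Y X η : ℝ} (hν : MVR ν Y X η) (hη1 : η ≤ 1)
    {k : ℝ} (hk : 0 < k) {q : ℕ} (hq : 1 ≤ q) (hkq : k ≤ q) {D : DP} {L : ℝ}
    (hD : Sup (T16S Y L) D) (hL : q * L ≤ Real.log X) (hX : 0 < X) {M : ℝ} (hM : 0 < M)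
    (hEn : 2 * En (D ^ q) ≤ M) : ∫ t, ‖ev t D‖ ^ (2 * k) ∂ν ≤ M ^ (k / q) := by
  haveI := hν.prob
  have hq0 : (0 : ℝ) < q := by exact_mod_cast hq
  have hsup := T16_pow hD q
  have hcond : ∀ n, (D ^ q).coeff n ≠ 0 → n ∈ Smo (Rst 0 Y) ∧ (n : ℝ) ≤ X := by
    intro n hn
    obtain ⟨h1, h2⟩ := hsup n hn
    refine ⟨h1, ?_⟩
    have h3 : (0 : ℝ) < n := by exact_mod_cast Nat.pos_of_ne_zero h1.1
    exact (Real.log_le_log_iff h3 hX).mp (h2.trans hL)
  have hmv := hν.mv (D ^ q) (D ^ q) hcond hcond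
  have h1 : ∀ t, ev t (D ^ q) * conj (ev t (D ^ q)) = ((‖ev t D‖ ^ (2 * q) : ℝ) : ℂ) := by
    intro t
    rw [Complex.mul_conj, Complex.normSq_eq_norm_sq, map_pow, norm_pow, ← pow_mul, mul_comm q 2]
  simp only [h1] at hmv
  rw [integral_complex_ofReal, ← Complex.ofReal_sub, Complex.norm_real, Real.norm_eq_abs,
    Real.sqrt_mul_self (T16_En_nonneg _)] at hmv
  have h2 : ∫ t, ‖ev t D‖ ^ (2 * q) ∂ν ≤ M := by
    have h3 := (abs_le.mp hmv).2
    have h4 : BK K1 (D ^ q) (D ^ q) = En (D ^ q) := rfl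
    rw [h4] at h3
    have h5 := T16_En_nonneg (D ^ q)
    nlinarith
  obtain ⟨B, hB0, hB⟩ := T16_bdd D
  have hB' := hB (hD.mono fun n hn => hn.1.1)
  have hc : Continuous fun t => ‖ev t D‖ := (continuous_ev D).norm
  have hi : Integrable (fun t => ‖ev t D‖ ^ (2 * q)) ν := by
    refine T16_int (hc.pow _) (M := B ^ (2 * q)) fun t => ?_
    rw [abs_of_nonneg (by positivity)]
    exact pow_le_pow_left₀ (norm_nonneg _) (hB' t) _
  have heq : ∀ t, ‖ev t D‖ ^ (2 * k) = (‖ev t D‖ ^ (2 * q)) ^ (k / q) := by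
    intro t
    rw [← Real.rpow_natCast, ← Real.rpow_mul (norm_nonneg _)]
    congr 1
    push_cast
    field_simp
  have hi2 : Integrable (fun t => (‖ev t D‖ ^ (2 * q)) ^ (k / q)) ν := by
    refine T16_int ((hc.pow _).rpow_const fun t => Or.inr (by positivity))
      (M := (B ^ (2 * q)) ^ (k / q)) fun t => ?_
    rw [abs_of_nonneg (by positivity)]
    exact Real.rpow_le_rpow (by positivity) (pow_le_pow_left₀ (norm_nonneg _) (hB' t) _)
      (by positivity)
  simp only [heq]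
  exact T16_jensen (by positivity) (by rw [div_le_one hq0]; exact hkq) hM
    (fun t => by positivity) hi hi2 h2

private lemma T16_two {ν : Measure ℝ} [IsProbabilityMeasure ν] {k : ℝ} (hk : 0 < k) {D1 D2 : DP}
    {Y L : ℝ} (h1 : Sup (T16S Y L) D1) (h2 : Sup (T16S Y L) D2) {M : ℝ}
    (hM1 : ∫ t, ‖ev t D1‖ ^ (2 * k) ∂ν ≤ M) (hM2 : ∫ t, ‖ev t D2‖ ^ (2 * k) ∂ν ≤ M) :
    ∫ t, ‖ev t D1 + I * ev t D2‖ ^ (2 * k) ∂ν ≤ 2 ^ (2 * k) * (2 * M) := by
  have hk2 : (0 : ℝ) ≤ 2 * k := by positivity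
  obtain ⟨B1, _, hB1⟩ := T16_bdd D1
  obtain ⟨B2, _, hB2⟩ := T16_bdd D2
  have hB1' := hB1 (h1.mono fun n hn => hn.1.1)
  have hB2' := hB2 (h2.mono fun n hn => hn.1.1)
  have hc1 : Continuous fun t => ‖ev t D1‖ := (continuous_ev D1).norm
  have hc2 : Continuous fun t => ‖ev t D2‖ := (continuous_ev D2).norm
  have hi1 : Integrable (fun t => ‖ev t D1‖ ^ (2 * k)) ν := by
    refine T16_int (hc1.rpow_const fun t => Or.inr hk2) (M := B1 ^ (2 * k)) fun t => ?_
    rw [abs_of_nonneg (by positivity)]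
    exact Real.rpow_le_rpow (norm_nonneg _) (hB1' t) hk2
  have hi2 : Integrable (fun t => ‖ev t D2‖ ^ (2 * k)) ν := by
    refine T16_int (hc2.rpow_const fun t => Or.inr hk2) (M := B2 ^ (2 * k)) fun t => ?_
    rw [abs_of_nonneg (by positivity)]
    exact Real.rpow_le_rpow (norm_nonneg _) (hB2' t) hk2
  have hpt : ∀ t, ‖ev t D1 + I * ev t D2‖ ^ (2 * k)
      ≤ 2 ^ (2 * k) * (‖ev t D1‖ ^ (2 * k) + ‖ev t D2‖ ^ (2 * k)) := by
    intro t
    have h3 : ‖ev t D1 + I * ev t D2‖ ≤ ‖ev t D1‖ + ‖ev t D2‖ := by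
      refine (norm_add_le _ _).trans ?_
      rw [norm_mul, Complex.norm_I, one_mul]
    have h4 := Real.rpow_le_rpow (norm_nonneg _) h3 hk2
    refine h4.trans ?_
    have a1 := norm_nonneg (ev t D1)
    have a2 := norm_nonneg (ev t D2)
    rcases le_total ‖ev t D1‖ ‖ev t D2‖ with h5 | h5
    · calc (‖ev t D1‖ + ‖ev t D2‖) ^ (2 * k) ≤ (2 * ‖ev t D2‖) ^ (2 * k) :=
            Real.rpow_le_rpow (by positivity) (by linarith) hk2
        _ = 2 ^ (2 * k) * ‖ev t D2‖ ^ (2 * k) := Real.mul_rpow (by norm_num) a2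
        _ ≤ _ := by
          apply mul_le_mul_of_nonneg_left _ (by positivity)
          have : 0 ≤ ‖ev t D1‖ ^ (2 * k) := by positivity
          linarith
    · calc (‖ev t D1‖ + ‖ev t D2‖) ^ (2 * k) ≤ (2 * ‖ev t D1‖) ^ (2 * k) :=
            Real.rpow_le_rpow (by positivity) (by linarith) hk2
        _ = 2 ^ (2 * k) * ‖ev t D1‖ ^ (2 * k) := Real.mul_rpow (by norm_num) a1
        _ ≤ _ := by
          apply mul_le_mul_of_nonneg_left _ (by positivity)
          have : 0 ≤ ‖ev t D2‖ ^ (2 * k) := by positivity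
          linarith
  have hi3 : Integrable (fun t => ‖ev t D1 + I * ev t D2‖ ^ (2 * k)) ν := by
    have hc : Continuous fun t => ‖ev t D1 + I * ev t D2‖ ^ (2 * k) :=
      (((continuous_ev D1).add (continuous_const.mul (continuous_ev D2))).norm).rpow_const
        fun t => Or.inr hk2
    refine (((hi1.add hi2).const_mul (2 ^ (2 * k)))).mono' hc.aestronglyMeasurable
      (Eventually.of_forall fun t => ?_)
    rw [Real.norm_eq_abs, abs_of_nonneg (by positivity)]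
    exact hpt t
  calc ∫ t, ‖ev t D1 + I * ev t D2‖ ^ (2 * k) ∂ν
      ≤ ∫ t, 2 ^ (2 * k) * (‖ev t D1‖ ^ (2 * k) + ‖ev t D2‖ ^ (2 * k)) ∂ν :=
        integral_mono hi3 ((hi1.add hi2).const_mul _) hpt
    _ = 2 ^ (2 * k) * (∫ t, ‖ev t D1‖ ^ (2 * k) ∂ν + ∫ t, ‖ev t D2‖ ^ (2 * k) ∂ν) := by
      rw [integral_const_mul, integral_add hi1 hi2]
    _ ≤ 2 ^ (2 * k) * (2 * M) := by
      apply mul_le_mul_of_nonneg_left _ (by positivity)
      linarith

theorem decA (h13 : Appr) (h15 : PMPD) : DecA := by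
  intro k B Lam w hk hw K hK
  have hB : 0 ≤ B := (norm_nonneg _).trans (hw.bd 0)
  have hLam : 0 ≤ Lam := by
    have := (norm_nonneg _).trans (hw.lip 1 0)
    simpa using this
  have hu1 : Cut B Lam fun x => (w x).re := by
    refine ⟨fun x => (Complex.abs_re_le_norm _).trans (hw.bd x), fun x y => ?_, fun x hx => ?_⟩
    · rw [← Complex.sub_re]
      exact (Complex.abs_re_le_norm _).trans (hw.lip x y)
    · show (w x).re = 0
      rw [hw.zero x hx]
      rfl
  have hu2 : Cut B Lam fun x => (w x).im := by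
    refine ⟨fun x => (Complex.abs_im_le_norm _).trans (hw.bd x), fun x y => ?_, fun x hx => ?_⟩
    · rw [← Complex.sub_im]
      exact (Complex.abs_im_le_norm _).trans (hw.lip x y)
    · show (w x).im = 0
      rw [hw.zero x hx]
      rfl
  set q := ⌈k⌉₊ with hq
  have hq1 : 1 ≤ q := Nat.one_le_iff_ne_zero.mpr fun h => by
    have := Nat.ceil_eq_zero.mp h
    linarith
  have hkq : k ≤ q := Nat.le_ceil k
  have hq0 : (0 : ℝ) < q := by exact_mod_cast hq1
  obtain ⟨C1, hC1, hA⟩ := h13 q K B Lam hq1 hK hB hLam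
  refine ⟨2 ^ (2 * k) * (2 * (4 * (C1 + 1)) ^ (k / q)), by positivity, fun m hm => ?_⟩
  have hm0 : (0 : ℝ) < m := by exact_mod_cast hm
  have hm1 : (1 : ℝ) ≤ m := by exact_mod_cast hm
  have hlogm : 0 ≤ Real.log m := Real.log_nonneg hm1
  have hKpos : 0 < K := by linarith
  refine ⟨1 + 2 * q * Real.log m + q * ((⌊K⌋₊ + 1) * K), by
    have : (0 : ℝ) ≤ 2 * q * Real.log m := by positivity
    have : (0 : ℝ) ≤ q * ((⌊K⌋₊ + 1) * K) := by positivity
    linarith, fun ν Y X η hY hX hη0 hη hν => ?_⟩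
  set N := 1 + 2 * q * Real.log m + q * ((⌊K⌋₊ + 1) * K) with hN
  have hN1 : 1 ≤ N := by
    have : (0 : ℝ) ≤ 2 * q * Real.log m := by positivity
    have : (0 : ℝ) ≤ q * ((⌊K⌋₊ + 1) * K) := by positivity
    rw [hN]
    linarith
  have hY1 : 1 ≤ Y := hN1.trans hY
  have hY0 : 0 ≤ Y := by linarith
  have hη1 : η ≤ 1 := by nlinarith
  have hXpos : 0 < X := (Real.exp_pos _).trans_le hX
  have hlogX : N * Y ≤ Real.log X := by
    rw [← Real.log_exp (N * Y)]
    exact Real.log_le_log (Real.exp_pos _) hX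
  haveI := hν.prob
  set L := (⌊K⌋₊ + 1) * (K * Y) with hL
  have hqL : q * L ≤ Real.log X := by
    refine le_trans ?_ hlogX
    have h1 : (q : ℝ) * ((⌊K⌋₊ + 1) * K) ≤ N := by
      have : (0 : ℝ) ≤ 2 * q * Real.log m := by positivity
      rw [hN]
      linarith
    calc (q : ℝ) * L = q * ((⌊K⌋₊ + 1) * K) * Y := by rw [hL]; ring
      _ ≤ N * Y := mul_le_mul_of_nonneg_right h1 hY0
  have hKY : 0 ≤ K * Y := by positivity
  have hL1 : K * Y ≤ L := by
    rw [hL]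
    have : (0 : ℝ) ≤ ⌊K⌋₊ * (K * Y) := by positivity
    linarith
  have hL2 : ⌊K⌋₊ * (K * Y) ≤ L := by
    rw [hL]
    linarith
  have hR : ∀ u : ℝ → ℝ, Sup (T16S Y L) (RW u 0 Y (K * Y)) := fun u =>
    (T16_RW u).mono (T16_mono hL1)
  have hDs : ∀ u : ℝ → ℝ, Sup (T16S Y L) (RW u 0 Y (K * Y) - PD u K m Y) := fun u =>
    (hR u).sub ((T16_PD u hK hY0).mono (T16_mono hL2))
  have hexp : Real.exp (-Y) ≤ (1 / (m : ℝ)) ^ (2 * q) := by
    have h1 : 2 * q * Real.log m ≤ Y := by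
      refine le_trans ?_ hY
      have : (0 : ℝ) ≤ q * ((⌊K⌋₊ + 1) * K) := by positivity
      rw [hN]
      linarith
    have h2 : (1 / (m : ℝ)) ^ (2 * q) = Real.exp (-(2 * q * Real.log m)) := by
      rw [one_div, inv_pow, Real.exp_neg]
      congr 1
      rw [← Real.exp_log (pow_pos hm0 (2 * q)), Real.log_pow]
      push_cast
      rfl
    rw [h2]
    apply Real.exp_le_exp.mpr
    linarith
  constructor
  · have hone : ∀ u : ℝ → ℝ, Cut B Lam u →
        ∫ t, ‖ev t (RW u 0 Y (K * Y))‖ ^ (2 * k) ∂ν ≤ (4 * (C1 + 1)) ^ (k / q) := by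
      intro u hu
      refine T16_one_poly hν hη1 hk hq1 hkq (hR u) hqL hXpos (by positivity) ?_
      have := (hA m hm Y hY1 u hu).2
      linarith
    have h := T16_two hk (hR _) (hR _) (hone _ hu1) (hone _ hu2)
    unfold SW
    exact h
  · set x : ℝ := (1 / (m : ℝ)) ^ (2 * q) with hx
    have hx0 : 0 < x := by positivity
    have hone : ∀ u : ℝ → ℝ, Cut B Lam u →
        ∫ t, ‖ev t (RW u 0 Y (K * Y) - PD u K m Y)‖ ^ (2 * k) ∂ν
          ≤ (4 * (C1 + 1) * x) ^ (k / q) := by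
      intro u hu
      refine T16_one_poly hν hη1 hk hq1 hkq (hDs u) hqL hXpos (by positivity) ?_
      have h1 := (hA m hm Y hY1 u hu).1
      have h2 : C1 * (x + Real.exp (-Y)) ≤ C1 * (x + x) :=
        mul_le_mul_of_nonneg_left (by linarith) hC1
      nlinarith
    have h := T16_two hk (hDs _) (hDs _) (hone _ hu1) (hone _ hu2)
    have hx2 : x ^ (k / q) = (1 / (m : ℝ)) ^ (2 * k) := by
      rw [hx, ← Real.rpow_natCast, ← Real.rpow_mul (by positivity)]
      congr 1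
      push_cast
      field_simp
    have heq : ∀ t, SW w 0 Y (K * Y) t - PM w K m (GB K m Y t)
        = ev t (RW (fun x => (w x).re) 0 Y (K * Y) - PD (fun x => (w x).re) K m Y)
          + I * ev t (RW (fun x => (w x).im) 0 Y (K * Y) - PD (fun x => (w x).im) K m Y) := by
      intro t
      rw [h15]
      unfold SW
      rw [map_sub, map_sub]
      ring
    simp only [heq]
    refine h.trans (le_of_eq ?_)
    rw [Real.mul_rpow (by positivity) hx0.le, hx2]
    ring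

end Pool.Agent.Lib.MT
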