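import Mathlib
import Pool.Agent.Lib.MP_f9aece_nt_mt.StmtsT
import Pool.Agent.Lib.MP_f9aece_nt_ms.Coeffs

/-!
Mesoscopic moments of zeta, module T1.

Elementary: write d = x - y. First ‖y‖^s <= (‖x‖+‖d‖)^s <= (1+η)‖x‖^s + C ‖d‖^s (if ‖d‖ <= τ‖x‖ with (1+τ)^s <= 1+η use the first term, otherwise ‖x‖ <= ‖d‖/τ). Then ‖x‖^s - ‖y‖^s <= η ‖x‖^s + C ‖d‖^s: if ‖d‖ <= τ‖x‖ then ‖y‖ >= (1-τ)‖x‖ and 1-(1-τ)^s <= η, otherwise ‖x‖^s <= τ^(-s) ‖d‖^s. Continuity of x^s at 1 gives τ. (about 60 lines)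
-/

set_option autoImplicit false

namespace Pool.Agent.Lib.MT

open MeasureTheory Set Filter Topology Complex
open scoped ComplexConjugate
open scoped ArithmeticFunction.Omega
open Pool.Agent.Lib.MP_f9aece_nt (DP pair BK K1 ev PP VV Smo expo)
open Pool.Agent.Lib.MP_f9aece_nt_h40 (ind)
open Pool.Agent.Lib.MP_f9aece_nt_h85 (Rst)
open Pool.Agent.Lib.MP_f9aece_nt_h97 (Psm Dsm evs)
open Pool.Agent.Lib.NL (pt B0)
open Pool.Agent.Lib.J4 (En V2)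
open Pool.Agent.Lib.MS (Len MVP Par RW TZ Cut un zr ex hq af ZS)

private theorem t1_tau (s η : ℝ) (hs : 0 < s) (hη : 0 < η) :
    ∃ τ : ℝ, 0 < τ ∧ τ < 1 ∧ (1 + τ) ^ s ≤ 1 + η ∧ 1 - η ≤ (1 - τ) ^ s := by
  have c1 : ContinuousAt (fun t : ℝ => (1 + t) ^ s) 0 :=
    ContinuousAt.rpow_const (by fun_prop) (Or.inr hs.le)
  have c2 : ContinuousAt (fun t : ℝ => (1 - t) ^ s) 0 :=
    ContinuousAt.rpow_const (by fun_prop) (Or.inr hs.le)
  have e1 : ∀ᶠ t in 𝓝 (0 : ℝ), (1 + t) ^ s < 1 + η := by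
    refine c1.eventually_lt continuousAt_const ?_
    rw [add_zero, Real.one_rpow]
    linarith
  have e2 : ∀ᶠ t in 𝓝 (0 : ℝ), 1 - η < (1 - t) ^ s := by
    refine (continuousAt_const (y := 1 - η)).eventually_lt c2 ?_
    rw [sub_zero, Real.one_rpow]
    linarith
  have e3 : ∀ᶠ t in 𝓝 (0 : ℝ), t < 1 := gt_mem_nhds one_pos
  obtain ⟨τ, ⟨⟨h1, h2⟩, h3⟩, h4⟩ :=
    (((e1.and e2).and e3).filter_mono (nhdsWithin_le_nhds (s := Ioi 0)) |>.and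
      self_mem_nhdsWithin).exists
  exact ⟨τ, h4, h3, h1.le, h2.le⟩

theorem powIneq : PowIneq := by
  intro s η hs hη
  obtain ⟨τ, h0, h1, h2, h3⟩ := t1_tau s η hs hη
  refine ⟨(1 / τ + 1) ^ s, by positivity, fun x y => ?_⟩
  have ha : 0 ≤ ‖x‖ := norm_nonneg x
  have hb : 0 ≤ ‖y‖ := norm_nonneg y
  have hd : 0 ≤ ‖x - y‖ := norm_nonneg _
  have t1 : ‖y‖ ≤ ‖x‖ + ‖x - y‖ := by
    have h := norm_sub_le x (x - y)
    rwa [sub_sub_cancel] at h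
  have t2 : ‖x‖ - ‖x - y‖ ≤ ‖y‖ := by
    have h := norm_add_le y (x - y)
    rw [add_sub_cancel] at h
    linarith
  have hx : 0 ≤ ‖x‖ ^ s := Real.rpow_nonneg ha s
  have hy : 0 ≤ ‖y‖ ^ s := Real.rpow_nonneg hb s
  rcases le_or_gt ‖x - y‖ (τ * ‖x‖) with h | h
  · have u1 : ‖y‖ ^ s ≤ (1 + η) * ‖x‖ ^ s := by
      have h4 : ‖y‖ ≤ (1 + τ) * ‖x‖ := by linarith
      refine (Real.rpow_le_rpow hb h4 hs.le).trans ?_
      rw [Real.mul_rpow (by linarith) ha]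
      exact mul_le_mul_of_nonneg_right h2 hx
    have u2 : (1 - η) * ‖x‖ ^ s ≤ ‖y‖ ^ s := by
      have h4 : (1 - τ) * ‖x‖ ≤ ‖y‖ := by linarith
      refine le_trans ?_ (Real.rpow_le_rpow (mul_nonneg (by linarith) ha) h4 hs.le)
      rw [Real.mul_rpow (by linarith) ha]
      exact mul_le_mul_of_nonneg_right h3 hx
    have u3 : 0 ≤ (1 / τ + 1) ^ s * ‖x - y‖ ^ s := by positivity
    rw [abs_le]
    constructor <;> linarith
  · have h4 : ‖x‖ ≤ 1 / τ * ‖x - y‖ := by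
      rw [one_div, ← div_eq_inv_mul, le_div_iff₀ h0]
      linarith
    have u1 : ‖x‖ ^ s ≤ (1 / τ + 1) ^ s * ‖x - y‖ ^ s := by
      rw [← Real.mul_rpow (by positivity) hd]
      refine Real.rpow_le_rpow ha ?_ hs.le
      linarith
    have u2 : ‖y‖ ^ s ≤ (1 / τ + 1) ^ s * ‖x - y‖ ^ s := by
      rw [← Real.mul_rpow (by positivity) hd]
      refine Real.rpow_le_rpow hb ?_ hs.le
      linarith
    have u3 : 0 ≤ η * ‖x‖ ^ s := by positivity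
    rw [abs_le]
    constructor <;> linarith

end Pool.Agent.Lib.MT
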