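import Mathlib
import Pool.Agent.Lib.MP_f9aece_nt_mt.StmtsT
import Pool.Agent.Lib.MP_f9aece_nt_ms.Coeffs

/-!
Mesoscopic moments of zeta, module T25.

evs (pt 0 t) f = ev t f (both are sums of f_n n^(-(1/2 + I t)); see h97/NL for evs and ev). ev t (Dsm p0) = prod (1 - p^(-1/2-It)), |p^(-1/2-It)| = p^(-1/2) <= 2^(-1/2) < 1. (about 60 lines)
-/

set_option autoImplicit false

namespace Pool.Agent.Lib.MT

open MeasureTheory Set Filter Topology Complex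
open scoped ComplexConjugate
open scoped ArithmeticFunction.Omega
open Pool.Agent.Lib.MP_f9aece_nt (DP pair BK K1 ev PP VV Smo expo)
open Pool.Agent.Lib.MP_f9aece_nt_h40 (ind)
open Pool.Agent.Lib.MP_f9aece_nt_h85 (Rst)
open Pool.Agent.Lib.MP_f9aece_nt_h97 (Psm Dsm evs)
open Pool.Agent.Lib.NL (pt B0)
open Pool.Agent.Lib.J4 (En V2)
open Pool.Agent.Lib.MS (Len MVP Par RW TZ Cut un zr ex hq af ZS)

private theorem t25_norm (t : ℝ) {p : ℕ} (hp : p.Prime) :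
    ‖(p : ℂ) ^ (-(1 / 2 + I * t : ℂ))‖ ≤ (2 : ℝ) ^ (-(1 / 2) : ℝ) := by
  have h0 : 0 < p := hp.pos
  rw [Complex.norm_natCast_cpow_of_pos h0]
  have h1 : (-(1 / 2 + I * t : ℂ)).re = -(1 / 2) := by simp
  rw [h1]
  refine Real.rpow_le_rpow_of_nonpos (by norm_num) ?_ (by norm_num)
  exact_mod_cast hp.two_le

theorem smallLine : SmallLine := by
  intro p0
  have hc : 0 < 1 - (2 : ℝ) ^ (-(1 / 2) : ℝ) := by
    have h1 : (2 : ℝ) ^ (-(1 / 2) : ℝ) < 1 :=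
      Real.rpow_lt_one_of_one_lt_of_neg (by norm_num) (by norm_num)
    linarith
  have hev : ∀ t : ℝ, ev t (Dsm p0) = ∏ p ∈ Psm p0, (1 - (p : ℂ) ^ (-(1 / 2 + I * t : ℂ))) := by
    intro t
    unfold Dsm
    rw [map_prod]
    refine Finset.prod_congr rfl fun p _ => ?_
    rw [map_sub, map_one, Pool.Agent.Lib.MP_f9aece_nt.ev_single, Complex.ofReal_one, one_mul]
  have hfac : ∀ (t : ℝ), ∀ p ∈ Psm p0, 1 - (2 : ℝ) ^ (-(1 / 2) : ℝ) ≤
      ‖1 - (p : ℂ) ^ (-(1 / 2 + I * t : ℂ))‖ := by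
    intro t p hp
    have hp' : p.Prime := (Finset.mem_filter.1 hp).2
    have h1 := t25_norm t hp'
    have h2 := norm_sub_norm_le (1 : ℂ) ((p : ℂ) ^ (-(1 / 2 + I * t : ℂ)))
    rw [norm_one] at h2
    linarith
  have hlow : ∀ t : ℝ, (1 - (2 : ℝ) ^ (-(1 / 2) : ℝ)) ^ (Psm p0).card ≤ ‖ev t (Dsm p0)‖ := by
    intro t
    rw [hev, norm_prod, ← Finset.prod_const]
    exact Finset.prod_le_prod (fun _ _ => hc.le) (hfac t)
  have hpos : 0 < (1 - (2 : ℝ) ^ (-(1 / 2) : ℝ)) ^ (Psm p0).card := pow_pos hc _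
  refine ⟨((1 - (2 : ℝ) ^ (-(1 / 2) : ℝ)) ^ (Psm p0).card)⁻¹, (inv_pos.2 hpos).le, fun t => ?_⟩
  refine ⟨?_, ?_, ?_⟩
  · have h1 : pt 0 t = 1 / 2 + I * t := by
      unfold pt
      push_cast
      ring
    rw [Pool.Agent.Lib.MP_f9aece_nt.ev_apply, h1]
    rfl
  · exact norm_pos_iff.1 (hpos.trans_le (hlow t))
  · rw [norm_inv]
    exact inv_anti₀ hpos (hlow t)

end Pool.Agent.Lib.MT
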