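import Mathlib
import Pool.Agent.Lib.MP_f9aece_nt_mt.StmtsT
import Pool.Agent.Lib.MP_f9aece_nt_ms.Coeffs
import Pool.Agent.Lib.MP_f9aece_nt_j4.GroupsH

/-!
Mesoscopic moments of zeta, module T35.

Existence of the limit, positivity for real weights.
-/

set_option autoImplicit false

namespace Pool.Agent.Lib.MT

open MeasureTheory Set Filter Topology Complex
open scoped ComplexConjugate
open scoped ArithmeticFunction.Omega
open Pool.Agent.Lib.MP_f9aece_nt (DP pair BK K1 ev PP VV Smo expo)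
open Pool.Agent.Lib.MP_f9aece_nt_h40 (ind)
open Pool.Agent.Lib.MP_f9aece_nt_h85 (Rst)
open Pool.Agent.Lib.MP_f9aece_nt_h97 (Psm Dsm evs)
open Pool.Agent.Lib.NL (pt B0)
open Pool.Agent.Lib.J4 (En V2)
open Pool.Agent.Lib.MS (Len MVP Par RW TZ Cut un zr ex hq af ZS)

namespace T35

/-! ### continuity and boundedness -/

/-- continuous and bounded -/
private def CB (F : ℝ → ℂ) : Prop := Continuous F ∧ ∃ C : ℝ, 0 ≤ C ∧ ∀ t, ‖F t‖ ≤ C

private lemma norm_cpow_le (a : ℕ) (t : ℝ) : ‖(a : ℂ) ^ (-(1 / 2 + I * t : ℂ))‖ ≤ 1 := by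
  rcases Nat.eq_zero_or_pos a with rfl | ha
  · have h : (-(1 / 2 + I * t : ℂ)) ≠ 0 := by
      intro h
      have := congrArg Complex.re h
      norm_num at this
    rw [Nat.cast_zero, Complex.zero_cpow h, norm_zero]
    exact zero_le_one
  · rw [Complex.norm_natCast_cpow_of_pos ha]
    have h1 : (-(1 / 2 + I * t : ℂ)).re = -(1 / 2 : ℝ) := by simp
    rw [h1]
    exact Real.rpow_le_one_of_one_le_of_nonpos (by exact_mod_cast ha) (by norm_num)

private lemma cb_ev (f : DP) : CB (fun t => ev t f) := by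
  refine ⟨MP_f9aece_nt.continuous_ev f, ∑ a ∈ f.coeff.support, |f.coeff a|,
    Finset.sum_nonneg fun _ _ => abs_nonneg _, fun t => ?_⟩
  change ‖ev t f‖ ≤ _
  rw [MP_f9aece_nt.ev_apply]
  refine (norm_sum_le _ _).trans (Finset.sum_le_sum fun a _ => ?_)
  rw [norm_mul, Complex.norm_real, Real.norm_eq_abs]
  exact mul_le_of_le_one_right (abs_nonneg _) (norm_cpow_le a t)

private lemma CB.mul {F G : ℝ → ℂ} (hF : CB F) (hG : CB G) : CB (fun t => F t * G t) := by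
  obtain ⟨C, hC, h1⟩ := hF.2
  obtain ⟨D, hD, h2⟩ := hG.2
  refine ⟨hF.1.mul hG.1, C * D, mul_nonneg hC hD, fun t => ?_⟩
  rw [norm_mul]
  exact mul_le_mul (h1 t) (h2 t) (norm_nonneg _) hC

private lemma CB.add {F G : ℝ → ℂ} (hF : CB F) (hG : CB G) : CB (fun t => F t + G t) := by
  obtain ⟨C, hC, h1⟩ := hF.2
  obtain ⟨D, hD, h2⟩ := hG.2
  exact ⟨hF.1.add hG.1, C + D, add_nonneg hC hD, fun t =>
    (norm_add_le _ _).trans (add_le_add (h1 t) (h2 t))⟩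

private lemma CB.sub {F G : ℝ → ℂ} (hF : CB F) (hG : CB G) : CB (fun t => F t - G t) := by
  obtain ⟨C, hC, h1⟩ := hF.2
  obtain ⟨D, hD, h2⟩ := hG.2
  exact ⟨hF.1.sub hG.1, C + D, add_nonneg hC hD, fun t =>
    (norm_sub_le _ _).trans (add_le_add (h1 t) (h2 t))⟩

private lemma CB.const (c : ℂ) : CB (fun _ => c) := ⟨continuous_const, ‖c‖, norm_nonneg _, fun _ => le_rfl⟩

private lemma cb_SW (w : ℝ → ℂ) (p0 : ℕ) (Y L : ℝ) : CB (fun t => SW w p0 Y L t) :=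
  (cb_ev _).add ((CB.const I).mul (cb_ev _))

private lemma cb_ZS (w : ℝ → ℂ) (L : ℝ) : CB (fun t => ZS w L t) := by
  constructor
  · unfold MS.ZS
    refine continuous_finsetSum _ fun n hn => ?_
    have hn1 : (n : ℂ) ≠ 0 := by
      have := (Finset.mem_Icc.mp hn).1
      exact_mod_cast (by omega : n ≠ 0)
    refine continuous_const.mul ?_
    refine Continuous.const_cpow ?_ (Or.inl hn1)
    fun_prop
  · refine ⟨∑ n ∈ Finset.Icc 1 ⌊Real.exp L⌋₊, ‖w (Real.log n / L)‖,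
      Finset.sum_nonneg fun _ _ => norm_nonneg _, fun t => ?_⟩
    unfold MS.ZS
    refine (norm_sum_le _ _).trans (Finset.sum_le_sum fun a _ => ?_)
    rw [norm_mul]
    exact mul_le_of_le_one_right (norm_nonneg _) (norm_cpow_le a t)

private lemma cb_Mn (h25 : SmallLine) (w : ℝ → ℂ) (A : Par) (L : ℝ) : CB (fun t => Mn w A L t) := by
  obtain ⟨C, hC, h⟩ := h25 A.p0
  have h1 : CB (fun t => (evs (pt 0 t) (Dsm A.p0))⁻¹) := by
    refine ⟨?_, C, hC, fun t => ?_⟩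
    · have e : (fun t => (evs (pt 0 t) (Dsm A.p0))⁻¹) = fun t => (ev t (Dsm A.p0))⁻¹ := by
        funext t
        rw [(h t).1]
      rw [e]
      exact (MP_f9aece_nt.continuous_ev _).inv₀ fun t => (h t).2.1
    · change ‖(evs (pt 0 t) (Dsm A.p0))⁻¹‖ ≤ C
      rw [(h t).1]
      exact (h t).2.2
  exact (h1.mul (cb_ev _)).mul (cb_SW w 0 A.Y L)

private lemma CB.integrable {F : ℝ → ℂ} (hF : CB F) {ν : Measure ℝ} [IsProbabilityMeasure ν]
    {s : ℝ} (hs : 0 ≤ s) : Integrable (fun t => ‖F t‖ ^ s) ν := by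
  obtain ⟨C, hC, h1⟩ := hF.2
  refine Integrable.of_bound (C := C ^ s) ?_ (Eventually.of_forall fun t => ?_)
  · exact (Continuous.rpow_const hF.1.norm fun _ => Or.inr hs).aestronglyMeasurable
  · rw [Real.norm_eq_abs, abs_of_nonneg (by positivity)]
    exact Real.rpow_le_rpow (norm_nonneg _) (h1 t) hs

/-- comparison of the moments -/
private lemma compare {F G : ℝ → ℂ} (hF : CB F) (hG : CB G) {ν : Measure ℝ}
    (hν : IsProbabilityMeasure ν) {s η C : ℝ} (hs : 0 ≤ s)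
    (h : ∀ x y : ℂ, |‖x‖ ^ s - ‖y‖ ^ s| ≤ η * ‖x‖ ^ s + C * ‖x - y‖ ^ s) :
    |∫ t, ‖F t‖ ^ s ∂ν - ∫ t, ‖G t‖ ^ s ∂ν|
      ≤ η * ∫ t, ‖F t‖ ^ s ∂ν + C * ∫ t, ‖F t - G t‖ ^ s ∂ν := by
  have i1 := hF.integrable (ν := ν) hs
  have i2 := hG.integrable (ν := ν) hs
  have i3 := (hF.sub hG).integrable (ν := ν) hs
  rw [← integral_sub i1 i2, ← integral_const_mul, ← integral_const_mul,
    ← integral_add (i1.const_mul _) (i3.const_mul _)]
  refine (abs_integral_le_integral_abs).trans ?_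
  exact integral_mono (i1.sub i2).abs ((i1.const_mul _).add (i3.const_mul _)) fun t => h _ _

/-! ### good tuples -/

/-- the admissible tuples -/
private def Good (N : ℝ) (L X η : ℝ) (ν : Measure ℝ) : Prop :=
  N ≤ L ∧ MVP ν X η ∧ Real.exp (N * L) ≤ X ∧ 0 ≤ η ∧ η * N ≤ 1

private lemma Good.mono {N N' L X η : ℝ} {ν : Measure ℝ} (hN : 1 ≤ N) (hNN : N ≤ N')
    (h : Good N' L X η ν) : Good N L X η ν := by
  obtain ⟨h1, h2, h3, h4, h5⟩ := h
  have hL : 0 ≤ L := by linarith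
  refine ⟨hNN.trans h1, h2, (Real.exp_le_exp.mpr ?_).trans h3, h4, ?_⟩
  · exact mul_le_mul_of_nonneg_right hNN hL
  · exact (mul_le_mul_of_nonneg_left hNN h4).trans h5

private lemma std_of {q v p0 : ℕ} (hq : 1 ≤ q) (hv : 4 ≤ v) (hp : 1000 ≤ p0) {N L X η : ℝ}
    {ν : Measure ℝ} (hN : 1 ≤ N) (h : Good N L X η ν) : ∃ A : Par, Std q v p0 N A L X η ν := by
  obtain ⟨h1, h2, h3, h4, h5⟩ := h
  have hL : 0 < L := by linarith
  have hY : 0 < L * Real.exp (-(2 * (v : ℝ))) := by positivity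
  obtain ⟨J, hJ⟩ := J4.existsJ v p0 (by omega) (by omega) _ hY
  exact ⟨⟨q, v, p0, J, L * Real.exp (-(2 * (v : ℝ)))⟩,
    { hq := rfl, hv := rfl, hp := rfl, ok := ⟨hq, hv, hp, hY, hJ⟩, hL := h1, hY := rfl, mvp := h2,
      hX := h3, η0 := h4, ηN := h5 }⟩

private lemma good_ex (h0 : MS.UnifMVP) {N : ℝ} (hN : 1 ≤ N) :
    ∃ (L X η : ℝ) (ν : Measure ℝ), Good N L X η ν := by
  have hX : 1 ≤ Real.exp (N * N) := Real.one_le_exp (by positivity)
  have hT : 0 < 2 * Real.exp (N * N) ^ 2 * N := by positivity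
  refine ⟨N, Real.exp (N * N), 2 * Real.exp (N * N) ^ 2 / (2 * Real.exp (N * N) ^ 2 * N),
    un 0 (2 * Real.exp (N * N) ^ 2 * N), le_rfl, h0 0 _ _ hT hX, le_rfl, by positivity, ?_⟩
  have : (0 : ℝ) < Real.exp (N * N) := Real.exp_pos _
  have hN0 : (0 : ℝ) < N := by linarith
  field_simp
  exact le_rfl

end T35

open T35

theorem limEx (h1 : PowIneq) (h2 : CauL) (h19 : DecLimit) (h21 : DecLow) (h25 : SmallLine) (h27 : ErrTot) (h34 : MainAsym) (h0 : MS.UnifMVP) : LimEx := by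
  intro k B Lam w hk hw hw0
  obtain ⟨q, hqdef⟩ : ∃ q : ℕ, q = ⌈k⌉₊ := ⟨_, rfl⟩
  have hq1 : 1 ≤ q := by rw [hqdef]; exact Nat.one_le_ceil_iff.mpr hk
  have hqk : k ≤ q := by rw [hqdef]; exact Nat.le_ceil k
  have hqk' : (q : ℝ) - 1 < k := by
    have := Nat.ceil_lt_add_one hk.le
    rw [← hqdef] at this
    linarith
  have hs : 0 ≤ 2 * k := by linarith
  have hs' : 0 < 2 * k := by linarith
  -- the basic comparison for one choice of the parameters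
  have key : ∀ (η1 C1 : ℝ), (∀ x y : ℂ, |‖x‖ ^ (2 * k) - ‖y‖ ^ (2 * k)|
        ≤ η1 * ‖x‖ ^ (2 * k) + C1 * ‖x - y‖ ^ (2 * k)) → 0 ≤ C1 → ∀ (p0 v : ℕ) (ε1 ε2 a g N1 N2 : ℝ),
      1000 ≤ p0 → 4 ≤ v → 1 ≤ N1 → 1 ≤ N2 →
      (∀ (A : Par) (L X η : ℝ) (ν : Measure ℝ), Std q v p0 N1 A L X η ν → ∀ w : ℝ → ℂ, CutC B Lam w →
        ∫ t, ‖ZS w L t - Mn w A L t‖ ^ (2 * k) ∂ν
          ≤ ε1 * (L ^ (k ^ 2) * Real.exp (-(2 * k * v * (1 - (q - k)))))) →
      (∀ (A : Par) (L X η : ℝ) (ν : Measure ℝ), Std q v p0 N2 A L X η ν →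
        |∫ t, ‖Mn w A L t‖ ^ (2 * k) ∂ν - a * g * sz k v L| ≤ ε2 * (a * g * sz k v L)) →
      ∀ (L X η : ℝ) (ν : Measure ℝ), Good (max N1 N2) L X η ν → ∃ z y e : ℝ,
        z = (∫ t, ‖ZS w L t‖ ^ (2 * k) ∂ν) / L ^ (k ^ 2) ∧ 0 ≤ z ∧ 0 ≤ y ∧ 0 ≤ e ∧
        |z - y| ≤ η1 * z + C1 * e ∧
        e ≤ ε1 * Real.exp (-(2 * k * v * (1 - (q - k)))) ∧
        |y - a * g * Real.exp (-(2 * v * k ^ 2))| ≤ ε2 * (a * g * Real.exp (-(2 * v * k ^ 2))) := by
    intro η1 C1 hη hC1 p0 v ε1 ε2 a g N1 N2 hp0 hv hN1 hN2 hE hM L X η ν hg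
    have hg1 := hg.mono hN1 (le_max_left _ _)
    have hg2 := hg.mono hN2 (le_max_right _ _)
    obtain ⟨A, hA⟩ := std_of hq1 hv hp0 (hN1.trans (le_max_left _ _)) hg
    have hL0 : 0 < L := by have := hg1.1; linarith
    have hA1 : Std q v p0 N1 A L X η ν :=
      { hA with hL := hg1.1, hX := hg1.2.2.1, ηN := hg1.2.2.2.2 }
    have hA2 : Std q v p0 N2 A L X η ν :=
      { hA with hL := hg2.1, hX := hg2.2.2.1, ηN := hg2.2.2.2.2 }
    have hprob : IsProbabilityMeasure ν := hA.mvp.prob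
    have hLk : 0 < L ^ (k ^ 2) := Real.rpow_pos_of_pos hL0 _
    have c1 := compare (cb_ZS w L) (cb_Mn h25 w A L) hprob hs hη
    have c2 := hE A L X η ν hA1 w hw
    have c3 := hM A L X η ν hA2
    obtain ⟨IZ, hIZ⟩ : ∃ IZ, IZ = ∫ t, ‖ZS w L t‖ ^ (2 * k) ∂ν := ⟨_, rfl⟩
    obtain ⟨IM, hIM⟩ : ∃ IM, IM = ∫ t, ‖Mn w A L t‖ ^ (2 * k) ∂ν := ⟨_, rfl⟩
    obtain ⟨IE, hIE⟩ : ∃ IE, IE = ∫ t, ‖ZS w L t - Mn w A L t‖ ^ (2 * k) ∂ν := ⟨_, rfl⟩
    rw [← hIZ, ← hIM, ← hIE] at c1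
    rw [← hIE] at c2
    rw [← hIM] at c3
    have hIZ0 : 0 ≤ IZ := by rw [hIZ]; exact integral_nonneg fun t => by positivity
    have hIM0 : 0 ≤ IM := by rw [hIM]; exact integral_nonneg fun t => by positivity
    have hIE0 : 0 ≤ IE := by rw [hIE]; exact integral_nonneg fun t => by positivity
    rw [← hIZ]
    refine ⟨IZ / L ^ (k ^ 2), IM / L ^ (k ^ 2), IE / L ^ (k ^ 2), rfl, by positivity, by positivity,
      by positivity, ?_, ?_, ?_⟩
    · rw [← sub_div, abs_div, abs_of_pos hLk, div_le_iff₀ hLk]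
      have e : (η1 * (IZ / L ^ (k ^ 2)) + C1 * (IE / L ^ (k ^ 2))) * L ^ (k ^ 2)
          = η1 * IZ + C1 * IE := by field_simp
      rw [e]
      exact c1
    · rw [div_le_iff₀ hLk]
      calc IE ≤ _ := c2
        _ = _ := by ring
    · have e1 : IM / L ^ (k ^ 2) - a * g * Real.exp (-(2 * v * k ^ 2))
          = (IM - a * g * sz k v L) / L ^ (k ^ 2) := by
        unfold sz
        field_simp
      rw [e1, abs_div, abs_of_pos hLk, div_le_iff₀ hLk]
      calc |IM - a * g * sz k v L| ≤ _ := c3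
        _ = _ := by unfold sz; ring
  -- step 1: boundedness
  have hdec : ∀ v : ℕ, 4 ≤ v → ∃ g : ℝ, 1 ≤ g ∧ Dec k w (Real.exp (2 * v)) g := by
    intro v hv
    have hK : 1 < Real.exp (2 * (v : ℝ)) := by
      rw [Real.one_lt_exp_iff]
      have : (4 : ℝ) ≤ v := by exact_mod_cast hv
      linarith
    obtain ⟨g, hg1, hg2⟩ := h19 k B Lam w hk hw _ hK
    rw [hw0, norm_one, Real.one_rpow] at hg1
    exact ⟨g, hg1, hg2⟩
  obtain ⟨Fs, Ns, hFs0, hNs, hFs⟩ : ∃ Fs Ns : ℝ, 0 ≤ Fs ∧ 1 ≤ Ns ∧ ∀ (L X η : ℝ) (ν : Measure ℝ),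
      Good Ns L X η ν → (∫ t, ‖ZS w L t‖ ^ (2 * k) ∂ν) / L ^ (k ^ 2) ≤ Fs := by
    obtain ⟨C1, hC1, hC⟩ := h1 (2 * k) (1 / 2) hs' (by norm_num)
    obtain ⟨p1, hp1, hm⟩ := h34 q k (1 / 2) hq1 hk hqk' hqk (by norm_num)
    obtain ⟨a, v1, ha, hv1, hm⟩ := hm p1 le_rfl
    obtain ⟨v0, he⟩ := h27 q k hq1 hk hqk' hqk p1 hp1 B Lam 1 one_pos
    obtain ⟨v, hvd⟩ : ∃ v, v = max v0 v1 := ⟨_, rfl⟩
    have hv0 : v0 ≤ v := hvd ▸ le_max_left _ _
    have hv1' : v1 ≤ v := hvd ▸ le_max_right _ _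
    have hv4 : 4 ≤ v := hv1.trans hv1'
    obtain ⟨g, hg1, hg2⟩ := hdec v hv4
    obtain ⟨N1, hN1, hE⟩ := he v hv0
    obtain ⟨N2, hN2, hM⟩ := hm v hv1' w g hg1 hg2
    have hk1 := key (1 / 2) C1 hC hC1 p1 v 1 (1 / 2) a g N1 N2 hp1 hv4 hN1 hN2 hE hM
    refine ⟨2 * (3 / 2 * (a * g * Real.exp (-(2 * v * k ^ 2)))) + 2 * (C1 * 1), max N1 N2,
      by positivity, hN1.trans (le_max_left _ _), fun L X η ν hg => ?_⟩
    obtain ⟨z, y, e, hz, hz0, hy0, he0, i1, i2, i3⟩ := hk1 L X η ν hg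
    rw [← hz]
    have hexp : Real.exp (-(2 * k * v * (1 - (q - k)))) ≤ 1 := by
      rw [Real.exp_le_one_iff]
      have : 0 ≤ 1 - ((q : ℝ) - k) := by linarith
      have : 0 ≤ 2 * k * v * (1 - (q - k)) := by positivity
      linarith
    have i4 : e ≤ 1 := by linarith
    have i5 := (abs_le.mp i1).2
    have i6 := (abs_le.mp i3).2
    have i7 : C1 * e ≤ C1 * 1 := mul_le_mul_of_nonneg_left i4 hC1
    nlinarith
  -- step 2: almost convergence
  have step2 : ∀ ε : ℝ, 0 < ε → ∃ (c N : ℝ), 1 ≤ N ∧ ∀ (L X η : ℝ) (ν : Measure ℝ),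
      Good N L X η ν → |(∫ t, ‖ZS w L t‖ ^ (2 * k) ∂ν) / L ^ (k ^ 2) - c| ≤ ε := by
    intro ε0 hε0
    obtain ⟨ε, hεd⟩ : ∃ ε, ε = min ε0 1 := ⟨_, rfl⟩
    have hε : 0 < ε := by rw [hεd]; exact lt_min hε0 one_pos
    have hε1 : ε ≤ 1 := by rw [hεd]; exact min_le_right _ _
    have hεε : ε ≤ ε0 := by rw [hεd]; exact min_le_left _ _
    have hη : 0 < ε / (4 * (Fs + 1)) := by positivity
    obtain ⟨C1, hC1, hC⟩ := h1 (2 * k) (ε / (4 * (Fs + 1))) hs' hη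
    have hεm : 0 < ε / (8 * (Fs + 2)) := by positivity
    obtain ⟨p1, hp1, hm⟩ := h34 q k (ε / (8 * (Fs + 2))) hq1 hk hqk' hqk hεm
    obtain ⟨a, v1, ha, hv1, hm⟩ := hm p1 le_rfl
    have hε2 : 0 < ε / (4 * (C1 + 1)) := by positivity
    obtain ⟨v0, he⟩ := h27 q k hq1 hk hqk' hqk p1 hp1 B Lam (ε / (4 * (C1 + 1))) hε2
    obtain ⟨v, hvd⟩ : ∃ v, v = max v0 v1 := ⟨_, rfl⟩
    have hv0 : v0 ≤ v := hvd ▸ le_max_left _ _
    have hv1' : v1 ≤ v := hvd ▸ le_max_right _ _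
    have hv4 : 4 ≤ v := hv1.trans hv1'
    obtain ⟨g, hg1, hg2⟩ := hdec v hv4
    obtain ⟨N1, hN1, hE⟩ := he v hv0
    obtain ⟨N2, hN2, hM⟩ := hm v hv1' w g hg1 hg2
    have hk1 := key _ C1 hC hC1 p1 v _ _ a g N1 N2 hp1 hv4 hN1 hN2 hE hM
    obtain ⟨m, hmd⟩ : ∃ m, m = a * g * Real.exp (-(2 * v * k ^ 2)) := ⟨_, rfl⟩
    have hm0 : 0 < m := by rw [hmd]; positivity
    refine ⟨m, max Ns (max N1 N2), hNs.trans (le_max_left _ _), fun L X η ν hg => ?_⟩
    have hgs := hFs L X η ν (hg.mono hNs (le_max_left _ _))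
    obtain ⟨z, y, e, hz, hz0, hy0, he0, i1, i2, i3⟩ := hk1 L X η ν
      (hg.mono (hN1.trans (le_max_left _ _)) (le_max_right _ _))
    rw [← hz] at hgs ⊢
    rw [← hmd] at i3
    have hexp : Real.exp (-(2 * k * v * (1 - (q - k)))) ≤ 1 := by
      rw [Real.exp_le_one_iff]
      have : 0 ≤ 1 - ((q : ℝ) - k) := by linarith
      have : 0 ≤ 2 * k * v * (1 - (q - k)) := by positivity
      linarith
    have i4 : e ≤ ε / (4 * (C1 + 1)) := i2.trans (mul_le_of_le_one_right hε2.le hexp)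
    have i5 : C1 * e ≤ ε / 4 := by
      calc C1 * e ≤ C1 * (ε / (4 * (C1 + 1))) := mul_le_mul_of_nonneg_left i4 hC1
        _ = ε / 4 * (C1 / (C1 + 1)) := by field_simp
        _ ≤ ε / 4 * 1 := by
          refine mul_le_mul_of_nonneg_left ?_ (by positivity)
          rw [div_le_one (by positivity)]
          linarith
        _ = ε / 4 := mul_one _
    have i6 : ε / (4 * (Fs + 1)) * z ≤ ε / 4 := by
      calc ε / (4 * (Fs + 1)) * z ≤ ε / (4 * (Fs + 1)) * (Fs + 1) :=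
            mul_le_mul_of_nonneg_left (by linarith) hη.le
        _ = ε / 4 := by field_simp
    have i7 : |z - y| ≤ ε / 2 := by linarith
    have i8 : y ≤ Fs + 1 := by
      have := (abs_le.mp i7).1
      linarith
    have hsmall : ε / (8 * (Fs + 2)) ≤ 1 / 16 := by
      rw [div_le_div_iff₀ (by positivity) (by norm_num)]
      nlinarith
    have i9 : m ≤ 2 * (Fs + 1) := by
      have h := (abs_le.mp i3).1
      have h' : ε / (8 * (Fs + 2)) * m ≤ 1 / 16 * m := mul_le_mul_of_nonneg_right hsmall hm0.le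
      linarith
    have i10 : ε / (8 * (Fs + 2)) * m ≤ ε / 4 := by
      calc ε / (8 * (Fs + 2)) * m ≤ ε / (8 * (Fs + 2)) * (2 * (Fs + 2)) :=
            mul_le_mul_of_nonneg_left (by linarith) hεm.le
        _ = ε / 4 := by field_simp; norm_num
    have i11 : |z - m| ≤ |z - y| + |y - m| := abs_sub_le z y m
    linarith
  -- the limit
  obtain ⟨c, hc⟩ := h2 (ℝ × ℝ × ℝ × Measure ℝ)
    (fun n => {τ | Good ((n : ℝ) + 1) τ.1 τ.2.1 τ.2.2.1 τ.2.2.2})
    (fun τ => (∫ t, ‖ZS w τ.1 t‖ ^ (2 * k) ∂τ.2.2.2) / τ.1 ^ (k ^ 2))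
    (by
      intro n m hnm τ hτ
      have hnm' : (n : ℝ) ≤ m := by exact_mod_cast hnm
      exact Good.mono (by have : (0 : ℝ) ≤ n := Nat.cast_nonneg n; linarith) (by linarith) hτ)
    (by
      intro n
      have hn : (1 : ℝ) ≤ (n : ℝ) + 1 := by
        have : (0 : ℝ) ≤ n := Nat.cast_nonneg n
        linarith
      obtain ⟨L, X, η, ν, h⟩ := good_ex h0 hn
      exact ⟨⟨L, X, η, ν⟩, h⟩)
    (by
      intro ε hε
      obtain ⟨c, N, hN, h⟩ := step2 ε hε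
      refine ⟨c, ⌈N⌉₊, fun τ hτ => ?_⟩
      refine h _ _ _ _ (Good.mono hN ?_ hτ)
      have := Nat.le_ceil N
      linarith)
  have hgood : ∀ n : ℕ, ∃ (L X η : ℝ) (ν : Measure ℝ), Good ((n : ℝ) + 1) L X η ν := fun n => by
    have hn : (1 : ℝ) ≤ (n : ℝ) + 1 := by
      have : (0 : ℝ) ≤ n := Nat.cast_nonneg n
      linarith
    exact good_ex h0 hn
  -- lower bounds pass to the limit
  have hlow : ∀ (δ N : ℝ), 1 ≤ N → (∀ (L X η : ℝ) (ν : Measure ℝ), Good N L X η ν →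
      δ ≤ (∫ t, ‖ZS w L t‖ ^ (2 * k) ∂ν) / L ^ (k ^ 2)) → δ ≤ c := by
    intro δ N hN hδ
    refine le_of_forall_pos_le_add fun ε hε => ?_
    obtain ⟨n, hn⟩ := hc ε hε
    obtain ⟨L, X, η, ν, h⟩ := hgood (max n ⌈N⌉₊)
    have hmax1 : ((n : ℕ) : ℝ) ≤ ((max n ⌈N⌉₊ : ℕ) : ℝ) := by exact_mod_cast le_max_left _ _
    have hmax2 : ((⌈N⌉₊ : ℕ) : ℝ) ≤ ((max n ⌈N⌉₊ : ℕ) : ℝ) := by exact_mod_cast le_max_right _ _
    have hnn : (0 : ℝ) ≤ n := Nat.cast_nonneg n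
    have h3 := hn ⟨L, X, η, ν⟩ (Good.mono (by linarith) (by linarith) h)
    have h4 := hδ L X η ν (Good.mono hN (by have := Nat.le_ceil N; linarith) h)
    have h5 := (abs_le.mp h3).2
    simp only at h5
    linarith
  refine ⟨c, ?_, ?_, ?_⟩
  · refine hlow 0 1 le_rfl fun L X η ν h => ?_
    have hL : 0 < L := by have := h.1; linarith
    have : 0 ≤ ∫ t, ‖ZS w L t‖ ^ (2 * k) ∂ν := integral_nonneg fun t => by positivity
    positivity
  · -- positivity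
    intro him
    obtain ⟨cg, v2, hcg, hlowg⟩ : ∃ (cg : ℝ) (v2 : ℕ), 0 < cg ∧ ∀ (v : ℕ) (g : ℝ), v2 ≤ v → 1 ≤ g →
        Dec k w (Real.exp (2 * v)) g → cg * Real.exp (2 * v * k * ((q : ℝ) - 1)) ≤ g := by
      rcases Nat.lt_or_ge q 2 with hq2 | hq2
      · have hq1' : q = 1 := by omega
        refine ⟨1, 0, one_pos, fun v g _ hg _ => ?_⟩
        rw [hq1']
        simpa using hg
      · obtain ⟨c0, K0, hc0, hK0, h⟩ := h21 (q - 1) k B Lam (by omega) (by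
          rw [Nat.cast_sub hq1]
          push_cast
          linarith)
        refine ⟨c0, ⌈Real.log K0⌉₊, hc0, fun v g hv hg hd => ?_⟩
        have hwu : (fun x => (((w x).re : ℝ) : ℂ)) = w := by
          funext x
          apply Complex.ext
          · simp
          · simp [him x]
        have hK : K0 ≤ Real.exp (2 * (v : ℝ)) := by
          have h3 : Real.log K0 ≤ (v : ℝ) :=
            (Nat.le_ceil _).trans (by exact_mod_cast hv)
          have h4 : (0 : ℝ) ≤ v := Nat.cast_nonneg v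
          calc K0 = Real.exp (Real.log K0) := (Real.exp_log (by linarith)).symm
            _ ≤ _ := Real.exp_le_exp.mpr (by linarith)
        have hcut : Cut B Lam (fun x => (w x).re) :=
          { bd := fun x => (Complex.abs_re_le_norm _).trans (hw.bd x)
            lip := fun x y => by
              rw [← Complex.sub_re]
              exact (Complex.abs_re_le_norm _).trans (hw.lip x y)
            zero := fun x hx => by rw [hw.zero x hx, Complex.zero_re] }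
        have h5 := h (fun x => (w x).re) hcut (by simp [hw0]) _ hK g (by rw [hwu]; exact hd)
        have h6 : Real.exp (2 * (v : ℝ)) ^ (k * ((q - 1 : ℕ) : ℝ))
            = Real.exp (2 * v * k * ((q : ℝ) - 1)) := by
          rw [← Real.exp_mul, Nat.cast_sub hq1]
          push_cast
          congr 1
          ring
        rw [h6] at h5
        exact h5
    obtain ⟨C1, hC1, hC⟩ := h1 (2 * k) (1 / 2) hs' (by norm_num)
    obtain ⟨p1, hp1, hm⟩ := h34 q k (1 / 2) hq1 hk hqk' hqk (by norm_num)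
    obtain ⟨a, v1, ha, hv1, hm⟩ := hm p1 le_rfl
    have hε2 : 0 < a * cg / (4 * (C1 + 1)) := by positivity
    obtain ⟨v0, he⟩ := h27 q k hq1 hk hqk' hqk p1 hp1 B Lam (a * cg / (4 * (C1 + 1))) hε2
    obtain ⟨v, hvd⟩ : ∃ v, v = max (max v0 v1) v2 := ⟨_, rfl⟩
    have hv0 : v0 ≤ v := hvd ▸ (le_max_left _ _).trans (le_max_left _ _)
    have hv1' : v1 ≤ v := hvd ▸ (le_max_right _ _).trans (le_max_left _ _)
    have hv2' : v2 ≤ v := hvd ▸ le_max_right _ _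
    have hv4 : 4 ≤ v := hv1.trans hv1'
    obtain ⟨g, hg1, hg2⟩ := hdec v hv4
    obtain ⟨N1, hN1, hE⟩ := he v hv0
    obtain ⟨N2, hN2, hM⟩ := hm v hv1' w g hg1 hg2
    have hk1 := key _ C1 hC hC1 p1 v _ _ a g N1 N2 hp1 hv4 hN1 hN2 hE hM
    have hgl := hlowg v g hv2' hg1 hg2
    obtain ⟨D, hD⟩ : ∃ D, D = Real.exp (-(2 * k * v * (1 - (q - k)))) := ⟨_, rfl⟩
    have hD0 : 0 < D := by rw [hD]; exact Real.exp_pos _
    have hmD : a * cg * D ≤ a * g * Real.exp (-(2 * v * k ^ 2)) := by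
      have e1 : D = Real.exp (2 * v * k * ((q : ℝ) - 1)) * Real.exp (-(2 * v * k ^ 2)) := by
        rw [hD, ← Real.exp_add]
        congr 1
        ring
      rw [e1]
      calc a * cg * (Real.exp (2 * v * k * ((q : ℝ) - 1)) * Real.exp (-(2 * v * k ^ 2)))
          = a * (cg * Real.exp (2 * v * k * ((q : ℝ) - 1))) * Real.exp (-(2 * v * k ^ 2)) := by ring
        _ ≤ a * g * Real.exp (-(2 * v * k ^ 2)) := by
          refine mul_le_mul_of_nonneg_right ?_ (Real.exp_pos _).le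
          exact mul_le_mul_of_nonneg_left hgl ha.le
    have hpos : a * cg * D / 6 ≤ c := by
      refine hlow _ (max N1 N2) (hN1.trans (le_max_left _ _)) fun L X η ν h => ?_
      obtain ⟨z, y, e, hz, hz0, hy0, he0, i1, i2, i3⟩ := hk1 L X η ν h
      rw [← hz]
      rw [← hD] at i2
      have i4 : C1 * e ≤ a * cg * D / 4 := by
        calc C1 * e ≤ C1 * (a * cg / (4 * (C1 + 1)) * D) := mul_le_mul_of_nonneg_left i2 hC1
          _ = a * cg * D / 4 * (C1 / (C1 + 1)) := by field_simp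
          _ ≤ a * cg * D / 4 * 1 := by
            refine mul_le_mul_of_nonneg_left ?_ (by positivity)
            rw [div_le_one (by positivity)]
            linarith
          _ = a * cg * D / 4 := mul_one _
      have i5 := (abs_le.mp i1).1
      have i6 := (abs_le.mp i3).1
      linarith
    have : 0 < a * cg * D / 6 := by positivity
    linarith
  · intro ε hε
    obtain ⟨n, hn⟩ := hc ε hε
    have hnn : (0 : ℝ) ≤ n := Nat.cast_nonneg n
    refine ⟨(n : ℝ) + 1, by linarith, fun L X η ν h3 h4 h5 h6 h7 => ?_⟩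
    have h8 := hn ⟨L, X, η, ν⟩ ⟨h3, h4, h5, h6, h7⟩
    simp only at h8
    have hL : 0 < L := by linarith
    have hLk : 0 < L ^ (k ^ 2) := Real.rpow_pos_of_pos hL _
    have e1 : (∫ t, ‖ZS w L t‖ ^ (2 * k) ∂ν) - c * L ^ (k ^ 2)
        = ((∫ t, ‖ZS w L t‖ ^ (2 * k) ∂ν) / L ^ (k ^ 2) - c) * L ^ (k ^ 2) := by
      field_simp
    rw [e1, abs_mul, abs_of_pos hLk]
    exact mul_le_mul_of_nonneg_right h8 hLk.le

end Pool.Agent.Lib.MT
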