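import Mathlib
import Pool.Agent.Lib.MP_f9aece_nt_mt.StmtsT
import Pool.Agent.Lib.MP_f9aece_nt_ms.Coeffs

/-!
Mesoscopic moments of zeta, module T8: unbounded functions.
-/

set_option autoImplicit false

namespace Pool.Agent.Lib.MT

open MeasureTheory Set Filter Topology Complex
open scoped ComplexConjugate
open scoped ArithmeticFunction.Omega
open Pool.Agent.Lib.MP_f9aece_nt (DP pair BK K1 ev PP VV Smo expo)
open Pool.Agent.Lib.MP_f9aece_nt_h40 (ind)
open Pool.Agent.Lib.MP_f9aece_nt_h85 (Rst)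
open Pool.Agent.Lib.MP_f9aece_nt_h97 (Psm Dsm evs)
open Pool.Agent.Lib.NL (pt B0)
open Pool.Agent.Lib.J4 (En V2)
open Pool.Agent.Lib.MS (Len MVP Par RW TZ Cut un zr ex hq af ZS)

private lemma T8_trunc {A x : ℝ} (hA : 0 < A) : |x - max (-A) (min x A)| ≤ x ^ 2 / A := by
  have h0 : 0 ≤ x ^ 2 / A := by positivity
  rcases le_total x A with h1 | h1
  · rw [min_eq_left h1]
    rcases le_total (-A) x with h2 | h2
    · rw [max_eq_right h2, sub_self, abs_zero]
      exact h0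
    · rw [max_eq_left h2, abs_of_nonpos (by linarith), le_div_iff₀ hA]
      nlinarith
  · rw [min_eq_right h1, max_eq_right (by linarith), abs_of_nonneg (by linarith), le_div_iff₀ hA]
    nlinarith

private lemma T8_one {m : ℕ} {μ : Measure (Fin m → ℂ)} [IsProbabilityMeasure μ]
    {f : (Fin m → ℂ) → ℝ} (hf : Continuous f) {C : ℝ} {p : ℕ}
    (hC : ∀ z, |f z| ≤ C * (1 + ‖z‖) ^ p)
    (hi : Integrable (fun z : Fin m → ℂ => ‖z‖ ^ (2 * p)) μ) {D : ℝ}
    (hD : ∫ z, ‖z‖ ^ (2 * p) ∂μ ≤ D) {A : ℝ} (hA : 0 < A) :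
    |∫ z, f z ∂μ - ∫ z, max (-A) (min (f z) A) ∂μ| ≤ C ^ 2 * 2 ^ (2 * p) * (1 + D) / A := by
  have hb : ∀ z, f z ^ 2 ≤ C ^ 2 * 2 ^ (2 * p) * (1 + ‖z‖ ^ (2 * p)) := by
    intro z
    have hz := norm_nonneg z
    have h1 : f z ^ 2 ≤ (C * (1 + ‖z‖) ^ p) ^ 2 := by
      rw [← sq_abs (f z)]
      exact pow_le_pow_left₀ (abs_nonneg _) (hC z) 2
    have h2 : (1 + ‖z‖) ^ (2 * p) ≤ 2 ^ (2 * p) * (1 + ‖z‖ ^ (2 * p)) := by
      rcases le_total ‖z‖ 1 with h3 | h3
      · calc (1 + ‖z‖) ^ (2 * p) ≤ 2 ^ (2 * p) := pow_le_pow_left₀ (by linarith) (by linarith) _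
          _ ≤ 2 ^ (2 * p) * (1 + ‖z‖ ^ (2 * p)) := by
            have : (0 : ℝ) ≤ 2 ^ (2 * p) * ‖z‖ ^ (2 * p) := by positivity
            linarith
      · calc (1 + ‖z‖) ^ (2 * p) ≤ (2 * ‖z‖) ^ (2 * p) :=
              pow_le_pow_left₀ (by linarith) (by linarith) _
          _ = 2 ^ (2 * p) * ‖z‖ ^ (2 * p) := mul_pow _ _ _
          _ ≤ 2 ^ (2 * p) * (1 + ‖z‖ ^ (2 * p)) := by
            have : (0 : ℝ) ≤ 2 ^ (2 * p) := by positivity
            linarith
    calc f z ^ 2 ≤ (C * (1 + ‖z‖) ^ p) ^ 2 := h1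
      _ = C ^ 2 * (1 + ‖z‖) ^ (2 * p) := by rw [mul_pow, ← pow_mul, mul_comm p 2]
      _ ≤ C ^ 2 * (2 ^ (2 * p) * (1 + ‖z‖ ^ (2 * p))) :=
        mul_le_mul_of_nonneg_left h2 (sq_nonneg C)
      _ = _ := by ring
  have hib : Integrable (fun z : Fin m → ℂ => C ^ 2 * 2 ^ (2 * p) * (1 + ‖z‖ ^ (2 * p))) μ :=
    ((integrable_const (1 : ℝ)).add hi).const_mul _
  have hf2 : Integrable (fun z => f z ^ 2) μ := by
    refine hib.mono' (hf.pow 2).aestronglyMeasurable (Eventually.of_forall fun z => ?_)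
    rw [Real.norm_of_nonneg (sq_nonneg _)]
    exact hb z
  have hfi : Integrable f μ := by
    refine ((integrable_const (1 : ℝ)).add hf2).mono' hf.aestronglyMeasurable
      (Eventually.of_forall fun z => ?_)
    show ‖f z‖ ≤ 1 + f z ^ 2
    rw [Real.norm_eq_abs]
    have h1 := sq_abs (f z)
    nlinarith [sq_nonneg (|f z| - 1), abs_nonneg (f z)]
  have hcA : Continuous fun z => max (-A) (min (f z) A) :=
    continuous_const.max (hf.min continuous_const)
  have hAi : Integrable (fun z => max (-A) (min (f z) A)) μ := by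
    refine (integrable_const A).mono' hcA.aestronglyMeasurable (Eventually.of_forall fun z => ?_)
    rw [Real.norm_eq_abs, abs_le]
    exact ⟨le_max_left _ _, max_le (by linarith) (min_le_right _ _)⟩
  rw [← integral_sub hfi hAi]
  calc |∫ z, (f z - max (-A) (min (f z) A)) ∂μ| ≤ ∫ z, |f z - max (-A) (min (f z) A)| ∂μ :=
        abs_integral_le_integral_abs
    _ ≤ ∫ z, C ^ 2 * 2 ^ (2 * p) * (1 + ‖z‖ ^ (2 * p)) / A ∂μ := by
      apply integral_mono (hfi.sub hAi).abs (hib.div_const A)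
      intro z
      exact (T8_trunc hA).trans (div_le_div_of_nonneg_right (hb z) hA.le)
    _ = C ^ 2 * 2 ^ (2 * p) * (1 + ∫ z, ‖z‖ ^ (2 * p) ∂μ) / A := by
      rw [integral_div, integral_const_mul, integral_add (integrable_const _) hi]
      simp
    _ ≤ C ^ 2 * 2 ^ (2 * p) * (1 + D) / A := by
      apply div_le_div_of_nonneg_right _ hA.le
      apply mul_le_mul_of_nonneg_left (by linarith)
      positivity

theorem unifInt : UnifInt := by
  intro m μ γ hμ hγ hbd hi hig hM f hf ⟨C, p, hC⟩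
  obtain ⟨D, hD⟩ := hM (2 * p)
  set D' := max D (∫ z, ‖z‖ ^ (2 * p) ∂γ) with hD'
  set E := C ^ 2 * 2 ^ (2 * p) * (1 + D') with hE
  have hE0 : 0 ≤ E := by
    have h1 : 0 ≤ ∫ z : Fin m → ℂ, ‖z‖ ^ (2 * p) ∂γ := integral_nonneg fun z => by positivity
    have h2 : 0 ≤ D' := h1.trans (le_max_right _ _)
    positivity
  rw [Metric.tendsto_atTop]
  intro ε hε
  set A := 3 * E / ε + 1 with hA
  have hA0 : 0 < A := by positivity
  have hEA : E / A < ε / 3 := by
    rw [div_lt_iff₀ hA0, hA]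
    have : ε / 3 * (3 * E / ε + 1) = E + ε / 3 := by
      field_simp
    rw [this]
    linarith
  have hcA : Continuous fun z => max (-A) (min (f z) A) :=
    continuous_const.max (hf.min continuous_const)
  have hT := hbd (fun z => max (-A) (min (f z) A)) hcA ⟨A, fun z => by
    rw [abs_le]
    exact ⟨le_max_left _ _, max_le (by linarith) (min_le_right _ _)⟩⟩
  rw [Metric.tendsto_atTop] at hT
  obtain ⟨N, hN⟩ := hT (ε / 3) (by positivity)
  refine ⟨N, fun n hn => ?_⟩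
  haveI := hμ n
  haveI := hγ
  have h1 := T8_one (μ := μ n) hf hC (hi n (2 * p)) ((hD n).trans (le_max_left _ _) : _ ≤ D') hA0
  have h2 := T8_one (μ := γ) hf hC (hig (2 * p)) (le_max_right _ _ : _ ≤ D') hA0
  have h3 := hN n hn
  rw [Real.dist_eq] at h3 ⊢
  rw [abs_lt] at h3 ⊢
  rw [abs_le] at h1 h2
  constructor <;> linarith [h1.1, h1.2, h2.1, h2.2, h3.1, h3.2]

end Pool.Agent.Lib.MT
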